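import Pool.Agent.Lib.MP_97567f_al.Pad.SpecH

/-!
# MP_97567f_al: the expected solutions of the linear conditions
-/

set_option autoImplicit false
set_option linter.unusedSectionVars false
set_option linter.unusedSimpArgs false

namespace Pool.Agent.Lib.MP_97567f_al.Pad

namespace Htn

open TrivSqZeroExt

variable {Ω : Type} [Fintype Ω] [DecidableEq Ω] {R : Type} [CommRing R]

/-- the value part -/
def F (A : Matrix Ω Ω (DualNumber R)) : Matrix Ω Ω R := A.map fst

/-- the derivative part -/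
def S (A : Matrix Ω Ω (DualNumber R)) : Matrix Ω Ω R := A.map snd

theorem F_mul (A C : Matrix Ω Ω (DualNumber R)) : F (A * C) = F A * F C := by
  ext i j
  simp only [F, Matrix.map_apply, Matrix.mul_apply, fst_sum, fst_mul]

theorem S_mul (A C : Matrix Ω Ω (DualNumber R)) : S (A * C) = F A * S C + S A * F C := by
  ext i j
  simp only [F, S, Matrix.map_apply, Matrix.mul_apply, snd_sum, Matrix.add_apply]
  rw [← Finset.sum_add_distrib]
  refine Finset.sum_congr rfl fun x _ => ?_
  rw [DualNumber.snd_mul]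

theorem S_add (A C : Matrix Ω Ω (DualNumber R)) : S (A + C) = S A + S C := by
  ext i j
  simp [S]

/-- `ε ↦ 0` for the inner `ε` -/
def fm (R : Type) [CommRing R] : DualNumber (DualNumber R) →+* DualNumber R where
  toFun z := inl z.fst.fst + inr z.snd.fst
  map_one' := by ext <;> simp
  map_zero' := by ext <;> simp
  map_mul' x y := by
    ext
    · simp
    · simp [DualNumber.snd_mul]
  map_add' x y := by ext <;> simp

/-- the parameter `(1 + a ε) (1 + u δ)` -/
def pu (a u : R) : (DualNumber (DualNumber R))ˣ :=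
  Units.map (inlHom (DualNumber R) (DualNumber R)).toMonoidHom (eu a) * eu (inl u)

theorem pu_fst (a u : R) :
    Units.map (fstHom (DualNumber R) (DualNumber R) (DualNumber R)).toRingHom.toMonoidHom (pu a u) = eu a := by
  apply Units.ext
  ext <;> simp [pu, eu]

theorem pu_fm (a u : R) : Units.map (fm R).toMonoidHom (pu a u) = eu u := by
  apply Units.ext
  ext <;> simp [pu, eu, fm, DualNumber.snd_mul]

section rep

variable {P : ℕ} [Fact P.Prime] {B : Type} [Group B] {J I : Type} [Fintype J]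
  {Φ : NFam B Ω J} {g : I → B} {π : B →* Equiv.Perm Ω} {T : J → I → Matrix Ω Ω (ZMod P)}

/-- the representation over the dual numbers -/
def ro (Φ : NFam B Ω J) (a : J → ZMod P) : B →* Matrix Ω Ω (DualNumber (ZMod P)) :=
  Φ.rep (DualNumber (ZMod P)) (fun l => eu (a l))

theorem rep_one (hW : WPt P Φ g π T) (x : B) :
    Φ.rep (ZMod P) (1 : J → (ZMod P)ˣ) x = Pm (π x) := by
  have h := Φ.nat ℤ (ZMod P) (Int.castRingHom (ZMod P)) 1 x
  have h1 : (fun j => Units.map (Int.castRingHom (ZMod P)).toMonoidHom ((1 : J → ℤˣ) j)) = (1 : J → (ZMod P)ˣ) := by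
    funext j
    simp
  rw [h1, hW.one] at h
  rw [h]
  ext i j
  simp only [Pm, Matrix.map_apply, Matrix.of_apply]
  split_ifs <;> simp

theorem F_ro (hW : WPt P Φ g π T) (a : J → ZMod P) (x : B) : F (ro Φ a x) = Pm (π x) := by
  have h := Φ.nat (DualNumber (ZMod P)) (ZMod P)
    (fstHom (ZMod P) (ZMod P) (ZMod P)).toRingHom (fun l => eu (a l)) x
  have h1 : (fun j => Units.map (fstHom (ZMod P) (ZMod P) (ZMod P)).toRingHom.toMonoidHom (eu (a j))) =
      (1 : J → (ZMod P)ˣ) := by
    funext j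
    apply Units.ext
    simp [eu]
  rw [h1, rep_one hW] at h
  rw [h]
  rfl

theorem S_sq (hW : WPt P Φ g π T) (a : J → ZMod P) (s : I) :
    S (ro Φ a (g s * g s)) = ∑ l, a l • T l s := by
  ext i j
  simp only [S, Matrix.map_apply, ro]
  rw [hW.eps]
  simp

/-- the derivative -/
def Ta (T : J → I → Matrix Ω Ω (ZMod P)) (a : J → ZMod P) (s : I) : Matrix Ω Ω (ZMod P) :=
  ∑ l, a l • T l s

theorem Pm_cancel {σ : Equiv.Perm Ω} {X Y : Matrix Ω Ω R} (h : X * Pm σ = Y * Pm σ) : X = Y := by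
  have := congrArg (· * Pm σ⁻¹) h
  simpa only [Matrix.mul_assoc, ← Pm_mul, mul_inv_cancel, Pm_one, Matrix.mul_one] using this

theorem Ta_conj (hW : WPt P Φ g π T) (a : J → ZMod P) {s t : I} {b : B} (h : b * g s = g t * b) :
    Ta T a t = Adp (π b) (Ta T a s) := by
  have h2 : b * (g s * g s) = (g t * g t) * b := by
    rw [← mul_assoc, h, mul_assoc, h, mul_assoc]
  have h3 := congrArg (fun x => S (ro Φ a x)) h2
  simp only [map_mul (ro Φ a) b, map_mul (ro Φ a) (g t * g t) b] at h3
  rw [S_mul, S_mul, F_ro hW, F_ro hW, F_ro hW, S_sq hW, S_sq hW, hW.sq, hW.sq, Pm_one,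
    Matrix.mul_one, Matrix.one_mul] at h3
  have h4 : Pm (π b) * Ta T a s = Ta T a t * Pm (π b) := by
    have := h3
    rw [add_comm (S _)] at this
    exact add_right_cancel this
  rw [← Adp_mul_Pm] at h4
  exact (Pm_cancel h4).symm

theorem pi_zw (hW : WPt P Φ g π T) (w : List I) : π (zw g w) = 1 := by
  induction w with
  | nil => simp [zw]
  | cons s w ih =>
    have := hW.sq s
    rw [map_mul] at this
    simp only [zw, map_mul, ih, mul_one, this]

theorem S_zw (hW : WPt P Φ g π T) (a : J → ZMod P) (w : List I) :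
    S (ro Φ a (zw g w)) = XW π g (Ta T a) w := by
  induction w with
  | nil =>
    simp only [zw, XW, map_one]
    ext i j
    by_cases h : i = j <;> simp [S, Matrix.one_apply, h]
  | cons s w ih =>
    have hs := hW.sq s
    rw [map_mul] at hs
    have hi : (π (g s))⁻¹ = π (g s) := inv_eq_of_mul_eq_one_right hs
    have h2 : S (ro Φ a (g s * g s)) = Ta T a s := S_sq hW a s
    rw [map_mul, S_mul, F_ro hW] at h2
    simp only [zw, XW]
    rw [map_mul, map_mul, S_mul, F_mul, F_ro hW, F_ro hW, S_mul, F_ro hW, F_ro hW, ih, pi_zw hW, Pm_one,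
      Matrix.mul_one, Matrix.mul_one, ← h2, Adp_eq, hi, Matrix.add_mul]
    abel

theorem comm_eq (hW : WPt P Φ g π T) (a u : J → ZMod P) {x y : B} (hx : π x = 1) (hy : π y = 1)
    (h : x * y = y * x) :
    S (ro Φ a x) * S (ro Φ u y) + S (ro Φ u x) * S (ro Φ a y) =
      S (ro Φ a y) * S (ro Φ u x) + S (ro Φ u y) * S (ro Φ a x) := by
  let M : B →* Matrix Ω Ω (DualNumber (DualNumber (ZMod P))) :=
    Φ.rep (DualNumber (DualNumber (ZMod P))) (fun l => pu (a l) (u l))
  have h1 : ∀ z, F (M z) = ro Φ a z := by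
    intro z
    have := Φ.nat (DualNumber (DualNumber (ZMod P))) (DualNumber (ZMod P))
      (fstHom (DualNumber (ZMod P)) (DualNumber (ZMod P)) (DualNumber (ZMod P))).toRingHom
      (fun l => pu (a l) (u l)) z
    simp only [pu_fst] at this
    exact this.symm
  have h2 : ∀ z, (M z).map (fm (ZMod P)) = ro Φ u z := by
    intro z
    have := Φ.nat (DualNumber (DualNumber (ZMod P))) (DualNumber (ZMod P)) (fm (ZMod P))
      (fun l => pu (a l) (u l)) z
    simp only [pu_fm] at this
    exact this.symm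
  have h3 : ∀ z, F (S (M z)) = S (ro Φ u z) := by
    intro z
    rw [← h2 z]
    ext i j
    simp [F, S, fm]
  have h4 : ∀ z, π z = 1 → F (F (M z)) = 1 := by
    intro z hz
    rw [h1, F_ro hW, hz, Pm_one]
  have key : ∀ v w : B, π v = 1 → π w = 1 → S (S (M (v * w))) =
      S (S (M w)) + S (ro Φ a v) * S (ro Φ u w) + (S (ro Φ u v) * S (ro Φ a w) + S (S (M v))) := by
    intro v w hv hw
    rw [map_mul, S_mul, S_add, S_mul, S_mul, h4 v hv, h4 w hw, h3 v, h3 w, h1 v, h1 w,
      Matrix.one_mul, Matrix.mul_one]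
  have h5 := key x y hx hy
  rw [h, key y x hy hx] at h5
  have h6 : S (S (M x)) + S (ro Φ a y) * S (ro Φ u x) + (S (ro Φ u y) * S (ro Φ a x) + S (S (M y))) =
      (S (ro Φ a y) * S (ro Φ u x) + S (ro Φ u y) * S (ro Φ a x)) + (S (S (M x)) + S (S (M y))) := by
    abel
  have h7 : S (S (M y)) + S (ro Φ a x) * S (ro Φ u y) + (S (ro Φ u x) * S (ro Φ a y) + S (S (M x))) =
      (S (ro Φ a x) * S (ro Φ u y) + S (ro Φ u x) * S (ro Φ a y)) + (S (S (M x)) + S (S (M y))) := by
    abel
  rw [h6, h7] at h5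
  exact (add_right_cancel h5).symm

theorem XW_lin (u a : J → ZMod P) (c : I → ZMod P) (m : Matrix Ω Ω (ZMod P))
    (hm : ∀ b, Adp (π b) m = m) (w : List I) :
    ∃ κ : ZMod P, XW π g (fun s => Ta T a s + c s • (1 : Matrix Ω Ω (ZMod P)) +
      (m * Ta T u s - Ta T u s * m)) w =
      XW π g (Ta T a) w + κ • (1 : Matrix Ω Ω (ZMod P)) +
        (m * XW π g (Ta T u) w - XW π g (Ta T u) w * m) := by
  induction w with
  | nil => exact ⟨0, by simp [XW]⟩
  | cons s w ih =>
    obtain ⟨κ, ih⟩ := ih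
    refine ⟨c s + κ, ?_⟩
    have hA1 : ∀ σ : Equiv.Perm Ω, Adp σ (1 : Matrix Ω Ω (ZMod P)) = 1 := by
      intro σ
      rw [Adp_eq, Matrix.mul_one, ← Pm_mul, mul_inv_cancel, Pm_one]
    have hAm : ∀ X Y : Matrix Ω Ω (ZMod P), Adp (π (g s)) (X * Y) = Adp (π (g s)) X * Adp (π (g s)) Y := by
      intro X Y
      exact (Matrix.submatrix_mul_equiv X Y _ _ _).symm
    simp only [XW, ih, Adp_add, Adp_sub, Adp_smul, hA1, hAm, hm, Matrix.mul_add, Matrix.add_mul, add_smul]
    abel

theorem hol_eq (hP : P ≠ 2) (hW : WPt P Φ g π T) (u a : J → ZMod P) {w : List I} {s : I}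
    (h : zw g w * g s = g s * zw g w) :
    (XW π g (Ta T u) w * Ta T u s = Ta T u s * XW π g (Ta T u) w) ∧
    (XW π g (Ta T a) w * Ta T u s + XW π g (Ta T u) w * Ta T a s =
      Ta T a s * XW π g (Ta T u) w + Ta T u s * XW π g (Ta T a) w) := by
  have h2 : zw g w * (g s * g s) = (g s * g s) * zw g w := by
    rw [← mul_assoc, h, mul_assoc, h, mul_assoc]
  have key : ∀ a u : J → ZMod P, XW π g (Ta T a) w * Ta T u s + XW π g (Ta T u) w * Ta T a s =
      Ta T a s * XW π g (Ta T u) w + Ta T u s * XW π g (Ta T a) w := by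
    intro a u
    have := comm_eq hW a u (pi_zw hW w) (hW.sq s) h2
    rw [S_zw hW, S_zw hW, S_sq hW, S_sq hW] at this
    exact this
  refine ⟨?_, key a u⟩
  have h3 := key u u
  have h2' : (2 : ZMod P) ≠ 0 := by
    intro h0
    have : ((2 : ℕ) : ZMod P) = 0 := by exact_mod_cast h0
    rw [ZMod.natCast_eq_zero_iff] at this
    have hp : P.Prime := Fact.out
    exact hP ((Nat.prime_dvd_prime_iff_eq hp Nat.prime_two).1 this)
  rw [← two_smul (ZMod P), ← two_smul (ZMod P) (Ta T u s * _)] at h3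
  exact smul_right_injective _ h2' h3

end rep

end Htn

open Htn in
/-- **The expected solutions of the linear conditions.** -/
theorem pHtn : SHtn := by
  intro P _ hP B _ Ω _ _ J I _ _ Φ g π T hW u a c m hm hc
  change Tng π g (Ta T u) fun s => Ta T a s + c s • (1 : Matrix Ω Ω (ZMod P)) +
    (m * Ta T u s - Ta T u s * m)
  constructor
  · intro s t b h
    have hA1 : Adp (π b) (1 : Matrix Ω Ω (ZMod P)) = 1 := by
      rw [Adp_eq, Matrix.mul_one, ← Pm_mul, mul_inv_cancel, Pm_one]
    have hAm : ∀ X Y : Matrix Ω Ω (ZMod P), Adp (π b) (X * Y) = Adp (π b) X * Adp (π b) Y := by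
      intro X Y
      exact (Matrix.submatrix_mul_equiv X Y _ _ _).symm
    simp only [Adp_add, Adp_sub, Adp_smul, hA1, hAm, hm, Ta_conj hW a h, Ta_conj hW u h, hc s t b h]
  · intro w s h
    obtain ⟨h1, h2⟩ := hol_eq hP hW u a h
    obtain ⟨κ, hκ⟩ := XW_lin u a c m hm w
    rw [hκ]
    generalize XW π g (Ta T u) w = Z at *
    generalize XW π g (Ta T a) w = A at *
    generalize Ta T u s = τ at *
    generalize Ta T a s = t at *
    have e : Z * (t + c s • 1 + (m * τ - τ * m)) - (t + c s • 1 + (m * τ - τ * m)) * Z +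
        ((A + κ • 1 + (m * Z - Z * m)) * τ - τ * (A + κ • 1 + (m * Z - Z * m))) =
        ((A * τ + Z * t) - (t * Z + τ * A)) + (m * (Z * τ) - (Z * τ) * m - (m * (τ * Z) - (τ * Z) * m)) := by
      simp only [Matrix.mul_add, Matrix.add_mul, Matrix.mul_sub, Matrix.sub_mul, Matrix.mul_smul,
        Matrix.smul_mul, Matrix.mul_one, Matrix.one_mul, Matrix.mul_assoc]
      abel
    rw [e, h1, h2]
    simp

end Pool.Agent.Lib.MP_97567f_al.Pad
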