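import Pool.Agent.Lib.MP_97567f_al.Pad.Spec
import Pool.Agent.Lib.MP_97567f_al.Rt

/-!
# MP_97567f_al: roots which are units of a subring
-/

set_option autoImplicit false

namespace Pool.Agent.Lib.MP_97567f_al.Pad

open Polynomial

/-- A root in the image of the field of fractions is the image of a unit. -/
private theorem Rtu_unit {L F : Type} [CommRing L] [IsDomain L] [IsIntegrallyClosed L] [Field F]
    [Algebra (FractionRing L) F] (ψ : L →+* F) (hψ : Function.Injective ψ)
    (hal : ∀ r : L, algebraMap (FractionRing L) F (algebraMap L (FractionRing L) r) = ψ r)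
    (P : L[X]) (hm : P.Monic) (hP : IsUnit (P.coeff 0)) (w : F) (hw : (P.map ψ).eval w = 0)
    (hx : ∃ w', algebraMap (FractionRing L) F w' = w) : ∃ v : Lˣ, ψ v = w := by
  have hcomp : (algebraMap (FractionRing L) F).comp (algebraMap L (FractionRing L)) = ψ :=
    RingHom.ext hal
  obtain ⟨w', hw'⟩ := hx
  have h3 : IsIntegral L w' := by
    refine ⟨P, hm, ?_⟩
    apply (algebraMap (FractionRing L) F).injective
    rw [map_zero, Polynomial.hom_eval₂, hcomp, hw', ← Polynomial.eval_map, hw]
  obtain ⟨r, hr⟩ := (IsIntegrallyClosed.isIntegral_iff (R := L) (K := FractionRing L)).1 h3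
  have hrw : ψ r = w := by rw [← hal, hr, hw']
  have h4 : P.IsRoot r := by
    rw [IsRoot.def]
    apply hψ
    rw [map_zero, ← hw, ← hrw, Polynomial.eval_map, Polynomial.eval₂_at_apply]
  obtain ⟨Q, hQ⟩ := dvd_iff_isRoot.2 h4
  rw [hQ, mul_coeff_zero] at hP
  have h5 : IsUnit ((X - C r).coeff 0) := isUnit_of_mul_isUnit_left hP
  have h6 : (X - C r).coeff 0 = -r := by simp
  rw [h6, IsUnit.neg_iff] at h5
  obtain ⟨v, hv⟩ := h5
  exact ⟨v, by rw [hv, hrw]⟩

/-- **Roots which are units of a subring.** -/
theorem pRtu : SRtu := by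
  classical
  intro L F _ _ _ _ _ ψ hψ P k w m hmon hP hpos hfac
  let _ : Algebra (FractionRing L) F := (IsFractionRing.lift (A := L) (K := FractionRing L)
    (L := F) (g := ψ) hψ).toAlgebra
  have hal : ∀ r : L, algebraMap (FractionRing L) F (algebraMap L (FractionRing L) r) = ψ r :=
    fun r => IsFractionRing.lift_algebraMap (A := L) (K := FractionRing L) (L := F)
      (g := ψ) hψ r
  have hcomp : (algebraMap (FractionRing L) F).comp (algebraMap L (FractionRing L)) = ψ :=
    RingHom.ext hal
  have hchar : CharZero (FractionRing L) :=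
    IsFractionRing.charZero_of_isFractionRing L (K := FractionRing L)
  have hev : ∀ j, (P.map ψ).eval (w j) = 0 := by
    intro j
    rw [hfac, eval_prod]
    apply Finset.prod_eq_zero (Finset.mem_univ j)
    rw [eval_pow, eval_sub, eval_X, eval_C, sub_self, zero_pow (Nat.pos_iff_ne_zero.1 (hpos j))]
  refine ⟨fun hw j hj => ?_, fun j hj => ?_⟩
  · refine Rtu_unit ψ hψ hal P hmon hP (w j) (hev j) ?_
    set P' := P.map (algebraMap L (FractionRing L)) with hP'
    have hPm : P'.map (algebraMap (FractionRing L) F) = ∏ j, (X - C (w j)) ^ m j := by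
      rw [hP', Polynomial.map_map, hcomp, hfac]
    have hne : (∏ i, (X - C (w i)) ^ m i : F[X]) ≠ 0 :=
      Finset.prod_ne_zero_iff.2 fun i _ => pow_ne_zero _ (X_sub_C_ne_zero _)
    have hP0 : P' ≠ 0 := by
      intro h0
      rw [h0, Polynomial.map_zero] at hPm
      exact hne hPm.symm
    have hs : (P'.map (algebraMap (FractionRing L) F)).Splits := by
      rw [hPm]
      exact Splits.prod fun i _ => (Splits.X_sub_C (w i)).pow (m i)
    have hmu : ∀ v : F, (P'.map (algebraMap (FractionRing L) F)).rootMultiplicity v =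
        ∑ i, m i * (if v = w i then 1 else 0) := by
      intro v
      rw [← count_roots, hPm, roots_prod _ _ hne, Multiset.count_bind]
      change (Multiset.map _ (Finset.univ : Finset (Fin k)).val).sum =
        (Multiset.map _ (Finset.univ : Finset (Fin k)).val).sum
      congr 1
      apply Multiset.map_congr rfl
      intro i _
      rw [roots_pow, roots_X_sub_C, Multiset.count_nsmul, Multiset.count_singleton]
    have hmw : ∀ i, (P'.map (algebraMap (FractionRing L) F)).rootMultiplicity (w i) = m i := by
      intro i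
      rw [hmu, Finset.sum_eq_single i]
      · rw [if_pos rfl, mul_one]
      · intro b _ hb
        rw [if_neg fun h => hb (hw h).symm, mul_zero]
      · intro h
        exact absurd (Finset.mem_univ i) h
    have hroot : (P'.map (algebraMap (FractionRing L) F)).IsRoot (w j) := by
      refine (rootMultiplicity_pos (by rw [hPm]; exact hne)).1 ?_
      rw [hmw]
      exact hpos j
    refine rt_root P' hP0 hs (w j) hroot fun v hv => ?_
    rw [hmw] at hv
    by_contra hne'
    have hex : ∃ i, v = w i := by
      by_contra hcon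
      push Not at hcon
      rw [hmu, Finset.sum_eq_zero fun i _ => by rw [if_neg (hcon i), mul_zero]] at hv
      exact absurd hv (hpos j).ne
    obtain ⟨i, rfl⟩ := hex
    rw [hmw] at hv
    exact hj i (fun h => hne' (by rw [h])) hv
  · refine Rtu_unit ψ hψ hal P hmon hP (w j) (hev j) ?_
    have h1 : ψ P.nextCoeff = -∑ i, (m i : F) * w i := by
      rw [← nextCoeff_map hψ, hfac, Monic.nextCoeff_prod _ _ fun i _ => (monic_X_sub_C _).pow _,
        ← Finset.sum_neg_distrib]
      refine Finset.sum_congr rfl fun i _ => ?_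
      rw [(monic_X_sub_C _).nextCoeff_pow, nextCoeff_X_sub_C, nsmul_eq_mul, mul_neg]
    rw [← Finset.add_sum_erase _ _ (Finset.mem_univ j)] at h1
    have h2 : ∃ z : L, ψ z = ∑ i ∈ Finset.univ.erase j, (m i : F) * w i := by
      have h3 : ∀ i ∈ Finset.univ.erase j, ∃ z : L, ψ z = (m i : F) * w i := by
        intro i hi
        obtain ⟨v, hv⟩ := hj i (Finset.ne_of_mem_erase hi)
        exact ⟨(m i : L) * v, by rw [map_mul, map_natCast, hv]⟩
      choose! z hz using h3
      exact ⟨∑ i ∈ Finset.univ.erase j, z i, by rw [map_sum]; exact Finset.sum_congr rfl hz⟩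
    obtain ⟨z, hz⟩ := h2
    have hmj : (m j : FractionRing L) ≠ 0 := by exact_mod_cast (hpos j).ne'
    have hmj' : (m j : F) ≠ 0 := by
      have h4 := (map_ne_zero_iff (algebraMap (FractionRing L) F)
        (algebraMap (FractionRing L) F).injective).2 hmj
      rwa [map_natCast] at h4
    refine ⟨algebraMap L (FractionRing L) (-P.nextCoeff - z) / (m j : FractionRing L), ?_⟩
    rw [map_div₀, hal, map_natCast, map_sub, map_neg, h1, hz]
    field_simp
    ring

end Pool.Agent.Lib.MP_97567f_al.Pad
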