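import Pool.Agent.Lib.MP_97567f_al.U.Base

/-!
# MP_97567f_al: rigidity by deformation over the p-adic integers: definitions

`Pm σ`: the permutation matrix. `Adp σ`: conjugation with it. `NFam B Ω J`: a natural family of representations of `B` with
`J`-indexed unit parameters. `Cg p n X Y`: `X` and `Y` are congruent modulo `p ^ n`. `Near p u θ`: `θ = 1 + p u` modulo
`p ^ 2`. `Rdc π ρ`: modulo `p` the representation `ρ` is the permutation representation of `π`. `Dif p n π ρ1 ρ2 D`: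
`ρ1 x = ρ2 x + p ^ n E` with `E = D x * Pm (π x)` modulo `p`. `Coc π D`: `D` is a cocycle. `zw g u`: the element
`s1 .. sm sm .. s1` for the word `u = s1 .. sm`. `XW π g X u`: the value at `zw g u` of a cocycle with values `X s` at
`g s * g s`. `Tng π g τ X`: the linear conditions for `X`. `WPt`: the family near `θ = 1`.
-/

set_option autoImplicit false

namespace Pool.Agent.Lib.MP_97567f_al.Pad

/-- The permutation matrix of `σ`: the basis vector of `j` is mapped to the one of `σ j`. -/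
def Pm {Ω : Type} [DecidableEq Ω] {R : Type} [CommRing R] (σ : Equiv.Perm Ω) : Matrix Ω Ω R :=
  Matrix.of fun i j => if i = σ j then 1 else 0

/-- Conjugation with the permutation matrix of `σ`. -/
def Adp {Ω : Type} {R : Type} (σ : Equiv.Perm Ω) (X : Matrix Ω Ω R) : Matrix Ω Ω R :=
  X.submatrix σ.symm σ.symm

section basic

variable {Ω : Type} [Fintype Ω] [DecidableEq Ω] {R : Type} [CommRing R]

omit [Fintype Ω] in
theorem Pm_one : (Pm 1 : Matrix Ω Ω R) = 1 := by
  ext i j
  simp [Pm, Matrix.one_apply]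

theorem Pm_mul (σ τ : Equiv.Perm Ω) : (Pm (σ * τ) : Matrix Ω Ω R) = Pm σ * Pm τ := by
  ext i j
  simp [Pm, Matrix.mul_apply]

/-- `Pm σ * X` in coordinates. -/
theorem Pm_mul_apply (σ : Equiv.Perm Ω) (X : Matrix Ω Ω R) (i j : Ω) :
    (Pm σ * X : Matrix Ω Ω R) i j = X (σ.symm i) j := by
  rw [Matrix.mul_apply, Finset.sum_eq_single (σ.symm i)]
  · simp [Pm]
  · intro b _ hb
    have : i ≠ σ b := fun h => hb (by rw [h, Equiv.symm_apply_apply])
    simp [Pm, this]
  · simp

/-- `X * Pm σ` in coordinates. -/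
theorem mul_Pm_apply (σ : Equiv.Perm Ω) (X : Matrix Ω Ω R) (i j : Ω) :
    (X * Pm σ : Matrix Ω Ω R) i j = X i (σ j) := by
  rw [Matrix.mul_apply, Finset.sum_eq_single (σ j)]
  · simp [Pm]
  · intro b _ hb
    simp [Pm, hb]
  · simp

theorem Adp_mul_Pm (σ : Equiv.Perm Ω) (X : Matrix Ω Ω R) : Adp σ X * Pm σ = Pm σ * X := by
  ext i j
  rw [Pm_mul_apply, mul_Pm_apply]
  simp [Adp]

theorem Adp_eq (σ : Equiv.Perm Ω) (X : Matrix Ω Ω R) : Adp σ X = Pm σ * X * Pm σ⁻¹ := by
  rw [← Adp_mul_Pm, Matrix.mul_assoc, ← Pm_mul, mul_inv_cancel, Pm_one, Matrix.mul_one]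

end basic

section basic2

variable {Ω : Type} {R : Type}

theorem Adp_one (X : Matrix Ω Ω R) : Adp 1 X = X := rfl

theorem Adp_comp (σ τ : Equiv.Perm Ω) (X : Matrix Ω Ω R) : Adp σ (Adp τ X) = Adp (σ * τ) X := rfl

theorem Adp_add [Add R] (σ : Equiv.Perm Ω) (X Y : Matrix Ω Ω R) :
    Adp σ (X + Y) = Adp σ X + Adp σ Y := rfl

theorem Adp_sub [Sub R] (σ : Equiv.Perm Ω) (X Y : Matrix Ω Ω R) :
    Adp σ (X - Y) = Adp σ X - Adp σ Y := rfl

theorem Adp_smul [Mul R] (σ : Equiv.Perm Ω) (c : R) (X : Matrix Ω Ω R) :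
    Adp σ (c • X) = c • Adp σ X := rfl

theorem Adp_zero [Zero R] (σ : Equiv.Perm Ω) : Adp σ (0 : Matrix Ω Ω R) = 0 := rfl

theorem Adp_map {R' : Type} (f : R → R') (σ : Equiv.Perm Ω) (X : Matrix Ω Ω R) :
    Adp σ (X.map f) = (Adp σ X).map f := rfl

end basic2

/-- The permutation representation. -/
def Pmh {B Ω : Type} [Group B] [Fintype Ω] [DecidableEq Ω] (R : Type) [CommRing R]
    (π : B →* Equiv.Perm Ω) : B →* Matrix Ω Ω R where
  toFun x := Pm (π x)
  map_one' := by rw [map_one, Pm_one]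
  map_mul' x y := by rw [map_mul, Pm_mul]

/-- The unit `1 + a ε` of the dual numbers. -/
def eu {k : Type} [CommRing k] (a : k) : (DualNumber k)ˣ where
  val := TrivSqZeroExt.inl 1 + TrivSqZeroExt.inr a
  inv := TrivSqZeroExt.inl 1 + TrivSqZeroExt.inr (-a)
  val_inv := by
    ext <;> simp
  inv_val := by
    ext <;> simp

/-- A natural family of representations of `B` with unit parameters. -/
structure NFam (B : Type) [Group B] (Ω : Type) [Fintype Ω] [DecidableEq Ω] (J : Type) where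
  /-- the representation with the parameters `θ` -/
  rep : ∀ (R : Type) [CommRing R], (J → Rˣ) → B →* Matrix Ω Ω R
  nat : ∀ (R R' : Type) [CommRing R] [CommRing R'] (f : R →+* R') (θ : J → Rˣ) (x : B),
    rep R' (fun j => Units.map f.toMonoidHom (θ j)) x = (rep R θ x).map f

section padic

variable (p : ℕ) [Fact p.Prime] {B : Type} [Group B] {Ω : Type} [Fintype Ω] [DecidableEq Ω]
  {J S : Type}

/-- Congruence of matrices modulo `p ^ n`. -/
def Cg (n : ℕ) (X Y : Matrix Ω Ω ℤ_[p]) : Prop := ∀ i j, (p : ℤ_[p]) ^ n ∣ X i j - Y i j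

/-- The parameters `θ` are `1 + p u` modulo `p ^ 2`. -/
def Near (u : J → ZMod p) (θ : J → ℤ_[p]ˣ) : Prop :=
  ∀ j, ∃ y : ℤ_[p], (θ j : ℤ_[p]) = 1 + (p : ℤ_[p]) * y ∧ PadicInt.toZMod y = u j

variable {p}

/-- Modulo `p` the representation is the permutation representation. -/
def Rdc (π : B →* Equiv.Perm Ω) (ρ : B →* Matrix Ω Ω ℤ_[p]) : Prop :=
  ∀ x, (ρ x).map PadicInt.toZMod = Pm (π x)

/-- `D` is a cocycle. -/
def Coc (π : B →* Equiv.Perm Ω) (D : B → Matrix Ω Ω (ZMod p)) : Prop :=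
  ∀ x y, D (x * y) = D x + Adp (π x) (D y)

/-- `D` is the difference of `ρ1` and `ρ2` at `p ^ n`. -/
def Dif (n : ℕ) (π : B →* Equiv.Perm Ω) (ρ1 ρ2 : B →* Matrix Ω Ω ℤ_[p])
    (D : B → Matrix Ω Ω (ZMod p)) : Prop :=
  ∀ x, ∃ E : Matrix Ω Ω ℤ_[p], ρ1 x = ρ2 x + ((p : ℤ_[p]) ^ n) • E ∧
    E.map PadicInt.toZMod = D x * Pm (π x)

/-- The element `s1 .. sm sm .. s1`. -/
def zw (g : S → B) : List S → B
  | [] => 1
  | s :: u => g s * zw g u * g s

/-- The value at `zw g u` of a cocycle with the values `X s` at `g s * g s`. -/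
def XW (π : B →* Equiv.Perm Ω) (g : S → B) (X : S → Matrix Ω Ω (ZMod p)) :
    List S → Matrix Ω Ω (ZMod p)
  | [] => 0
  | s :: u => X s + Adp (π (g s)) (XW π g X u)

/-- The linear conditions for the values `X s` at `g s * g s` of a difference; `τ s` are the values of the first order
part of the representation. -/
structure Tng (π : B →* Equiv.Perm Ω) (g : S → B) (τ X : S → Matrix Ω Ω (ZMod p)) : Prop where
  conj : ∀ (s t : S) (b : B), b * g s = g t * b → X t = Adp (π b) (X s)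
  hol : ∀ (u : List S) (s : S), zw g u * g s = g s * zw g u →
    XW π g τ u * X s - X s * XW π g τ u + (XW π g X u * τ s - τ s * XW π g X u) = 0

variable (p)

/-- The family near `θ = 1`: the permutation representation of `π`, with the derivatives `T j s` of the matrices of
`g s * g s`; the squares of the generators have a normal closure of finite index prime to `p`. -/
structure WPt [Fintype J] (Φ : NFam B Ω J) (g : S → B) (π : B →* Equiv.Perm Ω)
    (T : J → S → Matrix Ω Ω (ZMod p)) : Prop where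
  sq : ∀ s, π (g s * g s) = 1
  fi : (Subgroup.normalClosure (Set.range fun s => g s * g s)).FiniteIndex
  cop : ¬ p ∣ (Subgroup.normalClosure (Set.range fun s => g s * g s)).index
  one : ∀ x, Φ.rep ℤ 1 x = Pm (π x)
  eps : ∀ (a : J → ZMod p) (s : S) (i j : Ω),
    Φ.rep (DualNumber (ZMod p)) (fun l => eu (a l)) (g s * g s) i j =
      TrivSqZeroExt.inl ((1 : Matrix Ω Ω (ZMod p)) i j) +
        TrivSqZeroExt.inr ((∑ l, a l • T l s) i j)

/-- The certificate: every solution of the linear conditions is a derivative of the family plus an infinitesimal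
conjugation. -/
def Cert [Fintype J] (g : S → B) (π : B →* Equiv.Perm Ω) (T : J → S → Matrix Ω Ω (ZMod p))
    (u : J → ZMod p) : Prop :=
  ∀ X : S → Matrix Ω Ω (ZMod p), Tng π g (fun s => ∑ l, u l • T l s) X →
    ∃ (a : J → ZMod p) (m : Matrix Ω Ω (ZMod p)), (∀ b, Adp (π b) m = m) ∧
      ∀ s, X s = (∑ l, a l • T l s) + (m * (∑ l, u l • T l s) - (∑ l, u l • T l s) * m)

/-- The certificate with one scalar parameter for each of the classes `cl s` of generators. -/
def CertC [Fintype J] {Cl : Type} (cl : S → Cl) (g : S → B) (π : B →* Equiv.Perm Ω)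
    (T : J → S → Matrix Ω Ω (ZMod p)) (u : J → ZMod p) : Prop :=
  ∀ X : S → Matrix Ω Ω (ZMod p), Tng π g (fun s => ∑ l, u l • T l s) X →
    ∃ (a : J → ZMod p) (c : Cl → ZMod p) (m : Matrix Ω Ω (ZMod p)), (∀ b, Adp (π b) m = m) ∧
      ∀ s, X s = (∑ l, a l • T l s) + c (cl s) • (1 : Matrix Ω Ω (ZMod p)) +
        (m * (∑ l, u l • T l s) - (∑ l, u l • T l s) * m)

/-- **Theorem R**: every representation which is congruent modulo `p ^ 2` to a member of the family near `1 + p u` is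
conjugate to a twist of a member of the family. -/
def ThmR (Φ : NFam B Ω J) (u : J → ZMod p) : Prop :=
  ∀ θ0 : J → ℤ_[p]ˣ, Near p u θ0 → ∀ ρ' : B →* Matrix Ω Ω ℤ_[p],
    (∀ x, Cg p 2 (ρ' x) (Φ.rep ℤ_[p] θ0 x)) →
    ∃ (θ : J → ℤ_[p]ˣ) (η : B →* ℤ_[p]ˣ) (h : GL Ω ℤ_[p]), Near p u θ ∧
      ∀ x, ρ' x * h.1 = (η x : ℤ_[p]) • (h.1 * Φ.rep ℤ_[p] θ x)

end padic

end Pool.Agent.Lib.MP_97567f_al.Pad
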