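import Pool.Agent.Lib.MP_97567f_al.Pad.Base

/-!
# MP_97567f_al: rigidity by deformation over the p-adic integers: statements of the modules

Every statement is a proposition `SName`; the module `Pad/Name.lean` proves `pName : SName`, or, if the docstring names
other statements, `pName` takes these as hypotheses (in the order in which they are named). `X̄` denotes the reduction modulo
`p` of a matrix (`PadicInt.toZMod` applied to the entries), `P x = Pm (π x)`.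
-/

set_option autoImplicit false

namespace Pool.Agent.Lib.MP_97567f_al.Pad

open Polynomial U

section thmR

/-- **Differences** (120 lines).
Proof. (1) Choose the `E` entrywise for every `x`, and `D x = Ē * Pm (π x)⁻¹` (`Pm_mul`). (2) Let `E x`, `E y`, `E (x y)` be as in `Dif`. `ρ1 (x y) = ρ1 x * ρ1 y` and the same for `ρ2`: `p ^ n • E (x y) = p ^ n • (E x * ρ2 y + ρ2 x * E y + p ^ n • (E x * E y))`; cancel `p ^ n` (entrywise, `ℤ_[p]` is a domain) and reduce modulo `p` (`n ≥ 1`, `ker_toZMod` or `map_natCast`, `p ↦ 0`):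
`D (x y) P (x y) = D x P x P y + P x D y P y = (D x + Adp (π x) (D y)) P x P y` (`Adp_mul_Pm`), and `P (x y) = P x P y` is invertible. (3) `ρ1 x - ρ3 x = p ^ n • (E x - E' x)`. (4) `E` is unique, so `D x * P x` is, and `P x` is invertible. (5) Matrices of `0`, `1`. -/
def SDif : Prop :=
  ∀ (p : ℕ) [Fact p.Prime] (B : Type) [Group B] (Ω : Type) [Fintype Ω] [DecidableEq Ω]
    (π : B →* Equiv.Perm Ω) (ρ1 ρ2 : B →* Matrix Ω Ω ℤ_[p]) (n : ℕ), 1 ≤ n →
    ((∀ x, Cg p n (ρ1 x) (ρ2 x)) → ∃ D, Dif n π ρ1 ρ2 D) ∧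
    (Rdc π ρ2 → ∀ D, Dif n π ρ1 ρ2 D → Coc π D) ∧
    (∀ (ρ3 : B →* Matrix Ω Ω ℤ_[p]) (D D' : B → Matrix Ω Ω (ZMod p)), Dif n π ρ1 ρ2 D →
      Dif n π ρ3 ρ2 D' → Dif n π ρ1 ρ3 fun x => D x - D' x) ∧
    (∀ D D' : B → Matrix Ω Ω (ZMod p), Dif n π ρ1 ρ2 D → Dif n π ρ1 ρ2 D' → D = D') ∧
    Rdc π (Pmh ℤ_[p] π)

/-- **Commuting elements** (100 lines).
Proof. `ρ1 z = ρ2 z + p ^ n E`, `ρ1 x = ρ2 x + p ^ n E'`, `Ē = D z`, `Ē' = D x` (as `Pm 1 = 1`); `ρ2 z = 1 + p F`, `ρ2 x = 1 + p F'`, `F̄ = T z`, `F̄' = T x`. With `[a, b] = a b - b a`: `0 = [ρ1 z, ρ1 x] = [ρ2 z, ρ2 x] + p ^ n ([ρ2 z, E'] + [E, ρ2 x]) + p ^ (2 n) [E, E']`, `[ρ2 z, ρ2 x] = 0`, `[ρ2 z, E'] = p [F, E']`, `[E, ρ2 x] = p [E, F']`. Cancel `p ^ (n + 1)`: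
`[F, E'] + [E, F'] + p ^ (n - 1) [E, E'] = 0`, and reduce modulo `p` (`n ≥ 2`). -/
def SHol : Prop :=
  ∀ (p : ℕ) [Fact p.Prime] (B : Type) [Group B] (Ω : Type) [Fintype Ω] [DecidableEq Ω]
    (π : B →* Equiv.Perm Ω) (ρ1 ρ2 : B →* Matrix Ω Ω ℤ_[p]) (n : ℕ), 2 ≤ n →
    ∀ D T : B → Matrix Ω Ω (ZMod p), Dif n π ρ1 ρ2 D → Dif 1 π ρ2 (Pmh ℤ_[p] π) T →
    ∀ z x : B, z * x = x * z → π z = 1 → π x = 1 →
      T z * D x - D x * T z + (D z * T x - T x * D z) = 0

/-- **The linear conditions** (from `SDif`, `SHol`, 100 lines).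
Proof. `D` and `T` are cocycles (`SDif` (2); for `T`: `ρ1 = ρ2`, `ρ2 = Pmh`, `n = 1`). For a cocycle `D`: `D 1 = 0`. `X s = D (g s * g s)`. `conj`: `b (g s)² = (g t)² b`, so `D b + Adp (π b) (X s) = X t + D b` (`π ((g t)²) = 1`). `D (zw g u) = XW π g X u` and `π (zw g u) = 1` by induction on `u`: for `z = zw g u`:
`D (g s * z * g s) = D (g s) + Adp (π (g s)) (D z + D (g s))` (`π z = 1`) and `D (g s * g s) = D (g s) + Adp (π (g s)) (D (g s))`; the same for `T`. `hol`: `zw g u` commutes with `g s * g s`; `SHol` for `z = zw g u`, `x = g s * g s`. -/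
def STng : Prop :=
  ∀ (p : ℕ) [Fact p.Prime] (B : Type) [Group B] (Ω : Type) [Fintype Ω] [DecidableEq Ω]
    (π : B →* Equiv.Perm Ω) (ρ1 ρ2 : B →* Matrix Ω Ω ℤ_[p]) (n : ℕ), 2 ≤ n → Rdc π ρ2 →
    ∀ D T : B → Matrix Ω Ω (ZMod p), Dif n π ρ1 ρ2 D → Dif 1 π ρ2 (Pmh ℤ_[p] π) T →
    ∀ (S : Type) (g : S → B), (∀ s, π (g s * g s) = 1) →
      Tng π g (fun s => T (g s * g s)) fun s => D (g s * g s)

/-- **Cocycles which vanish on the squares of the generators** (120 lines).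
Proof. `N` the normal closure. `{y | π y = 1 ∧ D y = 0}` is a normal subgroup: `D 1 = 0`; `D (y z) = D y + Adp 1 (D z)`; `D (x y x⁻¹) = D x + Adp (π x) (D y) + Adp (π x * π y) (D x⁻¹)` and `0 = D (x x⁻¹) = D x + Adp (π x) (D x⁻¹)`. So `π y = 1`, `D y = 0` for `y ∈ N` (`Subgroup.normalClosure_le_normal`). For `q : B ⧸ N` let `f q = D q.out`; `D x = f (x : B ⧸ N)`
for all `x` (`x = x.out * y`, `y ∈ N`). Let `m = (N.index)⁻¹ • ∑ q, f q` (`N.index = Nat.card (B ⧸ N)`, not zero in `ZMod p`). `∑ q, D (x * q.out) = ∑ q, (D x + Adp (π x) (f q)) = index • D x + Adp (π x) (∑ q, f q)`, and it is `∑ q, f (x • q) = ∑ q, f q` (the left multiplication with `x` is a bijection of `B ⧸ N`). -/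
def SCob : Prop :=
  ∀ (p : ℕ) [Fact p.Prime] (B : Type) [Group B] (Ω : Type) [Fintype Ω] [DecidableEq Ω]
    (π : B →* Equiv.Perm Ω) (S : Type) (g : S → B), (∀ s, π (g s * g s) = 1) →
    (Subgroup.normalClosure (Set.range fun s => g s * g s)).FiniteIndex →
    ¬ p ∣ (Subgroup.normalClosure (Set.range fun s => g s * g s)).index →
    ∀ D : B → Matrix Ω Ω (ZMod p), Coc π D → (∀ s, D (g s * g s) = 0) →
      ∃ m : Matrix Ω Ω (ZMod p), ∀ x, D x = m - Adp (π x) m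

/-- **The family near the point `θ = 1`** (150 lines).
Proof. (1) The parameters `θ j` and `θ' j` have the same image in `ZMod (p ^ m)` (`PadicInt.toZModPow m`, `ker_toZModPow`), so the images of the two matrices are equal (`Φ.nat`, the two families of units are equal by `Units.ext`), and the kernel of `toZModPow m` is the ideal of `p ^ m`. (2) The images of the `θ j` in `ZMod p` are `1` (`PadicInt.toZMod`), so `Φ.nat` and `WPt.one`
(with `Φ.nat` for `ℤ → ZMod p`: `Int.castRingHom`, `Units.map` of `1` is `1`): the reduction of `Φ.rep ℤ_[p] θ x` is `Pm (π x)`. (3) `Φ.nat` for `ℤ → ℤ_[p]`, `MonoidHom.ext`. (4) Let `O = ℤ_[p]`, `𝒟 = DualNumber O`, `θε j = θ j + ε c j` a unit of `𝒟` (inverse `θ⁻¹ - ε θ⁻² c`), `M = Φ.rep 𝒟 θε x = M0 + ε M1` entrywise. The ring homomorphism `𝒟 → O`, `ε ↦ 0` (`TrivSqZeroExt.fstHom`) gives `M0 = Φ.rep O θ x`.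
The map `𝒟 → ZMod (p ^ (n + 1))`, `a + b ε ↦ toZModPow (a + p ^ n b)`, is a ring homomorphism, since `p ^ (2 n)` is `0` in `ZMod (p ^ (n + 1))` (`n ≥ 1`); it maps `θε j` to the image of `θ' j`. So `Φ.rep O θ' x - Φ.rep O θ x - p ^ n • M1` is divisible by `p ^ (n + 1)` entrywise: `Φ.rep O θ' x = Φ.rep O θ x + p ^ n • E` with `Ē = M̄1`; `D x = M̄1 * Pm (π x)⁻¹`.
The ring homomorphism `𝒟 → DualNumber (ZMod p)` (`toZMod` on both components) maps `θε j` to `1 + ε c̄ j = eu (c̄ j)` (`θ j = 1` modulo `p`), so for `x = g s * g s` (`π x = 1`) `WPt.eps` gives `M̄1 = ∑ c̄ j • T j s`. -/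
def SFam : Prop :=
  ∀ (p : ℕ) [Fact p.Prime] (B : Type) [Group B] (Ω : Type) [Fintype Ω] [DecidableEq Ω] (J : Type)
    [Fintype J] (S : Type) (Φ : NFam B Ω J) (g : S → B) (π : B →* Equiv.Perm Ω)
    (T : J → S → Matrix Ω Ω (ZMod p)),
    (∀ (θ θ' : J → ℤ_[p]ˣ) (m : ℕ), (∀ j, (p : ℤ_[p]) ^ m ∣ (θ j : ℤ_[p]) - θ' j) →
      ∀ x, Cg p m (Φ.rep ℤ_[p] θ x) (Φ.rep ℤ_[p] θ' x)) ∧
    (WPt p Φ g π T →
      (∀ θ : J → ℤ_[p]ˣ, (∀ j, (p : ℤ_[p]) ∣ (θ j : ℤ_[p]) - 1) → Rdc π (Φ.rep ℤ_[p] θ)) ∧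
      Φ.rep ℤ_[p] 1 = Pmh ℤ_[p] π ∧
      ∀ (θ θ' : J → ℤ_[p]ˣ) (n : ℕ) (c : J → ℤ_[p]), 1 ≤ n →
        (∀ j, (p : ℤ_[p]) ∣ (θ j : ℤ_[p]) - 1) →
        (∀ j, (θ' j : ℤ_[p]) = θ j + (p : ℤ_[p]) ^ n * c j) →
        ∃ D, Dif n π (Φ.rep ℤ_[p] θ') (Φ.rep ℤ_[p] θ) D ∧
          ∀ s, D (g s * g s) = ∑ j, PadicInt.toZMod (c j) • T j s)

/-- **The step** (from `SDif`, `STng`, `SCob`, `SFam`, 200 lines).
Proof. Write `Φ θ` for `Φ.rep ℤ_[p] θ`, `τ s = ∑ j, u j • T j s`. `Near p u θ` implies `θ j = 1` modulo `p`. (a) By `SFam` (4) for `θ := 1`, `θ' := θ`, `n := 1`, `c := y` (`Near`) and (3) there is `T'` with `Dif 1 π (Φ θ) (Pmh ℤ_[p] π) T'` and `T' (g s * g s) = τ s`. (b) `D` with `Dif n π ρ' (Φ θ) D` (`SDif` (1)), `X s = D (g s * g s)`; `STng` and `Cert` give `a`, `m` with `Adp (π b) m = m`,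
`X s = ∑ a j • T j s + (m * τ s - τ s * m)`. (c) Let `c j ∈ ℤ_[p]` be a lift of `a j`, `θ' j = θ j + p ^ n c j` (a unit, `1` modulo `p`; `IsLocalRing`, `PadicInt.isUnit_iff`). `Near p u θ'` (`n ≥ 2`). `SFam` (4): `D1` with `Dif n π (Φ θ') (Φ θ) D1`, `D1 (g s * g s) = ∑ a j • T j s`. So `Dif n π ρ' (Φ θ') (D - D1)` (`SDif` (3)). Let `T''` be as in (a) for `θ'`:
`Dif 1 π (Φ θ') (Pmh ℤ_[p] π) T''`, `T'' (g s * g s) = τ s`. (d) Let `M` be a lift of `m` with `M * Pm (π b) = Pm (π b) * M` for all `b`: apply a map of sets `ZMod p → ℤ_[p]` (a section of `toZMod`, for example `ZMod.val`) to the entries of `m` (`Adp_map`, `Adp_mul_Pm`). `k = 1 + p ^ (n - 1) M` is invertible (its determinant is `1` modulo `p`). With `Φ θ' x = P x + p F x`, `F̄ x = T'' x * P x`: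
`k * Φ θ' x = Φ θ' x * k + p ^ n (M F x - F x M)`. So the representation `ρ1 x = k * Φ θ' x * k⁻¹` satisfies `ρ1 x = Φ θ' x + p ^ n (M F x - F x M) k⁻¹` and `Dif n π ρ1 (Φ θ') D2` with `D2 x = m * T'' x - T'' x * m` (reduction: `m T'' P - T'' P m = (m T'' - T'' m) P`, as `P m = m P`). (e) `D3 = D - D1 - D2`: `Dif n π ρ' ρ1 D3`, and `D3 (g s * g s) = X s - ∑ a j • T j s - (m * τ s - τ s * m) = 0`. `D3` is
a cocycle (`SDif` (2); `ρ1` is congruent to `Φ θ'` modulo `p`, so `Rdc π ρ1`). `SCob`: `D3 x = m' - Adp (π x) m'`. (f) Let `M'` be any lift of `m'`, `h = (1 + p ^ n M') * k`. `ρ' x * (1 + p ^ n M') - (1 + p ^ n M') * ρ1 x = p ^ n (E x + ρ' x M' - M' ρ1 x)`, where `Ē x = D3 x * P x`, and modulo `p` the bracket is `(D3 x + Adp (π x) m' - m') * P x = 0`. So `ρ' x * (1 + p ^ n M')` and `(1 + p ^ n M') * ρ1 x` are congruent modulo `p ^ (n + 1)`;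
multiply by `k` on the right: `ρ1 x * k = k * Φ θ' x`. Finally `h = 1` modulo `p ^ (n - 1)`. -/
def SStp : Prop :=
  ∀ (p : ℕ) [Fact p.Prime] (B : Type) [Group B] (Ω : Type) [Fintype Ω] [DecidableEq Ω] (J : Type)
    [Fintype J] (S : Type) (Φ : NFam B Ω J) (g : S → B) (π : B →* Equiv.Perm Ω)
    (T : J → S → Matrix Ω Ω (ZMod p)) (u : J → ZMod p), WPt p Φ g π T → Cert p g π T u →
    ∀ n : ℕ, 2 ≤ n → ∀ θ : J → ℤ_[p]ˣ, Near p u θ → ∀ ρ' : B →* Matrix Ω Ω ℤ_[p],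
      (∀ x, Cg p n (ρ' x) (Φ.rep ℤ_[p] θ x)) →
      ∃ (θ' : J → ℤ_[p]ˣ) (h : Matrix Ω Ω ℤ_[p]),
        (∀ j, (p : ℤ_[p]) ^ n ∣ (θ' j : ℤ_[p]) - θ j) ∧ Cg p (n - 1) h 1 ∧
        ∀ x, Cg p (n + 1) (ρ' x * h) (h * Φ.rep ℤ_[p] θ' x)

/-- **The limit** (from `SFam`, `SStp`, 200 lines).
Proof. For `n ≥ 2` there are `θ n`, `h n` with `θ 2 = θ0`, `h 2 = 1`, `θ (n + 1) j = θ n j` modulo `p ^ n`, `h (n + 1) = h n` modulo `p ^ (n - 1)`, `h n = 1` modulo `p` and `ρ' x * h n = h n * Φ (θ n) x` modulo `p ^ n` for all `x`: given `θ n`, `h n`, the matrix `h n` is invertible over `ℤ_[p]` (determinant `1` modulo `p`), `ρ'' x = (h n)⁻¹ * ρ' x * h n` is congruent to `Φ (θ n) x` modulo `p ^ n`, and `Near p u (θ n)`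
(`θ n = θ0` modulo `p ^ 2`), so `SStp` gives `θ (n + 1)` and `k`; `h (n + 1) = h n * k`. (Recursion on `n` with a subtype or `exists_seq`-like choice, for all `n`, `n + 2` instead of `n`.) The entries converge (Cauchy sequences in the complete space `ℤ_[p]`; or compactness of `ℤ_[p]` and a subsequence) to `θ`, `h`, with `θ j = θ n j` modulo `p ^ n`, `h = h n` modulo `p ^ (n - 1)` (`‖x‖ ≤ p ^ (-n)` is closed,
`PadicInt.norm_le_pow_iff_mem_span_pow`). `θ j` is `1` modulo `p`, so a unit, and `Near p u θ`. By `SFam` (1) `Φ θ x = Φ (θ n) x` modulo `p ^ n`, so `ρ' x * h - h * Φ θ x` is divisible by `p ^ (n - 1)` for all `n`, so it is `0`. `h` is invertible (determinant `1` modulo `p`). -/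
def SLim : Prop :=
  ∀ (p : ℕ) [Fact p.Prime] (B : Type) [Group B] (Ω : Type) [Fintype Ω] [DecidableEq Ω] (J : Type)
    [Fintype J] (S : Type) (Φ : NFam B Ω J) (g : S → B) (π : B →* Equiv.Perm Ω)
    (T : J → S → Matrix Ω Ω (ZMod p)) (u : J → ZMod p), WPt p Φ g π T → Cert p g π T u →
    ∀ θ0 : J → ℤ_[p]ˣ, Near p u θ0 → ∀ ρ' : B →* Matrix Ω Ω ℤ_[p],
      (∀ x, Cg p 2 (ρ' x) (Φ.rep ℤ_[p] θ0 x)) →
      ∃ (θ : J → ℤ_[p]ˣ) (h : GL Ω ℤ_[p]), Near p u θ ∧
        ∀ x, ρ' x * h.1 = h.1 * Φ.rep ℤ_[p] θ x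

/-- **Theorem R** (from `SLim`, 150 lines). `dg c x` is the exponent sum of the generators of the class `c`.
Proof. The family `Φ'` with the parameters `J ⊕ Cl`: `Φ'.rep R θ x = (∏ c, (θ (inr c)) ^ (dg c x).toAdd : Rˣ) • Φ.rep R (θ ∘ inl) x` (a homomorphism, natural). `T' (inl j) = T j`, `T' (inr c) s = if cl s = c then 2 • 1 else 0`, `u' = u` on `J` and `0` on `Cl`; `∑ u' l • T' l s = ∑ u j • T j s`. `WPt p Φ' g π T'`: `one`: all units are `1`. `eps`: at `g s * g s` the scalar is `(eu (a (inr (cl s)))) ^ 2 = 1 + 2 ε a (inr (cl s))`.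
`Cert p g π T' u'` from `CertC`: the coefficient of `T' (inr c)` is `c / 2` (`p ≠ 2`). `SLim` for `θ0' = θ0` on `J` and `1` on `Cl`. `η x = ∏ c, (θ (inr c)) ^ (dg c x).toAdd`. -/
def SThR : Prop :=
  ∀ (p : ℕ) [Fact p.Prime] (B : Type) [Group B] (Ω : Type) [Fintype Ω] [DecidableEq Ω] (J : Type)
    [Fintype J] (S Cl : Type) [Fintype Cl] [DecidableEq Cl] (cl : S → Cl)
    (dg : Cl → B →* Multiplicative ℤ) (Φ : NFam B Ω J) (g : S → B) (π : B →* Equiv.Perm Ω)
    (T : J → S → Matrix Ω Ω (ZMod p)) (u : J → ZMod p), p ≠ 2 →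
    (∀ c s, dg c (g s) = Multiplicative.ofAdd (if cl s = c then 1 else 0)) →
    WPt p Φ g π T → CertC p cl g π T u → ThmR p Φ u

end thmR

section params

/-- **Algebraically independent parameters** (100 lines).
Proof. Induction on `k` (`Fin.snoc` or `Fin.cons`; `AlgebraicIndependent` for `Option` / `Fin (k + 1)`: a transcendental element over the algebra generated by the others). Given `θ` for `k`, the ring `ℚ[θ]` is countable, so the set of elements of `ℚ_[p]` algebraic over it is countable (`Algebraic.countable`). The set of the `1 + p y`, `y ∈ ℤ_[p]` with `toZMod y = u k`, is a nonempty open subset of the complete nontrivially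
normed field `ℚ_[p]` (it contains a ball around each of its points), so it is not countable (`cardinal_eq_of_isOpen`, `continuum_le_cardinal_of_isOpen`). Units: `1` modulo `p`. -/
def SAli : Prop :=
  ∀ (p : ℕ) [Fact p.Prime] (k : ℕ) (u : Fin k → ZMod p), ∃ θ : Fin k → ℤ_[p]ˣ, Near p u θ ∧
    AlgebraicIndependent ℚ fun j => ((θ j : ℤ_[p]) : ℚ_[p])

/-- **Finitely many homomorphisms** (50 lines).
Proof. `A →* G` is finite (a homomorphism is determined by its values on a finite generating set). `MulAut A` acts on it by `φ ↦ φ ∘ α⁻¹`; the kernel of `MulAut A →* Equiv.Perm (A →* G)` has finite index. -/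
def SHom : Prop :=
  ∀ (A : Type) [Group A], Group.FG A → ∀ (G : Type) [Group G] [Finite G],
    ∃ H : Subgroup (MulAut A), H.FiniteIndex ∧ ∀ α ∈ H, ∀ (φ : A →* G) (x : A), φ (α x) = φ x

/-- **Laurent polynomials over the rational numbers** (100 lines; as `Rg.lean`).
Proof. `L = Localization.Away (∏ j, X j : MvPolynomial (Fin k) ℚ)`. A localization of a factorial domain (`UniqueFactorizationMonoid` for `MvPolynomial`) is integrally closed. `IsLocalization.liftAlgHom`. Injectivity: if `φ (a / m) = 0` then `aeval θ a = 0`, so `a = 0`. -/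
def SLau : Prop :=
  ∀ k : ℕ, ∃ (L : Type) (_ : CommRing L) (_ : IsDomain L) (_ : IsIntegrallyClosed L)
    (_ : Algebra ℚ L) (t : Fin k → Lˣ), ∀ (F : Type) [CommRing F] [Algebra ℚ F] (θ : Fin k → Fˣ),
    ∃ φ : L →ₐ[ℚ] F, (∀ j, φ (t j) = θ j) ∧
      (AlgebraicIndependent ℚ (fun j => (θ j : F)) → Function.Injective φ)

/-- **Irreducibility at the generic point** (from `SLau`, 120 lines).
Proof. There are `x : Ω × Ω → B` such that the matrices `mK ρ (x a)` are a basis of the space of matrices, so `δ R = det (Φ.rep R t (x a) b.1 b.2) ≠ 0`. Let `L`, `t'` be as in `SLau` and `φ : L → R`, `φ (t' j) = t j`, `ψ : L → ℚ_[p]`, `ψ (t' j) = θ0 j`, injective. The same determinant `δ L` over `L` for the parameters `t'` is mapped by `φ` to `δ R` (`Φ.nat`, `RingHom.map_det`), so it is not zero, and by `ψ` to the image of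
the determinant over `ℤ_[p]` for `θ0` (`Φ.nat` for `ψ` and for `ℤ_[p] → ℚ_[p]`). -/
def SIrp : Prop :=
  ∀ (p : ℕ) [Fact p.Prime] (B : Type) [Group B] (Ω : Type) [Fintype Ω] [DecidableEq Ω] (k : ℕ)
    (Φ : NFam B Ω (Fin k)) (R : Type) [CommRing R] [IsDomain R] [Algebra ℂ R] (t : Fin k → Rˣ)
    (ρ : B →* GL Ω R), (∀ x, (ρ x).1 = Φ.rep R t x) →
    Submodule.span (FractionRing R) (Set.range fun x : B => mK ρ x) = ⊤ →
    ∀ θ0 : Fin k → ℤ_[p]ˣ, AlgebraicIndependent ℚ (fun j => ((θ0 j : ℤ_[p]) : ℚ_[p])) →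
    ∃ x : Ω × Ω → B,
      (Matrix.of fun a b : Ω × Ω => Φ.rep ℤ_[p] θ0 (x a) b.1 b.2).det ≠ 0

/-- **From a factor to the group** (200 lines).
Proof. `ThmR` for `ρ'.comp i` (`r (i b) = b`, `2 ≤ N`) gives `θ, η, h`. The determinant of the entries of the `ρ' (i (x a))` is congruent modulo `p ^ N` to the given one, so it is not zero, and the matrices `ρ' (i (x a))`, mapped to `ℚ_[p]`, are a basis of the space of matrices. For `r a = 1` the matrix `ρ' a` commutes with all `ρ' (i b)` (`Fac.co`), so with all matrices over `ℚ_[p]`, so it is a scalar `e a`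
(a diagonal entry, in `ℤ_[p]`), a unit since `ρ' a * ρ' a⁻¹ = 1`, and `e` is multiplicative on `ker r`. For `y : A` let `a y = (i (r y))⁻¹ * y ∈ ker r`; `a` is a homomorphism (`a y` commutes with `i (r z)`). `ρ' y = ρ' (i (r y)) * ρ' (a y)`; the character is `y ↦ η (r y) * e (a y)`. -/
def SExt : Prop :=
  ∀ (p : ℕ) [Fact p.Prime] (B : Type) [Group B] (Ω : Type) [Fintype Ω] [DecidableEq Ω]
    [Nonempty Ω] (J : Type) (Φ : NFam B Ω J) (u : J → ZMod p), ThmR p Φ u →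
    ∀ θ0 : J → ℤ_[p]ˣ, Near p u θ0 → ∀ (x : Ω × Ω → B) (N : ℕ), 2 ≤ N →
    ¬ (p : ℤ_[p]) ^ N ∣ (Matrix.of fun a b : Ω × Ω => Φ.rep ℤ_[p] θ0 (x a) b.1 b.2).det →
    ∀ (A : Type) [Group A] (i : B →* A) (r : A →* B), Fac i r →
    ∀ ρ' : A →* Matrix Ω Ω ℤ_[p], (∀ y, Cg p N (ρ' y) (Φ.rep ℤ_[p] θ0 (r y))) →
      ∃ (θ : J → ℤ_[p]ˣ) (η : A →* ℤ_[p]ˣ) (h : GL Ω ℤ_[p]), Near p u θ ∧
        ∀ y, ρ' y * h.1 = (η y : ℤ_[p]) • (h.1 * Φ.rep ℤ_[p] θ (r y))

/-- **Roots which are units of a subring** (150 lines; as `SRtm`, module `U/Rtm`).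
Proof. `K = FractionRing L`, `F` is an algebra over `K` by the extension of `ψ` (`ψ` is injective; characteristic 0). (1) `w = w j`, algebraic over `K`, `μ = minpoly K w`, irreducible and separable. Write `P = μ ^ e * Q` over `K` with `μ ∤ Q`. Over `F`, `μ` and `Q` have no common root, and `μ` splits with simple roots (it divides `∏ (X - w i) ^ m i`). So every root of `μ` is one of the `w i`, with multiplicity `e = m i`
(`w` is injective), for all of them, so `i = j`. So `μ` has degree 1 and `w` is the image of an element of `K`, integral over `L` (root of `P`), so of an element `v` of `L`. `X - v` divides `P` (over `K`, or: `P.eval v = 0` as `ψ` is injective), so `v` divides `P.coeff 0`, a unit. (2) Compare the second coefficients (`Polynomial.nextCoeff`, `Multiset` form of Vieta): `- ∑ i, m i * w i` is in the image of `L`, so `m j * w j` is,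
`m j ≠ 0` in `K`, and `w j` is the image of an element of `K`; as in (1) it is the image of a unit. -/
def SRtu : Prop :=
  ∀ (L F : Type) [CommRing L] [IsDomain L] [IsIntegrallyClosed L] [CharZero L] [Field F]
    (ψ : L →+* F), Function.Injective ψ → ∀ (P : L[X]) (k : ℕ) (w : Fin k → F) (m : Fin k → ℕ),
    P.Monic → IsUnit (P.coeff 0) → (∀ j, 0 < m j) → P.map ψ = ∏ j, (X - C (w j)) ^ m j →
    (Function.Injective w → ∀ j, (∀ i, i ≠ j → m i ≠ m j) → ∃ v : Lˣ, ψ v = w j) ∧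
    ∀ j, (∀ i, i ≠ j → ∃ v : Lˣ, ψ v = w i) → ∃ v : Lˣ, ψ v = w j

/-- The parameters and the scalars are determined by the characteristic polynomials of the generators, over integrally
closed subrings. -/
def EigU (p : ℕ) [Fact p.Prime] {B : Type} [Group B] {Ω : Type} [Fintype Ω] [DecidableEq Ω]
    {J S : Type} (Φ : NFam B Ω J) (g : S → B) (u : J → ZMod p) : Prop :=
  ∀ (L : Type) [CommRing L] [IsDomain L] [IsIntegrallyClosed L] [CharZero L]
    (ψ : L →+* ℚ_[p]), Function.Injective ψ → ∀ (θ : J → ℤ_[p]ˣ) (c : S → ℤ_[p]ˣ), Near p u θ →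
    (∀ s, ∃ P : L[X], P.Monic ∧ IsUnit (P.coeff 0) ∧ P.map ψ =
      (((c s : ℤ_[p]) • Φ.rep ℤ_[p] θ (g s)).charpoly).map (algebraMap ℤ_[p] ℚ_[p])) →
    (∀ s, ∃ v : Lˣ, ψ v = ((c s : ℤ_[p]) : ℚ_[p])) ∧
      ∀ j, ∃ v : Lˣ, ψ v = ((θ j : ℤ_[p]) : ℚ_[p])

/-- The representation composed with `f` is a twist of the one with the parameters changed by `θ` (`Twf` without the
injectivity of `θ`). -/
def Twq {A : Type} [Group A] {R : Type} [CommRing R] [IsDomain R] [Algebra ℂ R] {ι : Type}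
    [Fintype ι] [DecidableEq ι] (ρ : A →* GL ι R) (f : A →* A) (θ : R →ₐ[ℂ] R) : Prop :=
  ∃ (χ : A →* Rˣ) (g : GL ι (FractionRing R)), ∀ x,
    mK ρ (f x) = (algebraMap R (FractionRing R) (χ x : R)) •
      (g.1 * ((ρ x).1.map θ).map (algebraMap R (FractionRing R)) * (g⁻¹).1)

/-- The parameters are determined by the characteristic polynomials. -/
def UniP {A : Type} [Group A] {R : Type} [CommRing R] [Algebra ℂ R] {ι : Type} [Fintype ι]
    [DecidableEq ι] (ρ : A →* GL ι R) : Prop :=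
  ∀ (θ : R →ₐ[ℂ] R) (χ : A →* Rˣ),
    (∀ x, ((χ x : R) • (ρ x).1.map θ).charpoly = (ρ x).1.charpoly) → θ = AlgHom.id ℂ R

/-- **Descent to the ring of Laurent polynomials** (from `SDesc`, 200 lines).
Proof. Let `y = i (g s)` (`r y = g s`). The characteristic polynomial `P` of `Φ.rep L t (r (f y))` is monic, its constant coefficient is up to sign the determinant, a unit (the matrix is invertible: `Φ.rep L t` is a homomorphism from a group), and `P.map ψ` is the characteristic polynomial of `Φ.rep ℚ_[p] (ψ t) (r (f y))` (`Φ.nat`, `Matrix.charpoly_map`), the image of that of `Φ.rep ℤ_[p] θ0 (r (f y))`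
(`Φ.nat`, `ψ (t j) = θ0 j`), so of `η y • Φ.rep ℤ_[p] θ (g s)` (conjugate by `h`). `EigU` with `c s = η (i (g s))`: `η (i (g s))` and `θ j` are images of units of `L`; `θ j = ψ (θ' j)`. For `r a = 1`: `Φ.rep ℤ_[p] θ0 (r (f a)) = η a • 1` (`h` is invertible, `Φ.rep ℤ_[p] θ 1 = 1`), so `η a` is the image of a diagonal entry of `Φ.rep L t (r (f a))`, and the same for `a⁻¹`, so it is the image of a
unit (`ψ` is injective). The `y` for which `η y` is the image of a unit form a subgroup, which contains `i B` (`g` generates `B`) and `ker r`, so it is everything (`y = i (r y) * ((i (r y))⁻¹ * y)`). As `ψ` is injective `η = ψ ∘ χ` for a homomorphism `χ : A →* Lˣ`. `K = FractionRing L` is infinite (characteristic 0) and `ℚ_[p]` is an algebra over `K` by the extension of `ψ`. `SDesc` with `J := A`, the matrices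
`Φ.rep L t (r (f y))` and `χ y • Φ.rep L θ' (r y)` over `K` and `h` over `ℚ_[p]`. -/
def STwL : Prop :=
  ∀ (p : ℕ) [Fact p.Prime] (B : Type) [Group B] (Ω : Type) [Fintype Ω] [DecidableEq Ω]
    [Nonempty Ω] (J S : Type) (Φ : NFam B Ω J) (g : S → B) (u : J → ZMod p),
    Subgroup.closure (Set.range g) = ⊤ → EigU p Φ g u →
    ∀ (L : Type) [CommRing L] [IsDomain L] [IsIntegrallyClosed L] [CharZero L]
    (ψ : L →+* ℚ_[p]), Function.Injective ψ → ∀ (t : J → Lˣ) (θ0 : J → ℤ_[p]ˣ),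
    (∀ j, ψ (t j) = ((θ0 j : ℤ_[p]) : ℚ_[p])) → ∀ (A : Type) [Group A] (i : B →* A) (r : A →* B),
    Fac i r → ∀ (f : A →* A) (θ : J → ℤ_[p]ˣ) (η : A →* ℤ_[p]ˣ) (h : GL Ω ℤ_[p]), Near p u θ →
    (∀ y, Φ.rep ℤ_[p] θ0 (r (f y)) * h.1 = (η y : ℤ_[p]) • (h.1 * Φ.rep ℤ_[p] θ (r y))) →
    ∃ (θ' : J → Lˣ) (χ : A →* Lˣ) (h' : GL Ω (FractionRing L)),
      ∀ y, (Φ.rep L t (r (f y))).map (algebraMap L (FractionRing L)) * h'.1 =
        (algebraMap L (FractionRing L) (χ y : L)) •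
          (h'.1 * (Φ.rep L θ' (r y)).map (algebraMap L (FractionRing L)))

/-- **Base change** (120 lines).
Proof. `θ` with `θ (s j) = φ (θ' j)` (hypothesis on `R`). Then `(ρ x).1.map θ = Φ.rep R (φ θ') x = (Φ.rep L θ' x).map φ` and `(ρ x).1 = (Φ.rep L t x).map φ` (`Φ.nat`). `φ` extends to the fields of fractions (`φ` is injective: `IsFractionRing.lift` or `IsLocalization.map`); map the equation and multiply with the inverse of the image of `h'`; the character is `φ ∘ χ`. -/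
def STwR : Prop :=
  ∀ (B : Type) [Group B] (Ω : Type) [Fintype Ω] [DecidableEq Ω] (J : Type) (Φ : NFam B Ω J)
    (L : Type) [CommRing L] [IsDomain L] (t : J → Lˣ) (R : Type) [CommRing R] [IsDomain R]
    [Algebra ℂ R] (s : J → Rˣ) (φ : L →+* R), Function.Injective φ → (∀ j, φ (t j) = s j) →
    (∀ a : J → Rˣ, ∃ θ : R →ₐ[ℂ] R, ∀ j, θ (s j) = a j) → ∀ ρ : B →* GL Ω R,
    (∀ x, (ρ x).1 = Φ.rep R s x) → ∀ (A : Type) [Group A] (r : A →* B) (f : A →* A)
    (θ' : J → Lˣ) (χ : A →* Lˣ) (h' : GL Ω (FractionRing L)),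
    (∀ y, (Φ.rep L t (r (f y))).map (algebraMap L (FractionRing L)) * h'.1 =
        (algebraMap L (FractionRing L) (χ y : L)) •
          (h'.1 * (Φ.rep L θ' (r y)).map (algebraMap L (FractionRing L)))) →
    ∃ θ : R →ₐ[ℂ] R, Twq (ρ.comp r) f θ

/-- **Injectivity** (80 lines).
Proof. `charpoly (c • M)` is determined by `charpoly M` and `c`, compatibly with ring homomorphisms (`Polynomial.scaleRoots`; or: if `charpoly M = charpoly M'` then `charpoly (c • M) = charpoly (c • M')`, and `charpoly (M.map θ) = (charpoly M).map θ`). `Twq` gives over `R` (`algebraMap R (FractionRing R)` is injective): `charpoly (ρ (α x)) = charpoly (χ x • θ(ρ x))`, and `charpoly (ρ (α⁻¹ x)) = charpoly (χ' x • η(ρ x))`.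
So `charpoly (ρ x) = charpoly (ρ (α (α⁻¹ x))) = charpoly (χ (α⁻¹ x) • θ(ρ (α⁻¹ x))) = charpoly (χ (α⁻¹ x) θ(χ' x) • θ(η(ρ x)))`. `UniP` with the character `x ↦ χ (α⁻¹ x) * θ (χ' x)`: `θ ∘ η = id`; in the same way `η ∘ θ = id`. -/
def SInj : Prop :=
  ∀ (A : Type) [Group A] (R : Type) [CommRing R] [IsDomain R] [Algebra ℂ R] (ι : Type) [Fintype ι]
    [DecidableEq ι] (ρ : A →* GL ι R), UniP ρ → ∀ (α : MulAut A) (θ η : R →ₐ[ℂ] R),
    Twq ρ α.toMonoidHom θ → Twq ρ (α⁻¹).toMonoidHom η → Twf ρ α.toMonoidHom θ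

/-- **A finite index subgroup acts by changes of the parameters** (from `SAli`, `SHom`, `SLau`, `SIrp`, `SExt`, `STwL`, `STwR`, `SInj`, 150 lines).
Proof. `θ0` from `SAli` (`Near p u θ0`), `L, t'` from `SLau`, `ψ : L → ℚ_[p]` injective with `ψ (t' j) = θ0 j`, `φ : L → R` injective with `φ (t' j) = t j` (`R` is a `ℚ`-algebra through `ℂ`; the `t j` are algebraically independent over `ℂ`, so over `ℚ`). `L` has characteristic 0. `x` from `SIrp`, and `N ≥ 2` with `p ^ N ∤ det` (`det ≠ 0`; `PadicInt.valuation`, or the intersection of the `p ^ N ℤ_[p]` is `0`). `H` from `SHom` for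
`E` and the finite group of the invertible matrices over `ZMod (p ^ N)`. For `α ∈ H`: the homomorphism `y ↦` image of `Φ.rep ℤ_[p] θ0 (r y)` (a homomorphism to the units: `Units`, `MonoidHom.toHomUnits`) is fixed by `α`, so `ρ' y = Φ.rep ℤ_[p] θ0 (r (α y))` satisfies `Cg p N (ρ' y) (Φ.rep ℤ_[p] θ0 (r y))` (`ker_toZModPow`). `SExt`, `STwL` (`f = α`), `STwR`: `Twq (ρ.comp r) α θ`, and the same for `α⁻¹ ∈ H`.
`UniP (ρ.comp r)` from `UniP ρ`: restrict to the `i b` (`r (i b) = b`). `SInj`. -/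
def SPad : Prop :=
  ∀ (p : ℕ) [Fact p.Prime] (B : Type) [Group B] (Ω : Type) [Fintype Ω] [DecidableEq Ω]
    [Nonempty Ω] (k : ℕ) (S : Type) (Φ : NFam B Ω (Fin k)) (g : S → B) (u : Fin k → ZMod p)
    (R : Type) [CommRing R] [IsDomain R] [Algebra ℂ R] (t : Fin k → Rˣ) (ρ : B →* GL Ω R),
    AlgebraicIndependent ℂ (fun j => (t j : R)) →
    (∀ a : Fin k → Rˣ, ∃ θ : R →ₐ[ℂ] R, ∀ j, θ (t j) = a j) →
    (∀ x, (ρ x).1 = Φ.rep R t x) → Subgroup.closure (Set.range g) = ⊤ →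
    Submodule.span (FractionRing R) (Set.range fun x : B => mK ρ x) = ⊤ →
    UniP ρ → ThmR p Φ u → EigU p Φ g u →
    ∀ (E : Type) [Group E], Group.FG E → ∀ (i : B →* E) (r : E →* B), Fac i r →
      ∃ H : Subgroup (MulAut E), H.FiniteIndex ∧
        ∀ α ∈ H, ∃ θ : R →ₐ[ℂ] R, Twf (ρ.comp r) α.toMonoidHom θ

/-- **`TFam`** (from `SPad`, 30 lines).
Proof. `tw` is `SPad`. `uniq`: `Twf ρ id θ` gives `charpoly (ρ x) = charpoly (χ x • θ(ρ x))` over `R` (as in `SInj`), `UniP`. `eta`: by hypothesis. -/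
def STFa : Prop :=
  ∀ (p : ℕ) [Fact p.Prime] (B : Type) [Group B] (Ω : Type) [Fintype Ω] [DecidableEq Ω]
    [Nonempty Ω] (k : ℕ) (S : Type) (Φ : NFam B Ω (Fin k)) (g : S → B) (u : Fin k → ZMod p)
    (R : Type) [CommRing R] [IsDomain R] [Algebra ℂ R] (t : Fin k → Rˣ) (ρ : B →* GL Ω R),
    AlgebraicIndependent ℂ (fun j => (t j : R)) →
    (∀ a : Fin k → Rˣ, ∃ θ : R →ₐ[ℂ] R, ∀ j, θ (t j) = a j) →
    (∀ x, (ρ x).1 = Φ.rep R t x) → Subgroup.closure (Set.range g) = ⊤ →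
    Submodule.span (FractionRing R) (Set.range fun x : B => mK ρ x) = ⊤ →
    UniP ρ → ThmR p Φ u → EigU p Φ g u → (∀ s, (ρ (g s)).1.trace ≠ 0) → FinP ρ → TFam ρ

end params

section H

/-- **Characteristic polynomials at other parameters** (from `SLau`, 60 lines).
Proof. `L`, `t'` from `SLau` (`k = 2`), `φ : L → R` injective with `φ (t' j) = t j`. The characteristic polynomial over `L` for the parameters `t'` is mapped by `φ` to the one over `R`, so it has the same form; map it to `F` with `t' j ↦ θ j`. -/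
def SChF : Prop :=
  ∀ (B : Type) [Group B] (Ω : Type) [Fintype Ω] [DecidableEq Ω] (Φ : NFam B Ω (Fin 2))
    (R : Type) [CommRing R] [IsDomain R] [Algebra ℂ R] (t : Fin 2 → Rˣ) (x : B) (a b c d : ℕ),
    AlgebraicIndependent ℂ (fun j => (t j : R)) →
    (Φ.rep R t x).charpoly = (X - C (t 1 : R)) ^ d * (X - C 1) ^ a * (X - C (-(t 0 : R))) ^ b *
      (X - C ((t 0 : R) ^ 2)) ^ c →
    ∀ (F : Type) [Field F] [CharZero F] (θ : Fin 2 → Fˣ),
      (Φ.rep F θ x).charpoly = (X - C (θ 1 : F)) ^ d * (X - C 1) ^ a *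
        (X - C (-(θ 0 : F))) ^ b * (X - C ((θ 0 : F) ^ 2)) ^ c

/-- **The eigenvalues for H3 and H4** (from `SChF`, `SRtu`, 150 lines).
Proof. `q = θ 0`, `l = θ 1` in `ℚ_[p]`, `c = c s`. The characteristic polynomial of `c • M` has the roots `c l` (`d` times), `c`, `- c q`, `c q ^ 2`. They are different: `q = 1 + p y`, `l = 1 + p z`, `y, z` reduce to `u 0`, `u 1`: `q ≠ 1`, `l ≠ 1` (`u 0 ≠ 0`, `u 1 ≠ 0`), `q ≠ -1`, `l ≠ - q` (`q`, `l` are `1` modulo `p`, `p ≠ 2`), `q ^ 2 ≠ 1` and `q ^ 2 ≠ l` (`2 u 0 ≠ u 1`). `SRtu` (1): `c`, `- c q` are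
images of units of `L`, so `q` and `c q ^ 2` are; `SRtu` (2): `c l` is the image of a unit, so `l` is. (`S` is not empty: for `θ` use any `s`.) -/
def SEgH : Prop :=
  ∀ (p : ℕ) [Fact p.Prime] (B : Type) [Group B] (Ω : Type) [Fintype Ω] [DecidableEq Ω]
    (Φ : NFam B Ω (Fin 2)) (S : Type) [Nonempty S] (g : S → B) (u : Fin 2 → ZMod p) (R : Type)
    [CommRing R] [IsDomain R] [Algebra ℂ R] (t : Fin 2 → Rˣ) (a b c d : ℕ), p ≠ 2 → u 0 ≠ 0 →
    u 1 ≠ 0 → 2 * u 0 ≠ u 1 → 0 < d → d < b → 0 < c → c < b → b < a →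
    AlgebraicIndependent ℂ (fun j => (t j : R)) →
    (∀ s, (Φ.rep R t (g s)).charpoly = (X - C (t 1 : R)) ^ d * (X - C 1) ^ a *
      (X - C (-(t 0 : R))) ^ b * (X - C ((t 0 : R) ^ 2)) ^ c) → EigU p Φ g u

/-- **Uniqueness for H3 and H4** (80 lines).
Proof. As `SEUq` in `U/SpecE`, without the injectivity of `θ`. `v = χ (g s)`. In `K[X]`, `K = FractionRing R`: `(X - l) ^ d (X - 1) ^ a (X + q) ^ b (X - q²) ^ c = (X - v θ l) ^ d (X - v) ^ a (X + v θ q) ^ b (X - v θ q²) ^ c`. `l, 1, -q, q²` are different (algebraic independence). `v` has multiplicity at least `a` on the right; on the left only `1` has (the other multiplicities are smaller): `v = 1`. Cancel `(X - 1) ^ a`.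
`- θ q` has multiplicity at least `b` on the right, on the left only `- q`: `θ q = q`. Cancel: `(X - l) ^ d = (X - θ l) ^ d`, `θ l = l`. `θ = id` by the hypothesis on `R`. -/
def SUnH : Prop :=
  ∀ (B : Type) [Group B] (Ω : Type) [Fintype Ω] [DecidableEq Ω] (R : Type) [CommRing R]
    [IsDomain R] [Algebra ℂ R] (t : Fin 2 → Rˣ) (ρ : B →* GL Ω R) (x : B) (a b c d : ℕ),
    0 < d → d < b → 0 < c → c < b → b < a → AlgebraicIndependent ℂ (fun j => (t j : R)) →
    (∀ θ θ' : R →ₐ[ℂ] R, (∀ j, θ (t j) = θ' (t j)) → θ = θ') →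
    (ρ x).1.charpoly = (X - C (t 1 : R)) ^ d * (X - C 1) ^ a * (X - C (-(t 0 : R))) ^ b *
      (X - C ((t 0 : R) ^ 2)) ^ c → UniP ρ

/-- **The folded families** (from `SLKr`, `SMono`, 100 lines).
Proof. `Φ.rep R θ x = (LKr M' univ (θ 0) (θ 1) (ι x)).1` (`Units.coeHom`); natural by `SLKr`. `π`: by `SMono` for `K = ℚ`, `l = 1` the matrix of `x` is `Pm σ` for a permutation `σ`, unique, so `x ↦ σ` is a homomorphism (`Pm` is multiplicative and injective); over `ℤ`: `SLKr` for `ℤ → ℚ`, which is injective. -/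
def SFld : Prop :=
  ∀ (k : ℕ) (M' : CoxeterMatrix (Fin k)), SL M' → RF M' → FH M' (fh M') →
    ∀ (B : Type) [Group B] (ι : B →* Art M'), ∃ Φ : NFam B (PR M' Finset.univ) (Fin 2),
      (∀ (R : Type) [CommRing R] (θ : Fin 2 → Rˣ) (x : B),
        Φ.rep R θ x = (LKr M' Finset.univ (θ 0 : R) (θ 1 : R) (ι x)).1) ∧
      ∃ π : B →* Equiv.Perm (PR M' Finset.univ), ∀ x, Φ.rep ℤ 1 x = Pm (π x)

end H

end Pool.Agent.Lib.MP_97567f_al.Pad
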