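import Pool.Agent.Lib.MP_97567f_al.Pad.Spec

set_option autoImplicit false

namespace Pool.Agent.Lib.MP_97567f_al.Pad

open AlgebraicIndependent

private theorem Ali_count (p : ℕ) [Fact p.Prime] (k : ℕ) (x : Fin k → ℚ_[p]) :
    Set.Countable {a : ℚ_[p] | IsAlgebraic (Algebra.adjoin ℚ (Set.range x)) a} := by
  have h : Countable (Algebra.adjoin ℚ (Set.range x)) := by
    have h1 : Countable (MvPolynomial (Fin k) ℚ) :=
      (AddMonoidAlgebra.coeff_injective (R := ℚ) (M := Fin k →₀ ℕ)).countable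
    rw [Algebra.adjoin_range_eq_range_aeval]
    exact (Set.countable_range (MvPolynomial.aeval x : MvPolynomial (Fin k) ℚ →ₐ[ℚ] ℚ_[p])).to_subtype
  exact Algebraic.countable _ _

private theorem Ali_one (p : ℕ) [Fact p.Prime] (c : ZMod p) (C : Set ℚ_[p]) (hC : C.Countable) :
    ∃ θ : ℤ_[p]ˣ, (∃ y : ℤ_[p], (θ : ℤ_[p]) = 1 + (p : ℤ_[p]) * y ∧ PadicInt.toZMod y = c) ∧
      ((θ : ℤ_[p]) : ℚ_[p]) ∉ C := by
  have hp0 : (p : ℚ_[p]) ≠ 0 := Nat.cast_ne_zero.2 (Fact.out : p.Prime).ne_zero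
  have hpn : 0 < ‖(p : ℚ_[p])‖ := norm_pos_iff.2 hp0
  set c0 : ℤ_[p] := ((c.val : ℕ) : ℤ_[p]) with hc0
  have hc1 : PadicInt.toZMod c0 = c := by
    have : NeZero p := ⟨(Fact.out : p.Prime).ne_zero⟩
    rw [hc0, map_natCast, ZMod.natCast_zmod_val]
  obtain ⟨x, hx1, hx2⟩ := (hC.dense_compl ℚ_[p]).inter_open_nonempty
    (Metric.ball (1 + (p : ℚ_[p]) * (c0 : ℚ_[p])) ‖(p : ℚ_[p])‖) Metric.isOpen_ball
    ⟨_, Metric.mem_ball_self hpn⟩
  rw [Metric.mem_ball, dist_eq_norm] at hx1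
  have hz : ‖(x - (1 + (p : ℚ_[p]) * (c0 : ℚ_[p]))) / p‖ < 1 := by
    rw [norm_div, div_lt_one hpn]
    exact hx1
  set z : ℤ_[p] := ⟨(x - (1 + (p : ℚ_[p]) * (c0 : ℚ_[p]))) / p, hz.le⟩ with hzd
  have hz0 : PadicInt.toZMod z = 0 := by
    rw [← RingHom.mem_ker, PadicInt.ker_toZMod, IsLocalRing.mem_maximalIdeal,
      PadicInt.mem_nonunits]
    exact hz
  have hu : IsUnit (1 + (p : ℤ_[p]) * (c0 + z)) := by
    by_contra h
    have h1 : (1 + (p : ℤ_[p]) * (c0 + z)) ∈ IsLocalRing.maximalIdeal ℤ_[p] :=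
      (IsLocalRing.mem_maximalIdeal _).2 h
    rw [← PadicInt.ker_toZMod, RingHom.mem_ker] at h1
    simp at h1
  obtain ⟨θ, hθ⟩ := hu
  refine ⟨θ, ⟨c0 + z, hθ, ?_⟩, ?_⟩
  · rw [map_add, hc1, hz0, add_zero]
  · have hx : ((θ : ℤ_[p]) : ℚ_[p]) = x := by
      rw [hθ]
      have e : ((z : ℤ_[p]) : ℚ_[p]) = (x - (1 + (p : ℚ_[p]) * (c0 : ℚ_[p]))) / p := rfl
      push_cast
      rw [e]
      field_simp
      ring
    rw [hx]
    exact hx2

theorem pAli : SAli := by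
  intro p _ k
  induction k with
  | zero =>
    intro u
    refine ⟨fun j => j.elim0, fun j => j.elim0, ?_⟩
    have h : Function.Injective (algebraMap ℚ ℚ_[p]) := (algebraMap ℚ ℚ_[p]).injective
    exact algebraicIndependent_empty_type_iff.2 h
  | succ k ih =>
    intro u
    obtain ⟨θ, hθ, hind⟩ := ih fun j => u j.succ
    obtain ⟨η, hη, hn⟩ := Ali_one p (u 0) _ (Ali_count p k fun j => ((θ j : ℤ_[p]) : ℚ_[p]))
    refine ⟨Fin.cons η θ, ?_, ?_⟩
    · intro j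
      refine Fin.cases ?_ (fun j => ?_) j
      · exact hη
      · exact hθ j
    · have h1 := (hind.option_iff_transcendental ((η : ℤ_[p]) : ℚ_[p])).2 hn
      have h2 : (fun j : Fin (k + 1) => (((Fin.cons η θ : Fin (k + 1) → ℤ_[p]ˣ) j : ℤ_[p]) : ℚ_[p])) =
          (fun o : Option (Fin k) => o.elim ((η : ℤ_[p]) : ℚ_[p])
            (fun j => ((θ j : ℤ_[p]) : ℚ_[p]))) ∘ finSuccEquiv k := by
        funext j
        refine Fin.cases ?_ (fun j => ?_) j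
        · simp
        · simp
      rw [h2]
      exact h1.comp _ (finSuccEquiv k).injective

end Pool.Agent.Lib.MP_97567f_al.Pad
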