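import Pool.Agent.Lib.MP_97567f_al.Pad.Spec

/-!
# MP_97567f_al: cocycles which vanish on the squares of the generators
-/

set_option autoImplicit false

namespace Pool.Agent.Lib.MP_97567f_al.Pad

variable {p : ℕ} [Fact p.Prime] {B : Type} [Group B] {Ω : Type} [Fintype Ω] [DecidableEq Ω]
  {S : Type}

omit [Fintype Ω] [DecidableEq Ω] in
private theorem Cob_one {π : B →* Equiv.Perm Ω} {D : B → Matrix Ω Ω (ZMod p)} (hD : Coc π D) :
    D 1 = 0 := by
  have h := hD 1 1
  rw [mul_one, map_one, Adp_one] at h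
  have h1 : D 1 + D 1 = D 1 + 0 := by rw [add_zero]; exact h.symm
  exact add_left_cancel h1

/-- A cocycle which vanishes on the squares of the generators is a coboundary. -/
private theorem Cob_main (g : S → B) (π : B →* Equiv.Perm Ω) (hsq : ∀ s, π (g s * g s) = 1)
    (hfi : (Subgroup.normalClosure (Set.range fun s => g s * g s)).FiniteIndex)
    (hcop : ¬ p ∣ (Subgroup.normalClosure (Set.range fun s => g s * g s)).index)
    (D : B → Matrix Ω Ω (ZMod p)) (hD : Coc π D) (h0 : ∀ s, D (g s * g s) = 0) :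
    ∃ m : Matrix Ω Ω (ZMod p), ∀ x, D x = Adp (π x) m - m := by
  set P := Subgroup.normalClosure (Set.range fun s => g s * g s) with hP
  have hD1 := Cob_one hD
  have hinv : ∀ x, Adp (π x) (D x⁻¹) = - D x := by
    intro x
    have h := hD x x⁻¹
    rw [mul_inv_cancel, hD1] at h
    exact (neg_eq_of_add_eq_zero_right h.symm).symm
  let K : Subgroup B :=
    { carrier := {y | D y = 0 ∧ π y = 1}
      one_mem' := ⟨hD1, map_one _⟩
      mul_mem' := by
        rintro a b ⟨ha, ha'⟩ ⟨hb, hb'⟩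
        exact ⟨by rw [hD, ha, hb, ha', Adp_one, add_zero], by rw [map_mul, ha', hb', one_mul]⟩
      inv_mem' := by
        rintro a ⟨ha, ha'⟩
        refine ⟨?_, by rw [map_inv, ha', inv_one]⟩
        have h := hinv a
        rw [ha', Adp_one, ha, neg_zero] at h
        exact h }
  have hKn : K.Normal := by
    refine ⟨fun y hy x => ?_⟩
    obtain ⟨h1, h2⟩ := hy
    refine ⟨?_, by rw [map_mul, map_mul, h2, mul_one, ← map_mul, mul_inv_cancel, map_one]⟩
    rw [hD (x * y) x⁻¹, hD x y, h1, Adp_zero, add_zero, map_mul, h2, mul_one, hinv x,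
      add_neg_cancel]
  have hPK : P ≤ K := by
    refine Subgroup.normalClosure_le_normal ?_
    rintro _ ⟨s, rfl⟩
    exact ⟨h0 s, hsq s⟩
  have hcos : ∀ x y, x⁻¹ * y ∈ P → D y = D x := by
    intro x y h
    have h1 : y = x * (x⁻¹ * y) := by group
    rw [h1, hD, (hPK h).1, Adp_zero, add_zero]
  let F : B ⧸ P → Matrix Ω Ω (ZMod p) := fun c => D (Quotient.out c)
  have hF : ∀ x : B, F (x : B ⧸ P) = D x := by
    intro x
    refine hcos x _ ?_
    have h1 : ((Quotient.out (x : B ⧸ P) : B) : B ⧸ P) = (x : B ⧸ P) := Quotient.out_eq' _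
    exact QuotientGroup.eq.1 h1.symm
  have hfin : Finite (B ⧸ P) := Subgroup.finite_quotient_of_finiteIndex
  let _ : Fintype (B ⧸ P) := Fintype.ofFinite _
  set M : Matrix Ω Ω (ZMod p) := ∑ c, F c with hM
  have hkey : ∀ x, (Fintype.card (B ⧸ P)) • D x + Adp (π x) M = M := by
    intro x
    have h1 : ∀ c, F ((x : B ⧸ P) * c) = D x + Adp (π x) (F c) := by
      intro c
      induction c using QuotientGroup.induction_on with
      | H y =>
        rw [← QuotientGroup.mk_mul, hF, hF, hD]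
    have h2 : ∑ c, F ((x : B ⧸ P) * c) = M :=
      Fintype.sum_equiv (Equiv.mulLeft (x : B ⧸ P)) _ _ fun c => rfl
    have h3 : Adp (π x) M = ∑ c, Adp (π x) (F c) := by
      ext i j
      rw [hM]
      simp only [Adp, Matrix.submatrix_apply, Matrix.sum_apply]
    rw [h3, ← h2]
    simp only [h1]
    rw [Finset.sum_add_distrib, Finset.sum_const, Finset.card_univ]
  have hn : ((Fintype.card (B ⧸ P) : ℕ) : ZMod p) ≠ 0 := by
    rw [Ne, ZMod.natCast_eq_zero_iff]
    have h1 : Fintype.card (B ⧸ P) = P.index := by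
      rw [Subgroup.index, Nat.card_eq_fintype_card]
    rw [h1]
    exact hcop
  set n : ZMod p := ((Fintype.card (B ⧸ P) : ℕ) : ZMod p) with hnn
  refine ⟨-(n⁻¹ • M), fun x => ?_⟩
  have h2 : n • D x = M - Adp (π x) M := by
    rw [eq_sub_iff_add_eq]
    have h3 : (Fintype.card (B ⧸ P)) • D x = n • D x := by
      rw [hnn, Nat.cast_smul_eq_nsmul]
    rw [← h3]
    exact hkey x
  have h4 : D x = n⁻¹ • (M - Adp (π x) M) := by
    rw [← h2, smul_smul, inv_mul_cancel₀ hn, one_smul]
  have h5 : Adp (π x) (-(n⁻¹ • M)) = -(n⁻¹ • Adp (π x) M) := rfl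
  rw [h5, sub_neg_eq_add, neg_add_eq_sub, ← smul_sub]
  exact h4

theorem pCob : SCob := by
  intro p _ B _ Ω _ _ π S g hsq hfi hcop D hD h0
  obtain ⟨m, hm⟩ := Cob_main g π hsq hfi hcop D hD h0
  refine ⟨-m, fun x => ?_⟩
  rw [hm x]
  have h5 : Adp (π x) (-m) = -Adp (π x) m := rfl
  rw [h5]
  abel

end Pool.Agent.Lib.MP_97567f_al.Pad
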