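import Pool.Agent.Lib.MP_97567f_al.Pad.Spec

/-!
# MP_97567f_al: differences of congruent representations (`SDif`)
-/

set_option autoImplicit false

namespace Pool.Agent.Lib.MP_97567f_al.Pad

section aux

variable {p : ℕ} [Fact p.Prime] {B : Type} [Group B] {Ω : Type} [Fintype Ω] [DecidableEq Ω]

private theorem Dif_inv (σ : Equiv.Perm Ω) :
    (Pm σ : Matrix Ω Ω (ZMod p)) * Pm σ⁻¹ = 1 := by
  rw [← Pm_mul, mul_inv_cancel, Pm_one]

private theorem Dif_inv' (σ : Equiv.Perm Ω) :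
    (Pm σ⁻¹ : Matrix Ω Ω (ZMod p)) * Pm σ = 1 := by
  rw [← Pm_mul, inv_mul_cancel, Pm_one]

private theorem Dif_canR (σ : Equiv.Perm Ω) {X Y : Matrix Ω Ω (ZMod p)}
    (h : X * Pm σ = Y * Pm σ) : X = Y := by
  have h2 : X * Pm σ * Pm σ⁻¹ = Y * Pm σ * Pm σ⁻¹ := by rw [h]
  rwa [Matrix.mul_assoc, Matrix.mul_assoc, Dif_inv, Matrix.mul_one, Matrix.mul_one] at h2

private theorem Dif_ppow (n : ℕ) : ((p : ℤ_[p]) ^ n) ≠ 0 := by
  apply pow_ne_zero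
  exact_mod_cast (Fact.out : p.Prime).ne_zero

omit [Fintype Ω] [DecidableEq Ω] in
private theorem Dif_canP (n : ℕ) {X Y : Matrix Ω Ω ℤ_[p]}
    (h : ((p : ℤ_[p]) ^ n) • X = ((p : ℤ_[p]) ^ n) • Y) : X = Y := by
  ext i j
  have h2 := congrFun (congrFun h i) j
  simp only [Matrix.smul_apply, smul_eq_mul] at h2
  exact mul_left_cancel₀ (Dif_ppow n) h2

private theorem Dif_zp (n : ℕ) (hn : 1 ≤ n) :
    PadicInt.toZMod ((p : ℤ_[p]) ^ n) = (0 : ZMod p) := by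
  rw [map_pow, map_natCast, CharP.cast_eq_zero, zero_pow (by omega)]

private theorem Dif_map (X : Matrix Ω Ω ℤ_[p]) :
    X.map PadicInt.toZMod = (PadicInt.toZMod (p := p)).mapMatrix X := rfl

private theorem Dif_one (π : B →* Equiv.Perm Ω) (ρ1 ρ2 : B →* Matrix Ω Ω ℤ_[p]) (n : ℕ)
    (h : ∀ x, Cg p n (ρ1 x) (ρ2 x)) : ∃ D, Dif n π ρ1 ρ2 D := by
  choose E hE using h
  refine ⟨fun x => ((Matrix.of (E x)).map PadicInt.toZMod) * Pm (π x)⁻¹, fun x =>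
    ⟨Matrix.of (E x), ?_, ?_⟩⟩
  · ext i j
    have := hE x i j
    simp only [Matrix.add_apply, Matrix.smul_apply, Matrix.of_apply, smul_eq_mul]
    rw [← this]
    ring
  · rw [Matrix.mul_assoc, Dif_inv', Matrix.mul_one]

private theorem Dif_two (π : B →* Equiv.Perm Ω) (ρ1 ρ2 : B →* Matrix Ω Ω ℤ_[p]) (n : ℕ)
    (hn : 1 ≤ n) (hr : Rdc π ρ2) (D : B → Matrix Ω Ω (ZMod p)) (hD : Dif n π ρ1 ρ2 D) :
    Coc π D := by
  intro x y
  obtain ⟨E, hE, hE'⟩ := hD x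
  obtain ⟨F, hF, hF'⟩ := hD y
  obtain ⟨G, hG, hG'⟩ := hD (x * y)
  have h1 : ((p : ℤ_[p]) ^ n) • G = ((p : ℤ_[p]) ^ n) •
      (E * ρ2 y + ρ2 x * F + ((p : ℤ_[p]) ^ n) • (E * F)) := by
    have h2 : ρ1 x * ρ1 y = ρ2 x * ρ2 y + ((p : ℤ_[p]) ^ n) • G := by
      rw [← map_mul, hG, map_mul]
    rw [hE, hF, add_mul, mul_add, mul_add] at h2
    have h3 : ((p : ℤ_[p]) ^ n) • G = ρ2 x * (((p : ℤ_[p]) ^ n) • F) +
        (((p : ℤ_[p]) ^ n) • E * ρ2 y + ((p : ℤ_[p]) ^ n) • E * (((p : ℤ_[p]) ^ n) • F)) := by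
      have := congrArg (fun Z => Z - ρ2 x * ρ2 y) h2
      simp only [add_sub_cancel_left] at this
      rw [← this]
      abel
    rw [h3]
    simp only [Matrix.mul_smul, Matrix.smul_mul, smul_add]
    abel
  have h4 := Dif_canP n h1
  have h5 : G.map PadicInt.toZMod = D x * Pm (π x) * Pm (π y) + Pm (π x) * (D y * Pm (π y)) := by
    rw [h4, Dif_map, map_add, map_add, map_mul, map_mul]
    rw [← Dif_map E, ← Dif_map (ρ2 y), ← Dif_map (ρ2 x), ← Dif_map F, hE', hF', hr x, hr y]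
    have h6 : (PadicInt.toZMod (p := p)).mapMatrix (((p : ℤ_[p]) ^ n) • (E * F)) = 0 := by
      ext i j
      simp only [RingHom.mapMatrix_apply, Matrix.map_apply, Matrix.smul_apply, smul_eq_mul,
        map_mul, Dif_zp n hn, zero_mul, Matrix.zero_apply]
    rw [h6, add_zero]
  rw [hG'] at h5
  apply Dif_canR (π (x * y))
  rw [h5, map_mul, Pm_mul, add_mul, ← Matrix.mul_assoc (Adp (π x) (D y)), Adp_mul_Pm]
  simp only [Matrix.mul_assoc]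

private theorem Dif_three (π : B →* Equiv.Perm Ω) (ρ1 ρ2 ρ3 : B →* Matrix Ω Ω ℤ_[p]) (n : ℕ)
    (D D' : B → Matrix Ω Ω (ZMod p)) (h : Dif n π ρ1 ρ2 D) (h' : Dif n π ρ3 ρ2 D') :
    Dif n π ρ1 ρ3 fun x => D x - D' x := by
  intro x
  obtain ⟨E, hE, hE'⟩ := h x
  obtain ⟨F, hF, hF'⟩ := h' x
  refine ⟨E - F, ?_, ?_⟩
  · rw [hE, hF, smul_sub]
    abel
  · rw [Dif_map, map_sub, ← Dif_map, ← Dif_map, hE', hF', sub_mul]

private theorem Dif_four (π : B →* Equiv.Perm Ω) (ρ1 ρ2 : B →* Matrix Ω Ω ℤ_[p]) (n : ℕ)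
    (D D' : B → Matrix Ω Ω (ZMod p)) (h : Dif n π ρ1 ρ2 D) (h' : Dif n π ρ1 ρ2 D') :
    D = D' := by
  funext x
  obtain ⟨E, hE, hE'⟩ := h x
  obtain ⟨F, hF, hF'⟩ := h' x
  have h1 : E = F := Dif_canP n (add_left_cancel (hE.symm.trans hF))
  apply Dif_canR (π x)
  rw [← hE', ← hF', h1]

private theorem Dif_five (π : B →* Equiv.Perm Ω) : Rdc π (Pmh ℤ_[p] π) := by
  intro x
  ext i j
  change PadicInt.toZMod ((Pm (π x) : Matrix Ω Ω ℤ_[p]) i j) = _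
  simp only [Pm, Matrix.of_apply]
  split_ifs
  · exact map_one _
  · exact map_zero _

end aux

/-- **Differences of congruent representations.** -/
theorem pDif : SDif := by
  intro p _ B _ Ω _ _ π ρ1 ρ2 n hn
  exact ⟨Dif_one π ρ1 ρ2 n, Dif_two π ρ1 ρ2 n hn, fun ρ3 D D' => Dif_three π ρ1 ρ2 ρ3 n D D',
    Dif_four π ρ1 ρ2 n, Dif_five π⟩

end Pool.Agent.Lib.MP_97567f_al.Pad
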