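import Pool.Agent.Lib.MP_97567f_al.Pad.Spec

set_option autoImplicit false

namespace Pool.Agent.Lib.MP_97567f_al.Pad

open Polynomial U

/-- A matrix which commutes with matrices `Y a` with a nonzero determinant of entries is a scalar. -/
private theorem Ext_scalar {O : Type} [CommRing O] [IsDomain O] {Ω : Type} [Fintype Ω] [DecidableEq Ω]
    (Y : Ω × Ω → Matrix Ω Ω O) (hd : (Matrix.of fun a b : Ω × Ω => Y a b.1 b.2).det ≠ 0)
    (C : Matrix Ω Ω O) (hC : ∀ a, C * Y a = Y a * C) : ∃ c : O, C = c • (1 : Matrix Ω Ω O) := by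
  set W : Matrix (Ω × Ω) (Ω × Ω) O := Matrix.of fun a b : Ω × Ω => Y a b.1 b.2 with hW
  have h1 : ∀ i0 j0 : Ω, ∑ a, W.adjugate (i0, j0) a • Y a = W.det • Matrix.single i0 j0 (1 : O) := by
    intro i0 j0
    ext i j
    have h2 := congrFun (congrFun (Matrix.adjugate_mul W) (i0, j0)) (i, j)
    rw [Matrix.mul_apply] at h2
    rw [Matrix.sum_apply]
    simp only [Matrix.smul_apply, smul_eq_mul] at h2 ⊢
    have h3 : ∀ a, Y a i j = W a (i, j) := fun a => rfl
    simp only [h3]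
    rw [h2, Matrix.one_apply, Matrix.single_apply]
    congr 1
    by_cases h : i0 = i ∧ j0 = j
    · rw [if_pos h, if_pos (by rw [h.1, h.2])]
    · rw [if_neg h, if_neg (fun h' => h (Prod.mk.inj h'))]
  have h4 : ∀ i0 j0 : Ω, i0 ≠ j0 → Commute (Matrix.single i0 j0 (1 : O)) C := by
    intro i0 j0 _
    have h5 : C * (W.det • Matrix.single i0 j0 (1 : O)) = (W.det • Matrix.single i0 j0 (1 : O)) * C := by
      rw [← h1, Finset.mul_sum, Finset.sum_mul]
      refine Finset.sum_congr rfl fun a _ => ?_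
      rw [Matrix.mul_smul, Matrix.smul_mul, hC]
    rw [Matrix.mul_smul, Matrix.smul_mul] at h5
    exact (smul_right_injective _ hd h5).symm
  obtain ⟨c, hc⟩ := Matrix.mem_range_scalar_of_commute_single h4
  refine ⟨c, ?_⟩
  rw [← hc, Matrix.scalar_apply, Matrix.smul_one_eq_diagonal]

private theorem Ext_det (p : ℕ) [Fact p.Prime] {n : Type} [Fintype n] [DecidableEq n] (N : ℕ)
    (X Y : Matrix n n ℤ_[p]) (h : ∀ i j, (p : ℤ_[p]) ^ N ∣ X i j - Y i j)
    (hY : ¬ (p : ℤ_[p]) ^ N ∣ Y.det) : X.det ≠ 0 := by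
  intro h0
  apply hY
  rw [← Ideal.mem_span_singleton, ← Ideal.Quotient.eq_zero_iff_mem]
  have h1 : X.map (Ideal.Quotient.mk (Ideal.span {(p : ℤ_[p]) ^ N})) =
      Y.map (Ideal.Quotient.mk (Ideal.span {(p : ℤ_[p]) ^ N})) := by
    ext i j
    simp only [Matrix.map_apply]
    rw [Ideal.Quotient.eq, Ideal.mem_span_singleton]
    exact h i j
  have h2 := congrArg Matrix.det h1
  rw [← RingHom.mapMatrix_apply, ← RingHom.mapMatrix_apply, ← RingHom.map_det, ← RingHom.map_det, h0,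
    map_zero] at h2
  exact h2.symm

theorem pExt : SExt := by
  intro p _ B _ Ω _ _ _ J Φ u hR θ0 hN x N h2N hdet A _ i r hF ρ' hρ'
  have hri := hF.ri
  have hcg : ∀ b, Cg p 2 ((ρ'.comp i) b) (Φ.rep ℤ_[p] θ0 b) := by
    intro b k l
    have h1 := hρ' (i b) k l
    rw [hri] at h1
    exact (pow_dvd_pow _ h2N).trans h1
  obtain ⟨θ, η, h, hθ, hη⟩ := hR θ0 hN (ρ'.comp i) hcg
  have hd : (Matrix.of fun a b : Ω × Ω => ρ' (i (x a)) b.1 b.2).det ≠ 0 := by
    refine Ext_det p N _ _ ?_ hdet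
    intro a b
    have h1 := hρ' (i (x a)) b.1 b.2
    rw [hri] at h1
    exact h1
  -- the elements of the kernel are scalars
  have hsc : ∀ a : A, r a = 1 → ∃ c : ℤ_[p], ρ' a = c • (1 : Matrix Ω Ω ℤ_[p]) := by
    intro a ha
    refine Ext_scalar (fun k => ρ' (i (x k))) hd (ρ' a) fun k => ?_
    rw [← map_mul, ← map_mul, hF.co a (x k) ha]
  have hker : ∀ y : A, r ((i (r y))⁻¹ * y) = 1 := by
    intro y
    rw [map_mul, map_inv, hri, inv_mul_cancel]
  let i0 : Ω := Classical.arbitrary Ω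
  have hval : ∀ y : A, ρ' ((i (r y))⁻¹ * y) =
      (ρ' ((i (r y))⁻¹ * y) i0 i0) • (1 : Matrix Ω Ω ℤ_[p]) := by
    intro y
    obtain ⟨c, hc⟩ := hsc _ (hker y)
    have h1 : ρ' ((i (r y))⁻¹ * y) i0 i0 = c := by
      rw [hc]
      simp
    rw [h1]
    exact hc
  have hmul : ∀ y z : A, (i (r (y * z)))⁻¹ * (y * z) = ((i (r y))⁻¹ * y) * ((i (r z))⁻¹ * z) := by
    intro y z
    have h1 := hF.co ((i (r y))⁻¹ * y) ((r z)⁻¹) (hker y)
    rw [map_inv] at h1
    calc (i (r (y * z)))⁻¹ * (y * z) = (i (r z))⁻¹ * ((i (r y))⁻¹ * y) * z := by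
          rw [map_mul, map_mul]
          group
      _ = ((i (r y))⁻¹ * y) * (i (r z))⁻¹ * z := by rw [h1]
      _ = ((i (r y))⁻¹ * y) * ((i (r z))⁻¹ * z) := by rw [mul_assoc]
  let e0 : A →* ℤ_[p] :=
    { toFun := fun y => ρ' ((i (r y))⁻¹ * y) i0 i0
      map_one' := by simp
      map_mul' := fun y z => by
        rw [hmul, map_mul, hval y, hval z]
        simp [mul_comm] }
  let e : A →* ℤ_[p]ˣ := e0.toHomUnits
  have he : ∀ y, ρ' ((i (r y))⁻¹ * y) = ((e y : ℤ_[p]ˣ) : ℤ_[p]) • (1 : Matrix Ω Ω ℤ_[p]) := by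
    intro y
    rw [hval y]
    rfl
  refine ⟨θ, (η.comp r) * e, h, hθ, fun y => ?_⟩
  have h1 : ρ' y = ρ' (i (r y)) * ρ' ((i (r y))⁻¹ * y) := by
    rw [← map_mul, mul_inv_cancel_left]
  have h2 := hη (r y)
  rw [MonoidHom.comp_apply] at h2
  rw [h1, he, Matrix.mul_smul, Matrix.mul_one, Matrix.smul_mul, h2, smul_smul, MonoidHom.mul_apply,
    MonoidHom.comp_apply, Units.val_mul, mul_comm]

end Pool.Agent.Lib.MP_97567f_al.Pad
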