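import Pool.Agent.Lib.MP_97567f_al.Pad.Spec

set_option autoImplicit false

namespace Pool.Agent.Lib.MP_97567f_al.Pad

open TrivSqZeroExt

private theorem Fam_dvd (p : ℕ) [Fact p.Prime] (m : ℕ) (a b : ℤ_[p]) :
    PadicInt.toZModPow m a = PadicInt.toZModPow m b ↔ (p : ℤ_[p]) ^ m ∣ a - b := by
  rw [← sub_eq_zero, ← map_sub, ← RingHom.mem_ker, PadicInt.ker_toZModPow, Ideal.mem_span_singleton]

private theorem Fam_p (p : ℕ) [Fact p.Prime] : PadicInt.toZMod (p : ℤ_[p]) = 0 := by
  rw [map_natCast, CharP.cast_eq_zero]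

private theorem Fam_mod (p : ℕ) [Fact p.Prime] (a b : ℤ_[p]) (h : (p : ℤ_[p]) ∣ a - b) :
    PadicInt.toZMod a = PadicInt.toZMod b := by
  obtain ⟨c, hc⟩ := h
  rw [← sub_eq_zero, ← map_sub, hc, map_mul, Fam_p, zero_mul]

/-- The unit `θ + c ε` of the dual numbers. -/
private def Fam_u {O : Type} [CommRing O] (θ : Oˣ) (c : O) : (DualNumber O)ˣ where
  val := inl (θ : O) + inr c
  inv := inl ((θ⁻¹ : Oˣ) : O) + inr (-(((θ⁻¹ : Oˣ) : O) * ((θ⁻¹ : Oˣ) : O) * c))
  val_inv := by
    ext
    · simp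
    · simp only [snd_mul, fst_add, fst_inl, fst_inr, add_zero, snd_add, snd_inl, snd_inr, zero_add,
        smul_eq_mul, MulOpposite.smul_eq_mul_unop, MulOpposite.unop_op, snd_one]
      have h := θ.mul_inv
      linear_combination (-(((θ⁻¹ : Oˣ) : O) * c)) * h
  inv_val := by
    ext
    · simp
    · simp only [snd_mul, fst_add, fst_inl, fst_inr, add_zero, snd_add, snd_inl, snd_inr, zero_add,
        smul_eq_mul, MulOpposite.smul_eq_mul_unop, MulOpposite.unop_op, snd_one]
      have h := θ.mul_inv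
      linear_combination (-(((θ⁻¹ : Oˣ) : O) * c)) * h

/-- The evaluation of the dual numbers at `p ^ n`, modulo `p ^ (n + 1)`. -/
private noncomputable def Fam_chi (p : ℕ) [Fact p.Prime] (n : ℕ) (hn : 1 ≤ n) :
    DualNumber ℤ_[p] →+* ZMod (p ^ (n + 1)) where
  toFun x := PadicInt.toZModPow (n + 1) (x.fst + (p : ℤ_[p]) ^ n * x.snd)
  map_one' := by simp
  map_zero' := by simp
  map_add' x y := by
    rw [← map_add]
    congr 1
    simp only [fst_add, snd_add]
    ring
  map_mul' x y := by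
    rw [← map_mul, Fam_dvd]
    obtain ⟨k, rfl⟩ : ∃ k, n = k + 1 := ⟨n - 1, by omega⟩
    refine ⟨-((p : ℤ_[p]) ^ k * (x.snd * y.snd)), ?_⟩
    simp only [fst_mul, snd_mul, smul_eq_mul, MulOpposite.smul_eq_mul_unop, MulOpposite.unop_op]
    ring

/-- The reduction modulo `p` of the dual numbers. -/
private noncomputable def Fam_del (p : ℕ) [Fact p.Prime] :
    DualNumber ℤ_[p] →+* DualNumber (ZMod p) where
  toFun x := inl (PadicInt.toZMod x.fst) + inr (PadicInt.toZMod x.snd)
  map_one' := by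
    ext <;> simp
  map_zero' := by
    ext <;> simp
  map_add' x y := by
    ext <;> simp
  map_mul' x y := by
    ext <;> simp

theorem pFam : SFam := by
  intro p _ B _ Ω _ _ J _ S Φ g π T
  refine ⟨?_, ?_⟩
  · intro θ θ' m h x i j
    have h1 : (fun j => Units.map (PadicInt.toZModPow m).toMonoidHom (θ j)) =
        fun j => Units.map (PadicInt.toZModPow m).toMonoidHom (θ' j) := by
      funext j
      apply Units.ext
      exact (Fam_dvd p m _ _).2 (h j)
    have h2 := Φ.nat _ _ (PadicInt.toZModPow m) θ x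
    rw [h1, Φ.nat _ _ (PadicInt.toZModPow m) θ' x] at h2
    have h3 := congrFun (congrFun h2 i) j
    simp only [Matrix.map_apply] at h3
    exact (Fam_dvd p m _ _).1 h3.symm
  · intro hW
    have hone : ∀ (R : Type) [CommRing R] (x : B), Φ.rep R 1 x = Pm (π x) := by
      intro R _ x
      have h2 := Φ.nat _ _ (Int.castRingHom R) 1 x
      rw [hW.one x] at h2
      have h3 : (fun j => Units.map (Int.castRingHom R).toMonoidHom ((1 : J → ℤˣ) j)) = 1 := by
        funext j
        apply Units.ext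
        simp
      rw [h3] at h2
      rw [h2]
      ext i j
      simp only [Pm, Matrix.map_apply, Matrix.of_apply]
      split_ifs <;> simp
    have hred : ∀ θ : J → ℤ_[p]ˣ, (∀ j, (p : ℤ_[p]) ∣ (θ j : ℤ_[p]) - 1) →
        Rdc π (Φ.rep ℤ_[p] θ) := by
      intro θ hθ x
      rw [← Φ.nat _ _ PadicInt.toZMod θ x]
      have h3 : (fun j => Units.map (PadicInt.toZMod (p := p)).toMonoidHom (θ j)) = 1 := by
        funext j
        apply Units.ext
        have h4 := Fam_mod p _ _ (hθ j)
        rw [map_one] at h4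
        exact h4
      rw [h3]
      exact hone _ x
    refine ⟨hred, MonoidHom.ext fun x => hone _ x, ?_⟩
    intro θ θ' n c hn hθ hθ'
    set θe : J → (DualNumber ℤ_[p])ˣ := fun j => Fam_u (θ j) (c j) with hθe
    -- the first component
    have hM0 : ∀ x, (Φ.rep (DualNumber ℤ_[p]) θe x).map (fun a => a.fst) = Φ.rep ℤ_[p] θ x := by
      intro x
      have h2 := Φ.nat _ _ (fstHom ℤ_[p] ℤ_[p] ℤ_[p]).toRingHom θe x
      have h3 : (fun j => Units.map (fstHom ℤ_[p] ℤ_[p] ℤ_[p]).toRingHom.toMonoidHom (θe j)) = θ := by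
        funext j
        apply Units.ext
        show ((θe j : (DualNumber ℤ_[p])ˣ) : DualNumber ℤ_[p]).fst = _
        simp [hθe, Fam_u]
      rw [h3] at h2
      exact h2.symm
    have hchi : ∀ x, ∃ W : Matrix Ω Ω ℤ_[p], Φ.rep ℤ_[p] θ' x = Φ.rep ℤ_[p] θ x +
        ((p : ℤ_[p]) ^ n) • ((Φ.rep (DualNumber ℤ_[p]) θe x).map (fun a => a.snd) + (p : ℤ_[p]) • W) := by
      intro x
      have h2 := Φ.nat _ _ (Fam_chi p n hn) θe x
      have h3 : (fun j => Units.map (Fam_chi p n hn).toMonoidHom (θe j)) =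
          fun j => Units.map (PadicInt.toZModPow (n + 1)).toMonoidHom (θ' j) := by
        funext j
        apply Units.ext
        show PadicInt.toZModPow (n + 1) (((θe j : (DualNumber ℤ_[p])ˣ) : DualNumber ℤ_[p]).fst +
          (p : ℤ_[p]) ^ n * ((θe j : (DualNumber ℤ_[p])ˣ) : DualNumber ℤ_[p]).snd) =
          PadicInt.toZModPow (n + 1) (θ' j : ℤ_[p])
        rw [hθ' j]
        simp [hθe, Fam_u]
      rw [h3, Φ.nat _ _ (PadicInt.toZModPow (n + 1)) θ' x] at h2
      have h4 : ∀ i j, ∃ w : ℤ_[p], Φ.rep ℤ_[p] θ' x i j = Φ.rep ℤ_[p] θ x i j +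
          (p : ℤ_[p]) ^ n * ((Φ.rep (DualNumber ℤ_[p]) θe x i j).snd + (p : ℤ_[p]) * w) := by
        intro i j
        have h5 : PadicInt.toZModPow (n + 1) (Φ.rep ℤ_[p] θ' x i j) =
            PadicInt.toZModPow (n + 1) ((Φ.rep (DualNumber ℤ_[p]) θe x i j).fst +
              (p : ℤ_[p]) ^ n * (Φ.rep (DualNumber ℤ_[p]) θe x i j).snd) :=
          congrFun (congrFun h2 i) j
        rw [Fam_dvd] at h5
        obtain ⟨w, hw⟩ := h5
        have h6 : (Φ.rep (DualNumber ℤ_[p]) θe x i j).fst = Φ.rep ℤ_[p] θ x i j :=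
          congrFun (congrFun (hM0 x) i) j
        rw [h6] at hw
        refine ⟨w, ?_⟩
        linear_combination hw
      choose W hW4 using h4
      refine ⟨Matrix.of W, ?_⟩
      ext i j
      simp only [Matrix.add_apply, Matrix.smul_apply, Matrix.map_apply, Matrix.of_apply, smul_eq_mul]
      exact hW4 i j
    refine ⟨fun x => ((Φ.rep (DualNumber ℤ_[p]) θe x).map (fun a => a.snd)).map PadicInt.toZMod *
      Pm (π x)⁻¹, ?_, ?_⟩
    · intro x
      obtain ⟨W, hW'⟩ := hchi x
      refine ⟨_, hW', ?_⟩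
      rw [Matrix.mul_assoc, ← Pm_mul, inv_mul_cancel, Pm_one, Matrix.mul_one]
      ext i j
      simp only [Matrix.map_apply, Matrix.add_apply, Matrix.smul_apply, smul_eq_mul, map_add, map_mul,
        Fam_p, zero_mul, add_zero]
    · intro s
      have h2 := Φ.nat _ _ (Fam_del p) θe (g s * g s)
      have h3 : (fun j => Units.map (Fam_del p).toMonoidHom (θe j)) =
          fun j => eu (PadicInt.toZMod (c j)) := by
        funext j
        apply Units.ext
        show inl (PadicInt.toZMod ((θe j : (DualNumber ℤ_[p])ˣ) : DualNumber ℤ_[p]).fst) +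
          inr (PadicInt.toZMod ((θe j : (DualNumber ℤ_[p])ˣ) : DualNumber ℤ_[p]).snd) =
          inl 1 + inr (PadicInt.toZMod (c j))
        have h4 := Fam_mod p _ _ (hθ j)
        rw [map_one] at h4
        simp [hθe, Fam_u, h4]
      rw [h3] at h2
      simp only
      rw [hW.sq s, inv_one, Pm_one, Matrix.mul_one]
      ext i j
      have h5 := hW.eps (fun j => PadicInt.toZMod (c j)) s i j
      rw [h2] at h5
      have h6 := congrArg TrivSqZeroExt.snd h5
      have h7 : (((Φ.rep (DualNumber ℤ_[p]) θe (g s * g s)).map (Fam_del p)) i j).snd =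
          PadicInt.toZMod ((Φ.rep (DualNumber ℤ_[p]) θe (g s * g s) i j).snd) := by
        show (inl (PadicInt.toZMod (Φ.rep (DualNumber ℤ_[p]) θe (g s * g s) i j).fst) +
          inr (PadicInt.toZMod (Φ.rep (DualNumber ℤ_[p]) θe (g s * g s) i j).snd) :
            DualNumber (ZMod p)).snd = _
        simp
      rw [h7] at h6
      simp only [Matrix.map_apply]
      rw [h6]
      simp

end Pool.Agent.Lib.MP_97567f_al.Pad
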