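import Pool.Agent.Lib.MP_97567f_al.Pad.Spec

/-!
# MP_97567f_al: finitely many homomorphisms to a finite group
-/

set_option autoImplicit false

namespace Pool.Agent.Lib.MP_97567f_al.Pad

/-- **Finitely many homomorphisms.** -/
theorem pHom : SHom := by
  intro A _ hA G _ _
  obtain ⟨S, hS⟩ := (Group.fg_def.1 hA)
  have hinj : Function.Injective (fun (τ : A →* G) (s : S) => τ s) := by
    intro τ τ' h
    refine MonoidHom.eq_of_eqOn_dense (s := (S : Set A)) hS ?_
    intro s hs
    exact congrFun h ⟨s, hs⟩
  have hfin : Finite (A →* G) := Finite.of_injective _ hinj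
  let act : MulAut A →* Equiv.Perm (A →* G) :=
    { toFun := fun α =>
        { toFun := fun τ => τ.comp (α⁻¹ : MulAut A).toMonoidHom
          invFun := fun τ => τ.comp α.toMonoidHom
          left_inv := by
            intro τ
            ext x
            show τ ((α⁻¹ : MulAut A) (α x)) = τ x
            rw [MulAut.inv_apply_self]
          right_inv := by
            intro τ
            ext x
            show τ (α ((α⁻¹ : MulAut A) x)) = τ x
            rw [MulAut.apply_inv_self] }
      map_one' := by
        ext τ x
        rfl
      map_mul' := by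
        intro α β
        ext τ x
        show τ ((α * β)⁻¹ x) = τ (β⁻¹ (α⁻¹ x))
        rw [mul_inv_rev]
        rfl }
  have hk : act.ker.FiniteIndex := inferInstance
  refine ⟨act.ker, hk, fun α hα τ x => ?_⟩
  have h1 : act α = 1 := hα
  have h2 : (act α) τ = τ := by rw [h1]; rfl
  have h3 : τ ((α⁻¹ : MulAut A) (α x)) = τ (α x) :=
    congrArg (fun σ : A →* G => σ (α x)) h2
  rw [MulAut.inv_apply_self] at h3
  exact h3.symm

end Pool.Agent.Lib.MP_97567f_al.Pad
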