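import Pool.Agent.Lib.MP_97567f_al.Pad.Spec

/-!
# MP_97567f_al: the change of the parameters of a twist by an automorphism is injective
-/

set_option autoImplicit false

namespace Pool.Agent.Lib.MP_97567f_al.Pad

open Polynomial U

/-- The characteristic polynomial of a multiple is determined by the characteristic polynomial. -/
private lemma Inj_scale {R : Type} [CommRing R] [IsDomain R] [Infinite R] {ι : Type} [Fintype ι]
    [DecidableEq ι] (M M' : Matrix ι ι R) (c : Rˣ) (h : M.charpoly = M'.charpoly) :
    ((c : R) • M).charpoly = ((c : R) • M').charpoly := by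
  apply Polynomial.funext
  intro t
  have key : ∀ N : Matrix ι ι R, (((c : R) • N).charpoly).eval t =
      (c : R) ^ Fintype.card ι * (N.charpoly).eval (((c⁻¹ : Rˣ) : R) * t) := by
    intro N
    rw [Matrix.eval_charpoly, Matrix.eval_charpoly, ← Matrix.det_smul]
    congr 1
    rw [smul_sub]
    congr 1
    ext i j
    simp only [Matrix.scalar_apply, Matrix.smul_apply, Matrix.diagonal_apply, smul_eq_mul]
    split_ifs
    · rw [← mul_assoc, Units.mul_inv, one_mul]
    · simp
  rw [key, key, h]

/-- Conjugation. -/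
private lemma Inj_conj {F : Type} [CommRing F] {ι : Type} [Fintype ι] [DecidableEq ι] (g : GL ι F)
    (N : Matrix ι ι F) : (g.1 * N * (g⁻¹).1).charpoly = N.charpoly := by
  rw [Matrix.coe_units_inv]
  exact Matrix.charpoly_units_conj g N

/-- The characteristic polynomials of a twist. -/
private lemma Inj_tw {A : Type} [Group A] {R : Type} [CommRing R] [IsDomain R] {ι : Type}
    [Fintype ι] [DecidableEq ι] (M N : Matrix ι ι R) (c : R) (g : GL ι (FractionRing R))
    (h : M.map (algebraMap R (FractionRing R)) = (algebraMap R (FractionRing R) c) •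
      (g.1 * N.map (algebraMap R (FractionRing R)) * (g⁻¹).1)) :
    M.charpoly = (c • N).charpoly := by
  apply Polynomial.map_injective (algebraMap R (FractionRing R))
    (IsFractionRing.injective R (FractionRing R))
  rw [← Matrix.charpoly_map, ← Matrix.charpoly_map]
  have e1 : (c • N).map (algebraMap R (FractionRing R)) =
      (algebraMap R (FractionRing R) c) • N.map (algebraMap R (FractionRing R)) := by
    ext i j
    simp
  have e2 : (algebraMap R (FractionRing R) c) •
      (g.1 * N.map (algebraMap R (FractionRing R)) * (g⁻¹).1) =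
      g.1 * ((algebraMap R (FractionRing R) c) • N.map (algebraMap R (FractionRing R))) *
        (g⁻¹).1 := by
    rw [Matrix.mul_smul, Matrix.smul_mul]
  rw [h, e1, e2]
  exact Inj_conj g _

/-- Change of the parameters of a multiple. -/
private lemma Inj_map {R : Type} [CommRing R] [Algebra ℂ R] {ι : Type} (η : R →ₐ[ℂ] R)
    (M : Matrix ι ι R) (c : R) : (c • M).map η = η c • M.map η := by
  ext i j
  simp

theorem pInj : SInj := by
  intro A _ R _ _ _ ι _ _ ρ hU α θ η h1 h2
  obtain ⟨χ, g, hχ⟩ := h1
  obtain ⟨χ', g', hχ'⟩ := h2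
  have : Infinite R := Infinite.of_injective (algebraMap ℂ R) (algebraMap ℂ R).injective
  have a1 : ∀ x, (ρ (α x)).1.charpoly = ((χ x : R) • (ρ x).1.map θ).charpoly := fun x =>
    Inj_tw (A := A) _ _ _ g (hχ x)
  have a2 : ∀ x, (ρ (α⁻¹ x)).1.charpoly = ((χ' x : R) • (ρ x).1.map η).charpoly := fun x =>
    Inj_tw (A := A) _ _ _ g' (hχ' x)
  have a3 : η.comp θ = AlgHom.id ℂ R := by
    refine hU (η.comp θ) ((χ'.comp α.toMonoidHom) * ((Units.map (η : R →* R)).comp χ)) ?_
    intro x
    have b1 : (ρ x).1.charpoly = ((χ' (α x) : R) • (ρ (α x)).1.map η).charpoly := by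
      rw [← a2 (α x)]
      congr 3
      exact (MulAut.inv_apply_self A α x).symm
    have b2 : ((ρ (α x)).1.map η).charpoly =
        (((χ x : R) • (ρ x).1.map θ).map η).charpoly := by
      have e1 := Matrix.charpoly_map (ρ (α x)).1 (η : R →+* R)
      have e2 := Matrix.charpoly_map ((χ x : R) • (ρ x).1.map θ) (η : R →+* R)
      rw [← a1 x] at e2
      exact e1.trans e2.symm
    rw [b1, Inj_scale _ _ (χ' (α x)) b2, Inj_map]
    congr 1
    rw [smul_smul]
    rfl
  refine ⟨?_, χ, g, hχ⟩
  intro a b hab
  have := congrArg η hab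
  have c1 : ∀ r, η (θ r) = r := fun r => by
    have := congrArg (fun f : R →ₐ[ℂ] R => f r) a3
    exact this
  rw [c1, c1] at this
  exact this

end Pool.Agent.Lib.MP_97567f_al.Pad
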