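import Pool.Agent.Lib.MP_97567f_al.Pad.Spec

/-!
# MP_97567f_al: irreducibility at the generic point
-/

set_option autoImplicit false

namespace Pool.Agent.Lib.MP_97567f_al.Pad

open U

private theorem Irp_repr {Ω : Type} [Fintype Ω] [DecidableEq Ω] {K : Type} [Field K]
    (M : Matrix Ω Ω K) (i : Ω × Ω) : (Matrix.stdBasis K Ω Ω).repr M i = M i.1 i.2 := by
  have h : M = ∑ j : Ω × Ω, M j.1 j.2 • Matrix.stdBasis K Ω Ω j := by
    rw [Fintype.sum_prod_type]
    conv_lhs => rw [Matrix.matrix_eq_sum_single M]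
    refine Finset.sum_congr rfl fun a _ => Finset.sum_congr rfl fun b _ => ?_
    rw [Matrix.stdBasis_eq_single, Matrix.smul_single, smul_eq_mul, mul_one]
  conv_lhs => rw [h]
  rw [Module.Basis.repr_sum_self]

/-- The matrices of suitable elements are a basis. -/
private theorem Irp_basis {B : Type} {Ω : Type} [Fintype Ω] [DecidableEq Ω] {K : Type} [Field K]
    (v : B → Matrix Ω Ω K) (h : Submodule.span K (Set.range v) = ⊤) :
    ∃ x : Ω × Ω → B, (Matrix.of fun a b : Ω × Ω => v (x a) b.1 b.2).det ≠ 0 := by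
  obtain ⟨κ, a, _, hsp, hli⟩ := exists_linearIndependent' K v
  let bas : Module.Basis κ K (Matrix Ω Ω K) := Module.Basis.mk hli (by rw [hsp, h])
  let e := bas.indexEquiv (Matrix.stdBasis K Ω Ω)
  let bas' := bas.reindex e
  refine ⟨fun i => a (e.symm i), ?_⟩
  have hb : ∀ i, bas' i = v (a (e.symm i)) := by
    intro i
    simp [bas', bas]
  have hu := (Matrix.stdBasis K Ω Ω).isUnit_det bas'
  rw [Module.Basis.det_apply] at hu
  have hM : (Matrix.of fun a' b : Ω × Ω => v (a (e.symm a')) b.1 b.2) =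
      ((Matrix.stdBasis K Ω Ω).toMatrix bas').transpose := by
    ext i j
    rw [Matrix.transpose_apply, Module.Basis.toMatrix_apply, hb, Irp_repr]
    rfl
  rw [hM, Matrix.det_transpose]
  exact hu.ne_zero

/-- The determinant is natural. -/
private theorem Irp_map {B : Type} [Group B] {Ω : Type} [Fintype Ω] [DecidableEq Ω] {k : ℕ}
    (Φ : NFam B Ω (Fin k)) (R R' : Type) [CommRing R] [CommRing R'] (f : R →+* R')
    (θ : Fin k → Rˣ) (θ' : Fin k → R'ˣ) (h : ∀ j, f (θ j) = θ' j) (x : Ω × Ω → B) :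
    f (Matrix.of fun a b : Ω × Ω => Φ.rep R θ (x a) b.1 b.2).det =
      (Matrix.of fun a b : Ω × Ω => Φ.rep R' θ' (x a) b.1 b.2).det := by
  have h1 : (fun j => Units.map f.toMonoidHom (θ j)) = θ' := by
    funext j
    refine Units.ext ?_
    exact h j
  rw [RingHom.map_det]
  congr 1
  ext a b
  have h2 := Φ.nat R R' f θ (x a)
  rw [h1] at h2
  simp [h2]

theorem pIrp (h1 : SLau) : SIrp := by
  intro p _ B _ Ω _ _ k Φ R _ _ _ t ρ hρ hsp θ0 hθ0
  obtain ⟨x, hx⟩ := Irp_basis (fun y => mK ρ y) hsp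
  refine ⟨x, fun h0 => hx ?_⟩
  obtain ⟨L, _, _, _, _, t', hL⟩ := h1 k
  let _ : Algebra ℚ R := ((algebraMap ℂ R).comp (algebraMap ℚ ℂ)).toAlgebra
  obtain ⟨φ, hφ, -⟩ := hL R t
  obtain ⟨ψ, hψ, hinj⟩ := hL ℚ_[p] fun j => Units.map (PadicInt.Coe.ringHom (p := p)).toMonoidHom
    (θ0 j)
  have hψi : Function.Injective ψ := hinj hθ0
  -- over `ℚ_[p]` the determinant is zero
  have e1 := Irp_map Φ ℤ_[p] ℚ_[p] (PadicInt.Coe.ringHom (p := p)) θ0
    (fun j => Units.map (PadicInt.Coe.ringHom (p := p)).toMonoidHom (θ0 j)) (fun j => rfl) x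
  rw [h0, map_zero] at e1
  have e2 := Irp_map Φ L ℚ_[p] (ψ : L →+* ℚ_[p]) t'
    (fun j => Units.map (PadicInt.Coe.ringHom (p := p)).toMonoidHom (θ0 j)) (fun j => hψ j) x
  rw [← e1] at e2
  have e3 : (Matrix.of fun a b : Ω × Ω => Φ.rep L t' (x a) b.1 b.2).det = 0 :=
    hψi (by rw [map_zero]; exact e2)
  have e4 := Irp_map Φ L R (φ : L →+* R) t' t (fun j => hφ j) x
  rw [e3, map_zero] at e4
  have e5 : (Matrix.of fun a b : Ω × Ω => mK ρ (x a) b.1 b.2) =
      (algebraMap R (FractionRing R)).mapMatrix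
        (Matrix.of fun a b : Ω × Ω => Φ.rep R t (x a) b.1 b.2) := by
    ext a b
    simp [mK, hρ]
  rw [e5, ← RingHom.map_det, ← e4, map_zero]

end Pool.Agent.Lib.MP_97567f_al.Pad
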