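import Pool.Agent.Lib.MP_97567f_al.Pad.Spec

/-!
# MP_97567f_al: Laurent polynomials over the rational numbers
-/

set_option autoImplicit false

namespace Pool.Agent.Lib.MP_97567f_al.Pad

open MvPolynomial

private theorem Lau_ne (k : ℕ) : (∏ j, X j : MvPolynomial (Fin k) ℚ) ≠ 0 :=
  Finset.prod_ne_zero_iff.2 fun j _ => X_ne_zero j

private theorem Lau_le (k : ℕ) :
    Submonoid.powers (∏ j, X j : MvPolynomial (Fin k) ℚ) ≤ nonZeroDivisors _ :=
  powers_le_nonZeroDivisors_of_noZeroDivisors (Lau_ne k)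

private theorem Lau_unit (k : ℕ) (j : Fin k) :
    IsUnit (algebraMap (MvPolynomial (Fin k) ℚ)
      (Localization.Away (∏ j, X j : MvPolynomial (Fin k) ℚ)) (X j)) := by
  have h : IsUnit (algebraMap (MvPolynomial (Fin k) ℚ)
      (Localization.Away (∏ j, X j : MvPolynomial (Fin k) ℚ)) (∏ j, X j)) :=
    IsLocalization.Away.algebraMap_isUnit _
  exact isUnit_of_dvd_unit (map_dvd _ (Finset.dvd_prod_of_mem _ (Finset.mem_univ j))) h

theorem pLau : SLau := by
  intro k
  refine ⟨Localization.Away (∏ j, X j : MvPolynomial (Fin k) ℚ), inferInstance,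
    IsLocalization.isDomain_localization (Lau_le k),
    isIntegrallyClosed_of_isLocalization _ (Submonoid.powers
      (∏ j, X j : MvPolynomial (Fin k) ℚ)) (Lau_le k), inferInstance,
    fun j => (Lau_unit k j).unit, ?_⟩
  intro F _ _ θ
  let ψ : MvPolynomial (Fin k) ℚ →ₐ[ℚ] F := aeval fun j => (θ j : F)
  have h1 : IsUnit (ψ (∏ j, X j)) := by
    rw [map_prod]
    simp only [ψ, aeval_X]
    exact IsUnit.prod_univ_iff.2 fun j => (θ j).isUnit
  have h2 : ∀ y : Submonoid.powers (∏ j, X j : MvPolynomial (Fin k) ℚ), IsUnit (ψ y) := by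
    rintro ⟨_, n, rfl⟩
    rw [map_pow]
    exact h1.pow n
  refine ⟨IsLocalization.liftAlgHom
    (M := Submonoid.powers (∏ j, X j : MvPolynomial (Fin k) ℚ)) (f := ψ) h2, ?_, ?_⟩
  · intro j
    rw [IsUnit.unit_spec, IsLocalization.liftAlgHom_apply]
    simp [ψ]
  · intro hθ
    rw [injective_iff_map_eq_zero]
    intro z hz
    obtain ⟨a, m, rfl⟩ := IsLocalization.exists_mk'_eq
      (Submonoid.powers (∏ j, X j : MvPolynomial (Fin k) ℚ)) z
    have h3 := congrArg (fun w => w * ψ (m : MvPolynomial (Fin k) ℚ)) hz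
    simp only [zero_mul] at h3
    have h4 : IsLocalization.liftAlgHom
        (M := Submonoid.powers (∏ j, X j : MvPolynomial (Fin k) ℚ)) (f := ψ) h2
        (IsLocalization.mk' (Localization.Away (∏ j, X j : MvPolynomial (Fin k) ℚ)) a m) *
        ψ (m : MvPolynomial (Fin k) ℚ) = ψ a := by
      have e1 : ψ (m : MvPolynomial (Fin k) ℚ) = IsLocalization.liftAlgHom
          (M := Submonoid.powers (∏ j, X j : MvPolynomial (Fin k) ℚ)) (f := ψ) h2
          (algebraMap (MvPolynomial (Fin k) ℚ)
            (Localization.Away (∏ j, X j : MvPolynomial (Fin k) ℚ)) (m : MvPolynomial (Fin k) ℚ)) := by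
        rw [IsLocalization.liftAlgHom_apply]
        simp
      have e2 : ψ a = IsLocalization.liftAlgHom
          (M := Submonoid.powers (∏ j, X j : MvPolynomial (Fin k) ℚ)) (f := ψ) h2
          (algebraMap (MvPolynomial (Fin k) ℚ)
            (Localization.Away (∏ j, X j : MvPolynomial (Fin k) ℚ)) a) := by
        rw [IsLocalization.liftAlgHom_apply]
        simp
      rw [e1, e2, ← map_mul, IsLocalization.mk'_spec]
    rw [h4] at h3
    have h5 : a = 0 := hθ (by rw [map_zero]; exact h3)
    rw [h5, IsLocalization.mk'_zero]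

end Pool.Agent.Lib.MP_97567f_al.Pad
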