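import Pool.Agent.Lib.MP_97567f_al.Pad.Spec

/-!
# MP_97567f_al: rigidity by deformation over the p-adic integers: the p-adic limit
-/

set_option autoImplicit false

namespace Pool.Agent.Lib.MP_97567f_al.Pad

section basic

set_option linter.unusedSectionVars false

variable {p : ℕ} [Fact p.Prime] {Ω : Type} [Fintype Ω] [DecidableEq Ω]

private theorem Lim_unit {x : ℤ_[p]} (hx : (p : ℤ_[p]) ∣ x - 1) : IsUnit x := by
  by_contra h
  have h2 : x ∈ IsLocalRing.maximalIdeal ℤ_[p] := h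
  rw [PadicInt.maximalIdeal_eq_span_p, Ideal.mem_span_singleton] at h2
  have h3 : (p : ℤ_[p]) ∣ 1 := by
    have := dvd_sub h2 hx
    simpa using this
  exact PadicInt.prime_p.not_isUnit (isUnit_of_dvd_one h3)

private theorem Lim_refl (n : ℕ) (X : Matrix Ω Ω ℤ_[p]) : Cg p n X X := by
  intro i j
  rw [sub_self]
  exact dvd_zero _

private theorem Lim_symm {n : ℕ} {X Y : Matrix Ω Ω ℤ_[p]} (h : Cg p n X Y) : Cg p n Y X := by
  intro i j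
  have := h i j
  rwa [dvd_sub_comm]

private theorem Lim_trans {n : ℕ} {X Y Z : Matrix Ω Ω ℤ_[p]} (h : Cg p n X Y)
    (h' : Cg p n Y Z) : Cg p n X Z := by
  intro i j
  have := dvd_add (h i j) (h' i j)
  rwa [sub_add_sub_cancel] at this

private theorem Lim_mono {m n : ℕ} (hmn : m ≤ n) {X Y : Matrix Ω Ω ℤ_[p]} (h : Cg p n X Y) :
    Cg p m X Y := fun i j => (pow_dvd_pow _ hmn).trans (h i j)

private theorem Lim_mul {n : ℕ} {X Y X' Y' : Matrix Ω Ω ℤ_[p]} (h : Cg p n X Y)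
    (h' : Cg p n X' Y') : Cg p n (X * X') (Y * Y') := by
  intro i j
  rw [Matrix.mul_apply, Matrix.mul_apply, ← Finset.sum_sub_distrib]
  apply Finset.dvd_sum
  intro k _
  have e : X i k * X' k j - Y i k * Y' k j = (X i k - Y i k) * X' k j +
      Y i k * (X' k j - Y' k j) := by ring
  rw [e]
  exact dvd_add (Dvd.dvd.mul_right (h i k) _) (Dvd.dvd.mul_left (h' k j) _)

private theorem Lim_isUnit {k : Matrix Ω Ω ℤ_[p]} (hk : Cg p 1 k 1) : IsUnit k := by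
  rw [Matrix.isUnit_iff_isUnit_det]
  by_contra h
  have h2 : k.det ∈ IsLocalRing.maximalIdeal ℤ_[p] := h
  rw [← PadicInt.ker_toZMod] at h2
  have h3 : PadicInt.toZMod k.det = (0 : ZMod p) := h2
  have h4 : PadicInt.toZMod k.det = (k.map PadicInt.toZMod).det := by
    rw [RingHom.map_det]
    rfl
  have h5 : k.map PadicInt.toZMod = (1 : Matrix Ω Ω (ZMod p)) := by
    ext i j
    obtain ⟨y, hy⟩ := hk i j
    have e : k i j = (1 : Matrix Ω Ω ℤ_[p]) i j + (p : ℤ_[p]) ^ 1 * y := by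
      rw [← hy]; ring
    rw [Matrix.map_apply, e, map_add, map_mul, map_pow, map_natCast, ZMod.natCast_self, pow_one,
      zero_mul, add_zero]
    simp [Matrix.one_apply, apply_ite]
  rw [h4, h5, Matrix.det_one] at h3
  exact one_ne_zero h3

private theorem Lim_seq (a : ℕ → ℤ_[p]) (ha : ∀ m, (p : ℤ_[p]) ^ (m + 1) ∣ a (m + 1) - a m) :
    ∃ l : ℤ_[p], ∀ m, (p : ℤ_[p]) ^ (m + 1) ∣ l - a m := by
  have hp1 : 1 < (p : ℝ) := by exact_mod_cast (Fact.out : p.Prime).one_lt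
  have hc : CauchySeq a := by
    apply cauchySeq_of_le_geometric ((p : ℝ)⁻¹) 1 (inv_lt_one_of_one_lt₀ hp1)
    intro m
    have h1 : a (m + 1) - a m ∈ (Ideal.span {(p : ℤ_[p]) ^ (m + 1)} : Ideal ℤ_[p]) :=
      Ideal.mem_span_singleton.mpr (ha m)
    rw [← PadicInt.norm_le_pow_iff_mem_span_pow] at h1
    rw [dist_comm, dist_eq_norm, one_mul]
    refine h1.trans ?_
    rw [zpow_neg, zpow_natCast, inv_pow]
    apply inv_anti₀ (by positivity)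
    exact pow_le_pow_right₀ hp1.le (Nat.le_succ m)
  obtain ⟨l, hl⟩ := cauchySeq_tendsto_of_complete hc
  refine ⟨l, fun m => ?_⟩
  have hk : ∀ k, m ≤ k → (p : ℤ_[p]) ^ (m + 1) ∣ a k - a m := by
    intro k hk
    induction k, hk using Nat.le_induction with
    | base => rw [sub_self]; exact dvd_zero _
    | succ k hk ih =>
      have h1 : (p : ℤ_[p]) ^ (m + 1) ∣ a (k + 1) - a k :=
        (pow_dvd_pow _ (by omega)).trans (ha k)
      have := dvd_add h1 ih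
      rwa [sub_add_sub_cancel] at this
  rw [← Ideal.mem_span_singleton, ← PadicInt.norm_le_pow_iff_mem_span_pow]
  have ht : Filter.Tendsto (fun k => ‖a k - a m‖) Filter.atTop (nhds ‖l - a m‖) :=
    (hl.sub_const (a m)).norm
  refine le_of_tendsto ht ?_
  filter_upwards [Filter.eventually_ge_atTop m] with k hmk
  rw [PadicInt.norm_le_pow_iff_mem_span_pow, Ideal.mem_span_singleton]
  exact hk k hmk

private theorem Lim_zero {x : ℤ_[p]} (hx : ∀ n : ℕ, (p : ℤ_[p]) ^ (n + 1) ∣ x) : x = 0 := by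
  by_contra h
  obtain ⟨n, hn⟩ := FiniteMultiplicity.of_not_isUnit PadicInt.prime_p.not_isUnit h
  exact hn (hx n)

private theorem Lim_near {J : Type} {u : J → ZMod p} {θ θ0 : J → ℤ_[p]ˣ} (h0 : Near p u θ0)
    (h : ∀ j, (p : ℤ_[p]) ^ 2 ∣ (θ j : ℤ_[p]) - θ0 j) : Near p u θ := by
  intro j
  obtain ⟨y, hy, hyu⟩ := h0 j
  obtain ⟨z, hz⟩ := h j
  refine ⟨y + (p : ℤ_[p]) * z, ?_, ?_⟩
  · have : (θ j : ℤ_[p]) = θ0 j + (p : ℤ_[p]) ^ 2 * z := by rw [← hz]; ring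
    rw [this, hy]
    ring
  · rw [map_add, map_mul, map_natCast, ZMod.natCast_self, zero_mul, add_zero, hyu]

end basic

theorem pLim (h1 : SFam) (h2 : SStp) : SLim := by
  intro p _ B _ Ω _ _ J _ S Φ g π T u hW hC θ0 hθ0 ρ' hρ'
  classical
  obtain ⟨fam1, _⟩ := h1 p B Ω J S Φ g π T
  have hstp := h2 p B Ω J S Φ g π T u hW hC
  -- the step
  have step : ∀ (m : ℕ) (θ : J → ℤ_[p]ˣ) (h : Matrix Ω Ω ℤ_[p]),
      ((∀ j, (p : ℤ_[p]) ^ 2 ∣ (θ j : ℤ_[p]) - θ0 j) ∧ Cg p 1 h 1 ∧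
        ∀ x, Cg p (m + 2) (ρ' x * h) (h * Φ.rep ℤ_[p] θ x)) →
      ∃ (θ' : J → ℤ_[p]ˣ) (h' : Matrix Ω Ω ℤ_[p]),
        ((∀ j, (p : ℤ_[p]) ^ 2 ∣ (θ' j : ℤ_[p]) - θ0 j) ∧ Cg p 1 h' 1 ∧
        ∀ x, Cg p (m + 1 + 2) (ρ' x * h') (h' * Φ.rep ℤ_[p] θ' x)) ∧
        (∀ j, (p : ℤ_[p]) ^ (m + 2) ∣ (θ' j : ℤ_[p]) - θ j) ∧ Cg p (m + 1) h' h := by
    rintro m θ h ⟨hθ, hh, hx⟩
    obtain ⟨hu, rfl⟩ := Lim_isUnit hh
    let ρ2 : B →* Matrix Ω Ω ℤ_[p] :=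
      { toFun := fun x => (hu⁻¹ : (Matrix Ω Ω ℤ_[p])ˣ) * ρ' x * hu
        map_one' := by
          rw [map_one, Matrix.mul_one, Units.inv_mul]
        map_mul' := by
          intro x y
          rw [map_mul]
          have e : (hu : Matrix Ω Ω ℤ_[p]) * (hu⁻¹ : (Matrix Ω Ω ℤ_[p])ˣ) = 1 := Units.mul_inv hu
          calc ((hu⁻¹ : (Matrix Ω Ω ℤ_[p])ˣ) : Matrix Ω Ω ℤ_[p]) * (ρ' x * ρ' y) * hu
              = (hu⁻¹ : (Matrix Ω Ω ℤ_[p])ˣ) * ρ' x * 1 * ρ' y * hu := by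
                rw [Matrix.mul_one]; simp only [Matrix.mul_assoc]
            _ = _ := by rw [← e]; simp only [Matrix.mul_assoc] }
    have hρ2 : ∀ x, (hu : Matrix Ω Ω ℤ_[p]) * ρ2 x = ρ' x * hu := by
      intro x
      change (hu : Matrix Ω Ω ℤ_[p]) * ((hu⁻¹ : (Matrix Ω Ω ℤ_[p])ˣ) * ρ' x * hu) = _
      rw [← Matrix.mul_assoc, ← Matrix.mul_assoc, Units.mul_inv, Matrix.one_mul]
    have hc2 : ∀ x, Cg p (m + 2) (ρ2 x) (Φ.rep ℤ_[p] θ x) := by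
      intro x
      have e1 := Lim_mul (Lim_refl (m + 2) ((hu⁻¹ : (Matrix Ω Ω ℤ_[p])ˣ) : Matrix Ω Ω ℤ_[p])) (hx x)
      rw [← Matrix.mul_assoc, ← Matrix.mul_assoc, Units.inv_mul, Matrix.one_mul] at e1
      exact e1
    obtain ⟨θ', k, hθ', hk, hkx⟩ := hstp (m + 2) (by omega) θ (Lim_near hθ0 hθ) ρ2 hc2
    have hk' : Cg p (m + 1) k 1 := hk
    refine ⟨θ', hu * k, ⟨?_, ?_, ?_⟩, hθ', ?_⟩
    · intro j
      have e1 : (p : ℤ_[p]) ^ 2 ∣ (θ' j : ℤ_[p]) - θ j :=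
        (pow_dvd_pow _ (by omega)).trans (hθ' j)
      have := dvd_add e1 (hθ j)
      rwa [sub_add_sub_cancel] at this
    · have := Lim_mul hh (Lim_mono (by omega : 1 ≤ m + 1) hk')
      rwa [Matrix.mul_one] at this
    · intro x
      have e1 := Lim_mul (Lim_refl (m + 2 + 1) (hu : Matrix Ω Ω ℤ_[p])) (hkx x)
      rw [← Matrix.mul_assoc, hρ2 x, Matrix.mul_assoc, ← Matrix.mul_assoc (hu : Matrix Ω Ω ℤ_[p]) k]
        at e1
      exact e1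
    · have := Lim_mul (Lim_refl (m + 1) (hu : Matrix Ω Ω ℤ_[p])) hk'
      rwa [Matrix.mul_one] at this
  -- the sequence
  let Pr : ℕ → (J → ℤ_[p]ˣ) × Matrix Ω Ω ℤ_[p] → Prop := fun m s =>
    (∀ j, (p : ℤ_[p]) ^ 2 ∣ (s.1 j : ℤ_[p]) - θ0 j) ∧ Cg p 1 s.2 1 ∧
        ∀ x, Cg p (m + 2) (ρ' x * s.2) (s.2 * Φ.rep ℤ_[p] s.1 x)
  have step' : ∀ (m : ℕ) (s : (J → ℤ_[p]ˣ) × Matrix Ω Ω ℤ_[p]), Pr m s →
      ∃ s', Pr (m + 1) s' ∧ (∀ j, (p : ℤ_[p]) ^ (m + 2) ∣ (s'.1 j : ℤ_[p]) - s.1 j) ∧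
        Cg p (m + 1) s'.2 s.2 := by
    rintro m ⟨θ, h⟩ hs
    obtain ⟨θ', h', a1, a2, a3⟩ := step m θ h hs
    exact ⟨(θ', h'), a1, a2, a3⟩
  choose nx hnx1 hnx2 hnx3 using step'
  have h0 : Pr 0 (θ0, 1) := by
    refine ⟨fun j => ?_, Lim_refl _ _, fun x => ?_⟩
    · simp
    · simp only [Matrix.mul_one, Matrix.one_mul]
      exact hρ' x
  let sq : (m : ℕ) → {s // Pr m s} := fun m =>
    Nat.rec (motive := fun m => {s // Pr m s}) ⟨(θ0, 1), h0⟩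
      (fun m s => ⟨nx m s.1 s.2, hnx1 m s.1 s.2⟩) m
  have hsq : ∀ m, (sq (m + 1)).1 = nx m (sq m).1 (sq m).2 := fun m => rfl
  have hθs : ∀ m j, (p : ℤ_[p]) ^ (m + 2) ∣ ((sq (m + 1)).1.1 j : ℤ_[p]) - (sq m).1.1 j := by
    intro m j
    rw [hsq m]
    exact hnx2 m (sq m).1 (sq m).2 j
  have hhs : ∀ m, Cg p (m + 1) (sq (m + 1)).1.2 (sq m).1.2 := by
    intro m
    rw [hsq m]
    exact hnx3 m (sq m).1 (sq m).2
  have hP : ∀ m, Pr m (sq m).1 := fun m => (sq m).2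
  -- the limits
  have hlθ : ∀ j, ∃ l : ℤ_[p], ∀ m, (p : ℤ_[p]) ^ (m + 1) ∣ l - ((sq m).1.1 j : ℤ_[p]) := by
    intro j
    exact Lim_seq (fun m => ((sq m).1.1 j : ℤ_[p])) fun m =>
      (pow_dvd_pow _ (by omega)).trans (hθs m j)
  choose l hl using hlθ
  have hlh : ∀ i j, ∃ l : ℤ_[p], ∀ m, (p : ℤ_[p]) ^ (m + 1) ∣ l - (sq m).1.2 i j := by
    intro i j
    exact Lim_seq (fun m => (sq m).1.2 i j) fun m => hhs m i j
  choose H hH using hlh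
  have hl2 : ∀ j, (p : ℤ_[p]) ^ 2 ∣ l j - θ0 j := by
    intro j
    have := dvd_add (hl j 1) ((hP 1).1 j)
    rwa [sub_add_sub_cancel] at this
  have hlu : ∀ j, ∃ v : ℤ_[p]ˣ, (v : ℤ_[p]) = l j := by
    intro j
    have hu : IsUnit (l j) := by
      apply Lim_unit
      obtain ⟨y, hy, _⟩ := hθ0 j
      have e1 : (p : ℤ_[p]) ∣ (θ0 j : ℤ_[p]) - 1 := ⟨y, by rw [hy]; ring⟩
      have e2 : (p : ℤ_[p]) ∣ l j - θ0 j := (dvd_pow_self _ two_ne_zero).trans (hl2 j)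
      have := dvd_add e2 e1
      rwa [sub_add_sub_cancel] at this
    obtain ⟨v, hv⟩ := hu
    exact ⟨v, hv⟩
  choose θ hθ using hlu
  have hHc : ∀ m, Cg p (m + 1) (Matrix.of H) (sq m).1.2 := fun m i j => hH i j m
  have hH1 : Cg p 1 (Matrix.of H) 1 := Lim_trans (hHc 0) (hP 0).2.1
  obtain ⟨hu, hhu⟩ := Lim_isUnit hH1
  refine ⟨θ, hu, Lim_near hθ0 (fun j => by rw [hθ j]; exact hl2 j), ?_⟩
  intro x
  rw [hhu]
  ext i j
  rw [← sub_eq_zero]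
  apply Lim_zero
  intro m
  have c1 : Cg p (m + 1) (ρ' x * Matrix.of H) (ρ' x * (sq m).1.2) :=
    Lim_mul (Lim_refl _ _) (hHc m)
  have c2 : Cg p (m + 1) (ρ' x * (sq m).1.2) ((sq m).1.2 * Φ.rep ℤ_[p] (sq m).1.1 x) :=
    Lim_mono (by omega) ((hP m).2.2 x)
  have c3 : Cg p (m + 1) (Φ.rep ℤ_[p] (sq m).1.1 x) (Φ.rep ℤ_[p] θ x) := by
    apply fam1
    intro j
    rw [hθ j, dvd_sub_comm]
    exact hl j m
  have c4 : Cg p (m + 1) ((sq m).1.2 * Φ.rep ℤ_[p] (sq m).1.1 x)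
      (Matrix.of H * Φ.rep ℤ_[p] θ x) := Lim_mul (Lim_symm (hHc m)) c3
  exact Lim_trans c1 (Lim_trans c2 c4) i j

end Pool.Agent.Lib.MP_97567f_al.Pad
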