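import Pool.Agent.Lib.MP_97567f_al.Pad.Spec

/-!
# MP_97567f_al: a finite index subgroup acts by changes of the parameters
-/

set_option autoImplicit false

namespace Pool.Agent.Lib.MP_97567f_al.Pad

open Polynomial U

private theorem Pad_pow {p : ℕ} [Fact p.Prime] {δ : ℤ_[p]} (h : δ ≠ 0) :
    ∃ N : ℕ, 2 ≤ N ∧ ¬ (p : ℤ_[p]) ^ N ∣ δ := by
  by_contra hN
  push Not at hN
  apply h
  refine (PadicInt.ext_of_toZModPow).1 fun n => ?_
  have h1 : (p : ℤ_[p]) ^ n ∣ δ := (pow_dvd_pow _ (Nat.le_add_right n 2)).trans (hN (n + 2) (by omega))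
  have h2 : δ ∈ RingHom.ker (PadicInt.toZModPow n : ℤ_[p] →+* ZMod (p ^ n)) := by
    rw [PadicInt.ker_toZModPow]
    exact Ideal.mem_span_singleton.2 h1
  rw [RingHom.mem_ker] at h2
  rw [h2, map_zero]

private theorem Pad_cg {p : ℕ} [Fact p.Prime] {Ω : Type} [Fintype Ω] [DecidableEq Ω] {N : ℕ}
    {X Y : Matrix Ω Ω ℤ_[p]} (h : X.map (PadicInt.toZModPow N) = Y.map (PadicInt.toZModPow N)) :
    Cg p N X Y := by
  intro i j
  have h1 := congrFun (congrFun h i) j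
  simp only [Matrix.map_apply] at h1
  have h2 : X i j - Y i j ∈ RingHom.ker (PadicInt.toZModPow N : ℤ_[p] →+* ZMod (p ^ N)) := by
    rw [RingHom.mem_ker, map_sub, h1, sub_self]
  rw [PadicInt.ker_toZModPow] at h2
  exact Ideal.mem_span_singleton.1 h2

theorem pPad (h1 : SAli) (h2 : SHom) (h3 : SLau) (h4 : SIrp) (h5 : SExt) (h6 : STwL) (h7 : STwR)
    (h8 : SInj) : SPad := by
  intro p _ B _ Ω _ _ _ k S Φ g u R _ _ _ t ρ halg hθ hρ hg hirr hun hThm hEig E _ hE i r hir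
  obtain ⟨θ0, hN0, hai⟩ := h1 p k u
  obtain ⟨L, _, _, _, _, t', hL⟩ := h3 k
  have hchar : CharZero L := algebraRat.charZero L
  -- the map to the p-adic numbers
  obtain ⟨ψ, hψ1, hψ2⟩ := hL ℚ_[p] (fun j => Units.map (algebraMap ℤ_[p] ℚ_[p]).toMonoidHom (θ0 j))
  have hψt : ∀ j, ψ (t' j : L) = ((θ0 j : ℤ_[p]) : ℚ_[p]) := hψ1
  have hψinj : Function.Injective ψ := hψ2 hai
  -- the map to `R`
  let _ : Algebra ℚ R := ((algebraMap ℂ R).comp (algebraMap ℚ ℂ)).toAlgebra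
  have _ : IsScalarTower ℚ ℂ R := IsScalarTower.of_algebraMap_eq fun _ => rfl
  obtain ⟨φ, hφ1, hφ2⟩ := hL R t
  have hφinj : Function.Injective φ := hφ2 (halg.restrictScalars (algebraMap ℚ ℂ).injective)
  obtain ⟨x, hx⟩ := h4 p B Ω k Φ R t ρ hρ hirr θ0 hai
  obtain ⟨N, hN2, hN⟩ := Pad_pow hx
  have hNe : NeZero (p ^ N) := ⟨pow_ne_zero _ (Fact.out : p.Prime).ne_zero⟩
  obtain ⟨H, hH, hHα⟩ := h2 E hE (GL Ω (ZMod (p ^ N)))
  have key : ∀ α ∈ H, ∃ θ : R →ₐ[ℂ] R, Twq (ρ.comp r) (α : MulAut E).toMonoidHom θ := by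
    intro α hα
    let f : E →* Matrix Ω Ω (ZMod (p ^ N)) :=
      ((PadicInt.toZModPow N : ℤ_[p] →+* ZMod (p ^ N)).mapMatrix : Matrix Ω Ω ℤ_[p] →+*
        Matrix Ω Ω (ZMod (p ^ N))).toMonoidHom.comp ((Φ.rep ℤ_[p] θ0).comp r)
    have hf : ∀ y, f (α y) = f y := by
      intro y
      have h9 := hHα α hα f.toHomUnits y
      have h10 := congrArg Units.val h9
      exact h10
    have hcg : ∀ y, Cg p N (((Φ.rep ℤ_[p] θ0).comp (r.comp (α : MulAut E).toMonoidHom)) y)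
        (Φ.rep ℤ_[p] θ0 (r y)) := fun y => Pad_cg (hf y)
    obtain ⟨θ, η, h, hNr, heq⟩ := h5 p B Ω (Fin k) Φ u hThm θ0 hN0 x N hN2 hN E i r hir _ hcg
    obtain ⟨θ', χ, h', hrel⟩ := h6 p B Ω (Fin k) S Φ g u hg hEig L (ψ : L →+* ℚ_[p]) hψinj t' θ0
      hψt E i r hir (α : MulAut E).toMonoidHom θ η h hNr heq
    exact h7 B Ω (Fin k) Φ L t' R t (φ : L →+* R) hφinj hφ1 hθ ρ hρ E r
      (α : MulAut E).toMonoidHom θ' χ h' hrel
  have hun' : UniP (ρ.comp r) := by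
    intro θ χ hχ
    refine hun θ (χ.comp i) fun b => ?_
    have h9 := hχ (i b)
    rw [MonoidHom.comp_apply, hir.ri] at h9
    exact h9
  refine ⟨H, hH, fun α hα => ?_⟩
  obtain ⟨θ, hT⟩ := key α hα
  obtain ⟨η, hT'⟩ := key α⁻¹ (inv_mem hα)
  exact ⟨θ, h8 E R Ω (ρ.comp r) hun' α θ η hT hT'⟩

end Pool.Agent.Lib.MP_97567f_al.Pad
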