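import Pool.Agent.Lib.MP_97567f_al.Pad.Spec

/-!
# MP_97567f_al: rigidity by deformation over the p-adic integers: the induction step
-/

set_option autoImplicit false

namespace Pool.Agent.Lib.MP_97567f_al.Pad

section basic

set_option linter.unusedSectionVars false

variable {p : ℕ} [Fact p.Prime] {Ω : Type} [Fintype Ω] [DecidableEq Ω]

private theorem Stp_dvd {x : ℤ_[p]} (hx : PadicInt.toZMod x = 0) : (p : ℤ_[p]) ∣ x := by
  have h : x ∈ RingHom.ker (PadicInt.toZMod (p := p)) := hx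
  rw [PadicInt.ker_toZMod, PadicInt.maximalIdeal_eq_span_p, Ideal.mem_span_singleton] at h
  exact h

private theorem Stp_p : PadicInt.toZMod (p : ℤ_[p]) = (0 : ZMod p) := by
  rw [map_natCast, ZMod.natCast_self]

private theorem Stp_unit {x : ℤ_[p]} (hx : PadicInt.toZMod x ≠ (0 : ZMod p)) : IsUnit x := by
  by_contra h
  apply hx
  have h2 : x ∈ IsLocalRing.maximalIdeal ℤ_[p] := h
  rw [← PadicInt.ker_toZMod] at h2
  exact h2

private theorem Stp_lift (a : ZMod p) : PadicInt.toZMod ((a.val : ℕ) : ℤ_[p]) = a := by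
  rw [map_natCast, ZMod.natCast_zmod_val]

private theorem Stp_cg {n : ℕ} {X Y : Matrix Ω Ω ℤ_[p]} :
    Cg p n X Y ↔ ∃ E : Matrix Ω Ω ℤ_[p], X = Y + ((p : ℤ_[p]) ^ n) • E := by
  constructor
  · intro h
    choose E hE using h
    refine ⟨Matrix.of E, ?_⟩
    ext i j
    have := hE i j
    simp only [Matrix.add_apply, Matrix.smul_apply, Matrix.of_apply, smul_eq_mul]
    rw [← this]
    ring
  · rintro ⟨E, rfl⟩ i j
    refine ⟨E i j, ?_⟩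
    simp

private theorem Stp_mul (X Y : Matrix Ω Ω ℤ_[p]) :
    (X * Y).map PadicInt.toZMod = X.map PadicInt.toZMod * Y.map PadicInt.toZMod :=
  Matrix.map_mul

private theorem Stp_add (X Y : Matrix Ω Ω ℤ_[p]) :
    (X + Y).map PadicInt.toZMod = X.map PadicInt.toZMod + Y.map PadicInt.toZMod := by
  ext i j
  simp

private theorem Stp_sub (X Y : Matrix Ω Ω ℤ_[p]) :
    (X - Y).map PadicInt.toZMod = X.map PadicInt.toZMod - Y.map PadicInt.toZMod := by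
  ext i j
  simp

private theorem Stp_one : (1 : Matrix Ω Ω ℤ_[p]).map PadicInt.toZMod = 1 := by
  ext i j
  simp [Matrix.one_apply, apply_ite]

private theorem Stp_pow {n : ℕ} (hn : 1 ≤ n) (X : Matrix Ω Ω ℤ_[p]) :
    (((p : ℤ_[p]) ^ n) • X).map PadicInt.toZMod = 0 := by
  ext i j
  obtain ⟨q, rfl⟩ : ∃ q, n = q + 1 := ⟨n - 1, by omega⟩
  simp [pow_succ]

private theorem Stp_Pm (σ : Equiv.Perm Ω) :
    (Pm σ : Matrix Ω Ω ℤ_[p]).map PadicInt.toZMod = Pm σ := by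
  ext i j
  simp [Pm, apply_ite]

private theorem Stp_isUnit {k : Matrix Ω Ω ℤ_[p]} (hk : k.map PadicInt.toZMod = 1) : IsUnit k := by
  rw [Matrix.isUnit_iff_isUnit_det]
  apply Stp_unit
  have : PadicInt.toZMod k.det = (k.map PadicInt.toZMod).det := by
    rw [RingHom.map_det]
    rfl
  rw [this, hk, Matrix.det_one]
  exact one_ne_zero

private theorem Stp_div {X : Matrix Ω Ω ℤ_[p]} (hX : X.map PadicInt.toZMod = 0) :
    ∃ G : Matrix Ω Ω ℤ_[p], X = (p : ℤ_[p]) • G := by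
  have h : ∀ i j, (p : ℤ_[p]) ∣ X i j := by
    intro i j
    apply Stp_dvd
    have := congrFun (congrFun hX i) j
    simpa using this
  choose G hG using h
  refine ⟨Matrix.of G, ?_⟩
  ext i j
  simp only [Matrix.smul_apply, Matrix.of_apply, smul_eq_mul]
  exact hG i j

end basic

theorem pStp (h1 : SDif) (h2 : STng) (h3 : SCob) (h4 : SFam) : SStp := by
  intro p _ B _ Ω _ _ J _ S Φ g π T u hW hC n hn θ hθ ρ' hρ'
  classical
  obtain ⟨_, fam⟩ := h4 p B Ω J S Φ g π T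
  obtain ⟨fam2, fam3, fam4⟩ := fam hW
  have near1 : ∀ θ : J → ℤ_[p]ˣ, Near p u θ → ∀ j, (p : ℤ_[p]) ∣ (θ j : ℤ_[p]) - 1 := by
    intro θ hθ j
    obtain ⟨y, hy, _⟩ := hθ j
    exact ⟨y, by rw [hy]; ring⟩
  have stepa : ∀ θ : J → ℤ_[p]ˣ, Near p u θ → ∃ T' : B → Matrix Ω Ω (ZMod p),
      Dif 1 π (Φ.rep ℤ_[p] θ) (Pmh ℤ_[p] π) T' ∧ ∀ s, T' (g s * g s) = ∑ j, u j • T j s := by
    intro θ hθ
    choose y hy hyu using hθ
    obtain ⟨D, hD, hDs⟩ := fam4 1 θ 1 y le_rfl (fun j => by simp) (fun j => by rw [hy j]; simp)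
    refine ⟨D, ?_, ?_⟩
    · rw [fam3] at hD
      exact hD
    · intro s
      rw [hDs s]
      exact Finset.sum_congr rfl fun j _ => by rw [hyu j]
  -- (b)
  obtain ⟨T', hT', hT's⟩ := stepa θ hθ
  have hn1 : 1 ≤ n := by omega
  obtain ⟨dA, dB, _, _, _⟩ := h1 p B Ω π ρ' (Φ.rep ℤ_[p] θ) n hn1
  obtain ⟨D, hD⟩ := dA hρ'
  have hRdc : Rdc π (Φ.rep ℤ_[p] θ) := fam2 θ (near1 θ hθ)
  have hTng := h2 p B Ω π ρ' (Φ.rep ℤ_[p] θ) n hn hRdc D T' hD hT' S g hW.sq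
  have hTng' : Tng π g (fun s => ∑ l, u l • T l s) fun s => D (g s * g s) := by
    have e : (fun s => T' (g s * g s)) = fun s => ∑ l, u l • T l s := funext hT's
    rw [← e]
    exact hTng
  obtain ⟨a, m, hm, hX⟩ := hC _ hTng'
  -- (c)
  have hc : ∀ j, ∃ v : ℤ_[p]ˣ, (v : ℤ_[p]) =
      θ j + (p : ℤ_[p]) ^ n * (((a j).val : ℕ) : ℤ_[p]) := by
    intro j
    have hu : IsUnit ((θ j : ℤ_[p]) + (p : ℤ_[p]) ^ n * (((a j).val : ℕ) : ℤ_[p])) := by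
      apply Stp_unit
      obtain ⟨y, hy, _⟩ := hθ j
      rw [hy, map_add, map_add, map_mul, map_mul, map_pow, Stp_p, map_one, zero_mul,
        zero_pow (by omega), zero_mul, add_zero, add_zero]
      exact one_ne_zero
    obtain ⟨v, hv⟩ := hu
    exact ⟨v, hv⟩
  choose θ' hθ' using hc
  have hnear' : Near p u θ' := by
    intro j
    obtain ⟨y, hy, hyu⟩ := hθ j
    refine ⟨y + (p : ℤ_[p]) ^ (n - 1) * (((a j).val : ℕ) : ℤ_[p]), ?_, ?_⟩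
    · rw [hθ' j, hy]
      obtain ⟨q, rfl⟩ : ∃ q, n = q + 1 := ⟨n - 1, by omega⟩
      rw [Nat.add_sub_cancel]
      ring
    · rw [map_add, map_mul, map_pow, Stp_p, zero_pow (by omega), zero_mul, add_zero, hyu]
  obtain ⟨D1, hD1, hD1s⟩ := fam4 θ θ' n (fun j => (((a j).val : ℕ) : ℤ_[p])) hn1 (near1 θ hθ) hθ'
  have hD1s' : ∀ s, D1 (g s * g s) = ∑ j, a j • T j s := by
    intro s
    rw [hD1s s]
    exact Finset.sum_congr rfl fun j _ => by rw [Stp_lift]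
  obtain ⟨_, _, dC, _, _⟩ := h1 p B Ω π ρ' (Φ.rep ℤ_[p] θ) n hn1
  have hDD1 := dC (Φ.rep ℤ_[p] θ') D D1 hD hD1
  obtain ⟨T2, hT2, hT2s⟩ := stepa θ' hnear'
  -- (d)
  have hRdc' : Rdc π (Φ.rep ℤ_[p] θ') := fam2 θ' (near1 θ' hnear')
  obtain ⟨M, hM, hMc⟩ : ∃ M : Matrix Ω Ω ℤ_[p], M.map PadicInt.toZMod = m ∧
      ∀ b, M * Pm (π b) = Pm (π b) * M := by
    refine ⟨m.map fun z => ((z.val : ℕ) : ℤ_[p]), ?_, ?_⟩
    · ext i j
      simp only [Matrix.map_apply]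
      exact Stp_lift _
    · intro b
      rw [← Adp_mul_Pm, Adp_map, hm b]
  obtain ⟨q, rfl⟩ : ∃ q, n = q + 1 := ⟨n - 1, by omega⟩
  have hq : 1 ≤ q := by omega
  have hkred : ((1 : Matrix Ω Ω ℤ_[p]) + ((p : ℤ_[p]) ^ q) • M).map PadicInt.toZMod = 1 := by
    rw [Stp_add, Stp_one, Stp_pow hq, add_zero]
  obtain ⟨k, hk⟩ := Stp_isUnit hkred
  have hkinv : ((k⁻¹ : (Matrix Ω Ω ℤ_[p])ˣ) : Matrix Ω Ω ℤ_[p]).map PadicInt.toZMod = 1 := by
    have e : ((k : Matrix Ω Ω ℤ_[p]) * (k⁻¹ : (Matrix Ω Ω ℤ_[p])ˣ)).map PadicInt.toZMod = 1 := by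
      rw [Units.mul_inv, Stp_one]
    rw [Stp_mul, hk, hkred, Matrix.one_mul] at e
    exact e
  let ρ1 : B →* Matrix Ω Ω ℤ_[p] :=
    { toFun := fun x => k * Φ.rep ℤ_[p] θ' x * (k⁻¹ : (Matrix Ω Ω ℤ_[p])ˣ)
      map_one' := by
        rw [map_one, Matrix.mul_one, Units.mul_inv]
      map_mul' := by
        intro x y
        rw [map_mul]
        have e : ((k⁻¹ : (Matrix Ω Ω ℤ_[p])ˣ) : Matrix Ω Ω ℤ_[p]) * k = 1 := Units.inv_mul k
        calc (k : Matrix Ω Ω ℤ_[p]) * (Φ.rep ℤ_[p] θ' x * Φ.rep ℤ_[p] θ' y) *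
              (k⁻¹ : (Matrix Ω Ω ℤ_[p])ˣ)
            = k * Φ.rep ℤ_[p] θ' x * 1 * Φ.rep ℤ_[p] θ' y * (k⁻¹ : (Matrix Ω Ω ℤ_[p])ˣ) := by
              rw [Matrix.mul_one]; simp only [Matrix.mul_assoc]
          _ = _ := by rw [← e]; simp only [Matrix.mul_assoc] }
  have hρ1k : ∀ x, ρ1 x * k = k * Φ.rep ℤ_[p] θ' x := by
    intro x
    change k * Φ.rep ℤ_[p] θ' x * (k⁻¹ : (Matrix Ω Ω ℤ_[p])ˣ) * k = _
    rw [Matrix.mul_assoc, Units.inv_mul, Matrix.mul_one]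
  have hD2 : Dif (q + 1) π ρ1 (Φ.rep ℤ_[p] θ') (fun x => m * T2 x - T2 x * m) := by
    intro x
    obtain ⟨F, hF, hFr⟩ := hT2 x
    refine ⟨(M * F - F * M) * (k⁻¹ : (Matrix Ω Ω ℤ_[p])ˣ), ?_, ?_⟩
    · have hF' : Φ.rep ℤ_[p] θ' x = Pm (π x) + (p : ℤ_[p]) • F := by
        rw [hF, pow_one]
        rfl
      have e : (k : Matrix Ω Ω ℤ_[p]) * Φ.rep ℤ_[p] θ' x =
          Φ.rep ℤ_[p] θ' x * k + ((p : ℤ_[p]) ^ (q + 1)) • (M * F - F * M) := by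
        rw [hk, Matrix.add_mul, Matrix.mul_add, Matrix.one_mul, Matrix.mul_one, Matrix.smul_mul,
          Matrix.mul_smul]
        have e2 : M * Φ.rep ℤ_[p] θ' x = Φ.rep ℤ_[p] θ' x * M + (p : ℤ_[p]) • (M * F - F * M) := by
          rw [hF', Matrix.mul_add, Matrix.add_mul, hMc x, Matrix.mul_smul, Matrix.smul_mul,
            smul_sub]
          abel
        rw [e2, smul_add, smul_smul, ← pow_succ, add_assoc]
      change (k : Matrix Ω Ω ℤ_[p]) * Φ.rep ℤ_[p] θ' x * (k⁻¹ : (Matrix Ω Ω ℤ_[p])ˣ) = _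
      rw [e, Matrix.add_mul, Matrix.mul_assoc, Units.mul_inv, Matrix.mul_one, Matrix.smul_mul]
    · rw [Stp_mul, hkinv, Matrix.mul_one, Stp_sub, Stp_mul, Stp_mul, hFr, hM]
      have e : Pm (π x) * m = m * Pm (π x) := by
        rw [← Adp_mul_Pm, hm x]
      rw [Matrix.sub_mul, Matrix.mul_assoc, Matrix.mul_assoc, e]
      simp only [Matrix.mul_assoc]
  -- (e)
  obtain ⟨_, _, dC', _, _⟩ := h1 p B Ω π ρ' (Φ.rep ℤ_[p] θ') (q + 1) hn1
  have hD3 := dC' ρ1 _ _ hDD1 hD2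
  have hRdc1 : Rdc π ρ1 := by
    intro x
    obtain ⟨E, hE, _⟩ := hD2 x
    rw [hE, Stp_add, Stp_pow hn1, add_zero, hRdc' x]
  obtain ⟨_, dB1, _, _, _⟩ := h1 p B Ω π ρ' ρ1 (q + 1) hn1
  have hCoc := dB1 hRdc1 _ hD3
  obtain ⟨m', hm'⟩ := h3 p B Ω π S g hW.sq hW.fi hW.cop _ hCoc (by
    intro s
    rw [hX s, hD1s' s, hT2s s]
    abel)
  -- (f)
  obtain ⟨M', hM'⟩ : ∃ M' : Matrix Ω Ω ℤ_[p], M'.map PadicInt.toZMod = m' := by
    refine ⟨m'.map fun z => ((z.val : ℕ) : ℤ_[p]), ?_⟩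
    ext i j
    simp only [Matrix.map_apply]
    exact Stp_lift _
  refine ⟨θ', (1 + ((p : ℤ_[p]) ^ (q + 1)) • M') * k, ?_, ?_, ?_⟩
  · intro j
    exact ⟨(((a j).val : ℕ) : ℤ_[p]), by rw [hθ' j]; ring⟩
  · rw [Nat.add_sub_cancel, Stp_cg]
    refine ⟨M + (p : ℤ_[p]) • (M' * k), ?_⟩
    rw [Matrix.add_mul, Matrix.one_mul, Matrix.smul_mul, smul_add, smul_smul, ← pow_succ]
    nth_rewrite 1 [hk]
    rw [add_assoc]
  · intro x
    rw [Stp_cg]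
    obtain ⟨E, hE, hEr⟩ := hD3 x
    beta_reduce at hEr
    have hbr : (E + ρ' x * M' - M' * ρ1 x).map PadicInt.toZMod = 0 := by
      have hρ'r : (ρ' x).map PadicInt.toZMod = Pm (π x) := by
        rw [hE, Stp_add, Stp_pow hn1, add_zero, hRdc1 x]
      rw [Stp_sub, Stp_add, Stp_mul, Stp_mul, hEr, hρ'r, hRdc1 x, hM', hm' x, ← Adp_mul_Pm,
        Matrix.sub_mul]
      abel
    obtain ⟨G, hG⟩ := Stp_div hbr
    refine ⟨G * k, ?_⟩
    have e1 : ρ' x * (1 + ((p : ℤ_[p]) ^ (q + 1)) • M') =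
        (1 + ((p : ℤ_[p]) ^ (q + 1)) • M') * ρ1 x + ((p : ℤ_[p]) ^ (q + 1 + 1)) • G := by
      have e2 : ((p : ℤ_[p]) ^ (q + 1 + 1)) • G =
          ((p : ℤ_[p]) ^ (q + 1)) • (E + ρ' x * M' - M' * ρ1 x) := by
        rw [hG, smul_smul, ← pow_succ]
      rw [e2, Matrix.mul_add, Matrix.mul_one, Matrix.mul_smul, Matrix.add_mul, Matrix.one_mul,
        Matrix.smul_mul, smul_sub, smul_add]
      nth_rewrite 1 [hE]
      abel
    rw [← Matrix.mul_assoc, e1, Matrix.add_mul, Matrix.mul_assoc, hρ1k x, Matrix.smul_mul,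
      ← Matrix.mul_assoc]

end Pool.Agent.Lib.MP_97567f_al.Pad
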