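import Pool.Agent.Lib.MP_97567f_al.Pad.Spec

/-!
# MP_97567f_al: the properties of a family from Theorem R
-/

set_option autoImplicit false

namespace Pool.Agent.Lib.MP_97567f_al.Pad

open Polynomial U

private theorem TFa_conj {K ι : Type} [Field K] [Fintype ι] [DecidableEq ι] (c : K) (g : GL ι K)
    (Y : Matrix ι ι K) : (c • (g.1 * Y * (g⁻¹).1)).charpoly = (c • Y).charpoly := by
  have h1 : c • (g.1 * Y * (g⁻¹).1) = g.1 * (c • Y) * (g⁻¹).1 := by
    rw [Matrix.mul_smul, Matrix.smul_mul]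
  rw [h1]
  have h2 : (g⁻¹).1 = (g.1)⁻¹ := Matrix.coe_units_inv g
  rw [h2]
  exact Matrix.charpoly_units_conj g (c • Y)

private theorem TFa_trace {K ι : Type} [Field K] [Fintype ι] [DecidableEq ι] (g : GL ι K)
    (Y : Matrix ι ι K) : (g.1 * Y * (g⁻¹).1).trace = Y.trace := by
  rw [Matrix.trace_mul_comm, ← Matrix.mul_assoc, ← Units.val_mul, inv_mul_cancel, Units.val_one,
    Matrix.one_mul]

theorem pTFa (h1 : SPad) : STFa := by
  intro p _ B _ Ω _ _ _ k S Φ g u R _ _ _ t ρ hai hR hρ hg hirr huni hthm heig htr hfin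
  refine ⟨hirr, ?_, ?_, ?_, hfin⟩
  · intro E _ hE i r hir
    exact h1 p B Ω k S Φ g u R t ρ hai hR hρ hg hirr huni hthm heig E hE i r hir
  · intro θ hθ
    obtain ⟨-, χ, g', hx⟩ := hθ
    refine huni θ χ fun x => ?_
    apply Polynomial.map_injective (algebraMap R (FractionRing R))
      (IsFractionRing.injective R (FractionRing R))
    rw [← Matrix.charpoly_map, ← Matrix.charpoly_map]
    have h2 := hx x
    rw [MonoidHom.id_apply] at h2
    unfold mK at h2
    rw [h2, TFa_conj]
    congr 1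
    ext i j
    simp
  · intro j η g' hj hx
    refine MonoidHom.eq_of_eqOn_dense hg ?_
    rintro _ ⟨s, rfl⟩
    have h2 := congrArg Matrix.trace (hx (g s))
    rw [TFa_trace, Matrix.trace_smul, smul_eq_mul] at h2
    have h3 : ((ρ (g s)).1.map j).trace ≠ 0 := by
      rw [← AddMonoidHom.map_trace j (ρ (g s)).1]
      intro h4
      exact htr s (hj (h4.trans (map_zero j).symm))
    have h4 : ((η (g s) : KK) - 1) * ((ρ (g s)).1.map j).trace = 0 := by
      rw [sub_mul, one_mul, ← h2, sub_self]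
    have h5 := (mul_eq_zero.1 h4).resolve_right h3
    rw [MonoidHom.one_apply]
    exact Units.ext (sub_eq_zero.1 h5)

end Pool.Agent.Lib.MP_97567f_al.Pad
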