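import Pool.Agent.Lib.MP_97567f_al.Pad.Spec

set_option autoImplicit false

namespace Pool.Agent.Lib.MP_97567f_al.Pad

/-- The character with the value `v c` at the generators of the class `c`. -/
private def ThR_chi {B Cl : Type} [Group B] [Fintype Cl] (dg : Cl → B →* Multiplicative ℤ) {R : Type}
    [CommRing R] (v : Cl → Rˣ) : B →* Rˣ where
  toFun x := ∏ c, (v c) ^ (dg c x).toAdd
  map_one' := by simp
  map_mul' x y := by
    rw [← Finset.prod_mul_distrib]
    refine Finset.prod_congr rfl fun c _ => ?_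
    rw [map_mul, toAdd_mul, zpow_add]

private theorem ThR_chi_map {B Cl : Type} [Group B] [Fintype Cl] (dg : Cl → B →* Multiplicative ℤ)
    {R R' : Type} [CommRing R] [CommRing R'] (f : R →+* R') (v : Cl → Rˣ) (x : B) :
    ThR_chi dg (fun c => Units.map f.toMonoidHom (v c)) x = Units.map f.toMonoidHom (ThR_chi dg v x) := by
  show ∏ c, (Units.map f.toMonoidHom (v c)) ^ (dg c x).toAdd =
    Units.map f.toMonoidHom (∏ c, (v c) ^ (dg c x).toAdd)
  rw [map_prod]
  refine Finset.prod_congr rfl fun c _ => ?_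
  rw [map_zpow]

private theorem ThR_chi_one {B Cl : Type} [Group B] [Fintype Cl] (dg : Cl → B →* Multiplicative ℤ)
    {R : Type} [CommRing R] (x : B) : ThR_chi dg (1 : Cl → Rˣ) x = 1 := by
  show ∏ c, ((1 : Cl → Rˣ) c) ^ (dg c x).toAdd = 1
  simp

/-- The family with the scalar parameters. -/
private def ThR_fam {B : Type} [Group B] {Ω : Type} [Fintype Ω] [DecidableEq Ω] {J Cl : Type} [Fintype Cl]
    (dg : Cl → B →* Multiplicative ℤ) (Φ : NFam B Ω J) : NFam B Ω (J ⊕ Cl) where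
  rep R _ θ :=
    { toFun := fun x => ((ThR_chi dg (fun c => θ (Sum.inr c)) x : Rˣ) : R) •
        Φ.rep R (fun j => θ (Sum.inl j)) x
      map_one' := by
        rw [map_one, map_one, Units.val_one, one_smul]
      map_mul' := fun x y => by
        rw [map_mul, map_mul, Units.val_mul, smul_mul_smul_comm] }
  nat R R' _ _ f θ x := by
    show ((ThR_chi dg (fun c => Units.map f.toMonoidHom (θ (Sum.inr c))) x : R'ˣ) : R') •
      Φ.rep R' (fun j => Units.map f.toMonoidHom (θ (Sum.inl j))) x =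
      (((ThR_chi dg (fun c => θ (Sum.inr c)) x : Rˣ) : R) • Φ.rep R (fun j => θ (Sum.inl j)) x).map f
    rw [ThR_chi_map, Φ.nat _ _ f (fun j => θ (Sum.inl j)) x]
    ext i j
    simp only [Matrix.smul_apply, Matrix.map_apply, smul_eq_mul, map_mul]
    rfl

private theorem ThR_fam_rep {B : Type} [Group B] {Ω : Type} [Fintype Ω] [DecidableEq Ω] {J Cl : Type}
    [Fintype Cl] (dg : Cl → B →* Multiplicative ℤ) (Φ : NFam B Ω J) (R : Type) [CommRing R]
    (θ : J ⊕ Cl → Rˣ) (x : B) : (ThR_fam dg Φ).rep R θ x =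
      ((ThR_chi dg (fun c => θ (Sum.inr c)) x : Rˣ) : R) • Φ.rep R (fun j => θ (Sum.inl j)) x := rfl

/-- The derivatives with the scalar parameters. -/
private def ThR_T {p : ℕ} {Ω : Type} [DecidableEq Ω] {J S Cl : Type} [DecidableEq Cl]
    (cl : S → Cl) (T : J → S → Matrix Ω Ω (ZMod p)) : J ⊕ Cl → S → Matrix Ω Ω (ZMod p) :=
  Sum.elim T (fun c s => if cl s = c then (2 : ZMod p) • (1 : Matrix Ω Ω (ZMod p)) else 0)

private theorem ThR_sum {p : ℕ} {Ω : Type} [DecidableEq Ω] {J S Cl : Type} [Fintype J] [Fintype Cl]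
    [DecidableEq Cl] (cl : S → Cl) (T : J → S → Matrix Ω Ω (ZMod p)) (a : J ⊕ Cl → ZMod p) (s : S) :
    ∑ l, a l • ThR_T cl T l s = (∑ j, a (Sum.inl j) • T j s) +
      (2 * a (Sum.inr (cl s))) • (1 : Matrix Ω Ω (ZMod p)) := by
  rw [Fintype.sum_sum_type]
  congr 1
  rw [Finset.sum_eq_single (cl s)]
  · simp only [ThR_T, Sum.elim_inr, if_true]
    rw [smul_smul, mul_comm]
  · intro c _ hc
    simp only [ThR_T, Sum.elim_inr]
    rw [if_neg (fun h => hc h.symm), smul_zero]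
  · intro h
    exact absurd (Finset.mem_univ _) h

theorem pThR (hLim : SLim) : SThR := by
  intro p _ B _ Ω _ _ J _ S Cl _ _ cl dg Φ g π T u hp hdg hW hC
  have h2 : (2 : ZMod p) ≠ 0 := by
    intro h
    have h3 : ((2 : ℕ) : ZMod p) = 0 := by exact_mod_cast h
    rw [ZMod.natCast_eq_zero_iff] at h3
    exact hp ((Nat.prime_dvd_prime_iff_eq (Fact.out : p.Prime) Nat.prime_two).1 h3)
  -- the scalar at the squares
  have hsq : ∀ (R : Type) [CommRing R] (v : Cl → Rˣ) (s : S),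
      ThR_chi dg v (g s * g s) = v (cl s) * v (cl s) := by
    intro R _ v s
    show ∏ c, (v c) ^ (dg c (g s * g s)).toAdd = _
    rw [Finset.prod_eq_single (cl s)]
    · rw [map_mul, hdg, if_pos rfl, toAdd_mul, toAdd_ofAdd, zpow_add, zpow_one]
    · intro c _ hc
      rw [map_mul, hdg, if_neg (fun h => hc h.symm), toAdd_mul, toAdd_ofAdd, zpow_add, zpow_zero, one_mul]
    · intro h
      exact absurd (Finset.mem_univ _) h
  have hu' : ∀ s, ∑ l, (Sum.elim u 0 : J ⊕ Cl → ZMod p) l • ThR_T cl T l s = ∑ j, u j • T j s := by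
    intro s
    rw [ThR_sum]
    simp
  have hW' : WPt p (ThR_fam dg Φ) g π (ThR_T cl T) := by
    refine ⟨hW.sq, hW.fi, hW.cop, ?_, ?_⟩
    · intro x
      rw [ThR_fam_rep]
      have h3 : (fun c => (1 : J ⊕ Cl → ℤˣ) (Sum.inr c)) = 1 := rfl
      have h4 : (fun j => (1 : J ⊕ Cl → ℤˣ) (Sum.inl j)) = 1 := rfl
      rw [h3, h4, ThR_chi_one, Units.val_one, one_smul]
      exact hW.one x
    · intro a s i j
      rw [ThR_fam_rep, hsq, Matrix.smul_apply, hW.eps (fun l => a (Sum.inl l)) s i j, ThR_sum]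
      have h5 : (((eu (a (Sum.inr (cl s))) * eu (a (Sum.inr (cl s))) : (DualNumber (ZMod p))ˣ)) :
          DualNumber (ZMod p)) = TrivSqZeroExt.inl 1 + TrivSqZeroExt.inr (2 * a (Sum.inr (cl s))) := by
        rw [Units.val_mul]
        ext
        · simp [eu]
        · simp [eu, two_mul]
      rw [h5]
      ext
      · simp
      · simp only [smul_eq_mul, TrivSqZeroExt.snd_mul, TrivSqZeroExt.fst_add, TrivSqZeroExt.fst_inl,
          TrivSqZeroExt.fst_inr, add_zero, TrivSqZeroExt.snd_add, TrivSqZeroExt.snd_inl,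
          TrivSqZeroExt.snd_inr, zero_add, MulOpposite.smul_eq_mul_unop, MulOpposite.unop_op,
          Matrix.add_apply, Matrix.smul_apply, one_mul]
  have hC' : Cert p g π (ThR_T cl T) (Sum.elim u 0) := by
    intro X hX
    have hX' : Tng π g (fun s => ∑ l, u l • T l s) X := by
      have h6 : (fun s => ∑ l, (Sum.elim u 0 : J ⊕ Cl → ZMod p) l • ThR_T cl T l s) =
          fun s => ∑ l, u l • T l s := funext hu'
      rw [h6] at hX
      exact hX
    obtain ⟨a, c, m, hm, hXs⟩ := hC X hX'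
    refine ⟨Sum.elim a (fun d => c d / 2), m, hm, fun s => ?_⟩
    rw [hu', ThR_sum, hXs s]
    simp only [Sum.elim_inl, Sum.elim_inr]
    rw [mul_div_cancel₀ _ h2]
  intro θ0 hN ρ' hρ'
  have hN' : Near p (Sum.elim u 0 : J ⊕ Cl → ZMod p) (Sum.elim θ0 1) := by
    rintro (j | c)
    · exact hN j
    · exact ⟨0, by simp, by simp⟩
  have hρ'' : ∀ x, Cg p 2 (ρ' x) ((ThR_fam dg Φ).rep ℤ_[p] (Sum.elim θ0 1) x) := by
    intro x
    rw [ThR_fam_rep]
    have h3 : (fun c => (Sum.elim θ0 1 : J ⊕ Cl → ℤ_[p]ˣ) (Sum.inr c)) = 1 := rfl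
    have h4 : (fun j => (Sum.elim θ0 1 : J ⊕ Cl → ℤ_[p]ˣ) (Sum.inl j)) = θ0 := rfl
    rw [h3, h4, ThR_chi_one, Units.val_one, one_smul]
    exact hρ' x
  obtain ⟨θ, h, hθ, hh⟩ := hLim p B Ω (J ⊕ Cl) S (ThR_fam dg Φ) g π (ThR_T cl T) (Sum.elim u 0) hW' hC'
    (Sum.elim θ0 1) hN' ρ' hρ''
  refine ⟨fun j => θ (Sum.inl j), ThR_chi dg (fun c => θ (Sum.inr c)), h, fun j => hθ (Sum.inl j),
    fun x => ?_⟩
  rw [hh x, ThR_fam_rep, Matrix.mul_smul]

end Pool.Agent.Lib.MP_97567f_al.Pad
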