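import Pool.Agent.Lib.MP_97567f_al.Pad.Spec

/-!
# MP_97567f_al: the linear conditions
-/

set_option autoImplicit false

namespace Pool.Agent.Lib.MP_97567f_al.Pad

section

variable {p : ℕ} [Fact p.Prime] {B : Type} [Group B] {Ω : Type} {S : Type}

private theorem Tng_one {π : B →* Equiv.Perm Ω} {D : B → Matrix Ω Ω (ZMod p)} (h : Coc π D) :
    D 1 = 0 := by
  have h1 := h 1 1
  rw [mul_one, map_one, Adp_one] at h1
  exact (left_eq_add.1 h1)

private theorem Tng_conj {π : B →* Equiv.Perm Ω} {D : B → Matrix Ω Ω (ZMod p)} (h : Coc π D)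
    (g : S → B) (hg : ∀ s, π (g s * g s) = 1) (s t : S) (b : B) (hb : b * g s = g t * b) :
    D (g t * g t) = Adp (π b) (D (g s * g s)) := by
  have e : b * (g s * g s) = g t * g t * b := by
    rw [← mul_assoc, hb, mul_assoc, hb, ← mul_assoc]
  have h1 := h b (g s * g s)
  have h2 := h (g t * g t) b
  rw [hg, Adp_one] at h2
  rw [e, h2, add_comm] at h1
  exact add_left_cancel h1

private theorem Tng_zw {π : B →* Equiv.Perm Ω} {D : B → Matrix Ω Ω (ZMod p)} (h : Coc π D)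
    (g : S → B) (hg : ∀ s, π (g s * g s) = 1) (u : List S) :
    D (zw g u) = XW π g (fun s => D (g s * g s)) u ∧ π (zw g u) = 1 := by
  induction u with
  | nil => exact ⟨Tng_one h, map_one π⟩
  | cons s u ih =>
    obtain ⟨ih1, ih2⟩ := ih
    constructor
    · change D (g s * zw g u * g s) = D (g s * g s) + Adp (π (g s)) (XW π g _ u)
      rw [h (g s * zw g u) (g s), h (g s) (zw g u), h (g s) (g s), map_mul, ih2, mul_one, ← ih1]
      abel
    · change π (g s * zw g u * g s) = 1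
      rw [map_mul, map_mul, ih2, mul_one, ← map_mul, hg]

end

/-- The linear conditions. -/
theorem pTng (h1 : SDif) (h2 : SHol) : STng := by
  intro p _ B _ Ω _ _ π ρ1 ρ2 n hn hR D T hD hT S g hg
  have cD : Coc π D := (h1 p B Ω π ρ1 ρ2 n (by omega)).2.1 hR D hD
  have cT : Coc π T := (h1 p B Ω π ρ2 (Pmh ℤ_[p] π) 1 le_rfl).2.1
    (h1 p B Ω π ρ2 (Pmh ℤ_[p] π) 1 le_rfl).2.2.2.2 T hT
  refine ⟨fun s t b hb => Tng_conj cD g hg s t b hb, ?_⟩
  intro u s hu
  have e : zw g u * (g s * g s) = g s * g s * zw g u := by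
    rw [← mul_assoc, hu, mul_assoc, hu, ← mul_assoc]
  obtain ⟨a1, a2⟩ := Tng_zw cD g hg u
  obtain ⟨b1, -⟩ := Tng_zw cT g hg u
  have h := h2 p B Ω π ρ1 ρ2 n hn D T hD hT (zw g u) (g s * g s) e a2 (hg s)
  rw [a1, b1] at h
  exact h

end Pool.Agent.Lib.MP_97567f_al.Pad
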