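import Pool.Agent.Lib.MP_97567f_al.Pad.Spec

/-!
# MP_97567f_al: rigidity by deformation over the p-adic integers: base change
-/

set_option autoImplicit false

namespace Pool.Agent.Lib.MP_97567f_al.Pad

open U

/-- Mapping a matrix twice, in two ways. -/
private theorem TwR_map {Ω L R K F : Type} [CommRing L] [CommRing R] [CommRing K] [CommRing F]
    (φ : L →+* R) (a : L →+* K) (b : R →+* F) (ψ : K →+* F) (h : ∀ x, ψ (a x) = b (φ x))
    (M : Matrix Ω Ω L) : (M.map a).map ψ = (M.map φ).map b := by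
  ext i j
  simp [Matrix.map_apply, h]

theorem pTwR : STwR := by
  intro B _ Ω _ _ J Φ L _ _ t R _ _ _ s φ hφ hts hR ρ hρ A _ r f θ' χ h' hy
  obtain ⟨θ, hθ⟩ := hR fun j => Units.map φ.toMonoidHom (θ' j)
  let aL : L →+* FractionRing L := algebraMap L (FractionRing L)
  let aR : R →+* FractionRing R := algebraMap R (FractionRing R)
  let ψ : FractionRing L →+* FractionRing R := IsFractionRing.map hφ
  have hψ : ∀ x : L, ψ (aL x) = aR (φ x) := fun x => IsLocalization.map_eq _ x
  refine ⟨θ, (Units.map φ.toMonoidHom).comp χ, Matrix.GeneralLinearGroup.map ψ h', fun x => ?_⟩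
  have h1 : mK (ρ.comp r) (f x) = ((Φ.rep L t (r (f x))).map aL).map ψ := by
    rw [TwR_map φ aL aR ψ hψ]
    have : (Φ.rep L t (r (f x))).map φ = Φ.rep R s (r (f x)) := by
      rw [← Φ.nat]
      congr 2
      funext j
      exact Units.ext (hts j)
    rw [this, ← hρ]
    rfl
  have h2 : (((ρ.comp r) x).1.map θ).map aR = ((Φ.rep L θ' (r x)).map aL).map ψ := by
    rw [TwR_map φ aL aR ψ hψ]
    have h3 : (Φ.rep L θ' (r x)).map φ =
        Φ.rep R (fun j => Units.map φ.toMonoidHom (θ' j)) (r x) := (Φ.nat _ _ φ θ' (r x)).symm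
    have h4 : ((ρ.comp r) x).1.map θ =
        Φ.rep R (fun j => Units.map (θ : R →+* R).toMonoidHom (s j)) (r x) := by
      rw [Φ.nat]
      rw [← hρ]
      rfl
    rw [h3, h4]
    congr 3
    funext j
    exact Units.ext (hθ j)
  have h5 := congrArg (fun M : Matrix Ω Ω (FractionRing L) => M.map ψ) (hy x)
  simp only [Matrix.map_mul] at h5
  have h6 : ((aL (χ x : L)) • (h'.1 * (Φ.rep L θ' (r x)).map aL)).map ψ =
      (aR ((((Units.map φ.toMonoidHom).comp χ) x : Rˣ) : R)) •
        ((Matrix.GeneralLinearGroup.map ψ h').1 * ((Φ.rep L θ' (r x)).map aL).map ψ) := by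
    ext i j
    simp only [Matrix.map_apply, Matrix.smul_apply, smul_eq_mul, map_mul, hψ]
    congr 1
    have := congrFun (congrFun (Matrix.map_mul (f := ψ) (L := h'.1)
      (M := (Φ.rep L θ' (r x)).map aL)) i) j
    exact this
  rw [h6] at h5
  rw [h1, h2, ← Matrix.smul_mul, ← h5, Matrix.mul_assoc]
  have h7 : h'.1.map ψ * ((Matrix.GeneralLinearGroup.map ψ h')⁻¹).1 = 1 := by
    have := (Matrix.GeneralLinearGroup.map ψ h').mul_inv
    simpa using this
  rw [h7, Matrix.mul_one]

end Pool.Agent.Lib.MP_97567f_al.Pad
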