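import Pool.Agent.Lib.MP_97567f_al.Pad.CMat

/-!
# MP_97567f_al: the certificate for H3 and H4: tables of the roots
-/

set_option autoImplicit false
set_option linter.unusedSectionVars false

namespace Pool.Agent.Lib.MP_97567f_al.Pad

/-- The sum of the coordinates of the root `i` at the neighbours of `q`. -/
def nsm (co : ℕ → ℕ → ℕ) (nb : ℕ → List ℕ) (i q : ℕ) : ℕ := (nb q).foldr (fun t r => co i t + r) 0

/-- The check of the tables of the roots. -/
def chkR (D : Dt) (k : ℕ) (co : ℕ → ℕ → ℕ) (nb : ℕ → List ℕ) : Bool :=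
  k.ble D.N &&
  ((List.range k).all fun q => D.r q q == q && (List.range k).all fun t =>
    co q t == if q = t then 1 else 0) &&
  ((List.range D.N).all fun i => (List.range k).all fun q => (D.r q i).blt D.N &&
    (i == q || (co (D.r q i) q + co i q == nsm co nb i q && (List.range k).all fun t =>
      t == q || co (D.r q i) t == co i t))) &&
  ((List.range D.N).all fun i => i.blt k || (List.range k).any fun s => (D.r s i).blt i &&
    D.r s (D.r s i) == i && 2 * co (D.r s i) s + 1 == nsm co nb (D.r s i) s) &&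
  (List.range D.N).all fun i => (List.range D.N).all fun j => i == j ||
    (List.range k).any fun t => !(co i t == co j t)

variable {D : Dt} {k : ℕ} {co : ℕ → ℕ → ℕ} {nb : ℕ → List ℕ}

/-- The root with the index `i`. -/
def rv (k : ℕ) (co : ℕ → ℕ → ℕ) (i : ℕ) : Fin k → ℤ := fun s => (co i s : ℤ)

theorem chkR_snd (h : chkR D k co nb = true) :
    k ≤ D.N ∧ (∀ q < k, D.r q q = q ∧ ∀ t < k, co q t = if q = t then 1 else 0) ∧
    (∀ i < D.N, ∀ q < k, D.r q i < D.N ∧ (i = q ∨ (co (D.r q i) q + co i q = nsm co nb i q ∧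
      ∀ t < k, t = q ∨ co (D.r q i) t = co i t))) ∧
    (∀ i < D.N, i < k ∨ ∃ s < k, D.r s i < i ∧ D.r s (D.r s i) = i ∧
      2 * co (D.r s i) s + 1 = nsm co nb (D.r s i) s) ∧
    (∀ i < D.N, ∀ j < D.N, i = j ∨ ∃ t < k, co i t ≠ co j t) := by
  unfold chkR at h
  simp only [Bool.and_eq_true, List.all_eq_true, List.mem_range, Nat.blt_eq, Nat.ble_eq,
    Bool.or_eq_true, beq_iff_eq, List.any_eq_true, Bool.not_eq_true', beq_eq_false_iff_ne, ne_eq]
    at h
  obtain ⟨⟨⟨⟨h1, h2⟩, h3⟩, h4⟩, h5⟩ := h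
  refine ⟨h1, h2, h3, fun i hi => ?_, h5⟩
  rcases h4 i hi with h6 | ⟨s, hs, h6⟩
  · exact Or.inl h6
  · exact Or.inr ⟨s, hs, h6.1.1, h6.1.2, h6.2⟩

section sem

variable {n : ℕ} {M : CoxeterMatrix (Fin k)} {pf : Fin n → Fin 2 → Fin k}
  {E : Fin k → PR M Finset.univ} {G : Fin k → Equiv.Perm (PR M Finset.univ)} {fn : ℕ → Fin n}

/-- The tables describe the reflections on the positive roots. -/
theorem sem_main (hA : SLkA) (hM : RF M) (hR : RDat M E G) (hc : chkR D k co nb = true)
    (hpr : ∀ (i : ℕ) (q : Fin k), pr M (rv k co i) q = 2 * (co i q : ℤ) - (nsm co nb i q : ℕ))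
    (hp : ∀ (s : ℕ) (c : Fin 2), D.p s c = (pf (fn s) c : ℕ)) (hk : 0 < k) :
    ∃ ψ : ℕ → PR M Finset.univ, Sem D pf E G ψ fn := by
  classical
  obtain ⟨h1, h2, h3, h4, h5⟩ := chkR_snd hc
  obtain ⟨a1, a2, a3, a4, -⟩ := hA k M hM Finset.univ
  have hmem : ∀ b, b ∈ roots M Finset.univ ↔ Rt M b := fun b =>
    (a1 b).trans ⟨fun h => h.1, fun h => ⟨h, fun i hi => absurd (Finset.mem_univ i) hi⟩⟩
  -- the simple roots
  have hrve : ∀ q : Fin k, rv k co q = e q := by
    intro q
    funext t
    have h6 := (h2 q q.isLt).2 t t.isLt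
    simp only [rv, h6, e, Pi.single_apply]
    by_cases h7 : t = q
    · subst h7
      simp
    · have h8 : ¬ (q : ℕ) = t := fun h8 => h7 (Fin.ext h8.symm)
      simp [h7, h8]
  -- the reflections
  have hrr : ∀ (q : Fin k), ∀ i < D.N, i ≠ q →
      rv k co (D.r q i) = rv k co i - (pr M (rv k co i) q) • e q := by
    intro q i hi hq
    obtain ⟨-, h6⟩ := h3 i hi q q.isLt
    rcases h6 with h6 | ⟨h6, h7⟩
    · exact absurd h6 hq
    funext t
    rw [Pi.sub_apply, Pi.smul_apply, hpr, e, Pi.single_apply]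
    by_cases h8 : t = q
    · subst h8
      simp only [rv, if_true, smul_eq_mul, mul_one, ← h6]
      push_cast
      ring
    · rcases h7 t t.isLt with h9 | h9
      · exact absurd (Fin.ext h9) h8
      · simp only [rv, h9, if_neg h8, smul_zero, sub_zero]
  have hinj : ∀ i < D.N, ∀ j < D.N, rv k co i = rv k co j → i = j := by
    intro i hi j hj hij
    rcases h5 i hi j hj with h6 | ⟨t, ht, h6⟩
    · exact h6
    · exfalso
      have h7 := congrFun hij ⟨t, ht⟩
      simp only [rv, Nat.cast_inj] at h7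
      exact h6 h7
  have hRt : ∀ i, i < D.N → Rt M (rv k co i) := by
    intro i
    induction i using Nat.strong_induction_on with
    | _ i ih =>
      intro hi
      rcases h4 i hi with h6 | ⟨s, hs, h6, h7, h8⟩
      · have h7 := hrve ⟨i, h6⟩
        simp only at h7
        rw [h7]
        exact hM.a.simple _
      · have h9 := ih _ h6 (lt_trans h6 hi)
        have h10 : pr M (rv k co (D.r s i)) ⟨s, hs⟩ = -1 := by
          rw [hpr]
          simp only
          rw [← h8]
          push_cast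
          ring
        have h11 : D.r s i ≠ s := by
          intro h12
          rw [h12, (h2 s hs).1] at h7
          rw [← h7, (h2 s hs).1] at h6
          exact absurd h6 (lt_irrefl _)
        have h12 := hrr ⟨s, hs⟩ (D.r s i) (lt_trans h6 hi) h11
        simp only [h7] at h12
        rw [h12, h10, neg_one_smul, sub_neg_eq_add]
        exact hM.a.up _ _ h9 h10
  have hsur : ∀ m : ℕ, ∀ b, Rt M b → ht b = m → ∃ i < D.N, rv k co i = b := by
    intro m
    induction m using Nat.strong_induction_on with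
    | _ m ih =>
      intro b hb hm
      by_cases h6 : ∀ s, b ≠ e s
      · obtain ⟨s, hs⟩ := hM.a.desc b hb h6
        have h7 := hM.a.down b s hb hs
        have h8 := hM.b.htd b s hb hs
        obtain ⟨i, hi, h9⟩ := ih (ht (b - e s)) (by omega) _ h7 rfl
        have h10 : pr M (rv k co i) s = -1 := by
          rw [h9, hM.a.pr_sub, hs, hM.a.pre]
          norm_num
        have h11 : i ≠ s := by
          rintro h11
          rw [h11, hrve, hM.a.pre] at h10
          norm_num at h10
        refine ⟨D.r s i, (h3 i hi s s.isLt).1, ?_⟩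
        rw [hrr s i hi h11, h10, h9, neg_one_smul, sub_neg_eq_add, sub_add_cancel]
      · push Not at h6
        obtain ⟨s, rfl⟩ := h6
        exact ⟨s, lt_of_lt_of_le s.isLt h1, hrve s⟩
  let ψ : ℕ → PR M Finset.univ := fun i =>
    if h : i < D.N then ⟨rv k co i, (hmem _).2 (hRt i h)⟩ else E ⟨0, hk⟩
  have hψ : ∀ i < D.N, (ψ i).1 = rv k co i := by
    intro i hi
    simp only [ψ, dif_pos hi]
  refine ⟨ψ, hp, fun q => ?_, fun q => lt_of_lt_of_le q.isLt h1, fun q i hi => (h3 i hi q q.isLt).1,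
    fun q i hi => ?_, fun i hi j hj hij => ?_, fun x => ?_, hR.inv, hR.fix⟩
  · apply Subtype.ext
    rw [hψ _ (lt_of_lt_of_le q.isLt h1), hrve, hR.sim]
  · apply Subtype.ext
    rw [hψ _ (h3 i hi q q.isLt).1]
    by_cases h6 : i = q
    · have h7 : ψ i = E q := by
        apply Subtype.ext
        rw [hψ i hi, h6, hrve, hR.sim]
      rw [h7, hR.fix, hR.sim, h6, (h2 q q.isLt).1, hrve]
    · have h7 : ψ i ≠ E q := by
        intro h7
        have h8 := congrArg Subtype.val h7
        rw [hψ i hi, hR.sim, ← hrve] at h8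
        exact h6 (hinj i hi q (lt_of_lt_of_le q.isLt h1) h8)
      rw [hR.gen q _ h7, hψ i hi, hrr q i hi h6]
  · apply hinj i hi j hj
    rw [← hψ i hi, ← hψ j hj, hij]
  · obtain ⟨i, hi, h6⟩ := hsur _ x.1 ((hmem _).1 x.2) rfl
    exact ⟨i, hi, Subtype.ext (by rw [hψ i hi, h6])⟩

end sem

end Pool.Agent.Lib.MP_97567f_al.Pad
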