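import Pool.Agent.Lib.MP_97567f_al.Pad.DatE8
import Pool.Agent.Lib.MP_97567f_al.Pad.DatD6
import Pool.Agent.Lib.MP_97567f_al.Pad.CRt

/-!
# MP_97567f_al: the tables of the roots of E8 and D6
-/

set_option autoImplicit false

namespace Pool.Agent.Lib.MP_97567f_al.Pad

/-- The neighbours in E8. -/
def E8.nb : ℕ → List ℕ
  | 0 => [2]
  | 1 => [3]
  | 2 => [0, 3]
  | 3 => [1, 2, 4]
  | 4 => [3, 5]
  | 5 => [4, 6]
  | 6 => [5, 7]
  | _ => [6]

/-- The neighbours in D6. -/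
def D6.nb : ℕ → List ℕ
  | 0 => [2]
  | 1 => [2]
  | 2 => [0, 1, 3]
  | 3 => [2, 4]
  | 4 => [3, 5]
  | _ => [4]

theorem E8.chkRt : chkR E8.D 8 E8.co E8.nb = true := by decide +kernel

theorem D6.chkRt : chkR D6.D 6 D6.co D6.nb = true := by decide +kernel

theorem E8.hpr (i : ℕ) (q : Fin 8) : pr CoxeterMatrix.E₈ (rv 8 E8.co i) q =
    2 * (E8.co i q : ℤ) - (nsm E8.co E8.nb i q : ℕ) := by
  have ha : ∀ (j q : Fin 8), adj CoxeterMatrix.E₈ j q ↔ (j : ℕ) ∈ E8.nb q := by decide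
  simp only [pr, ha, rv]
  generalize E8.co = co
  fin_cases q <;> simp [Fin.sum_univ_eight, nsm, E8.nb] <;> ring

theorem D6.hpr (i : ℕ) (q : Fin 6) : pr U.D6 (rv 6 D6.co i) q =
    2 * (D6.co i q : ℤ) - (nsm D6.co D6.nb i q : ℕ) := by
  have ha : ∀ (j q : Fin 6), adj U.D6 j q ↔ (j : ℕ) ∈ D6.nb q := by decide
  simp only [pr, ha, rv]
  generalize D6.co = co
  fin_cases q <;> simp [Fin.sum_univ_six, nsm, D6.nb] <;> ring

end Pool.Agent.Lib.MP_97567f_al.Pad
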