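import Pool.Agent.Lib.MP_97567f_al.Pad.ChkE8
import Pool.Agent.Lib.MP_97567f_al.Pad.ChkD6
import Pool.Agent.Lib.MP_97567f_al.Pad.ChkR
import Pool.Agent.Lib.MP_97567f_al.U.Art

/-!
# MP_97567f_al: the certificates for H3 and H4

`cert_H4`, `cert_H3`: every solution of the linear conditions near `q = l = 1` in the direction `(1, 1)` over the field
with seven elements is a derivative of the family plus a scalar plus an infinitesimal conjugation.
-/

set_option autoImplicit false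
set_option linter.unusedSectionVars false

namespace Pool.Agent.Lib.MP_97567f_al.Pad

open CoxeterMatrix

section words

variable {B : Type} [Group B]

theorem zc2 {a b : B} (h : a * b = b * a) :
    a * (b * 1 * b) * a * a = a * (a * (b * 1 * b) * a) := by
  have h1 : Commute a b := h
  have h2 : Commute a (b * 1 * b) := by rw [mul_one]; exact h1.mul_right h1
  exact (((Commute.refl a).mul_right h2).mul_right (Commute.refl a)).eq.symm

theorem zc3 {a b : B} (h : a * b * a = b * a * b) :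
    a * (b * (a * 1 * a) * b) * a * a = a * (a * (b * (a * 1 * a) * b) * a) := by
  have e : a * (b * (a * 1 * a) * b) * a = (a * b * a) * (a * b * a) := by
    simp only [mul_assoc, mul_one]
  have ha : (a * b * a) * a = b * (a * b * a) := by
    calc (a * b * a) * a = b * a * b * a := by rw [h]
      _ = b * (a * b * a) := by simp only [mul_assoc]
  have hb : (a * b * a) * b = a * (a * b * a) := by
    calc (a * b * a) * b = a * (b * a * b) := by simp only [mul_assoc]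
      _ = a * (a * b * a) := by rw [h]
  rw [e, mul_assoc, ha, ← mul_assoc, hb, mul_assoc]

theorem zc5 {a b : B} (h : a * b * a * b * a = b * a * b * a * b) :
    a * (b * (a * (b * (a * 1 * a) * b) * a) * b) * a * a =
      a * (a * (b * (a * (b * (a * 1 * a) * b) * a) * b) * a) := by
  have e : a * (b * (a * (b * (a * 1 * a) * b) * a) * b) * a =
      (a * b * a * b * a) * (a * b * a * b * a) := by
    simp only [mul_assoc, mul_one]
  have ha : (a * b * a * b * a) * a = b * (a * b * a * b * a) := by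
    calc (a * b * a * b * a) * a = b * a * b * a * b * a := by rw [h]
      _ = b * (a * b * a * b * a) := by simp only [mul_assoc]
  have hb : (a * b * a * b * a) * b = a * (a * b * a * b * a) := by
    calc (a * b * a * b * a) * b = a * (b * a * b * a * b) := by simp only [mul_assoc]
      _ = a * (a * b * a * b * a) := by rw [h]
  rw [e, mul_assoc, ha, ← mul_assoc, hb, mul_assoc]

theorem cw {a b c u v : B} (h1 : u * a = b * u) (h2 : v * b = c * v) :
    v * u * a = c * (v * u) := by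
  rw [mul_assoc, h1, ← mul_assoc, h2, mul_assoc]

end words

/-- The generator with the number `l`. -/
def f4 (l : ℕ) : Fin 4 := ⟨l % 4, Nat.mod_lt _ (by norm_num)⟩

/-- The generator with the number `l`. -/
def f3 (l : ℕ) : Fin 3 := ⟨l % 3, Nat.mod_lt _ (by norm_num)⟩

section H4

theorem relH4 : ∃ a b c d : Art H₄, gn H₄ 0 = a ∧ gn H₄ 1 = b ∧ gn H₄ 2 = c ∧ gn H₄ 3 = d ∧
    a * b * a = b * a * b ∧ a * c = c * a ∧ a * d = d * a ∧ b * c * b = c * b * c ∧
    b * d = d * b ∧ c * d * c * d * c = d * c * d * c * d := by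
  refine ⟨_, _, _, _, rfl, rfl, rfl, rfl, ?_⟩
  have h := (U.pArt 4 H₄).1
  have h01 := h 0 1
  have h02 := h 0 2
  have h03 := h 0 3
  have h12 := h 1 2
  have h13 := h 1 3
  have h23 := h 2 3
  rw [show H₄.M 0 1 = 3 from rfl] at h01
  rw [show H₄.M 0 2 = 2 from rfl] at h02
  rw [show H₄.M 0 3 = 2 from rfl] at h03
  rw [show H₄.M 1 2 = 3 from rfl] at h12
  rw [show H₄.M 1 3 = 2 from rfl] at h13
  rw [show H₄.M 2 3 = 5 from rfl] at h23
  simp only [U.alt, List.range, List.range.loop, List.map_cons, List.map_nil, List.prod_cons,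
    List.prod_nil, mul_one] at h01 h23 h02 h03 h13 h12
  norm_num at h01 h23 h02 h03 h13 h12
  simp only [mul_assoc] at *
  exact ⟨h01, h02, h03, h12, h13, h23⟩

theorem elH4 (l : ℕ) : el (gn H₄) f4 (E8.C.wd l) * gn H₄ (f4 0) =
    gn H₄ (f4 l) * el (gn H₄) f4 (E8.C.wd l) := by
  obtain ⟨a, b, c, d, ea, eb, ec, ed, ab, ac, ad, bc, bd, cd⟩ := relH4
  have e0 : gn H₄ (f4 0) = a := ea
  have e1 : gn H₄ (f4 1) = b := eb
  have e2 : gn H₄ (f4 2) = c := ec
  have e3 : gn H₄ (f4 3) = d := ed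
  have h1 : (a * b) * a = b * (a * b) := by rw [ab, mul_assoc]
  have h2 : (b * c) * b = c * (b * c) := by rw [bc, mul_assoc]
  have h3 : (c * d * c * d) * c = d * (c * d * c * d) := by
    rw [cd]
    simp only [mul_assoc]
  have hl : l % 4 = 0 ∨ l % 4 = 1 ∨ l % 4 = 2 ∨ l % 4 = 3 := by omega
  rcases hl with hl | hl | hl | hl
  · have hw : E8.C.wd l = [] := by simp [E8.C, E8.wd, hl]
    have hf : f4 l = f4 0 := Fin.ext hl
    rw [hw, hf]
    simp [el]
  · have hw : E8.C.wd l = [0, 1] := by simp [E8.C, E8.wd, hl]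
    have hf : f4 l = f4 1 := Fin.ext hl
    have he : el (gn H₄) f4 [0, 1] = a * b := by simp [el, e0, e1]
    rw [hw, hf, he, e0, e1]
    exact h1
  · have hw : E8.C.wd l = [1, 2, 0, 1] := by simp [E8.C, E8.wd, hl]
    have hf : f4 l = f4 2 := Fin.ext hl
    have he : el (gn H₄) f4 [1, 2, 0, 1] = (b * c) * (a * b) := by
      simp [el, e0, e1, e2, mul_assoc]
    rw [hw, hf, he, e0, e2]
    exact cw h1 h2
  · have hw : E8.C.wd l = [2, 3, 2, 3, 1, 2, 0, 1] := by simp [E8.C, E8.wd, hl]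
    have hf : f4 l = f4 3 := Fin.ext hl
    have he : el (gn H₄) f4 [2, 3, 2, 3, 1, 2, 0, 1] = (c * d * c * d) * ((b * c) * (a * b)) := by
      simp [el, e0, e1, e2, e3, mul_assoc]
    rw [hw, hf, he, e0, e3]
    exact cw (cw h1 h2) h3

theorem comH4 (c : ℕ) (hc : c < E8.C.ng) : gn H₄ (f4 (E8.C.gs c).2) * gn H₄ (f4 (E8.C.gs c).1) =
      gn H₄ (f4 (E8.C.gs c).1) * gn H₄ (f4 (E8.C.gs c).2) := by
  obtain ⟨x, y, z, w, ea, eb, ec, ed, ab, ac, ad, bc, bd, cd⟩ := relH4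
  have e0 : gn H₄ (f4 0) = x := ea
  have e1 : gn H₄ (f4 1) = y := eb
  have e2 : gn H₄ (f4 2) = z := ec
  have e3 : gn H₄ (f4 3) = w := ed
  have hc' : c < 4 := hc
  interval_cases c
  · rfl
  · change gn H₄ (f4 2) * gn H₄ (f4 0) = gn H₄ (f4 0) * gn H₄ (f4 2)
    rw [e0, e2, ac]
  · change gn H₄ (f4 3) * gn H₄ (f4 0) = gn H₄ (f4 0) * gn H₄ (f4 3)
    rw [e0, e3, ad]
  · change gn H₄ (f4 1) * gn H₄ (f4 3) = gn H₄ (f4 3) * gn H₄ (f4 1)
    rw [e1, e3, bd]

theorem zwH4 (s t : ℕ) : zw (gn H₄) ((E8.C.al s t).map f4) * gn H₄ (f4 s) =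
    gn H₄ (f4 s) * zw (gn H₄) ((E8.C.al s t).map f4) := by
  obtain ⟨x, y, z, w, ea, eb, ec, ed, ab, ac, ad, bc, bd, cd⟩ := relH4
  have e0 : gn H₄ (f4 0) = x := ea
  have e1 : gn H₄ (f4 1) = y := eb
  have e2 : gn H₄ (f4 2) = z := ec
  have e3 : gn H₄ (f4 3) = w := ed
  change zw (gn H₄) ((E8.al s t).map f4) * gn H₄ (f4 s) =
    gn H₄ (f4 s) * zw (gn H₄) ((E8.al s t).map f4)
  unfold E8.al
  split
  · simp only [List.map_cons, List.map_nil, zw, e0, e1]
    exact zc3 ab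
  · simp only [List.map_cons, List.map_nil, zw, e0, e2]
    exact zc2 ac
  · simp only [List.map_cons, List.map_nil, zw, e2, e3]
    exact zc5 cd
  · simp [zw]

theorem hpH4 (s : ℕ) (c : Fin 2) : E8.D.p s c = (U.p4 (f4 s) c : ℕ) := by
  have h1 : ∀ (s : Fin 4) (c : Fin 2), E8.tb E8.tp 4 15 (2 * s + c) = (U.p4 s c : ℕ) := by
    decide +kernel
  exact h1 (f4 s) c

end H4

section H3

theorem relH3 : ∃ a b c : Art H₃, gn H₃ 0 = a ∧ gn H₃ 1 = b ∧ gn H₃ 2 = c ∧
    a * b * a = b * a * b ∧ a * c = c * a ∧ b * c * b * c * b = c * b * c * b * c := by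
  refine ⟨_, _, _, rfl, rfl, rfl, ?_⟩
  have h := (U.pArt 3 H₃).1
  have h01 := h 0 1
  have h02 := h 0 2
  have h12 := h 1 2
  rw [show H₃.M 0 1 = 3 from rfl] at h01
  rw [show H₃.M 0 2 = 2 from rfl] at h02
  rw [show H₃.M 1 2 = 5 from rfl] at h12
  simp only [U.alt, List.range, List.range.loop, List.map_cons, List.map_nil, List.prod_cons,
    List.prod_nil, mul_one] at h01 h02 h12
  norm_num at h01 h02 h12
  simp only [mul_assoc] at *
  exact ⟨h01, h02, h12⟩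

theorem elH3 (l : ℕ) : el (gn H₃) f3 (D6.C.wd l) * gn H₃ (f3 0) =
    gn H₃ (f3 l) * el (gn H₃) f3 (D6.C.wd l) := by
  obtain ⟨a, b, c, ea, eb, ec, ab, ac, bc⟩ := relH3
  have e0 : gn H₃ (f3 0) = a := ea
  have e1 : gn H₃ (f3 1) = b := eb
  have e2 : gn H₃ (f3 2) = c := ec
  have h1 : (a * b) * a = b * (a * b) := by rw [ab, mul_assoc]
  have h2 : (b * c * b * c) * b = c * (b * c * b * c) := by
    rw [bc]
    simp only [mul_assoc]
  have hl : l % 3 = 0 ∨ l % 3 = 1 ∨ l % 3 = 2 := by omega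
  rcases hl with hl | hl | hl
  · have hw : D6.C.wd l = [] := by simp [D6.C, D6.wd, hl]
    have hf : f3 l = f3 0 := Fin.ext hl
    rw [hw, hf]
    simp [el]
  · have hw : D6.C.wd l = [0, 1] := by simp [D6.C, D6.wd, hl]
    have hf : f3 l = f3 1 := Fin.ext hl
    have he : el (gn H₃) f3 [0, 1] = a * b := by simp [el, e0, e1]
    rw [hw, hf, he, e0, e1]
    exact h1
  · have hw : D6.C.wd l = [1, 2, 1, 2, 0, 1] := by simp [D6.C, D6.wd, hl]
    have hf : f3 l = f3 2 := Fin.ext hl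
    have he : el (gn H₃) f3 [1, 2, 1, 2, 0, 1] = (b * c * b * c) * (a * b) := by
      simp [el, e0, e1, e2, mul_assoc]
    rw [hw, hf, he, e0, e2]
    exact cw h1 h2

theorem comH3 (c : ℕ) (hc : c < D6.C.ng) : gn H₃ (f3 (D6.C.gs c).2) * gn H₃ (f3 (D6.C.gs c).1) =
      gn H₃ (f3 (D6.C.gs c).1) * gn H₃ (f3 (D6.C.gs c).2) := by
  obtain ⟨x, y, z, ea, eb, ec, ab, ac, bc⟩ := relH3
  have e0 : gn H₃ (f3 0) = x := ea
  have e2 : gn H₃ (f3 2) = z := ec
  have hc' : c < 3 := hc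
  interval_cases c
  · rfl
  · change gn H₃ (f3 2) * gn H₃ (f3 0) = gn H₃ (f3 0) * gn H₃ (f3 2)
    rw [e0, e2, ac]
  · change gn H₃ (f3 0) * gn H₃ (f3 2) = gn H₃ (f3 2) * gn H₃ (f3 0)
    rw [e0, e2, ac]

theorem zwH3 (s t : ℕ) : zw (gn H₃) ((D6.C.al s t).map f3) * gn H₃ (f3 s) =
    gn H₃ (f3 s) * zw (gn H₃) ((D6.C.al s t).map f3) := by
  obtain ⟨x, y, z, ea, eb, ec, ab, ac, bc⟩ := relH3
  have e0 : gn H₃ (f3 0) = x := ea
  have e1 : gn H₃ (f3 1) = y := eb
  have e2 : gn H₃ (f3 2) = z := ec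
  change zw (gn H₃) ((D6.al s t).map f3) * gn H₃ (f3 s) =
    gn H₃ (f3 s) * zw (gn H₃) ((D6.al s t).map f3)
  unfold D6.al
  split
  · simp only [List.map_cons, List.map_nil, zw, e0, e1]
    exact zc3 ab
  · simp only [List.map_cons, List.map_nil, zw, e0, e2]
    exact zc2 ac
  · simp only [List.map_cons, List.map_nil, zw, e1, e2]
    exact zc5 bc
  · simp [zw]

theorem hpH3 (s : ℕ) (c : Fin 2) : D6.D.p s c = (U.p3 (f3 s) c : ℕ) := by
  have h1 : ∀ (s : Fin 3) (c : Fin 2), D6.tb D6.tp 4 15 (2 * s + c) = (U.p3 s c : ℕ) := by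
    decide +kernel
  exact h1 (f3 s) c

end H3

/-- The certificate from the checks. -/
theorem cert_gen [Fact (Nat.Prime 7)] (htn : SHtn) {n k : ℕ} {M : CoxeterMatrix (Fin n)}
    {M' : CoxeterMatrix (Fin k)} {pf : Fin n → Fin 2 → Fin k} {E : Fin k → PR M' Finset.univ}
    {G : Fin k → Equiv.Perm (PR M' Finset.univ)} (Φ : NFam (Art M) (PR M' Finset.univ) (Fin 2))
    (π : Art M →* Equiv.Perm (PR M' Finset.univ))
    (hπ : ∀ s, π (gn _ s) = G (pf s 0) * G (pf s 1)) (hW : WPt 7 Φ (gn M) π (TT pf E G))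
    {D : Dt} {C : Ct} {A : Mt} {Ls : List (List (ℕ × ℕ × ℕ × ℕ × ℕ))} {fn : ℕ → Fin n}
    {ψ : ℕ → PR M' Finset.univ} (h : Sem D pf E G ψ fn) (hO : C.chkO D = true)
    (hS : chkS C D C.F Ls = true) (hM : A.chk C D n = true) (hF : C.F ≤ C.K)
    (hfv : ∀ s : Fin n, fn s = s)
    (hw : ∀ l, el (gn M) fn (C.wd l) * gn M (fn 0) = gn M (fn l) * el (gn M) fn (C.wd l))
    (hc : ∀ c < C.ng, gn M (fn (C.gs c).2) * gn M (fn (C.gs c).1) =
      gn M (fn (C.gs c).1) * gn M (fn (C.gs c).2))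
    (hh : ∀ s t, zw (gn M) ((C.al s t).map fn) * gn M (fn s) =
      gn M (fn s) * zw (gn M) ((C.al s t).map fn)) :
    CertC 7 (fun _ : Fin n => ()) (gn M) π (TT pf E G) (fun _ => 1) := by
  intro X hX
  have h1 : (fun s => ∑ l : Fin 2, (fun _ => (1 : ZMod 7)) l • TT pf E G l s) = tau pf E G :=
    funext fun s => tau_eq s
  have h2 : ∀ s, (∑ l : Fin 2, (fun _ => (1 : ZMod 7)) l • TT pf E G l s) = tau pf E G s :=
    fun s => congrFun h1 s
  rw [h1] at hX
  obtain ⟨a, c, m, hm, hx⟩ := match_main (A := A) (C := C) h hπ hW.sq (U.pArt n M).2.2.2.1 hM hO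
    hF hfv (fun X hX h0 => uniq_main (C := C) h hπ hW.sq hO Ls hS hw hc hh
      (fun s => ⟨s, hfv s⟩) X hX h0)
    (fun a c m hm => by
      have h3 := htn 7 (by norm_num) _ _ (Fin 2) (Fin n) Φ (gn M) π _ hW (fun _ => 1) a
        (fun _ => c) m hm (fun _ _ _ _ => rfl)
      rw [h1] at h3
      simp only [h2] at h3
      exact h3) X hX
  refine ⟨a, fun _ => c, m, hm, fun s => ?_⟩
  rw [h2]
  exact hx s

/-- **The certificate for H4.** -/
theorem cert_H4 [Fact (Nat.Prime 7)] (htn : SHtn) (hA : SLkA) (hRF : RF E₈)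
    (E : Fin 8 → PR E₈ Finset.univ) (G : Fin 8 → Equiv.Perm (PR E₈ Finset.univ))
    (hR : RDat E₈ E G) (Φ : NFam (Art H₄) (PR E₈ Finset.univ) (Fin 2))
    (π : Art H₄ →* Equiv.Perm (PR E₈ Finset.univ))
    (hπ : ∀ s, π (gn _ s) = G (U.p4 s 0) * G (U.p4 s 1))
    (hW : WPt 7 Φ (gn H₄) π (TT U.p4 E G)) :
    CertC 7 (fun _ : Fin 4 => ()) (gn H₄) π (TT U.p4 E G) (fun _ => 1) := by
  obtain ⟨ψ, h⟩ := sem_main (pf := U.p4) (fn := f4) hA hRF hR E8.chkRt E8.hpr hpH4 (by norm_num)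
  exact cert_gen htn Φ π hπ hW h E8.chkO E8.chkS E8.chkM (by decide)
    (fun s => Fin.ext (Nat.mod_eq_of_lt s.isLt)) elH4 comH4 zwH4

/-- **The certificate for H3.** -/
theorem cert_H3 [Fact (Nat.Prime 7)] (htn : SHtn) (hA : SLkA) (hRF : RF U.D6)
    (E : Fin 6 → PR U.D6 Finset.univ) (G : Fin 6 → Equiv.Perm (PR U.D6 Finset.univ))
    (hR : RDat U.D6 E G) (Φ : NFam (Art H₃) (PR U.D6 Finset.univ) (Fin 2))
    (π : Art H₃ →* Equiv.Perm (PR U.D6 Finset.univ))
    (hπ : ∀ s, π (gn _ s) = G (U.p3 s 0) * G (U.p3 s 1))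
    (hW : WPt 7 Φ (gn H₃) π (TT U.p3 E G)) :
    CertC 7 (fun _ : Fin 3 => ()) (gn H₃) π (TT U.p3 E G) (fun _ => 1) := by
  obtain ⟨ψ, h⟩ := sem_main (pf := U.p3) (fn := f3) hA hRF hR D6.chkRt D6.hpr hpH3 (by norm_num)
  exact cert_gen htn Φ π hπ hW h D6.chkO D6.chkS D6.chkM (by decide)
    (fun s => Fin.ext (Nat.mod_eq_of_lt s.isLt)) elH3 comH3 zwH3

end Pool.Agent.Lib.MP_97567f_al.Pad
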