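import Pool.Agent.Lib.MP_97567f_al.Pad.Spec

/-!
# MP_97567f_al: characteristic polynomials at other parameters
-/

set_option autoImplicit false

namespace Pool.Agent.Lib.MP_97567f_al.Pad

open Polynomial U

private theorem ChF_nat {B : Type} [Group B] {Ω : Type} [Fintype Ω] [DecidableEq Ω]
    (Φ : NFam B Ω (Fin 2)) {L F : Type} [CommRing L] [CommRing F] (φ : L →+* F)
    (t : Fin 2 → Lˣ) (θ : Fin 2 → Fˣ) (h : ∀ j, φ (t j) = θ j) (x : B) :
    (Φ.rep F θ x).charpoly = (Φ.rep L t x).charpoly.map φ := by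
  have h1 : (fun j => Units.map φ.toMonoidHom (t j)) = θ := by
    funext j
    exact Units.ext (h j)
  rw [← h1, Φ.nat, Matrix.charpoly_map]

private theorem ChF_form {L F : Type} [CommRing L] [CommRing F] (φ : L →+* F)
    (t : Fin 2 → Lˣ) (θ : Fin 2 → Fˣ) (h : ∀ j, φ (t j) = θ j) (a b c d : ℕ) :
    ((X - C (t 1 : L)) ^ d * (X - C 1) ^ a * (X - C (-(t 0 : L))) ^ b *
      (X - C ((t 0 : L) ^ 2)) ^ c).map φ = (X - C (θ 1 : F)) ^ d * (X - C 1) ^ a *
      (X - C (-(θ 0 : F))) ^ b * (X - C ((θ 0 : F) ^ 2)) ^ c := by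
  simp only [Polynomial.map_mul, Polynomial.map_pow, Polynomial.map_sub, Polynomial.map_X,
    Polynomial.map_C, map_one, map_neg, map_pow, h, Polynomial.map_one, Polynomial.map_neg]

theorem pChF (h1 : SLau) : SChF := by
  intro B _ Ω _ _ Φ R _ _ _ t x a b c d hai hchar F _ _ θ
  obtain ⟨L, _, _, _, _, t', hL⟩ := h1 2
  let _ : Algebra ℚ R := ((algebraMap ℂ R).comp (algebraMap ℚ ℂ)).toAlgebra
  have : IsScalarTower ℚ ℂ R := IsScalarTower.of_algebraMap_eq fun _ => rfl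
  have hai' : AlgebraicIndependent ℚ (fun j => (t j : R)) :=
    hai.restrictScalars (algebraMap ℚ ℂ).injective
  obtain ⟨φ, hφ, hinj⟩ := hL R t
  have hinj' := hinj hai'
  obtain ⟨ψ, hψ, -⟩ := hL F θ
  have h2 : (Φ.rep L t' x).charpoly = (X - C (t' 1 : L)) ^ d * (X - C 1) ^ a *
      (X - C (-(t' 0 : L))) ^ b * (X - C ((t' 0 : L) ^ 2)) ^ c := by
    apply Polynomial.map_injective (φ : L →+* R) hinj'
    rw [← ChF_nat Φ (φ : L →+* R) t' t hφ x, ChF_form (φ : L →+* R) t' t hφ, hchar]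
  rw [ChF_nat Φ (ψ : L →+* F) t' θ hψ x, h2, ChF_form (ψ : L →+* F) t' θ hψ]

end Pool.Agent.Lib.MP_97567f_al.Pad
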