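import Pool.Agent.Lib.MP_97567f_al.Pad.Spec

/-!
# MP_97567f_al: the eigenvalues for H3 and H4
-/

set_option autoImplicit false

namespace Pool.Agent.Lib.MP_97567f_al.Pad

open Polynomial U

/-- The characteristic polynomial of a multiple of a matrix. -/
private theorem EgH_smul {F : Type} [Field F] [Infinite F] {Ω : Type} [Fintype Ω] [DecidableEq Ω]
    (M : Matrix Ω Ω F) (k : ℕ) (w : Fin k → F) (m : Fin k → ℕ) (c : F) (hc : c ≠ 0)
    (h : M.charpoly = ∏ j, (X - C (w j)) ^ m j) :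
    (c • M).charpoly = ∏ j, (X - C (c * w j)) ^ m j := by
  have hdeg : Fintype.card Ω = ∑ j, m j := by
    rw [← Matrix.charpoly_natDegree_eq_dim M, h,
      Polynomial.natDegree_prod_of_monic _ _ fun j _ => (monic_X_sub_C (w j)).pow (m j)]
    exact Finset.sum_congr rfl fun j _ => by rw [natDegree_pow, natDegree_X_sub_C, mul_one]
  refine Polynomial.funext fun x => ?_
  rw [Matrix.eval_charpoly, Polynomial.eval_prod]
  have e1 : (Matrix.scalar Ω) x - c • M = c • ((Matrix.scalar Ω) (c⁻¹ * x) - M) := by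
    rw [smul_sub]
    congr 1
    rw [Matrix.scalar_apply, Matrix.scalar_apply, ← Matrix.diagonal_smul]
    congr 1
    funext i
    rw [Pi.smul_apply, smul_eq_mul, mul_inv_cancel_left₀ hc]
  rw [e1, Matrix.det_smul, ← Matrix.eval_charpoly, h, Polynomial.eval_prod, hdeg,
    ← Finset.prod_pow_eq_pow_sum, ← Finset.prod_mul_distrib]
  refine Finset.prod_congr rfl fun j _ => ?_
  rw [eval_pow, eval_pow, ← mul_pow, eval_sub, eval_sub, eval_X, eval_X, eval_C, eval_C, mul_sub,
    mul_inv_cancel_left₀ hc]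

/-- The eigenvalues for H3 and H4. -/
theorem pEgH (h1 : SChF) (h2 : SRtu) : SEgH := by
  intro p _ B _ Ω _ _ Φ S _ g u R _ _ _ t a b c d hp hu0 hu1 hu2 hd hdb hc hcb hba halg hch L _ _
    _ _ ψ hψ θ γ hN hP
  -- the values of the parameters
  obtain ⟨y, hy1, hy2⟩ := hN 0
  obtain ⟨z, hz1, hz2⟩ := hN 1
  have hpz : PadicInt.toZMod (p : ℤ_[p]) = 0 := by
    rw [map_natCast, ZMod.natCast_self]
  have hp0 : (p : ℤ_[p]) ≠ 0 := by
    exact_mod_cast (Fact.out : p.Prime).ne_zero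
  have rq : PadicInt.toZMod (θ 0 : ℤ_[p]) = 1 := by
    rw [hy1, map_add, map_mul, hpz, zero_mul, add_zero, map_one]
  have rl : PadicInt.toZMod (θ 1 : ℤ_[p]) = 1 := by
    rw [hz1, map_add, map_mul, hpz, zero_mul, add_zero, map_one]
  have h11 : (1 : ZMod p) ≠ -1 := by
    intro h
    have h3 : ((2 : ℕ) : ZMod p) = 0 := by
      push_cast
      linear_combination h
    rw [ZMod.natCast_eq_zero_iff] at h3
    exact hp ((Nat.prime_dvd_prime_iff_eq (Fact.out : p.Prime) Nat.prime_two).1 h3)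
  have q1 : (θ 0 : ℤ_[p]) ≠ 1 := by
    intro h
    rw [hy1] at h
    have h3 : (p : ℤ_[p]) * y = 0 := by linear_combination h
    rcases mul_eq_zero.1 h3 with h4 | h4
    · exact hp0 h4
    · rw [h4, map_zero] at hy2
      exact hu0 hy2.symm
  have l1 : (θ 1 : ℤ_[p]) ≠ 1 := by
    intro h
    rw [hz1] at h
    have h3 : (p : ℤ_[p]) * z = 0 := by linear_combination h
    rcases mul_eq_zero.1 h3 with h4 | h4
    · exact hp0 h4
    · rw [h4, map_zero] at hz2
      exact hu1 hz2.symm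
  have q2 : (θ 0 : ℤ_[p]) ≠ -1 := by
    intro h
    rw [h, map_neg, map_one] at rq
    exact h11 rq.symm
  have lq : (θ 1 : ℤ_[p]) ≠ -(θ 0 : ℤ_[p]) := by
    intro h
    rw [h, map_neg, rq] at rl
    exact h11 rl.symm
  have lqq : (θ 1 : ℤ_[p]) ≠ (θ 0 : ℤ_[p]) ^ 2 := by
    intro h
    rw [hy1, hz1] at h
    have h3 : (p : ℤ_[p]) * (z - (2 * y + p * y ^ 2)) = 0 := by linear_combination h
    rcases mul_eq_zero.1 h3 with h4 | h4
    · exact hp0 h4
    · have h5 := congrArg PadicInt.toZMod h4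
      rw [map_sub, map_add, map_mul, map_mul, hpz, zero_mul, add_zero, map_zero, hy2, hz2,
        map_ofNat] at h5
      apply hu2
      linear_combination -h5
  have q0 : (θ 0 : ℤ_[p]) ≠ 0 := (θ 0).ne_zero
  set q : ℚ_[p] := ((θ 0 : ℤ_[p]) : ℚ_[p]) with hq
  set l : ℚ_[p] := ((θ 1 : ℤ_[p]) : ℚ_[p]) with hl
  have cinj : ∀ {v w : ℤ_[p]}, ((v : ℚ_[p]) = (w : ℚ_[p])) → v = w := fun h => Subtype.ext h
  have Q0 : q ≠ 0 := fun h => q0 (cinj (by rw [← hq, h, PadicInt.coe_zero]))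
  have Q1 : q ≠ 1 := fun h => q1 (cinj (by rw [← hq, h, PadicInt.coe_one]))
  have L1 : l ≠ 1 := fun h => l1 (cinj (by rw [← hl, h, PadicInt.coe_one]))
  have Q2 : q ≠ -1 := fun h => q2 (cinj (by
    rw [← hq, h]
    push_cast
    rfl))
  have LQ : l ≠ -q := fun h => lq (cinj (by
    rw [← hl, h, hq]
    push_cast
    rfl))
  have LQQ : l ≠ q ^ 2 := fun h => lqq (cinj (by
    rw [← hl, h, hq]
    push_cast
    rfl))
  have Q3 : q ^ 2 ≠ 1 := by
    intro h
    have h3 : (q - 1) * (q + 1) = 0 := by linear_combination h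
    rcases mul_eq_zero.1 h3 with h4 | h4
    · exact Q1 (by linear_combination h4)
    · exact Q2 (by linear_combination h4)
  have Q4 : -q ≠ q ^ 2 := by
    intro h
    have h3 : q * (q + 1) = 0 := by linear_combination -h
    rcases mul_eq_zero.1 h3 with h4 | h4
    · exact Q0 h4
    · exact Q2 (by linear_combination h4)
  have Q5 : -q ≠ 1 := fun h => Q2 (by linear_combination -h)
  -- one generator
  have key : ∀ s, (∃ v : Lˣ, ψ v = ((γ s : ℤ_[p]) : ℚ_[p])) ∧ (∃ v : Lˣ, ψ v = q) ∧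
      ∃ v : Lˣ, ψ v = l := by
    intro s
    obtain ⟨P, hPm, hPu, hPe⟩ := hP s
    set e : ℚ_[p] := ((γ s : ℤ_[p]) : ℚ_[p]) with he
    have e0 : e ≠ 0 := fun h => (γ s).ne_zero (cinj (by rw [← he, h, PadicInt.coe_zero]))
    set θ' : Fin 2 → (ℚ_[p])ˣ :=
      fun j => Units.map (algebraMap ℤ_[p] ℚ_[p]).toMonoidHom (θ j) with hθ'
    have k1 := h1 B Ω Φ R t (g s) a b c d halg (hch s) ℚ_[p] θ'
    have k2 : Φ.rep ℚ_[p] θ' (g s) = (Φ.rep ℤ_[p] θ (g s)).map (algebraMap ℤ_[p] ℚ_[p]) :=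
      Φ.nat ℤ_[p] ℚ_[p] (algebraMap ℤ_[p] ℚ_[p]) θ (g s)
    have k3 : (θ' 0 : ℚ_[p]) = q := rfl
    have k4 : (θ' 1 : ℚ_[p]) = l := rfl
    rw [k3, k4] at k1
    have k5 : (Φ.rep ℚ_[p] θ' (g s)).charpoly =
        ∏ j : Fin 4, (X - C ((![l, 1, -q, q ^ 2] : Fin 4 → ℚ_[p]) j)) ^
          ((![d, a, b, c] : Fin 4 → ℕ) j) := by
      rw [k1, Fin.prod_univ_four]
      simp
    have k6 := EgH_smul (Φ.rep ℚ_[p] θ' (g s)) 4 _ _ e e0 k5
    have k7 : P.map ψ = ∏ j : Fin 4, (X - C (e * (![l, 1, -q, q ^ 2] : Fin 4 → ℚ_[p]) j)) ^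
          ((![d, a, b, c] : Fin 4 → ℕ) j) := by
      rw [hPe, ← Matrix.charpoly_map, ← k6, k2]
      congr 1
    have hpos : ∀ j, 0 < (![d, a, b, c] : Fin 4 → ℕ) j := by
      intro j
      fin_cases j
      · exact hd
      · exact (hd.trans hdb).trans hba
      · exact hd.trans hdb
      · exact hc
    obtain ⟨m1, m2⟩ := h2 L ℚ_[p] ψ hψ P 4 (fun j => e * (![l, 1, -q, q ^ 2] : Fin 4 → ℚ_[p]) j)
      ![d, a, b, c] hPm hPu hpos k7
    have hinj : Function.Injective fun j => e * (![l, 1, -q, q ^ 2] : Fin 4 → ℚ_[p]) j := by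
      have h3 : Function.Injective (![l, 1, -q, q ^ 2] : Fin 4 → ℚ_[p]) := by
        intro i j hij
        fin_cases i <;> fin_cases j <;> first
          | rfl
          | exact absurd hij L1
          | exact absurd hij.symm L1
          | exact absurd hij LQ
          | exact absurd hij.symm LQ
          | exact absurd hij LQQ
          | exact absurd hij.symm LQQ
          | exact absurd hij Q3
          | exact absurd hij.symm Q3
          | exact absurd hij Q4
          | exact absurd hij.symm Q4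
          | exact absurd hij Q5
          | exact absurd hij.symm Q5
      intro i j hij
      exact h3 (mul_left_cancel₀ e0 hij)
    obtain ⟨v1, hv1⟩ := m1 hinj 1 (by
      intro i hi
      fin_cases i
      · exact (hdb.trans hba).ne
      · exact absurd rfl hi
      · exact hba.ne
      · exact (hcb.trans hba).ne)
    obtain ⟨v2, hv2⟩ := m1 hinj 2 (by
      intro i hi
      fin_cases i
      · exact hdb.ne
      · exact hba.ne'
      · exact absurd rfl hi
      · exact hcb.ne)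
    have hv1' : ψ (v1 : L) = e := by
      rw [hv1]
      exact mul_one e
    have hv2' : ψ (v2 : L) = -(e * q) := by
      rw [hv2]
      exact mul_neg e q
    have hinv : ψ ((v1⁻¹ : Lˣ) : L) = e⁻¹ := by
      have h3 : ψ ((v1⁻¹ : Lˣ) : L) * e = 1 := by
        rw [← hv1', ← map_mul, Units.inv_mul, map_one]
      exact eq_inv_of_mul_eq_one_left h3
    have hqv : ψ ((-(v2 * v1⁻¹) : Lˣ) : L) = q := by
      rw [Units.val_neg, Units.val_mul, map_neg, map_mul, hv2', hinv]
      field_simp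
    obtain ⟨v0, hv0⟩ := m2 0 (by
      intro i hi
      fin_cases i
      · exact absurd rfl hi
      · exact ⟨v1, hv1⟩
      · exact ⟨v2, hv2⟩
      · refine ⟨v1 * (-(v2 * v1⁻¹)) ^ 2, ?_⟩
        rw [Units.val_mul, Units.val_pow_eq_pow_val, map_mul, map_pow, hqv, hv1']
        rfl)
    refine ⟨⟨v1, hv1'⟩, ⟨_, hqv⟩, v0 * v1⁻¹, ?_⟩
    rw [Units.val_mul, map_mul, hv0, hinv]
    change e * l * e⁻¹ = l
    field_simp
  refine ⟨fun s => (key s).1, fun j => ?_⟩
  obtain ⟨s⟩ := (inferInstance : Nonempty S)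
  fin_cases j
  · exact (key s).2.1
  · exact (key s).2.2

end Pool.Agent.Lib.MP_97567f_al.Pad
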