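import Pool.Agent.Lib.MP_97567f_al.Pad.Spec
import Pool.Agent.Lib.MP_97567f_al.U.HDat

/-!
# MP_97567f_al: the folded families: from Theorem R to `TFam`
-/

set_option autoImplicit false

namespace Pool.Agent.Lib.MP_97567f_al.Pad

open Polynomial U

/-- The parameters `qq`, `ll` as units of `R2`. -/
noncomputable def tR2 : Fin 2 → R2ˣ := ![qq_unit.unit, ll_unit.unit]

theorem tR2_zero : (tR2 0 : R2) = qq := rfl

theorem tR2_one : (tR2 1 : R2) = ll := rfl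

theorem tR2_ind : AlgebraicIndependent ℂ (fun j => (tR2 j : R2)) := by
  have h : (fun j => (tR2 j : R2)) = algebraMap P2 R2 ∘ MvPolynomial.X := by
    funext j
    fin_cases j
    · rfl
    · rfl
  rw [h]
  have h2 : AlgebraicIndependent ℂ (MvPolynomial.X : Fin 2 → P2) :=
    MvPolynomial.algebraicIndependent_X _ _
  exact h2.map' (f := IsScalarTower.toAlgHom ℂ P2 R2) algebraMap_injective

theorem tR2_lift (a : Fin 2 → R2ˣ) : ∃ θ : R2 →ₐ[ℂ] R2, ∀ j, θ (tR2 j) = a j := by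
  obtain ⟨φ, h0, h1⟩ := R2_lift (a 0).isUnit (a 1).isUnit
  refine ⟨φ, fun j => ?_⟩
  fin_cases j
  · exact h0
  · exact h1

theorem tR2_ext (θ θ' : R2 →ₐ[ℂ] R2) (h : ∀ j, θ (tR2 j) = θ' (tR2 j)) : θ = θ' :=
  R2_ext (h 0) (h 1)

/-- **The folded families.** -/
theorem tfam_fold (h1 : STFa) (h2 : SEgH) (h3 : SUnH) {n k : ℕ} {M : CoxeterMatrix (Fin n)}
    {M' : CoxeterMatrix (Fin k)} (ι : Art M →* Art M') (hn : 0 < n)
    [Nonempty (PR M' Finset.univ)] (Φ : NFam (Art M) (PR M' Finset.univ) (Fin 2))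
    (hΦ : ∀ (R : Type) [CommRing R] (θ : Fin 2 → Rˣ) (x : Art M),
      Φ.rep R θ x = (LKr M' Finset.univ (θ 0 : R) (θ 1 : R) (ι x)).1)
    (p : ℕ) [Fact p.Prime] (hp : p ≠ 2) (u : Fin 2 → ZMod p) (hu0 : u 0 ≠ 0) (hu1 : u 1 ≠ 0)
    (hu2 : 2 * u 0 ≠ u 1) (hR : ThmR p Φ u) (a b c d : ℕ) (hd : 0 < d) (hdb : d < b) (hc : 0 < c)
    (hcb : c < b) (hba : b < a)
    (hch : ∀ s, (frp ι (gn M s)).1.charpoly = (X - C ll) ^ d * (X - C 1) ^ a *
      (X - C (-qq)) ^ b * (X - C (qq ^ 2)) ^ c)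
    (hirr : Submodule.span K2 (Set.range fun x : Art M => mK (frp ι) x) = ⊤)
    (htr : ∀ s, (frp ι (gn M s)).1.trace ≠ 0) (hfin : FinP (frp ι)) : TFam (frp ι) := by
  have hρ : ∀ x, (frp ι x).1 = Φ.rep R2 tR2 x := by
    intro x
    rw [hΦ]
    rfl
  have : Nonempty (Fin n) := ⟨⟨0, hn⟩⟩
  have hE : EigU p Φ (gn M) u := by
    refine h2 p (Art M) _ Φ (Fin n) (gn M) u R2 tR2 a b c d hp hu0 hu1 hu2 hd hdb hc hcb hba
      tR2_ind fun s => ?_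
    rw [← hρ, hch s]
    rfl
  have hU : UniP (frp ι) := by
    refine h3 (Art M) _ R2 tR2 (frp ι) (gn M ⟨0, hn⟩) a b c d hd hdb hc hcb hba tR2_ind
      tR2_ext ?_
    rw [hch]
    rfl
  exact h1 p (Art M) _ 2 (Fin n) Φ (gn M) u R2 tR2 (frp ι) tR2_ind tR2_lift hρ (art_closure M)
    hirr hU hR hE htr hfin

end Pool.Agent.Lib.MP_97567f_al.Pad
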