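import Pool.Agent.Lib.MP_97567f_al.Pad.SpecH

/-!
# MP_97567f_al: the derivatives of the polynomials at 1
-/

set_option autoImplicit false

namespace Pool.Agent.Lib.MP_97567f_al.Pad

open Polynomial

private theorem Hdv_ns {n : ℕ} {M : CoxeterMatrix (Fin n)} (hR : RF M) {b : Fin n → ℤ}
    {u : Fin n} {c : ℤ} (h : pr M b u = c) (h2 : c ≠ 2) : b ≠ e u := by
  rintro rfl
  exact h2 (by rw [← h, hR.a.pre])

private theorem Hdv_one (m : ℕ) : (derivative (-(1 - X) * X ^ m : ℤ[X])).eval 1 = 1 := by
  rw [derivative_mul]
  simp

theorem pHdv : SHdv := by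
  intro k M hR f hf
  suffices H : ∀ N : ℕ, ∀ b, Rt M b → ht b ≤ N → ∀ s,
      (derivative (f s b)).eval 1 = if pr M b s = 1 then 1 else 0 from
    fun b hb s => H (ht b) b hb le_rfl s
  intro N
  induction N with
  | zero =>
    intro b hb hN
    have := hR.b.ht1 b hb
    omega
  | succ N IH =>
    intro b hb hN s
    by_cases hs : pr M b s = 1
    · rw [if_pos hs, hf.one s b hb hs, Hdv_one]
    rw [if_neg hs]
    by_cases hsi : ∃ t, b = e t
    · obtain ⟨t, rfl⟩ := hsi
      by_cases hst : s = t
      · subst hst
        rw [hf.self, derivative_one, eval_zero]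
      · rw [hf.simple s t hst, derivative_zero, eval_zero]
    obtain ⟨u, hu⟩ := hR.a.desc b hb fun t ht => hsi ⟨t, ht⟩
    have hsu : s ≠ u := fun h => hs (h ▸ hu)
    have hc := hR.a.down b u hb hu
    have hh := hR.b.htd b u hb hu
    have hcu : pr M (b - e u) u = -1 := by
      rw [hR.a.pr_sub, hR.a.pre, hu]
      norm_num
    have hce : b - e u ≠ e s := by
      intro h
      have h1 := hR.a.pr_sub b (e u) u
      rw [h] at h1 hcu
      by_cases ha : adj M s u
      · -- b = e s + e u, so the pairing of b with s is 1
        apply hs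
        have h3 : b = e s + e u := by rw [← h, sub_add_cancel]
        rw [h3, hR.a.pr_add, hR.a.pre, hR.a.pra u s (adj_symm ha)]
        norm_num
      · rw [hR.a.prn s u hsu ha] at hcu
        norm_num at hcu
    have hb0 : b = b - e u + e u := (sub_add_cancel b (e u)).symm
    have hev : (f s (b - e u)).eval 1 = 0 := hf.ev s _ hc hce
    have hih : ∀ t, pr M (b - e u) t ≠ 1 → (derivative (f t (b - e u))).eval 1 = 0 := by
      intro t ht
      rw [IH _ hc (by omega) t, if_neg ht]
    by_cases ha : adj M s u
    · have hcs : pr M (b - e u) s = pr M b s + 1 := by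
        rw [hR.a.pr_sub, hR.a.pra u s (adj_symm ha)]
        ring
      rcases hR.a.bnd b s hb (fun h => hsi ⟨s, h⟩) with h | h | h
      · rw [hb0, hf.r0 s u _ ha hc (by rw [hcs, h]; norm_num) hcu]
        simp only [derivative_sub, derivative_mul, derivative_one, derivative_X, eval_sub, eval_add,
          eval_mul, eval_one, eval_X, eval_zero, hev, hih u (by rw [hcu]; norm_num)]
        norm_num
      · have hcs1 : pr M (b - e u) s = 1 := by rw [hcs, h]; norm_num
        have hd := hR.a.down _ s hc hcs1
        have hhd := hR.b.htd _ s hc hcs1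
        have hdu : pr M (b - e u - e s) u = 0 := by
          rw [hR.a.pr_sub, hcu, hR.a.pra s u ha]
          norm_num
        have hdn : b - e u - e s ≠ e u := Hdv_ns hR hdu (by norm_num)
        have hdd := IH _ hd (by omega) u
        rw [if_neg (by rw [hdu]; norm_num)] at hdd
        rw [hb0, hf.r1 s u _ ha hc hcs1 hcu]
        simp only [derivative_sub, derivative_mul, derivative_one, derivative_X, eval_sub, eval_add,
          eval_mul, eval_one, eval_X, eval_zero, hev, hf.ev u _ hd hdn, hdd]
        norm_num
      · exact absurd h hs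
    · have hcs : pr M (b - e u) s = pr M b s := by
        rw [hR.a.pr_sub, hR.a.prn u s (Ne.symm hsu) fun h => ha (adj_symm h), sub_zero]
      rw [hb0, hf.comm s u _ hsu ha hc hcu]
      simp only [derivative_mul, derivative_X, eval_add, eval_mul, eval_one, eval_X, hev,
        hih s (by rw [hcs]; exact hs)]
      norm_num

end Pool.Agent.Lib.MP_97567f_al.Pad
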