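import Pool.Agent.Lib.MP_97567f_al.Pad.Spec

/-!
# MP_97567f_al: rigidity by deformation over the p-adic integers: commuting elements
-/

set_option autoImplicit false

namespace Pool.Agent.Lib.MP_97567f_al.Pad

private theorem Hol_cancel {p : ℕ} [Fact p.Prime] {Ω : Type} {k : ℕ} {M : Matrix Ω Ω ℤ_[p]}
    (h : ((p : ℤ_[p]) ^ k) • M = 0) : M = 0 := by
  ext i j
  have h1 := congrFun (congrFun h i) j
  rw [Matrix.smul_apply, Matrix.zero_apply, smul_eq_mul] at h1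
  have hp : (p : ℤ_[p]) ≠ 0 := by
    have := (Fact.out : p.Prime).ne_zero
    exact_mod_cast this
  rcases mul_eq_zero.1 h1 with h2 | h2
  · exact absurd h2 (pow_ne_zero k hp)
  · exact h2

theorem pHol : SHol := by
  intro p _ B _ Ω _ _ π ρ1 ρ2 n hn D T hD hT z x hzx hz hx
  obtain ⟨E, hE1, hE2⟩ := hD z
  obtain ⟨E', hE'1, hE'2⟩ := hD x
  obtain ⟨F, hF1, hF2⟩ := hT z
  obtain ⟨F', hF'1, hF'2⟩ := hT x
  have hPz : (Pmh ℤ_[p] π z : Matrix Ω Ω ℤ_[p]) = 1 := by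
    change Pm (π z) = 1
    rw [hz, Pm_one]
  have hPx : (Pmh ℤ_[p] π x : Matrix Ω Ω ℤ_[p]) = 1 := by
    change Pm (π x) = 1
    rw [hx, Pm_one]
  rw [hz, Pm_one, Matrix.mul_one] at hE2 hF2
  rw [hx, Pm_one, Matrix.mul_one] at hE'2 hF'2
  rw [hPz, pow_one] at hF1
  rw [hPx, pow_one] at hF'1
  obtain ⟨m, rfl⟩ : ∃ m, n = m + 2 := ⟨n - 2, by omega⟩
  set P : ℤ_[p] := (p : ℤ_[p]) with hP
  have hc1 : ρ1 z * ρ1 x = ρ1 x * ρ1 z := by rw [← map_mul, ← map_mul, hzx]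
  have hc2 : ρ2 z * ρ2 x = ρ2 x * ρ2 z := by rw [← map_mul, ← map_mul, hzx]
  rw [hE1, hE'1] at hc1
  have h1 : P ^ (m + 2) • (ρ2 z * E' - E' * ρ2 z + (E * ρ2 x - ρ2 x * E)) +
      P ^ (2 * (m + 2)) • (E * E' - E' * E) = 0 := by
    have h2 : (ρ2 z + P ^ (m + 2) • E) * (ρ2 x + P ^ (m + 2) • E') -
        (ρ2 x + P ^ (m + 2) • E') * (ρ2 z + P ^ (m + 2) • E) -
        (ρ2 z * ρ2 x - ρ2 x * ρ2 z) = 0 := by
      rw [hc1, hc2, sub_self, sub_self, sub_self]
    rw [← h2]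
    simp only [Matrix.add_mul, Matrix.mul_add, Matrix.smul_mul, Matrix.mul_smul, smul_smul,
      smul_add, smul_sub, ← pow_add]
    have h3 : m + 2 + (m + 2) = 2 * (m + 2) := by ring
    rw [h3]
    abel
  have h4 : ρ2 z * E' - E' * ρ2 z = P • (F * E' - E' * F) := by
    rw [hF1, Matrix.add_mul, Matrix.mul_add, Matrix.one_mul, Matrix.mul_one, Matrix.smul_mul,
      Matrix.mul_smul, smul_sub]
    abel
  have h5 : E * ρ2 x - ρ2 x * E = P • (E * F' - F' * E) := by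
    rw [hF'1, Matrix.add_mul, Matrix.mul_add, Matrix.one_mul, Matrix.mul_one, Matrix.smul_mul,
      Matrix.mul_smul, smul_sub]
    abel
  rw [h4, h5] at h1
  have h6 : P ^ (m + 3) • ((F * E' - E' * F + (E * F' - F' * E)) +
      P ^ (m + 1) • (E * E' - E' * E)) = 0 := by
    rw [← h1, smul_add, smul_smul, ← smul_add P, smul_smul, ← pow_add, ← pow_succ]
    have h7 : m + 3 + (m + 1) = 2 * (m + 2) := by ring
    rw [h7]
  have h8 := congrArg (PadicInt.toZMod (p := p)).mapMatrix (Hol_cancel h6)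
  have hE2' : (PadicInt.toZMod (p := p)).mapMatrix E = D z := hE2
  have hE'2' : (PadicInt.toZMod (p := p)).mapMatrix E' = D x := hE'2
  have hF2' : (PadicInt.toZMod (p := p)).mapMatrix F = T z := hF2
  have hF'2' : (PadicInt.toZMod (p := p)).mapMatrix F' = T x := hF'2
  have h9 : (PadicInt.toZMod (p := p)).mapMatrix (P ^ (m + 1) • (E * E' - E' * E)) = 0 := by
    ext i j
    rw [RingHom.mapMatrix_apply, Matrix.map_apply, Matrix.smul_apply, smul_eq_mul, map_mul,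
      map_pow, hP, map_natCast, CharP.cast_eq_zero, zero_pow (Nat.succ_ne_zero m), zero_mul,
      Matrix.zero_apply]
  rw [map_add, h9, add_zero, map_add, map_sub, map_sub, map_mul, map_mul, map_mul, map_mul,
    hE2', hE'2', hF2', hF'2', map_zero] at h8
  exact h8

end Pool.Agent.Lib.MP_97567f_al.Pad
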