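import Pool.Agent.Lib.MP_97567f_al.Pad.SpecH

/-!
# MP_97567f_al: the permutation representation at `q = l = 1`
-/

set_option autoImplicit false

namespace Pool.Agent.Lib.MP_97567f_al.Pad

open Polynomial

/-- The map `Pm` is injective. -/
private theorem Hpi_inj {Ω : Type} [Fintype Ω] [DecidableEq Ω] {σ τ : Equiv.Perm Ω}
    (h : (Pm σ : Matrix Ω Ω ℤ) = Pm τ) : σ = τ := by
  ext j
  have h1 := congrFun (congrFun h (σ j)) j
  simp only [Pm, Matrix.of_apply, if_true] at h1
  by_contra h2
  rw [if_neg h2] at h1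
  exact one_ne_zero h1

/-- The matrix of a generator at `q = l = 1`. -/
private theorem Hpi_lk (h1 : SLkA) {k : ℕ} {M : CoxeterMatrix (Fin k)} (hR : RF M)
    (hF : FH M (fh M)) {E : Fin k → PR M Finset.univ} {G : Fin k → Equiv.Perm (PR M Finset.univ)}
    (hE : RDat M E G) (R : Type) [CommRing R] (p : Fin k) :
    lk M Finset.univ (1 : R) (1 : R) p = Pm (G p) := by
  obtain ⟨a1, -, -, -, -⟩ := h1 k M hR Finset.univ
  ext g b
  change img M Finset.univ (1 : R) (1 : R) p b.1 g = if g = G p b then 1 else 0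
  unfold img
  by_cases hb : b.1 = e p
  · have hb' : b = E p := Subtype.ext (by rw [hb, hE.sim])
    rw [if_pos hb, hb', hE.fix, one_smul]
    unfold xv
    rw [← hE.sim p]
    simp only [Subtype.ext_iff]
  · have hb' : b ≠ E p := fun h => hb (by rw [h, hE.sim])
    have hr : Rt M b.1 := ((a1 b.1).1 b.2).1
    have hz : aeval (1 : R) (fh M p b.1) = 0 := by
      have h2 := hF.ev p b.1 hr hb
      have h3 : aeval (1 : R) (fh M p b.1) = ((fh M p b.1).eval 1 : ℤ) := by
        have := Polynomial.aeval_algebraMap_apply R (1 : ℤ) (fh M p b.1)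
        rw [map_one] at this
        rw [this, Polynomial.coe_aeval_eq_eval]
        rfl
      rw [h3, h2, Int.cast_zero]
    have hg := hE.gen p b hb'
    rw [if_neg hb, hz, mul_zero, zero_smul, add_zero]
    rcases hR.a.bnd b.1 p hr hb with h | h | h
    · rw [if_pos h, sub_self, zero_smul, add_zero]
      rw [h, neg_smul, one_smul, sub_neg_eq_add] at hg
      unfold xv
      rw [← hg]
      simp only [Subtype.ext_iff]
    · rw [if_neg (by rw [h]; norm_num), if_neg (by rw [h]; norm_num)]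
      rw [h, zero_smul, sub_zero] at hg
      unfold xv
      rw [← hg]
      simp only [Subtype.ext_iff]
    · rw [if_neg (by rw [h]; norm_num), if_pos h, one_smul]
      rw [h, one_smul] at hg
      unfold xv
      rw [← hg]
      simp only [Subtype.ext_iff]

theorem pHpi (h1 : SLkA) (h2 : SLkC) (h3 : SLkB) (h4 : SLKr) : SHpi := by
  intro k M hM hR hF E G hE
  have hsat : Sat M (Finset.univ : Finset (Fin k)) := fun _ _ j _ => Finset.mem_univ j
  obtain ⟨π, hπ⟩ := art_lift hM.sl G
    (fun i j hij hn => by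
      apply Hpi_inj
      rw [Pm_mul, Pm_mul, ← Hpi_lk h1 hR hF hE ℤ i, ← Hpi_lk h1 hR hF hE ℤ j]
      exact h2 k M hR hF _ hsat ℤ 1 1 i j hij hn)
    (fun i j hij => by
      apply Hpi_inj
      rw [Pm_mul, Pm_mul, Pm_mul, Pm_mul, ← Hpi_lk h1 hR hF hE ℤ i, ← Hpi_lk h1 hR hF hE ℤ j]
      exact h3 k M hR hF _ hsat ℤ 1 1 i j hij)
  refine ⟨π, hπ, fun R _ x => ?_⟩
  have key : LKr M Finset.univ (1 : R) (1 : R) = (Pmh R π).toHomUnits := by
    refine art_ext fun s => ?_
    apply Units.ext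
    rw [(h4 k M hM hR hF _ hsat).1 R 1 1 isUnit_one isUnit_one s, Hpi_lk h1 hR hF hE R s,
      MonoidHom.coe_toHomUnits]
    change Pm (G s) = Pm (π (gn M s))
    rw [hπ]
  rw [key, MonoidHom.coe_toHomUnits]
  rfl

end Pool.Agent.Lib.MP_97567f_al.Pad
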