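import Pool.Agent.Lib.MP_97567f_al.Pad.SpecH

/-!
# MP_97567f_al: the reflections on the positive roots
-/

set_option autoImplicit false

namespace Pool.Agent.Lib.MP_97567f_al.Pad

open Classical in
/-- the reflection -/
private noncomputable def Hrd_r {k : ℕ} (M : CoxeterMatrix (Fin k)) (p : Fin k)
    (b : PR M Finset.univ) : PR M Finset.univ :=
  if h : b.1 ≠ e p ∧ b.1 - (pr M b.1 p) • e p ∈ roots M Finset.univ then
    ⟨b.1 - (pr M b.1 p) • e p, h.2⟩ else b

private theorem Hrd_mem (h1 : SLkA) {k : ℕ} {M : CoxeterMatrix (Fin k)} (hR : RF M)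
    {b : Fin k → ℤ} (hb : b ∈ roots M Finset.univ) {p : Fin k} (hp : b ≠ e p) :
    b - (pr M b p) • e p ∈ roots M Finset.univ := by
  obtain ⟨m1, m2, m3, -⟩ := h1 k M hR Finset.univ
  rcases hR.a.bnd b p ((m1 b).1 hb).1 hp with h | h | h
  · rw [h, neg_one_smul, sub_neg_eq_add]
    exact m2 b hb p h (Finset.mem_univ p)
  · rw [h, zero_smul, sub_zero]
    exact hb
  · rw [h, one_smul]
    exact m3 b hb p h

private theorem Hrd_val (h1 : SLkA) {k : ℕ} {M : CoxeterMatrix (Fin k)} (hR : RF M)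
    {b : PR M Finset.univ} {p : Fin k} (hp : b.1 ≠ e p) :
    (Hrd_r M p b).1 = b.1 - (pr M b.1 p) • e p := by
  rw [Hrd_r, dif_pos ⟨hp, Hrd_mem h1 hR b.2 hp⟩]

private theorem Hrd_fix {k : ℕ} {M : CoxeterMatrix (Fin k)}
    {b : PR M Finset.univ} {p : Fin k} (hp : b.1 = e p) : Hrd_r M p b = b := by
  rw [Hrd_r, dif_neg fun h => h.1 hp]

private theorem Hrd_pr {k : ℕ} {M : CoxeterMatrix (Fin k)} (hR : RF M)
    {b : Fin k → ℤ} {p : Fin k} (hb : Rt M b) (hp : b ≠ e p) :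
    pr M (b - (pr M b p) • e p) p = - pr M b p := by
  rcases hR.a.bnd b p hb hp with h | h | h
  · rw [h, neg_one_smul, sub_neg_eq_add, hR.a.pr_add, hR.a.pre, h]
    norm_num
  · rw [h, zero_smul, sub_zero, h]
    norm_num
  · rw [h, one_smul, hR.a.pr_sub, hR.a.pre, h]
    norm_num

private theorem Hrd_inv (h1 : SLkA) {k : ℕ} {M : CoxeterMatrix (Fin k)} (hR : RF M)
    (p : Fin k) : Function.Involutive (Hrd_r M p) := by
  intro b
  by_cases hp : b.1 = e p
  · rw [Hrd_fix hp, Hrd_fix hp]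
  · have hb := (((h1 k M hR Finset.univ).1 b.1).1 b.2).1
    have h2 := Hrd_pr hR hb hp
    have h3 := Hrd_val h1 hR hp
    have h4 : (Hrd_r M p b).1 ≠ e p := by
      intro h
      rw [← h3, h, hR.a.pre] at h2
      rcases hR.a.bnd b.1 p hb hp with h5 | h5 | h5 <;> rw [h5] at h2 <;> norm_num at h2
    refine Subtype.ext ?_
    rw [Hrd_val h1 hR h4, h3, h2, neg_smul, sub_neg_eq_add, sub_add_cancel]

theorem pHrd (h1 : SLkA) : SHrd := by
  intro k M hR
  have hE : ∀ p, e p ∈ roots M Finset.univ := fun p =>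
    ((h1 k M hR Finset.univ).2.2.2.1 p).2 (Finset.mem_univ p)
  refine ⟨fun p => ⟨e p, hE p⟩, fun p => (Hrd_inv h1 hR p).toPerm, ?_, ?_, ?_, ?_⟩
  · exact fun p => rfl
  · exact fun p => Hrd_fix rfl
  · exact fun p b hb => Hrd_val h1 hR fun h => hb (Subtype.ext h)
  · exact fun p b => Hrd_inv h1 hR p b

end Pool.Agent.Lib.MP_97567f_al.Pad
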