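import Pool.Agent.Lib.MP_97567f_al.Pad.SpecH

/-!
# MP_97567f_al: the folded family at `q = l = 1`
-/

set_option autoImplicit false

namespace Pool.Agent.Lib.MP_97567f_al.Pad

private theorem Hwp_mul {Ω R : Type} [Fintype Ω] [DecidableEq Ω] [CommRing R] (X Y : Matrix Ω Ω R)
    (A B : Matrix Ω Ω (DualNumber R))
    (hA : ∀ i j, A i j = TrivSqZeroExt.inl ((1 : Matrix Ω Ω R) i j) + TrivSqZeroExt.inr (X i j))
    (hB : ∀ i j, B i j = TrivSqZeroExt.inl ((1 : Matrix Ω Ω R) i j) + TrivSqZeroExt.inr (Y i j))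
    (i j : Ω) : (A * B) i j =
      TrivSqZeroExt.inl ((1 : Matrix Ω Ω R) i j) + TrivSqZeroExt.inr ((X + Y) i j) := by
  rw [Matrix.mul_apply]
  apply TrivSqZeroExt.ext
  · rw [TrivSqZeroExt.fst_sum]
    simp only [TrivSqZeroExt.fst_mul, hA, hB, TrivSqZeroExt.fst_add, TrivSqZeroExt.fst_inl,
      TrivSqZeroExt.fst_inr, add_zero]
    rw [← Matrix.mul_apply, Matrix.one_mul]
  · rw [TrivSqZeroExt.snd_sum]
    simp only [TrivSqZeroExt.snd_mul, hA, hB, TrivSqZeroExt.fst_add, TrivSqZeroExt.snd_add,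
      TrivSqZeroExt.fst_inl, TrivSqZeroExt.snd_inl, TrivSqZeroExt.snd_inr,
      TrivSqZeroExt.fst_inr, add_zero, zero_add, smul_eq_mul, MulOpposite.smul_eq_mul_unop,
      MulOpposite.unop_op]
    rw [Finset.sum_add_distrib, ← Matrix.mul_apply, ← Matrix.mul_apply, Matrix.one_mul,
      Matrix.mul_one, Matrix.add_apply, add_comm]

theorem pHwp (h1 : SHpi) (h2 : SHep) (h3 : SLKr) : SHwp := by
  intro n k M M' p ι hF hSL hRF hFH h E G hR P _ hfi hcop
  obtain ⟨π', hπ1, hπ2⟩ := h1 k M' hSL hRF hFH E G hR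
  have hcomm : ∀ s, gn M' (p s 0) * gn M' (p s 1) = gn M' (p s 1) * gn M' (p s 0) := fun s =>
    art_comm hSL.sl (hF.ne s) (hF.na s)
  have hG2 : ∀ q, G q * G q = 1 := by
    intro q
    exact Equiv.ext fun b => hR.inv q b
  have hgs : ∀ s, (π'.comp ι) (gn M s) = G (p s 0) * G (p s 1) := by
    intro s
    rw [MonoidHom.comp_apply, hF.im, map_mul, hπ1, hπ1]
  have hGc : ∀ s, G (p s 0) * G (p s 1) = G (p s 1) * G (p s 0) := by
    intro s
    rw [← hπ1, ← hπ1, ← map_mul, hcomm, map_mul]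
  have hsq : ∀ s, ι (gn M s * gn M s) = gn M' (p s 0) * gn M' (p s 0) *
      (gn M' (p s 1) * gn M' (p s 1)) := by
    intro s
    rw [map_mul, hF.im]
    calc gn M' (p s 0) * gn M' (p s 1) * (gn M' (p s 0) * gn M' (p s 1)) =
        gn M' (p s 0) * (gn M' (p s 1) * gn M' (p s 0)) * gn M' (p s 1) := by group
      _ = gn M' (p s 0) * (gn M' (p s 0) * gn M' (p s 1)) * gn M' (p s 1) := by rw [hcomm s]
      _ = _ := by group
  refine ⟨π'.comp ι, hgs, ⟨?_, hfi, hcop, ?_, ?_⟩⟩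
  · intro s
    rw [map_mul, hgs]
    calc G (p s 0) * G (p s 1) * (G (p s 0) * G (p s 1)) =
        G (p s 0) * (G (p s 1) * G (p s 0)) * G (p s 1) := by group
      _ = G (p s 0) * (G (p s 0) * G (p s 1)) * G (p s 1) := by rw [hGc s]
      _ = (G (p s 0) * G (p s 0)) * (G (p s 1) * G (p s 1)) := by group
      _ = 1 := by rw [hG2, hG2, one_mul]
  · intro x
    exact hπ2 ℤ (ι x)
  · intro a s i j
    have hSat : Sat M' Finset.univ := fun _ _ j _ => Finset.mem_univ j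
    obtain ⟨hk1, -⟩ := h3 k M' hSL hRF hFH Finset.univ hSat
    have e0 : (nfm ι h).rep (DualNumber (ZMod P)) (fun l => eu (a l)) (gn M s * gn M s) =
        (lk M' Finset.univ ((eu (a 0) : (DualNumber (ZMod P))ˣ) : DualNumber (ZMod P))
            ((eu (a 1) : (DualNumber (ZMod P))ˣ) : DualNumber (ZMod P)) (p s 0) *
          lk M' Finset.univ ((eu (a 0) : (DualNumber (ZMod P))ˣ) : DualNumber (ZMod P))
            ((eu (a 1) : (DualNumber (ZMod P))ˣ) : DualNumber (ZMod P)) (p s 0)) *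
        (lk M' Finset.univ ((eu (a 0) : (DualNumber (ZMod P))ˣ) : DualNumber (ZMod P))
            ((eu (a 1) : (DualNumber (ZMod P))ˣ) : DualNumber (ZMod P)) (p s 1) *
          lk M' Finset.univ ((eu (a 0) : (DualNumber (ZMod P))ˣ) : DualNumber (ZMod P))
            ((eu (a 1) : (DualNumber (ZMod P))ˣ) : DualNumber (ZMod P)) (p s 1)) := by
      show (LKr M' Finset.univ ((eu (a 0) : (DualNumber (ZMod P))ˣ) : DualNumber (ZMod P))
            ((eu (a 1) : (DualNumber (ZMod P))ˣ) : DualNumber (ZMod P))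
            (ι (gn M s * gn M s))).1 = _
      rw [hsq, map_mul, map_mul, map_mul, Units.val_mul, Units.val_mul, Units.val_mul,
        hk1 _ _ _ (Units.isUnit _) (Units.isUnit _), hk1 _ _ _ (Units.isUnit _) (Units.isUnit _)]
    rw [e0, Hwp_mul _ _ _ _ (h2 k M' hRF hFH E G hR (ZMod P) (a 0) (a 1) (p s 0))
      (h2 k M' hRF hFH E G hR (ZMod P) (a 0) (a 1) (p s 1))]
    have t0 : TT (R := ZMod P) p E G 0 s =
        Tq (G (p s 0)) (E (p s 0)) + Tq (G (p s 1)) (E (p s 1)) := by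
      rw [TT, if_pos rfl]
    have t1 : TT (R := ZMod P) p E G 1 s = Tl (E (p s 0)) + Tl (E (p s 1)) := by
      rw [TT, if_neg (by decide)]
    have hsum : (a 0 • Tq (R := ZMod P) (G (p s 0)) (E (p s 0)) + a 1 • Tl (E (p s 0))) +
        (a 0 • Tq (G (p s 1)) (E (p s 1)) + a 1 • Tl (E (p s 1))) = ∑ l, a l • TT p E G l s := by
      rw [Fin.sum_univ_two, t0, t1, smul_add, smul_add]
      abel
    rw [hsum]

end Pool.Agent.Lib.MP_97567f_al.Pad
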