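import Pool.Agent.Lib.MP_97567f_al.Pad.Spec

/-!
# MP_97567f_al: descent to the ring of Laurent polynomials
-/

set_option autoImplicit false

namespace Pool.Agent.Lib.MP_97567f_al.Pad

open Polynomial U

section aux

variable {Ω : Type} [Fintype Ω] [DecidableEq Ω]

/-- Matrices conjugate up to the given equation have the same characteristic polynomial. -/
private theorem TwL_conj {R : Type} [CommRing R] (M N : Matrix Ω Ω R) (h : GL Ω R)
    (e : M * h.1 = h.1 * N) : M.charpoly = N.charpoly := by
  have h1 : M = h.1 * N * (h⁻¹).1 := by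
    rw [← e, Matrix.mul_assoc, ← Units.val_mul, mul_inv_cancel, Units.val_one, Matrix.mul_one]
  rw [h1, Matrix.coe_units_inv]
  exact Matrix.charpoly_units_conj h N

/-- The constant coefficient of the characteristic polynomial of an invertible matrix. -/
private theorem TwL_unit {R : Type} [CommRing R] (M N : Matrix Ω Ω R) (e : M * N = 1) :
    IsUnit (M.charpoly.coeff 0) := by
  have hd : IsUnit M.det := by
    have : M.det * N.det = 1 := by rw [← Matrix.det_mul, e, Matrix.det_one]
    exact IsUnit.of_mul_eq_one _ this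
  rw [Matrix.det_eq_sign_charpoly_coeff] at hd
  exact (IsUnit.mul_iff.mp hd).2

end aux

theorem pTwL (h1 : SDesc) : STwL := by
  intro p _ B _ Ω _ _ _ J S Φ g u hgen hE L _ _ _ _ ψ hψ t θ0 ht A _ i r hF f θ η h hN hh
  let O : ℤ_[p] →+* ℚ_[p] := algebraMap ℤ_[p] ℚ_[p]
  have hO : ∀ x : ℤ_[p], O x = (x : ℚ_[p]) := fun x => rfl
  -- the two families of parameters have the same image
  have key : ∀ z : B, (Φ.rep L t z).map ψ = (Φ.rep ℤ_[p] θ0 z).map O := by
    intro z
    rw [← Φ.nat L ℚ_[p] ψ t z, ← Φ.nat ℤ_[p] ℚ_[p] O θ0 z]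
    congr 2
    funext j
    apply Units.ext
    exact ht j
  have inv : ∀ (R : Type) [CommRing R] (ω : J → Rˣ) (z : B),
      Φ.rep R ω z * Φ.rep R ω z⁻¹ = 1 := by
    intro R _ ω z
    rw [← map_mul, mul_inv_cancel, map_one]
  obtain ⟨hv, hθ⟩ := hE L ψ hψ θ (fun s => η (i (g s))) hN (by
    intro s
    refine ⟨(Φ.rep L t (r (f (i (g s))))).charpoly, Matrix.charpoly_monic _,
      TwL_unit _ _ (inv L t _), ?_⟩
    rw [← Matrix.charpoly_map, key, Matrix.charpoly_map]
    congr 1
    apply TwL_conj _ _ h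
    rw [hh, hF.ri, Matrix.mul_smul])
  choose θ' hθ' using hθ
  -- the subgroup of the elements with a good character value
  let H : Subgroup A :=
    { carrier := {y | ∃ v : Lˣ, ψ v = ((η y : ℤ_[p]) : ℚ_[p])}
      mul_mem' := by
        rintro a b ⟨v, hv⟩ ⟨w, hw⟩
        refine ⟨v * w, ?_⟩
        rw [Units.val_mul, map_mul, map_mul, Units.val_mul, hv, hw]
        simp
      one_mem' := ⟨1, by simp⟩
      inv_mem' := by
        rintro a ⟨v, hv⟩
        refine ⟨v⁻¹, ?_⟩
        have e1 : ψ (v : L) * ψ ((v⁻¹ : Lˣ) : L) = 1 := by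
          rw [← map_mul, ← Units.val_mul, mul_inv_cancel, Units.val_one, map_one]
        have e2 : ((η a : ℤ_[p]) : ℚ_[p]) * ((η a⁻¹ : ℤ_[p]) : ℚ_[p]) = 1 := by
          have : O (η a : ℤ_[p]) * O (η a⁻¹ : ℤ_[p]) = 1 := by
            rw [← map_mul, ← Units.val_mul, ← map_mul, mul_inv_cancel, map_one, Units.val_one,
              map_one]
          exact this
        rw [hv] at e1
        have hne : ((η a : ℤ_[p]) : ℚ_[p]) ≠ 0 := fun h0 => by
          rw [h0, zero_mul] at e2
          exact zero_ne_one e2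
        exact mul_left_cancel₀ hne (e1.trans e2.symm) }
  have hiB : ∀ b : B, i b ∈ H := by
    intro b
    have : (⊤ : Subgroup B) ≤ H.comap i := by
      rw [← hgen, Subgroup.closure_le]
      rintro _ ⟨s, rfl⟩
      exact hv s
    exact this (Subgroup.mem_top b)
  obtain ⟨o⟩ := (inferInstance : Nonempty Ω)
  have hdiag : ∀ a : A, r a = 1 →
      ψ (Φ.rep L t (r (f a)) o o) = ((η a : ℤ_[p]) : ℚ_[p]) := by
    intro a ha
    have e := hh a
    rw [ha, map_one, Matrix.mul_one] at e
    have e2 : Φ.rep ℤ_[p] θ0 (r (f a)) = (η a : ℤ_[p]) • (1 : Matrix Ω Ω ℤ_[p]) := by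
      have e3 := congrArg (fun X => X * (h⁻¹).1) e
      simp only [Matrix.mul_assoc, Matrix.smul_mul] at e3
      rwa [← Units.val_mul, mul_inv_cancel, Units.val_one, Matrix.mul_one] at e3
    have e4 := congrFun (congrFun (key (r (f a))) o) o
    rw [Matrix.map_apply, Matrix.map_apply, e2] at e4
    rw [e4, hO]
    simp
  have hker : ∀ a : A, r a = 1 → a ∈ H := by
    intro a ha
    have ha' : r a⁻¹ = 1 := by rw [map_inv, ha, inv_one]
    have e : Φ.rep L t (r (f a)) o o * Φ.rep L t (r (f a⁻¹)) o o = 1 := by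
      apply hψ
      rw [map_mul, hdiag a ha, hdiag _ ha', map_one]
      have : O (η a : ℤ_[p]) * O (η a⁻¹ : ℤ_[p]) = 1 := by
        rw [← map_mul, ← Units.val_mul, ← map_mul, mul_inv_cancel, map_one, Units.val_one,
          map_one]
      exact this
    exact ⟨Units.mkOfMulEqOne _ _ e, hdiag a ha⟩
  have hall : ∀ y : A, ∃ v : Lˣ, ψ v = ((η y : ℤ_[p]) : ℚ_[p]) := by
    intro y
    have e : y = i (r y) * ((i (r y))⁻¹ * y) := by group
    have e1 : r ((i (r y))⁻¹ * y) = 1 := by
      rw [map_mul, map_inv, hF.ri, inv_mul_cancel]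
    have : y ∈ H := by
      rw [e]
      exact H.mul_mem (hiB _) (hker _ e1)
    exact this
  choose χ0 hχ0 using hall
  let χ : A →* Lˣ :=
    { toFun := χ0
      map_one' := by
        apply Units.ext
        apply hψ
        rw [hχ0]
        simp
      map_mul' := by
        intro a b
        apply Units.ext
        apply hψ
        rw [hχ0, map_mul, Units.val_mul, Units.val_mul, map_mul, hχ0, hχ0]
        simp }
  -- descent
  let φ : FractionRing L →+* ℚ_[p] := IsFractionRing.lift hψ
  letI : Algebra (FractionRing L) ℚ_[p] := φ.toAlgebra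
  have hφ : ∀ x : L, algebraMap (FractionRing L) ℚ_[p] (algebraMap L (FractionRing L) x) = ψ x :=
    fun x => IsFractionRing.lift_algebraMap hψ x
  haveI : Infinite (FractionRing L) :=
    Infinite.of_injective (fun n : ℕ => algebraMap L (FractionRing L) (n : L)) (fun a b hab =>
      Nat.cast_injective (IsFractionRing.injective L (FractionRing L) hab))
  have keyθ : ∀ z : B, (Φ.rep L θ' z).map ψ = (Φ.rep ℤ_[p] θ z).map O := by
    intro z
    rw [← Φ.nat L ℚ_[p] ψ θ' z, ← Φ.nat ℤ_[p] ℚ_[p] O θ z]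
    congr 2
    funext j
    apply Units.ext
    exact hθ' j
  obtain ⟨h', hh'⟩ := h1 (FractionRing L) ℚ_[p] Ω A
    (fun y => (Φ.rep L t (r (f y))).map (algebraMap L (FractionRing L)))
    (fun y => (algebraMap L (FractionRing L) (χ y : L)) •
      (Φ.rep L θ' (r y)).map (algebraMap L (FractionRing L)))
    (Units.map (O.mapMatrix (m := Ω)).toMonoidHom h) (by
      intro y
      have e1 : ((Φ.rep L t (r (f y))).map (algebraMap L (FractionRing L))).map
          (algebraMap (FractionRing L) ℚ_[p]) = (Φ.rep ℤ_[p] θ0 (r (f y))).map O := by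
        rw [← key]
        ext a b
        simp only [Matrix.map_apply]
        exact hφ _
      have e2 : ((algebraMap L (FractionRing L) (χ y : L)) •
          (Φ.rep L θ' (r y)).map (algebraMap L (FractionRing L))).map
          (algebraMap (FractionRing L) ℚ_[p]) =
          O (η y : ℤ_[p]) • (Φ.rep ℤ_[p] θ (r y)).map O := by
        rw [← keyθ]
        ext a b
        simp only [Matrix.map_apply, Matrix.smul_apply, smul_eq_mul, map_mul, hφ]
        rw [show ψ (χ y : L) = O (η y : ℤ_[p]) from hχ0 y]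
      rw [e1, e2]
      have e3 := congrArg (fun X : Matrix Ω Ω ℤ_[p] => O.mapMatrix X) (hh y)
      simp only [map_mul] at e3
      have e4 : O.mapMatrix ((η y : ℤ_[p]) • (h.1 * Φ.rep ℤ_[p] θ (r y))) =
          O (η y : ℤ_[p]) • (O.mapMatrix h.1 * O.mapMatrix (Φ.rep ℤ_[p] θ (r y))) := by
        rw [← map_mul]
        ext a b
        rw [RingHom.mapMatrix_apply, RingHom.mapMatrix_apply, Matrix.map_apply,
          Matrix.smul_apply, Matrix.smul_apply, Matrix.map_apply, smul_eq_mul, smul_eq_mul,
          map_mul]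
      rw [e4] at e3
      rw [Matrix.mul_smul]
      exact e3)
  refine ⟨θ', χ, h', fun y => ?_⟩
  rw [hh' y, Matrix.mul_smul]

end Pool.Agent.Lib.MP_97567f_al.Pad
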