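import Pool.Agent.Lib.MP_97567f_al.Pad.Spec

/-!
# MP_97567f_al: uniqueness of the parameters for the types H3 and H4
-/

set_option autoImplicit false

namespace Pool.Agent.Lib.MP_97567f_al.Pad

open Polynomial U

section UnH

variable {K : Type} [Field K]

private theorem UnH_count [DecidableEq K] {k : ℕ} (v : Fin k → K) (m : Fin k → ℕ) (w : K) :
    ((∏ j, (X - C (v j)) ^ m j : K[X]).roots.count w) = ∑ j, m j * (if w = v j then 1 else 0) := by
  have key : ∀ S : Finset (Fin k), (∏ j ∈ S, (X - C (v j)) ^ m j : K[X]).roots.count w =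
      ∑ j ∈ S, m j * (if w = v j then 1 else 0) := by
    intro S
    induction S using Finset.induction_on with
    | empty => simp
    | insert a S ha ih =>
      rw [Finset.prod_insert ha, Finset.sum_insert ha]
      have h1 : ((X - C (v a)) ^ m a : K[X]) ≠ 0 := pow_ne_zero _ (X_sub_C_ne_zero _)
      have h2 : (∏ j ∈ S, (X - C (v j)) ^ m j : K[X]) ≠ 0 :=
        Finset.prod_ne_zero_iff.2 fun j _ => pow_ne_zero _ (X_sub_C_ne_zero _)
      rw [roots_mul (mul_ne_zero h1 h2), Multiset.count_add, ih, roots_pow, roots_X_sub_C,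
        Multiset.count_nsmul, Multiset.count_singleton]
  exact key Finset.univ

variable {ι : Type} [Fintype ι] [DecidableEq ι]

/-- The characteristic polynomial of a multiple. -/
private theorem UnH_scale [Infinite K] (A : Matrix ι ι K) (c : K) (hc : c ≠ 0) {k : ℕ}
    (u : Fin k → K) (m : Fin k → ℕ) (h : A.charpoly = ∏ j, (X - C (u j)) ^ m j) :
    (c • A).charpoly = ∏ j, (X - C (c * u j)) ^ m j := by
  have hN : Fintype.card ι = ∑ j, m j := by
    have h1 := A.charpoly_natDegree_eq_dim
    rw [h, natDegree_prod _ _ fun j _ => pow_ne_zero _ (X_sub_C_ne_zero _)] at h1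
    rw [← h1]
    refine Finset.sum_congr rfl fun j _ => ?_
    rw [natDegree_pow, natDegree_X_sub_C, mul_one]
  apply Polynomial.funext
  intro t
  have e1 : (c • A).charpoly.eval t = (Matrix.scalar ι t - c • A).det := by
    rw [Matrix.eval_charpoly]
  have e2 : A.charpoly.eval (c⁻¹ * t) = (Matrix.scalar ι (c⁻¹ * t) - A).det := by
    rw [Matrix.eval_charpoly]
  have e3 : Matrix.scalar ι t - c • A = c • (Matrix.scalar ι (c⁻¹ * t) - A) := by
    rw [smul_sub]
    congr 1
    ext i j
    rw [Matrix.smul_apply, Matrix.scalar_apply, Matrix.scalar_apply]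
    by_cases hij : i = j
    · subst hij
      rw [Matrix.diagonal_apply_eq, Matrix.diagonal_apply_eq, smul_eq_mul, mul_inv_cancel_left₀ hc]
    · rw [Matrix.diagonal_apply_ne _ hij, Matrix.diagonal_apply_ne _ hij, smul_zero]
  rw [e1, e3, Matrix.det_smul, ← e2, h, hN, eval_prod, eval_prod, ← Finset.prod_pow_eq_pow_sum,
    ← Finset.prod_mul_distrib]
  refine Finset.prod_congr rfl fun j _ => ?_
  simp only [eval_pow, eval_sub, eval_X, eval_C]
  rw [← mul_pow, mul_sub, mul_inv_cancel_left₀ hc]

omit [Field K] in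
/-- Comparing the multiplicities for four roots. -/
private theorem UnH_cmp [DecidableEq K] (v w : Fin 4 → K) (a b c d : ℕ) (hd : 0 < d) (hdb : d < b) (_hc : 0 < c)
    (hcb : c < b) (hba : b < a) (hv : Function.Injective v)
    (h : ∀ z : K, ∑ j, (![d, a, b, c] : Fin 4 → ℕ) j * (if z = v j then 1 else 0) =
      ∑ j, (![d, a, b, c] : Fin 4 → ℕ) j * (if z = w j then 1 else 0)) :
    w 1 = v 1 ∧ w 2 = v 2 ∧ (w 3 = v 3 → w 0 = v 0) := by
  have hne : ∀ i j : Fin 4, i ≠ j → v i ≠ v j := fun i j hij h => hij (hv h)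
  have h01 := hne 0 1 (by decide)
  have h02 := hne 0 2 (by decide)
  have h03 := hne 0 3 (by decide)
  have h12 := hne 1 2 (by decide)
  have h13 := hne 1 3 (by decide)
  have h23 := hne 2 3 (by decide)
  have H : ∀ z : K, d * (if z = v 0 then 1 else 0) + a * (if z = v 1 then 1 else 0) +
      b * (if z = v 2 then 1 else 0) + c * (if z = v 3 then 1 else 0) =
      d * (if z = w 0 then 1 else 0) + a * (if z = w 1 then 1 else 0) +
      b * (if z = w 2 then 1 else 0) + c * (if z = w 3 then 1 else 0) := by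
    intro z
    have h0 := h z
    rw [Fin.sum_univ_four, Fin.sum_univ_four] at h0
    exact h0
  have hw1 : w 1 = v 1 := by
    by_contra hcon
    have h0 := H (w 1)
    rw [if_neg hcon, if_pos (rfl : w 1 = w 1)] at h0
    by_cases e0 : w 1 = v 0
    · rw [if_pos e0, if_neg (by rw [e0]; exact h02), if_neg (by rw [e0]; exact h03)] at h0
      omega
    · by_cases e2 : w 1 = v 2
      · rw [if_neg e0, if_pos e2, if_neg (by rw [e2]; exact h23)] at h0
        omega
      · rw [if_neg e0, if_neg e2] at h0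
        split_ifs at h0 <;> omega
  have hC1 := H (v 1)
  rw [if_neg (Ne.symm h01), if_pos (rfl : v 1 = v 1), if_neg h12, if_neg h13,
    if_pos hw1.symm] at hC1
  have hw2n : v 1 ≠ w 2 := by
    intro e
    rw [if_pos e] at hC1
    omega
  have hw0n : v 1 ≠ w 0 := by
    intro e
    rw [if_pos e] at hC1
    omega
  have hw2 : w 2 = v 2 := by
    by_contra hcon
    have h0 := H (w 2)
    rw [if_neg hcon, if_neg (Ne.symm hw2n), if_pos (rfl : w 2 = w 2)] at h0
    by_cases e0 : w 2 = v 0
    · rw [if_pos e0, if_neg (by rw [e0]; exact h03)] at h0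
      omega
    · rw [if_neg e0] at h0
      split_ifs at h0 <;> omega
  have hC2 := H (v 2)
  rw [if_neg (Ne.symm h02), if_neg (Ne.symm h12), if_pos (rfl : v 2 = v 2), if_neg h23,
    if_pos hw2.symm] at hC2
  have hw0n2 : v 2 ≠ w 0 := by
    intro e
    rw [if_pos e] at hC2
    omega
  refine ⟨hw1, hw2, fun hw3 => ?_⟩
  by_contra hcon
  have h0 := H (w 0)
  rw [if_neg hcon, if_neg (Ne.symm hw0n), if_neg (Ne.symm hw0n2), if_pos (rfl : w 0 = w 0)] at h0
  by_cases e3 : w 0 = v 3
  · rw [if_pos e3, if_pos (by rw [e3]; exact hw3.symm : w 0 = w 3)] at h0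
    omega
  · rw [if_neg e3] at h0
    omega

end UnH

/-- The four roots are different. -/
private theorem UnH_inj {R : Type} [CommRing R] [Algebra ℂ R] (t : Fin 2 → Rˣ)
    (ht : AlgebraicIndependent ℂ (fun j => (t j : R))) :
    Function.Injective (![(t 1 : R), 1, -(t 0 : R), (t 0 : R) ^ 2] : Fin 4 → R) := by
  set F : Fin 4 → MvPolynomial (Fin 2) ℂ :=
    ![MvPolynomial.X 1, 1, -MvPolynomial.X 0, MvPolynomial.X 0 ^ 2] with hF
  have h1 : ∀ i, (![(t 1 : R), 1, -(t 0 : R), (t 0 : R) ^ 2] : Fin 4 → R) i =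
      MvPolynomial.aeval (fun j => (t j : R)) (F i) := by
    intro i
    fin_cases i <;> simp [hF]
  intro i j hij
  rw [h1, h1] at hij
  have h2 : F i = F j := ht hij
  have h3 := congrArg (MvPolynomial.eval (![2, 3] : Fin 2 → ℂ)) h2
  fin_cases i <;> fin_cases j <;> simp [hF] at h3 ⊢ <;> norm_num at h3

theorem pUnH : SUnH := by
  intro B _ Ω _ _ R _ _ _ t ρ x a b c d hd hdb hc hcb hba ht hext hch θ χ hθ
  classical
  set K := FractionRing R with hK
  have hinj : Function.Injective (algebraMap R K) := IsFractionRing.injective R K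
  have hinf : Infinite K :=
    Infinite.of_injective ((algebraMap R K).comp (algebraMap ℂ R))
      ((algebraMap R K).comp (algebraMap ℂ R)).injective
  set v : Fin 4 → R := ![(t 1 : R), 1, -(t 0 : R), (t 0 : R) ^ 2] with hv
  have hvinj : Function.Injective v := UnH_inj t ht
  set m : Fin 4 → ℕ := ![d, a, b, c] with hm
  have hprod : (ρ x).1.charpoly = ∏ j, (X - C (v j)) ^ m j := by
    rw [hch, Fin.prod_univ_four]
    rfl
  have c1 : ((ρ x).1.map (algebraMap R K)).charpoly = ∏ j, (X - C (algebraMap R K (v j))) ^ m j := by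
    rw [Matrix.charpoly_map, hprod, Polynomial.map_prod]
    refine Finset.prod_congr rfl fun j _ => ?_
    rw [Polynomial.map_pow, Polynomial.map_sub, map_X, map_C]
  have c2 : (((ρ x).1.map θ).map (algebraMap R K)).charpoly =
      ∏ j, (X - C (algebraMap R K (θ (v j)))) ^ m j := by
    have h1 : (((ρ x).1.map θ).map (algebraMap R K)).charpoly =
        ((ρ x).1.charpoly.map (θ : R →+* R)).map (algebraMap R K) := by
      rw [Matrix.charpoly_map]
      congr 1
      exact Matrix.charpoly_map (ρ x).1 (θ : R →+* R)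
    rw [h1, hprod, Polynomial.map_prod, Polynomial.map_prod]
    refine Finset.prod_congr rfl fun j _ => ?_
    rw [Polynomial.map_pow, Polynomial.map_sub, map_X, map_C, Polynomial.map_pow,
      Polynomial.map_sub, map_X, map_C]
    rfl
  set e : K := algebraMap R K (χ x : R) with he
  have he0 : e ≠ 0 := ((χ x).isUnit.map (algebraMap R K)).ne_zero
  have e1 : (e • ((ρ x).1.map θ).map (algebraMap R K)).charpoly =
      ((ρ x).1.map (algebraMap R K)).charpoly := by
    have h1 : e • ((ρ x).1.map θ).map (algebraMap R K) =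
        ((χ x : R) • (ρ x).1.map θ).map (algebraMap R K) := by
      ext i j
      simp [he]
    rw [h1, Matrix.charpoly_map, hθ x, Matrix.charpoly_map]
  rw [c1, UnH_scale _ e he0 _ m c2] at e1
  have hcount : ∀ z : K,
      ∑ j, (![d, a, b, c] : Fin 4 → ℕ) j * (if z = algebraMap R K (v j) then 1 else 0) =
      ∑ j, (![d, a, b, c] : Fin 4 → ℕ) j * (if z = e * algebraMap R K (θ (v j)) then 1 else 0) := by
    intro z
    have h1 := UnH_count (fun j => algebraMap R K (v j)) m z
    have h2 := UnH_count (fun j => e * algebraMap R K (θ (v j))) m z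
    rw [← h1, ← h2, e1]
  obtain ⟨r1, r2, r3⟩ := UnH_cmp (fun j => algebraMap R K (v j))
    (fun j => e * algebraMap R K (θ (v j))) a b c d hd hdb hc hcb hba
    (fun i j hij => hvinj (hinj hij)) hcount
  have v0 : v 0 = (t 1 : R) := rfl
  have v1 : v 1 = 1 := rfl
  have v2 : v 2 = -(t 0 : R) := rfl
  have v3 : v 3 = (t 0 : R) ^ 2 := rfl
  simp only [v1, map_one, mul_one] at r1
  simp only [r1, one_mul, v2, v3, v0] at r2 r3
  have q1 : θ (t 0 : R) = (t 0 : R) := by
    have := hinj r2
    rw [map_neg, neg_inj] at this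
    exact this
  have q2 : θ (t 1 : R) = (t 1 : R) := by
    refine hinj (r3 ?_)
    rw [map_pow, q1]
  refine hext θ (AlgHom.id ℂ R) ?_
  intro j
  fin_cases j
  · exact q1
  · exact q2

end Pool.Agent.Lib.MP_97567f_al.Pad
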