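import Pool.Agent.Lib.MP_97567f_al.Pad.Spec

/-!
# MP_97567f_al: the folded families
-/

set_option autoImplicit false

namespace Pool.Agent.Lib.MP_97567f_al.Pad

open Polynomial U

private theorem Fld_Pm_inj {Ω R : Type} [DecidableEq Ω] [CommRing R] [Nontrivial R]
    {σ τ : Equiv.Perm Ω} (h : (Pm σ : Matrix Ω Ω R) = Pm τ) : σ = τ := by
  ext j
  have h1 := congrFun (congrFun h (σ j)) j
  by_contra h2
  simp only [Pm, Matrix.of_apply, if_true] at h1
  rw [if_neg h2] at h1
  exact one_ne_zero h1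

private theorem Fld_map {Ω R R' : Type} [DecidableEq Ω] [CommRing R] [CommRing R']
    (φ : R →+* R') (σ : Equiv.Perm Ω) : (Pm σ : Matrix Ω Ω R).map φ = Pm σ := by
  ext i j
  simp only [Pm, Matrix.map_apply, Matrix.of_apply]
  split_ifs
  · exact map_one φ
  · exact map_zero φ

theorem pFld (h1 : SLKr) (h2 : SMono) : SFld := by
  intro k M' hSL hR hF B _ ι
  have hC : Sat M' Finset.univ := fun _ _ j _ => Finset.mem_univ j
  obtain ⟨-, hmap⟩ := h1 k M' hSL hR hF Finset.univ hC
  obtain ⟨hmon, -⟩ := h2 k M' hSL hR hF Finset.univ hC ℚ 1 one_ne_zero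
  refine ⟨⟨fun R _ θ => (Units.coeHom _).comp
      ((LKr M' Finset.univ (θ 0 : R) (θ 1 : R)).comp ι), ?_⟩, fun R _ θ x => rfl, ?_⟩
  · intro R R' _ _ f θ x
    exact hmap R R' f (θ 0 : R) (θ 1 : R) (θ 0).isUnit (θ 1).isUnit (ι x)
  · have h3 : ∀ x : Art M', ∃ σ : Equiv.Perm (PR M' Finset.univ),
        (LKr M' Finset.univ (1 : ℚ) 1 x).1 = Pm σ := by
      intro x
      obtain ⟨σ, c, hσ⟩ := hmon x
      refine ⟨σ, ?_⟩
      ext g b
      have h4 := congrFun (hσ b) g
      have h5 : ((LKr M' Finset.univ (1 : ℚ) 1 x).1.mulVec (xv M' Finset.univ b.1)) g =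
          (LKr M' Finset.univ (1 : ℚ) 1 x).1 g b := by
        have h6 : xv M' Finset.univ (R := ℚ) b.1 = Pi.single b 1 := by
          funext g
          by_cases h : g = b
          · subst h
            rw [Pi.single_eq_same]
            exact if_pos rfl
          · rw [Pi.single_eq_of_ne h]
            exact if_neg fun h' => h (Subtype.ext h')
        rw [h6, Matrix.mulVec_single_one]
        rfl
      rw [h5, one_zpow, one_smul] at h4
      rw [h4]
      show (if g.1 = (σ b).1 then (1 : ℚ) else 0) = if g = σ b then 1 else 0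
      by_cases h : g = σ b
      · rw [if_pos h, if_pos (congrArg Subtype.val h)]
      · rw [if_neg h, if_neg fun h' => h (Subtype.ext h')]
    choose σ hσ using h3
    refine ⟨MonoidHom.mk' (fun x => σ (ι x)) ?_, ?_⟩
    · intro x y
      apply Fld_Pm_inj (R := ℚ)
      rw [← hσ, map_mul, map_mul, Units.val_mul, hσ, hσ, Pm_mul]
    · intro x
      show (LKr M' Finset.univ (((1 : Fin 2 → ℤˣ) 0 : ℤˣ) : ℤ) (((1 : Fin 2 → ℤˣ) 1 : ℤˣ) : ℤ)
        (ι x)).1 = Pm (σ (ι x))
      have h4 := hmap ℤ ℚ (Int.castRingHom ℚ) 1 1 isUnit_one isUnit_one (ι x)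
      rw [map_one, hσ, ← Fld_map (Int.castRingHom ℚ)] at h4
      ext i j
      have h5 := congrFun (congrFun h4 i) j
      rw [Matrix.map_apply, Matrix.map_apply] at h5
      exact (Int.cast_injective h5).symm

end Pool.Agent.Lib.MP_97567f_al.Pad
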