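import Pool.Agent.Lib.MP_97567f_al.Pad.SpecH

/-!
# MP_97567f_al: first order terms of the squares of the generators
-/

set_option autoImplicit false

namespace Pool.Agent.Lib.MP_97567f_al.Pad

open Polynomial

private theorem Hep_aeval {S : Type} [CommRing S] (y : S) (hy : y * y = 0) (F : ℤ[X]) :
    aeval (1 + y) F = ((F.eval 1 : ℤ) : S) + (((derivative F).eval 1 : ℤ) : S) * y := by
  have h2 : y ^ 2 = 0 := by rw [pow_two, hy]
  have h3 : ∀ P : ℤ[X], aeval (1 : S) P = ((P.eval 1 : ℤ) : S) := by
    intro P
    rw [Polynomial.aeval_def, Polynomial.eval₂_at_one]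
    rfl
  rw [Polynomial.aeval_add_of_sq_eq_zero F _ _ h2, h3, h3]

private theorem Hep_img (h1 : SHdv) (h2 : SLkA) {k : ℕ} {M : CoxeterMatrix (Fin k)} (hRF : RF M)
    (hFH : FH M (fh M)) {S : Type} [CommRing S] (q l y : S) (q1 : q = 1 + y) (yy : y * y = 0)
    (ly : l * y = y) (s : Fin k) :
    (∀ c ∈ roots M Finset.univ, c ≠ e s → pr M c s = 0 →
      (lk M Finset.univ q l s).mulVec (xv M Finset.univ c) =
        (xv M Finset.univ c : PR M Finset.univ → S)) ∧
    (∀ c ∈ roots M Finset.univ, c ≠ e s → pr M c s = -1 →
      (lk M Finset.univ q l s).mulVec (xv M Finset.univ c) =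
        (xv M Finset.univ (c + e s) + (-y) • xv M Finset.univ c : PR M Finset.univ → S)) ∧
    (∀ c ∈ roots M Finset.univ, c ≠ e s → pr M c s = 1 →
      (lk M Finset.univ q l s).mulVec (xv M Finset.univ c) =
        (q • xv M Finset.univ (c - e s) + y • xv M Finset.univ (e s) :
          PR M Finset.univ → S)) ∧
    (lk M Finset.univ q l s).mulVec (xv M Finset.univ (e s)) =
      (l • xv M Finset.univ (e s) : PR M Finset.univ → S) := by
  obtain ⟨hroots, hup, hdn, hsim, hact⟩ := h2 k M hRF Finset.univ
  obtain ⟨hact, -, -, -⟩ := hact S q l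
  have hes : e s ∈ roots M Finset.univ := (hsim s).2 (Finset.mem_univ s)
  have hf : ∀ c : Fin k → ℤ, Rt M c → c ≠ e s → aeval q (fh M s c) =
      if pr M c s = 1 then y else 0 := by
    intro c hc hcs
    rw [q1, Hep_aeval y yy, hFH.ev s c hc hcs, h1 k M hRF (fh M) hFH c hc s]
    split_ifs
    · rw [Int.cast_zero, Int.cast_one, zero_add, one_mul]
    · rw [Int.cast_zero, zero_mul, add_zero]
  refine ⟨?_, ?_, ?_, ?_⟩
  · intro c hc hcs h0
    rw [hact s c hc, img, if_neg hcs, if_neg (by rw [h0]; norm_num), if_neg (by rw [h0]; norm_num),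
      hf c ((hroots c).1 hc).1 hcs, if_neg (by rw [h0]; norm_num), mul_zero, zero_smul, add_zero]
  · intro c hc hcs h0
    rw [hact s c hc, img, if_neg hcs, if_pos h0, hf c ((hroots c).1 hc).1 hcs,
      if_neg (by rw [h0]; norm_num), mul_zero, zero_smul, add_zero, q1]
    congr 2
    ring
  · intro c hc hcs h0
    rw [hact s c hc, img, if_neg hcs, if_neg (by rw [h0]; norm_num), if_pos h0,
      hf c ((hroots c).1 hc).1 hcs, if_pos h0, ly]
  · rw [hact s _ hes, img, if_pos rfl]

private theorem Hep_col {k : ℕ} {M : CoxeterMatrix (Fin k)} {R : Type} [CommRing R]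
    (N : Matrix (PR M Finset.univ) (PR M Finset.univ) R) (j g : PR M Finset.univ) :
    (N.mulVec (xv M Finset.univ j.1)) g = N g j := by
  rw [Matrix.mulVec, dotProduct]
  rw [Finset.sum_eq_single j]
  · simp [xv]
  · intro i _ hi
    have h1 : i.1 ≠ j.1 := fun h => hi (Subtype.ext h)
    simp [xv, h1]
  · intro h
    exact absurd (Finset.mem_univ _) h

theorem pHep (h1 : SHdv) (h2 : SLkA) : SHep := by
  intro k M hRF hFH E G hR R _ a b s i j
  set q : DualNumber R := ((eu a : (DualNumber R)ˣ) : DualNumber R) with hq
  set l : DualNumber R := ((eu b : (DualNumber R)ˣ) : DualNumber R) with hl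
  set y : DualNumber R := TrivSqZeroExt.inr a with hy
  set z : DualNumber R := TrivSqZeroExt.inr b with hz
  have q1 : q = 1 + y := rfl
  have l1 : l = 1 + z := rfl
  have yy : y * y = 0 := TrivSqZeroExt.inr_mul_inr _ _ _
  have zy : z * y = 0 := TrivSqZeroExt.inr_mul_inr _ _ _
  have zz : z * z = 0 := TrivSqZeroExt.inr_mul_inr _ _ _
  obtain ⟨hroots, hup, hdn, hsim, hact⟩ := h2 k M hRF Finset.univ
  have hjr : j.1 ∈ roots M Finset.univ := j.2
  have hjR : Rt M j.1 := ((hroots j.1).1 hjr).1
  have hes : e s ∈ roots M Finset.univ := (hsim s).2 (Finset.mem_univ s)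
  have hEs : E s = ⟨e s, hes⟩ := Subtype.ext (hR.sim s)
  have ly : l * y = y := by rw [l1, add_mul, one_mul, zy, add_zero]
  obtain ⟨g0, gm, gp, gs⟩ := Hep_img h1 h2 hRF hFH q l y q1 yy ly s
  rw [← Hep_col (lk M Finset.univ q l s * lk M Finset.univ q l s) j i, ← Matrix.mulVec_mulVec]
  have hxv : ∀ (c : PR M Finset.univ), xv M Finset.univ (R := DualNumber R) c.1 i =
      if i = c then 1 else 0 := by
    intro c
    unfold xv
    by_cases h : i = c
    · rw [if_pos h, if_pos (congrArg Subtype.val h)]
    · rw [if_neg h, if_neg fun h' => h (Subtype.ext h')]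
  have hone : (TrivSqZeroExt.inl ((1 : Matrix (PR M Finset.univ) (PR M Finset.univ) R) i j) :
      DualNumber R) = if i = j then 1 else 0 := by
    rw [Matrix.one_apply]
    split_ifs
    · rfl
    · exact TrivSqZeroExt.inl_zero R
  by_cases hjs : j = E s
  · -- the simple root
    have hj1 : j.1 = e s := by rw [hjs]; exact hR.sim s
    have hTq : Tq (R := R) (G s) (E s) i j = 0 := by
      rw [Tq, Matrix.of_apply, if_pos]
      rw [hjs]
      exact hR.fix s
    have hTl : Tl (R := R) (E s) i j = if i = j then 2 else 0 := by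
      rw [Tl, Matrix.of_apply]
      by_cases h : i = j
      · rw [if_pos h, if_pos ⟨h.trans hjs, hjs⟩]
      · rw [if_neg h, if_neg fun h' => h (h'.1.trans hjs.symm)]
    rw [hj1, gs, Matrix.mulVec_smul, gs, Pi.smul_apply, Pi.smul_apply, ← hj1, hxv, hone,
      Matrix.add_apply, Matrix.smul_apply, Matrix.smul_apply, hTq, hTl, smul_zero, zero_add]
    split_ifs
    · have : l * l = 1 + (z + z) := by
        rw [l1]
        calc (1 + z) * (1 + z) = 1 + (z + z) + z * z := by ring
          _ = 1 + (z + z) := by rw [zz, add_zero]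
      rw [smul_eq_mul, smul_eq_mul, mul_one, this, hz, ← TrivSqZeroExt.inr_add]
      congr 2
      rw [smul_eq_mul, mul_two]
    · rw [smul_zero, smul_zero, smul_zero, TrivSqZeroExt.inr_zero, add_zero]
  · have hj1 : j.1 ≠ e s := fun h => hjs (Subtype.ext (h.trans (hR.sim s).symm))
    have hTl : Tl (R := R) (E s) i j = 0 := by
      rw [Tl, Matrix.of_apply, if_neg fun h => hjs h.2]
    have hG := hR.gen s j hjs
    rw [Matrix.add_apply, Matrix.smul_apply, Matrix.smul_apply, hTl, smul_zero, add_zero, hone]
    rcases hRF.a.bnd j.1 s hjR hj1 with hp | hp | hp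
    · -- pairing -1
      have hc' := hup j.1 hjr s hp (Finset.mem_univ s)
      have hGj : (⟨j.1 + e s, hc'⟩ : PR M Finset.univ) = G s j := by
        apply Subtype.ext
        rw [hG, hp]
        simp
      have hpc' : pr M (j.1 + e s) s = 1 := by
        rw [hRF.a.pr_add, hp, hRF.a.pre]
        norm_num
      have hc's : j.1 + e s ≠ e s := by
        intro h
        rw [h, hRF.a.pre] at hpc'
        norm_num at hpc'
      have hGne : G s j ≠ j := by
        intro h
        rw [← hGj] at h
        have h3 := congrArg (fun c : PR M Finset.univ => pr M c.1 s) h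
        simp only [hpc', hp] at h3
        norm_num at h3
      have hTq : Tq (R := R) (G s) (E s) i j =
          (if i = j then 1 else 0) - (if i = G s j then 1 else 0) + (if i = E s then 1 else 0) := by
        rw [Tq, Matrix.of_apply, if_neg hGne]
      rw [gm j.1 hjr hj1 hp, Matrix.mulVec_add, Matrix.mulVec_smul, gp _ hc' hc's hpc',
        gm j.1 hjr hj1 hp, add_sub_cancel_right, hTq]
      simp only [Pi.add_apply, Pi.smul_apply, smul_eq_mul]
      have e1 : xv M Finset.univ (R := DualNumber R) (j.1 + e s) i = if i = G s j then 1 else 0 := by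
        rw [← hGj]
        exact hxv ⟨j.1 + e s, hc'⟩
      have e2 : xv M Finset.univ (R := DualNumber R) (e s) i = if i = E s then 1 else 0 := by
        rw [hEs]
        exact hxv ⟨e s, hes⟩
      rw [hxv j, e1, e2, q1]
      have key : ∀ u v w : R, (TrivSqZeroExt.inr (a * (u - v + w)) : DualNumber R) =
          y * TrivSqZeroExt.inl u - y * TrivSqZeroExt.inl v + y * TrivSqZeroExt.inl w := by
        intro u v w
        have h5 : ∀ t : R, y * TrivSqZeroExt.inl t = TrivSqZeroExt.inr (a * t) := by
          intro t
          rw [hy, TrivSqZeroExt.inr_mul_inl]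
          congr 1
        rw [h5, h5, h5, ← TrivSqZeroExt.inr_sub, ← TrivSqZeroExt.inr_add]
        congr 1
        ring
      rw [key]
      have hi : ∀ (P : Prop) [Decidable P], (TrivSqZeroExt.inl (if P then (1 : R) else 0) :
          DualNumber R) = if P then 1 else 0 := by
        intro P _
        split_ifs
        · rfl
        · exact TrivSqZeroExt.inl_zero R
      rw [hi, hi, hi]
      set A : DualNumber R := if i = j then 1 else 0
      set B : DualNumber R := if i = G s j then 1 else 0
      set C : DualNumber R := if i = E s then 1 else 0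
      calc (1 + y) * A + y * C + -y * (B + -y * A) = A + (y * A - y * B + y * C) + (y * y) * A := by
            ring
        _ = A + (y * A - y * B + y * C) := by rw [yy, zero_mul, add_zero]
    · -- pairing 0
      have hGj : G s j = j := by
        apply Subtype.ext
        rw [hG, hp]
        simp
      have hTq : Tq (R := R) (G s) (E s) i j = 0 := by
        rw [Tq, Matrix.of_apply, if_pos hGj]
      rw [g0 j.1 hjr hj1 hp, g0 j.1 hjr hj1 hp, hxv, hTq, smul_zero, TrivSqZeroExt.inr_zero,
        add_zero]
    · -- pairing 1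
      have hc' := hdn j.1 hjr s hp
      have hGj : (⟨j.1 - e s, hc'⟩ : PR M Finset.univ) = G s j := by
        apply Subtype.ext
        rw [hG, hp]
        simp
      have hpc' : pr M (j.1 - e s) s = -1 := by
        rw [hRF.a.pr_sub, hp, hRF.a.pre]
        norm_num
      have hc's : j.1 - e s ≠ e s := by
        intro h
        rw [h, hRF.a.pre] at hpc'
        norm_num at hpc'
      have hGne : G s j ≠ j := by
        intro h
        rw [← hGj] at h
        have h3 := congrArg (fun c : PR M Finset.univ => pr M c.1 s) h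
        simp only [hpc', hp] at h3
        norm_num at h3
      have hTq : Tq (R := R) (G s) (E s) i j =
          (if i = j then 1 else 0) - (if i = G s j then 1 else 0) + (if i = E s then 1 else 0) := by
        rw [Tq, Matrix.of_apply, if_neg hGne]
      rw [gp j.1 hjr hj1 hp, Matrix.mulVec_add, Matrix.mulVec_smul, Matrix.mulVec_smul,
        gm _ hc' hc's hpc', gs, sub_add_cancel, hTq]
      simp only [Pi.add_apply, Pi.smul_apply, smul_eq_mul]
      have e1 : xv M Finset.univ (R := DualNumber R) (j.1 - e s) i = if i = G s j then 1 else 0 := by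
        rw [← hGj]
        exact hxv ⟨j.1 - e s, hc'⟩
      have e2 : xv M Finset.univ (R := DualNumber R) (e s) i = if i = E s then 1 else 0 := by
        rw [hEs]
        exact hxv ⟨e s, hes⟩
      rw [hxv j, e1, e2, q1, l1]
      have key : ∀ u v w : R, (TrivSqZeroExt.inr (a * (u - v + w)) : DualNumber R) =
          y * TrivSqZeroExt.inl u - y * TrivSqZeroExt.inl v + y * TrivSqZeroExt.inl w := by
        intro u v w
        have h5 : ∀ t : R, y * TrivSqZeroExt.inl t = TrivSqZeroExt.inr (a * t) := by
          intro t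
          rw [hy, TrivSqZeroExt.inr_mul_inl]
          congr 1
        rw [h5, h5, h5, ← TrivSqZeroExt.inr_sub, ← TrivSqZeroExt.inr_add]
        congr 1
        ring
      rw [key]
      have hi : ∀ (P : Prop) [Decidable P], (TrivSqZeroExt.inl (if P then (1 : R) else 0) :
          DualNumber R) = if P then 1 else 0 := by
        intro P _
        split_ifs
        · rfl
        · exact TrivSqZeroExt.inl_zero R
      rw [hi, hi, hi]
      set A : DualNumber R := if i = j then 1 else 0
      set B : DualNumber R := if i = G s j then 1 else 0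
      set C : DualNumber R := if i = E s then 1 else 0
      calc (1 + y) * (A + -y * B) + y * ((1 + z) * C) =
          A + (y * A - y * B + y * C) - (y * y) * B + (z * y) * C := by ring
        _ = A + (y * A - y * B + y * C) := by rw [yy, zy, zero_mul, zero_mul, sub_zero, add_zero]

end Pool.Agent.Lib.MP_97567f_al.Pad
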