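import Pool.Agent.Lib.MP_97567f_al.Pad.Base
import Pool.Agent.Lib.MP_97567f_al.U.HDat

/-!
# MP_97567f_al: the folded Lawrence-Krammer representations near `q = l = 1`: statements

Every statement is a proposition `SName`; the module `Pad/Name.lean` proves `pName : SName`, or, if the docstring names
other statements, `pName` takes these as hypotheses.

`RDat M E G`: `E p` is the simple root `e p` and `G p` the reflection of `e p`, as a permutation of the positive roots.
`Tq`, `Tl`: the derivatives of the square of a generator in the directions of `q` and `l`. `TT`: the same for the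
generators of the folded group. `nfm`: the folded family.
-/

set_option autoImplicit false

namespace Pool.Agent.Lib.MP_97567f_al.Pad

open Polynomial

/-- The derivative in the direction of `q` of the square of the generator with the reflection `G` and the simple root
`p`. -/
def Tq {Ω R : Type} [DecidableEq Ω] [CommRing R] (G : Equiv.Perm Ω) (p : Ω) : Matrix Ω Ω R :=
  Matrix.of fun i j => if G j = j then 0 else
    (if i = j then 1 else 0) - (if i = G j then 1 else 0) + (if i = p then 1 else 0)

/-- The derivative in the direction of `l`. -/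
def Tl {Ω R : Type} [DecidableEq Ω] [CommRing R] (p : Ω) : Matrix Ω Ω R :=
  Matrix.of fun i j => if i = p ∧ j = p then 2 else 0

/-- The simple roots and the reflections on the set of the positive roots. -/
structure RDat {k : ℕ} (M : CoxeterMatrix (Fin k)) (E : Fin k → PR M Finset.univ)
    (G : Fin k → Equiv.Perm (PR M Finset.univ)) : Prop where
  sim : ∀ p, (E p).1 = e p
  fix : ∀ p, G p (E p) = E p
  gen : ∀ p b, b ≠ E p → (G p b).1 = b.1 - (pr M b.1 p) • e p
  inv : ∀ p b, G p (G p b) = b

/-- The derivatives for the folded group: `j = 0` is the direction of `q`, `j = 1` the direction of `l`. -/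
def TT {n k : ℕ} {Ω R : Type} [DecidableEq Ω] [CommRing R] (p : Fin n → Fin 2 → Fin k)
    (E : Fin k → Ω) (G : Fin k → Equiv.Perm Ω) (j : Fin 2) (s : Fin n) : Matrix Ω Ω R :=
  if j = 0 then Tq (G (p s 0)) (E (p s 0)) + Tq (G (p s 1)) (E (p s 1))
  else Tl (E (p s 0)) + Tl (E (p s 1))

/-- The Lawrence-Krammer representations are compatible with ring homomorphisms. -/
def NatLK {k : ℕ} (M : CoxeterMatrix (Fin k)) : Prop :=
  ∀ (R R' : Type) [CommRing R] [CommRing R'] (φ : R →+* R') (q l : R), IsUnit q → IsUnit l →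
    ∀ x : Art M, (LKr M Finset.univ (φ q) (φ l) x).1 = (LKr M Finset.univ q l x).1.map φ

/-- The folded family. -/
noncomputable def nfm {n k : ℕ} {M : CoxeterMatrix (Fin n)} {M' : CoxeterMatrix (Fin k)}
    (ι : Art M →* Art M') (h : NatLK M') : NFam (Art M) (PR M' Finset.univ) (Fin 2) where
  rep R _ θ := (Units.coeHom (Matrix (PR M' Finset.univ) (PR M' Finset.univ) R)).comp
    ((LKr M' Finset.univ (θ 0 : R) (θ 1 : R)).comp ι)
  nat R R' _ _ f θ x := h R R' f _ _ (θ 0).isUnit (θ 1).isUnit (ι x)

/-- **The derivatives of the polynomials at 1** (60 lines).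
Proof. Induction on the height, for all `s`. `b = e s`: `f s b = 1`, `pr (e s) s = 2` (`self`, `pre`). `b = e t`, `t ≠ s`: `f s b = 0` (`simple`), `pr b s ∈ {0, -1}`. If `pr b s = 1`: `one`; the derivative of `-(1 - X) X ^ m` at `1` is `1`.
Otherwise `b` is not simple, `desc` gives `u` with `pr b u = 1`, so `u ≠ s`, and `c = b - e u` is a root (`down`) of smaller height (`htd`) with `pr c u = -1` and `b = c + e u`. If `u, s` are not adjacent: `pr c s = pr b s`, `f s b = X * f s c` (`comm`), `c ≠ e s` (as `pr (e s) u = 0 ≠ -1`), so `f s c` has the value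
`0` (`ev`) and the derivative `0` (induction) at `1`. If they are adjacent and `pr b s = -1` then `pr c s = 0`: `r0`: `f s b = f u c - (1 - X) f s c`, derivative: that of `f u c`, which is `0` by induction as `pr c u = -1`, plus the value of `f s c`, which is `0` (`ev`, `c ≠ e s`). If they are adjacent and
`pr b s = 0` then `pr c s = 1`: `r1`: `f s b = X * f u (c - e s) - (1 - X) f s c`, `pr (c - e s) u = -1 + 1 = 0`, `c - e s` is a root (`down`), different from `e u`, so value and derivative of `f u (c - e s)` are `0`; the value of `f s c` is `0` (`c ≠ e s`). -/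
def SHdv : Prop :=
  ∀ (k : ℕ) (M : CoxeterMatrix (Fin k)), RF M → ∀ f, FH M f → ∀ b, Rt M b → ∀ s,
    (derivative (f s b)).eval 1 = if pr M b s = 1 then 1 else 0

/-- **The reflections exist** (from `SLkA`, 40 lines).
Proof. For a root `b ≠ e p`: `pr b p ∈ {-1, 0, 1}` (`bnd`), and `b - pr b p • e p` is a root (`up`, `down`) different from `e p` (its pairing with `p` is `- pr b p ≠ 2`), and the map is an involution. `Function.Involutive.toPerm`. -/
def SHrd : Prop :=
  ∀ (k : ℕ) (M : CoxeterMatrix (Fin k)), RF M → ∃ (E : Fin k → PR M Finset.univ)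
    (G : Fin k → Equiv.Perm (PR M Finset.univ)), RDat M E G

/-- **The permutation representation** (from `SLkA`, `SLkC`, `SLkB`, `SLKr`, 100 lines).
Proof. `lk M univ 1 1 p = Pm (G p)` over every ring: compare the images of the basis vectors (`SLkA`: `img` for `q = l = 1`; `fh p b` has the value `0` at `1` for `b ≠ e p` (`ev`), `aeval 1 (fh p b)` is the image of `eval 1`; `fh p (e p) = 1`). Over `ℤ` the map `Pm` is injective and multiplicative
(`Pm_mul`), so the `G p` satisfy the relations of `Art M` (`SLkC`, `SLkB` for `q = l = 1`) and `art_lift` gives `π`. The two sides of the last claim are homomorphisms in `x` which agree on the generators (`SLKr`). -/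
def SHpi : Prop :=
  ∀ (k : ℕ) (M : CoxeterMatrix (Fin k)), SL M → RF M → FH M (fh M) →
    ∀ (E : Fin k → PR M Finset.univ) (G : Fin k → Equiv.Perm (PR M Finset.univ)), RDat M E G →
    ∃ π : Art M →* Equiv.Perm (PR M Finset.univ), (∀ p, π (gn M p) = G p) ∧
      ∀ (R : Type) [CommRing R] (x : Art M), (LKr M Finset.univ (1 : R) (1 : R) x).1 = Pm (π x)

/-- **First order terms** (from `SHdv`, `SLkA`, 150 lines).
Proof. Write `ε` for `inr 1`, `q = 1 + a ε`, `l = 1 + b ε`; for a polynomial `F` with integral coefficients `aeval q F = F(1) + a F'(1) ε`. Let `x c` be the basis vectors, `x = x (e s)`. (1) `g x = l x`, so `g g x = l ^ 2 x = (1 + 2 b ε) x`, as claimed (`G s (E s) = E s`, so the column of `Tq` is zero). (2) `pr c s = 0`, `c ≠ e s`: `g (x c) = x c + f x` with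
`f = l * aeval q (fh s c)`, and `fh s c` has the value `0` (`ev`) and the derivative `0` (`SHdv`) at `1`, so `f = 0`: `g g (x c) = x c`. (3) `pr c s = -1`, `c' = c + e s` (`pr c' s = 1`): the value and the derivative of `fh s c` are `0`, those of `fh s c'` are `0` and `1`, so `g (x c) = x c' + (1 - q) x c`, `g (x c') = q x c + a ε x`. So (`ε ^ 2 = 0`, `1 - q = - a ε`)
`g g (x c) = q x c + a ε x - a ε x c' = x c + a ε (x c - x c' + x)` and `g g (x c') = q (x c' - a ε x c) + a ε x = x c' + a ε (x c' - x c + x)`. -/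
def SHep : Prop :=
  ∀ (k : ℕ) (M : CoxeterMatrix (Fin k)), RF M → FH M (fh M) →
    ∀ (E : Fin k → PR M Finset.univ) (G : Fin k → Equiv.Perm (PR M Finset.univ)), RDat M E G →
    ∀ (R : Type) [CommRing R] (a b : R) (s : Fin k) (i j : PR M Finset.univ),
      (lk M Finset.univ ((eu a : (DualNumber R)ˣ) : DualNumber R) ((eu b : (DualNumber R)ˣ) : DualNumber R) s *
        lk M Finset.univ ((eu a : (DualNumber R)ˣ) : DualNumber R) ((eu b : (DualNumber R)ˣ) : DualNumber R) s) i j =
        TrivSqZeroExt.inl ((1 : Matrix (PR M Finset.univ) (PR M Finset.univ) R) i j) +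
          TrivSqZeroExt.inr
            ((a • Tq (G s) (E s) + b • Tl (E s) :
              Matrix (PR M Finset.univ) (PR M Finset.univ) R) i j)

/-- **The folded family at `q = l = 1`** (from `SHpi`, `SHep`, `SLKr`, 120 lines).
Proof. `π = π' ∘ ι` with `π'` of `SHpi`. `sq`: `ι (gn s * gn s) = (gn' a * gn' b) * (gn' a * gn' b)`, `a = p s 0`, `b = p s 1`, and `gn' a`, `gn' b` commute (`art_comm`, `Fold.ne`, `Fold.na`, `SL.sl`), so it is `(gn' a * gn' a) * (gn' b * gn' b)`, and `G a * G a = 1` (`RDat.inv`). `one`: `SHpi` for `R = ℤ`. `eps`: the matrix of `gn' a * gn' a` is `1 + ε X` with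
`X = a0 • Tq + a1 • Tl` (`SLKr`, `SHep`) and that of `gn' b * gn' b` is `1 + ε Y`, the product is `1 + ε (X + Y)`, and `X + Y = ∑ l, a l • TT p E G l s` (`Fin.sum_univ_two`). -/
def SHwp : Prop :=
  ∀ (n k : ℕ) (M : CoxeterMatrix (Fin n)) (M' : CoxeterMatrix (Fin k))
    (p : Fin n → Fin 2 → Fin k) (ι : Art M →* Art M'), U.Fold M M' p ι →
    SL M' → RF M' → FH M' (fh M') → ∀ (h : NatLK M')
    (E : Fin k → PR M' Finset.univ) (G : Fin k → Equiv.Perm (PR M' Finset.univ)), RDat M' E G →
    ∀ (P : ℕ) [Fact P.Prime],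
    (Subgroup.normalClosure (Set.range fun s => gn M s * gn M s)).FiniteIndex →
    ¬ P ∣ (Subgroup.normalClosure (Set.range fun s => gn M s * gn M s)).index →
    ∃ π : Art M →* Equiv.Perm (PR M' Finset.univ),
      (∀ s, π (gn M s) = G (p s 0) * G (p s 1)) ∧ WPt P (nfm ι h) (gn M) π (TT p E G)

/-- **The expected solutions of the linear conditions** (200 lines).
Proof. `k = ZMod p`. For `a : J → k` let `Ta s = ∑ l, a l • T l s`, `τ = Tu`. The representation `ρ a` over `k[ε] = DualNumber k` with the parameters `1 + a ε` (`eu`) reduces to the permutation matrices: `(ρ a x).map fst = Pm (π x)` (`nat` for `fst`, then for `ℤ → k`, and `WPt.one`); write `ρ a x = Pm (π x) + ε D a x`. `WPt.eps`: `ρ a (g s * g s) = 1 + ε Ta s`.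
(1) If `b * g s = g t * b` then `b * (g s * g s) = (g t * g t) * b`; the `ε` parts give `Pm (π b) * Ta s = Ta t * Pm (π b)`, so `Ta t = Adp (π b) (Ta s)` (`Adp_eq`).
(2) `ρ a (zw g w) = 1 + ε XW π g Ta w` and `π (zw g w) = 1` by induction on `w`: `ρ (g s) (1 + ε X) ρ (g s) = ρ (g s * g s) + ε Pm (π (g s)) X Pm (π (g s)) = 1 + ε (Ta s + Adp (π (g s)) X)` (`π (g s)` is an involution by `sq`).
(3) Let `x, y : B` commute with `ρ a x = 1 + ε Xa`, `ρ a y = 1 + ε Ya` for all `a`. Then `Xa * Yu + Xu * Ya = Ya * Xu + Yu * Xa` for all `a, u`: take the ring `DualNumber (DualNumber k)`, with elements `ε` (inner) and `δ` (outer) and the parameters `1 + a ε + u δ` (units); the maps to `k[ε]` (`δ ↦ 0`) and to `k[δ]` (`ε ↦ 0`) show by `nat` that the matrix of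
`x` is `1 + ε Xa + δ Xu + ε δ X'`, that of `y` is `1 + ε Ya + δ Yu + ε δ Y'`; compare the `ε δ` parts of `x y = y x`.
(4) Let `zw g w` commute with `g s`, so with `g s * g s`. (3) with `x = zw g w`, `y = g s * g s`, `Z a = XW π g Ta w`: `[Z a, τ s] + [Z u, Ta s] = 0`; for `a = u`: `2 [Z u, τ s] = 0`, so `[Z u, τ s] = 0` as `p ≠ 2`.
(5) `XW` is additive in `X`; for `X s = m * τ s - τ s * m`: `XW X w = m * XW τ w - XW τ w * m` since `Adp σ (m Y) = Adp σ m * Adp σ Y` and `Adp (π b) m = m`; `[Z, [m, τ s]] + [[m, Z], τ s] = [m, [Z, τ s]] = 0`. For `X s = c s • 1`: `XW X w` is a scalar matrix. -/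
def SHtn : Prop :=
  ∀ (P : ℕ) [Fact P.Prime], P ≠ 2 → ∀ (B : Type) [Group B] (Ω : Type) [Fintype Ω] [DecidableEq Ω]
    (J S : Type) [Fintype J] [DecidableEq J] (Φ : NFam B Ω J) (g : S → B) (π : B →* Equiv.Perm Ω)
    (T : J → S → Matrix Ω Ω (ZMod P)), WPt P Φ g π T →
    ∀ (u a : J → ZMod P) (c : S → ZMod P) (m : Matrix Ω Ω (ZMod P)),
      (∀ b, Adp (π b) m = m) → (∀ s t b, b * g s = g t * b → c s = c t) →
      Tng π g (fun s => ∑ l, u l • T l s) fun s => (∑ l, a l • T l s) +
        c s • (1 : Matrix Ω Ω (ZMod P)) + (m * (∑ l, u l • T l s) - (∑ l, u l • T l s) * m)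

end Pool.Agent.Lib.MP_97567f_al.Pad
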