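import Pool.Agent.Lib.MP_97567f_al.All
import Pool.Agent.Lib.MP_97567f_al.Pad.Ali
import Pool.Agent.Lib.MP_97567f_al.Pad.Base
import Pool.Agent.Lib.MP_97567f_al.Pad.ChF
import Pool.Agent.Lib.MP_97567f_al.Pad.Cob
import Pool.Agent.Lib.MP_97567f_al.Pad.Dif
import Pool.Agent.Lib.MP_97567f_al.Pad.EgH
import Pool.Agent.Lib.MP_97567f_al.Pad.Ext
import Pool.Agent.Lib.MP_97567f_al.Pad.Fam
import Pool.Agent.Lib.MP_97567f_al.Pad.Fld
import Pool.Agent.Lib.MP_97567f_al.Pad.Glue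
import Pool.Agent.Lib.MP_97567f_al.Pad.Hdv
import Pool.Agent.Lib.MP_97567f_al.Pad.Hep
import Pool.Agent.Lib.MP_97567f_al.Pad.Hol
import Pool.Agent.Lib.MP_97567f_al.Pad.Hom
import Pool.Agent.Lib.MP_97567f_al.Pad.Hpi
import Pool.Agent.Lib.MP_97567f_al.Pad.Hrd
import Pool.Agent.Lib.MP_97567f_al.Pad.Htn
import Pool.Agent.Lib.MP_97567f_al.Pad.Hwp
import Pool.Agent.Lib.MP_97567f_al.Pad.Inj
import Pool.Agent.Lib.MP_97567f_al.Pad.Irp
import Pool.Agent.Lib.MP_97567f_al.Pad.Lau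
import Pool.Agent.Lib.MP_97567f_al.Pad.Lim
import Pool.Agent.Lib.MP_97567f_al.Pad.Ord
import Pool.Agent.Lib.MP_97567f_al.Pad.Pad
import Pool.Agent.Lib.MP_97567f_al.Pad.Rtu
import Pool.Agent.Lib.MP_97567f_al.Pad.SpecH
import Pool.Agent.Lib.MP_97567f_al.Pad.Stp
import Pool.Agent.Lib.MP_97567f_al.Pad.TFa
import Pool.Agent.Lib.MP_97567f_al.Pad.ThR
import Pool.Agent.Lib.MP_97567f_al.Pad.Tng
import Pool.Agent.Lib.MP_97567f_al.Pad.TwL
import Pool.Agent.Lib.MP_97567f_al.Pad.TwR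
import Pool.Agent.Lib.MP_97567f_al.Pad.UnH

/-!
# MP_97567f_al: Theorem R and the step to `TFam`, all modules put together
-/

set_option autoImplicit false

namespace Pool.Agent.Lib.MP_97567f_al.Pad

open Polynomial U

theorem aTng : STng := pTng pDif pHol
theorem aStp : SStp := pStp pDif aTng pCob pFam
theorem aLim : SLim := pLim pFam aStp
theorem aThR : SThR := pThR aLim
theorem aIrp : SIrp := pIrp pLau
theorem aTwL : STwL := pTwL pDesc
theorem aPad : SPad := pPad pAli pHom pLau aIrp pExt aTwL pTwR pInj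
theorem aTFa : STFa := pTFa aPad
theorem aChF : SChF := pChF pLau
theorem aEgH : SEgH := pEgH aChF pRtu
theorem aFld : SFld := pFld aLKr aMono
theorem aHrd : SHrd := pHrd aLkA
theorem aHpi : SHpi := pHpi aLkA aLkC aLkB aLKr
theorem aHep : SHep := pHep pHdv aLkA
theorem aHwp : SHwp := pHwp aHpi aHep aLKr

theorem natLK {k : ℕ} {M : CoxeterMatrix (Fin k)} (hS : SL M) (hR : RF M) (hF : FH M (fh M)) :
    NatLK M :=
  (aLKr k M hS hR hF Finset.univ fun _ _ _ _ => Finset.mem_univ _).2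

private theorem two_ne : (2 * 1 : ZMod 7) ≠ 1 := by decide

/-- **The folded families, from the certificate.** -/
theorem tfam_cert {n k : ℕ} {M : CoxeterMatrix (Fin n)} {M' : CoxeterMatrix (Fin k)}
    {p : Fin n → Fin 2 → Fin k} {ι : Art M →* Art M'} (hn : 0 < n) (hk : 0 < k)
    (hf : Fold M M' p ι) (hS : SL M') (hR : RF M') (hF : FH M' (fh M'))
    (hfi : (Subgroup.normalClosure (Set.range fun s => gn M s * gn M s)).FiniteIndex)
    (hcop : ¬ 7 ∣ (Subgroup.normalClosure (Set.range fun s => gn M s * gn M s)).index)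
    (dg : Art M →* Multiplicative ℤ) (hdg : ∀ s, dg (gn M s) = Multiplicative.ofAdd 1)
    [Fact (Nat.Prime 7)]
    (hcert : ∀ (E : Fin k → PR M' Finset.univ) (G : Fin k → Equiv.Perm (PR M' Finset.univ)),
      RDat M' E G → ∀ (Φ : NFam (Art M) (PR M' Finset.univ) (Fin 2))
      (π : Art M →* Equiv.Perm (PR M' Finset.univ)),
      (∀ s, π (gn M s) = G (p s 0) * G (p s 1)) → WPt 7 Φ (gn M) π (TT p E G) →
      CertC 7 (fun _ : Fin n => ()) (gn M) π (TT p E G) (fun _ => 1))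
    (a b c d : ℕ) (hd : 0 < d) (hdb : d < b) (hc : 0 < c) (hcb : c < b) (hba : b < a)
    (hch : ∀ s, (frp ι (gn M s)).1.charpoly = (X - C ll) ^ d * (X - C 1) ^ a *
      (X - C (-qq)) ^ b * (X - C (qq ^ 2)) ^ c)
    (hirr : Submodule.span K2 (Set.range fun x : Art M => mK (frp ι) x) = ⊤)
    (htr : ∀ s, (frp ι (gn M s)).1.trace ≠ 0) (hfin : FinP (frp ι)) : TFam (frp ι) := by
  have hne : Nonempty (PR M' Finset.univ) :=
    ⟨⟨e ⟨0, hk⟩, ((aLkA k M' hR Finset.univ).2.2.2.1 _).2 (Finset.mem_univ _)⟩⟩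
  obtain ⟨E, G, hRD⟩ := aHrd k M' hR
  have hN := natLK hS hR hF
  obtain ⟨π, hπ, hW⟩ := aHwp n k M M' p ι hf hS hR hF hN E G hRD 7 hfi hcop
  have hC := hcert E G hRD (nfm ι hN) π hπ hW
  have hT : ThmR 7 (nfm ι hN) (fun _ => 1) :=
    aThR 7 (Art M) (PR M' Finset.univ) (Fin 2) (Fin n) Unit (fun _ => ()) (fun _ => dg)
      (nfm ι hN) (gn M) π (TT p E G) (fun _ => 1) (by norm_num)
      (fun c s => by rw [hdg, if_pos rfl]) hW hC
  exact tfam_fold aTFa aEgH pUnH ι hn (nfm ι hN) (fun R _ θ x => rfl) 7 (by norm_num)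
    (fun _ => 1) one_ne_zero one_ne_zero two_ne hT a b c d hd hdb hc hcb hba hch hirr htr hfin

end Pool.Agent.Lib.MP_97567f_al.Pad
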