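import Pool.Agent.Lib.MP_97567f_al.Pad.SpecH

/-!
# MP_97567f_al: the certificate for H3 and H4: the checker

`Dt`: the reflections `r q i` of the nodes `q` on the indices `i < N` of the positive roots, and the two nodes `p s 0`,
`p s 1` of a generator `s`. All lists are formal sums, with coefficients modulo 7. `rowT s i`: the row `i` of `τ s`;
`colT s j`: the column `j`; `rowW w i`, `colW w j`: the same for the sum of the conjugates of the `τ` along the word `w`;
`xw w i j`: the entry `i j` of the sum of the conjugates of the `X` along `w`; `terms w s i j`: the linear condition.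
-/

set_option autoImplicit false

namespace Pool.Agent.Lib.MP_97567f_al.Pad

/-- The combinatorial data. -/
structure Dt where
  N : ℕ
  r : ℕ → ℕ → ℕ
  p : ℕ → ℕ → ℕ

namespace Dt

variable (D : Dt)

/-- The permutation of the generator `s`. -/
def G (s i : ℕ) : ℕ := D.r (D.p s 0) (D.r (D.p s 1) i)

/-- The row `i` of the part of the node `p`. -/
def rowP (p i : ℕ) : List (ℕ × ℕ) :=
  (if D.r p i = i then [] else [(1, i), (6, D.r p i)]) ++
    (if i = p then (2, p) :: ((List.range D.N).filter fun k => !(D.r p k == k)).map fun k => (1, k)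
      else [])

/-- The column `j` of the part of the node `p`. -/
def colP (p j : ℕ) : List (ℕ × ℕ) :=
  (if D.r p j = j then [] else [(1, j), (6, D.r p j), (1, p)]) ++ (if j = p then [(2, p)] else [])

/-- The row `i` of `τ s`. -/
def rowT (s i : ℕ) : List (ℕ × ℕ) := D.rowP (D.p s 0) i ++ D.rowP (D.p s 1) i

/-- The column `j` of `τ s`. -/
def colT (s j : ℕ) : List (ℕ × ℕ) := D.colP (D.p s 0) j ++ D.colP (D.p s 1) j

/-- The row `i` of the sum of the conjugates of the `τ` along `w`. -/
def rowW : List ℕ → ℕ → List (ℕ × ℕ)
  | [], _ => []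
  | s :: w, i => D.rowT s i ++ (rowW w (D.G s i)).map fun c => (c.1, D.G s c.2)

/-- The column `j` of the sum of the conjugates of the `τ` along `w`. -/
def colW : List ℕ → ℕ → List (ℕ × ℕ)
  | [], _ => []
  | s :: w, j => D.colT s j ++ (colW w (D.G s j)).map fun c => (c.1, D.G s c.2)

/-- The entry of the sum of the conjugates of the `X` along `w`. -/
def xw : List ℕ → ℕ → ℕ → List (ℕ × ℕ × ℕ)
  | [], _, _ => []
  | s :: w, i, j => (s, i, j) :: xw w (D.G s i) (D.G s j)

/-- The linear condition of `w`, `s` at the entry `i j`. -/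
def terms (w : List ℕ) (s i j : ℕ) : List (ℕ × ℕ × ℕ × ℕ) :=
  ((D.rowW w i).map fun c => (c.1, s, c.2, j)) ++
    (((D.colW w j).map fun c => (6 * c.1, s, i, c.2)) ++
      (((D.colT s j).flatMap fun c => (D.xw w i c.2).map fun x => (c.1, x)) ++
        ((D.rowT s i).flatMap fun c => (D.xw w c.2 j).map fun x => (6 * c.1, x))))

/-- The word `w` acting on an index, the first letter first. -/
def bk (w : List ℕ) (a : ℕ) : ℕ := w.foldl (fun x s => D.G s x) a

/-- The word `w` acting on an index, the last letter first. -/
def fw (w : List ℕ) (a : ℕ) : ℕ := w.foldr (fun s x => D.G s x) a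

end Dt

end Pool.Agent.Lib.MP_97567f_al.Pad
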