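import Pool.Agent.Lib.MP_97567f_al.Pad.CUnq

/-!
# MP_97567f_al: the certificate for H3 and H4: the known solutions

`Mt`: `wo o` is the orbit under the whole group of the orbit `o`, `nw` the number of these orbits, `bi a f` the coefficient
of the known solution `a` determined by the value at the free orbit `f`.
-/

set_option autoImplicit false
set_option linter.unusedSectionVars false

namespace Pool.Agent.Lib.MP_97567f_al.Pad

/-- The matching data. -/
structure Mt where
  nw : ℕ
  wo : ℕ → ℕ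
  bi : ℕ → ℕ → ℕ

namespace Mt

variable (A : Mt) (C : Ct) (D : Dt)

/-- The entry `i j` of the known solutions, the part of the node `p`. -/
def blp (p i j : ℕ) : List (ℕ × ℕ) :=
  (if D.r p j = j then [] else (if i = j then [(1, A.nw)] else []) ++
    ((if i = D.r p j then [(6, A.nw)] else []) ++ (if i = p then [(1, A.nw)] else []))) ++
    (if i = p ∧ j = p then [(2, A.nw + 1)] else [])

/-- The entry `i j` of the known solutions. -/
def bl (i j : ℕ) : List (ℕ × ℕ) :=
  ((D.colT 0 j).map fun c => (c.1, A.wo (C.orb i c.2))) ++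
    (((D.rowT 0 i).map fun c => (6 * c.1, A.wo (C.orb c.2 j))) ++
      (A.blp D (D.p 0 0) i j ++ (A.blp D (D.p 0 1) i j ++ (if i = j then [(1, A.nw + 2)] else []))))

/-- The number `∑ c * bi a f`. -/
def sm (f : ℕ) (L : List (ℕ × ℕ)) : ℕ := L.foldr (fun c r => c.1 * A.bi c.2 f + r) 0

/-- The check. -/
def chk (n : ℕ) : Bool :=
  ((List.range n).all fun s => (List.range D.N).all fun i => (List.range D.N).all fun j =>
    A.wo (C.orb (D.G s i) (D.G s j)) == A.wo (C.orb i j)) &&
  (List.range C.F).all fun f => (List.range C.F).all fun f' =>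
    A.sm f' (A.bl C D (C.rep f).1 (C.rep f).2) % 7 == if f = f' then 1 else 0

end Mt

variable {A : Mt} {C : Ct} {D : Dt} {Ω : Type} [Fintype Ω] [DecidableEq Ω] {n k : ℕ}
  {pf : Fin n → Fin 2 → Fin k} {E : Fin k → Ω} {G : Fin k → Equiv.Perm Ω} {ψ : ℕ → Ω}
  {fn : ℕ → Fin n}

theorem sm_cons (f : ℕ) (c : ℕ × ℕ) (L : List (ℕ × ℕ)) :
    A.sm f (c :: L) = c.1 * A.bi c.2 f + A.sm f L := rfl

theorem ef_sm (F : ℕ) (x : ℕ → ZMod 7) (L : List (ℕ × ℕ)) :
    ef (fun a => ∑ f ∈ Finset.range F, (A.bi a f : ZMod 7) * x f) L =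
      ∑ f ∈ Finset.range F, (A.sm f L : ZMod 7) * x f := by
  induction L with
  | nil => simp [ef_nil, Mt.sm]
  | cons c L ih =>
    rw [ef_cons, ih, Finset.mul_sum, ← Finset.sum_add_distrib]
    refine Finset.sum_congr rfl fun f _ => ?_
    rw [sm_cons]
    push_cast
    ring

/-- The entries of the first order parts. -/
theorem blp_ev (h : Sem D pf E G ψ fn) (v : ℕ → ZMod 7) (q : Fin k) (i j : ℕ) (hi : i < D.N)
    (hj : j < D.N) : ef v (A.blp D q i j) =
      v A.nw * (Tq (G q) (E q) : Matrix Ω Ω (ZMod 7)) (ψ i) (ψ j) +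
        v (A.nw + 1) * (Tl (E q) : Matrix Ω Ω (ZMod 7)) (ψ i) (ψ j) := by
  have e1 : (D.r q j = j) = (G q (ψ j) = ψ j) := propext (rfix h q j hj)
  have e2 : (i = j) = (ψ i = ψ j) := propext ⟨fun h1 => by rw [h1], h.inj i hi j hj⟩
  have e3 : (i = D.r q j) = (ψ i = G q (ψ j)) := by
    rw [← h.hr q j hj]
    exact propext ⟨fun h1 => by rw [h1], h.inj i hi _ (h.rN q j hj)⟩
  have e4 : (i = (q : ℕ)) = (ψ i = E q) := propext (Eiff h q i hi)
  have e5 : (j = (q : ℕ)) = (ψ j = E q) := propext (Eiff h q j hj)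
  have hi1 : ∀ (P : Prop) [Decidable P] (c a : ℕ), ef v (if P then [(c, a)] else []) =
      (c : ZMod 7) * v a * (if P then 1 else 0) := by
    intro P _ c a
    split_ifs <;> simp [ef_cons, ef_nil]
  unfold Mt.blp
  rw [ef_append, hi1]
  simp only [Tq, Tl, Matrix.of_apply]
  simp only [e1, e2, e3, e4, e5]
  congr 1
  · by_cases h1 : G q (ψ j) = ψ j
    · simp only [h1, if_true, ef_nil, mul_zero]
    · simp only [h1, if_false, ef_append, hi1, six7]
      push_cast
      ring
  · split_ifs <;> push_cast <;> ring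

theorem XW_sub {P : ℕ} [Fact P.Prime] {B S : Type} [Group B] (π : B →* Equiv.Perm Ω) (g : S → B)
    (X Y : S → Matrix Ω Ω (ZMod P)) (w : List S) :
    XW π g (fun s => X s - Y s) w = XW π g X w - XW π g Y w := by
  induction w with
  | nil => simp [XW]
  | cons s w ih =>
    rw [XW, XW, XW, ih, Adp_sub]
    abel

theorem Tng_sub {P : ℕ} [Fact P.Prime] {B S : Type} [Group B] {π : B →* Equiv.Perm Ω} {g : S → B}
    {T X Y : S → Matrix Ω Ω (ZMod P)} (hX : Tng π g T X) (hY : Tng π g T Y) :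
    Tng π g T fun s => X s - Y s := by
  refine ⟨fun s t b hb => ?_, fun w s hw => ?_⟩
  · rw [hX.conj s t b hb, hY.conj s t b hb, Adp_sub]
  · have h1 := hX.hol w s hw
    have h2 := hY.hol w s hw
    rw [XW_sub]
    have h3 : XW π g T w * (X s - Y s) - (X s - Y s) * XW π g T w +
        ((XW π g X w - XW π g Y w) * T s - T s * (XW π g X w - XW π g Y w)) =
        (XW π g T w * X s - X s * XW π g T w + (XW π g X w * T s - T s * XW π g X w)) -
        (XW π g T w * Y s - Y s * XW π g T w + (XW π g Y w * T s - T s * XW π g Y w)) := by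
      noncomm_ring
    rw [h3, h1, h2, sub_zero]

/-- The certificate: every solution is a known one. -/
theorem match_main [Fact (Nat.Prime 7)] {B : Type} [Group B] {π : B →* Equiv.Perm Ω}
    {g : Fin n → B} (h : Sem D pf E G ψ fn) (hπ : ∀ s, π (g s) = G (pf s 0) * G (pf s 1))
    (hsq : ∀ s, π (g s * g s) = 1) (hgen : Subgroup.closure (Set.range g) = ⊤)
    (hchk : A.chk C D n = true) (hO : C.chkO D = true) (hF : C.F ≤ C.K)
    (hfv : ∀ s : Fin n, fn s = s)
    (hun : ∀ X : Fin n → Matrix Ω Ω (ZMod 7), Tng π g (tau pf E G) X →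
      (∀ o < C.F, X (fn 0) (ψ (C.rep o).1) (ψ (C.rep o).2) = 0) → ∀ s, X s = 0)
    (htn : ∀ (a : Fin 2 → ZMod 7) (c : ZMod 7) (m : Matrix Ω Ω (ZMod 7)),
      (∀ b, Adp (π b) m = m) → Tng π g (tau pf E G) fun s => (∑ l, a l • TT pf E G l s) +
        c • (1 : Matrix Ω Ω (ZMod 7)) + (m * tau pf E G s - tau pf E G s * m))
    (X : Fin n → Matrix Ω Ω (ZMod 7)) (hX : Tng π g (tau pf E G) X) :
    ∃ (a : Fin 2 → ZMod 7) (c : ZMod 7) (m : Matrix Ω Ω (ZMod 7)),
      (∀ b, Adp (π b) m = m) ∧ ∀ s, X s = (∑ l, a l • TT pf E G l s) +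
        c • (1 : Matrix Ω Ω (ZMod 7)) + (m * tau pf E G s - tau pf E G s * m) := by
  classical
  choose ix hix1 hix2 using h.sur
  have hix : ∀ i < D.N, ix (ψ i) = i := fun i hi => h.inj _ (hix1 _) _ hi (hix2 _)
  unfold Mt.chk at hchk
  simp only [Bool.and_eq_true, List.all_eq_true, List.mem_range, beq_iff_eq] at hchk
  obtain ⟨hW, hM⟩ := hchk
  let x : ℕ → ZMod 7 := fun f => X (fn 0) (ψ (C.rep f).1) (ψ (C.rep f).2)
  let co : ℕ → ZMod 7 := fun a => ∑ f ∈ Finset.range C.F, (A.bi a f : ZMod 7) * x f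
  let m : Matrix Ω Ω (ZMod 7) := Matrix.of fun y z => co (A.wo (C.orb (ix y) (ix z)))
  let a : Fin 2 → ZMod 7 := fun l => co (A.nw + l)
  have hm : ∀ b, Adp (π b) m = m := by
    intro b
    have hb : b ∈ Subgroup.closure (Set.range g) := by rw [hgen]; exact Subgroup.mem_top b
    induction hb using Subgroup.closure_induction with
    | mem b hb =>
      obtain ⟨s, rfl⟩ := hb
      ext y z
      obtain ⟨i, hi, rfl⟩ := h.sur y
      obtain ⟨j, hj, rfl⟩ := h.sur z
      have h1 := (G_symm π g h hπ hsq (s : ℕ) i hi).1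
      have h2 := (G_symm π g h hπ hsq (s : ℕ) j hj).1
      rw [hfv] at h1 h2
      simp only [Adp, Matrix.submatrix_apply, h1, h2, m, Matrix.of_apply]
      rw [hix _ (h.GN _ _ hi), hix _ (h.GN _ _ hj), hix _ hi, hix _ hj,
        hW s s.isLt i hi j hj]
    | one => rw [map_one]; rfl
    | mul b c _ _ hb hc => rw [map_mul, ← Adp_comp, hc, hb]
    | inv b _ hb =>
      have h1 : Adp (π b⁻¹) (Adp (π b) m) = m := by
        rw [Adp_comp, ← map_mul, inv_mul_cancel, map_one]
        rfl
      rw [hb] at h1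
      exact h1
  refine ⟨a, co (A.nw + 2), m, hm, ?_⟩
  have hR := htn a (co (A.nw + 2)) m hm
  set Y : Fin n → Matrix Ω Ω (ZMod 7) := fun s => (∑ l, a l • TT pf E G l s) +
        co (A.nw + 2) • (1 : Matrix Ω Ω (ZMod 7)) + (m * tau pf E G s - tau pf E G s * m) with hY
  have hsub : Tng π g (tau pf E G) (fun s => X s - Y s) := Tng_sub hX hR
  have hbl : ∀ i < D.N, ∀ j < D.N, Y (fn 0) (ψ i) (ψ j) = ef co (A.bl C D i j) := by
    intro i hi j hj
    have p0 := h.hp 0 0
    have p1 := h.hp 0 1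
    simp only [Fin.val_zero, Fin.val_one] at p0 p1
    unfold Mt.bl
    rw [ef_append, ef_append, ef_append, ef_append, p0, p1, blp_ev h co _ i j hi hj,
      blp_ev h co _ i j hi hj]
    have e1 : ef co ((D.colT 0 j).map fun c => (c.1, A.wo (C.orb i c.2))) =
        (m * tau pf E G (fn 0)) (ψ i) (ψ j) := by
      rw [Matrix.mul_apply, colT_ev h (fun z => m (ψ i) z) 0 j hj]
      unfold ef ev
      rw [List.map_map]
      refine congrArg List.sum (List.map_congr_left fun c hc => ?_)
      simp only [Function.comp_apply, m, Matrix.of_apply]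
      rw [hix _ hi, hix _ (colT_N h 0 j hj c hc)]
    have e2 : ef co ((D.rowT 0 i).map fun c => (6 * c.1, A.wo (C.orb c.2 j))) =
        -(tau pf E G (fn 0) * m) (ψ i) (ψ j) := by
      rw [Matrix.mul_apply, rowT_ev h (fun z => m z (ψ j)) 0 i hi]
      have hN := rowT_N h 0 i hi
      revert hN
      generalize D.rowT 0 i = L
      intro hN
      induction L with
      | nil => simp [ef_nil, ev_nil]
      | cons c L ih =>
        rw [List.map_cons, ef_cons, ih fun d hd => hN d (by simp [hd]), ev_cons, Nat.cast_mul,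
          six7]
        simp only [m, Matrix.of_apply]
        rw [hix _ hj, hix _ (hN c (by simp))]
        ring
    have e3 : ef co (if i = j then [(1, A.nw + 2)] else []) =
        co (A.nw + 2) * (1 : Matrix Ω Ω (ZMod 7)) (ψ i) (ψ j) := by
      by_cases h1 : i = j
      · subst h1
        simp [ef_cons, ef_nil]
      · have h2 : ψ i ≠ ψ j := fun h2 => h1 (h.inj i hi j hj h2)
        rw [if_neg h1, Matrix.one_apply_ne h2, ef_nil, mul_zero]
    rw [e1, e2, e3]
    simp only [hY, Matrix.add_apply, Matrix.sub_apply, Matrix.smul_apply, smul_eq_mul,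
      Fin.sum_univ_two, TT, a, Fin.isValue, one_ne_zero, if_true, if_false, Fin.val_zero,
      Fin.val_one, add_zero]
    ring
  have hval : ∀ o < C.F, Y (fn 0) (ψ (C.rep o).1) (ψ (C.rep o).2) = x o := by
    intro o ho
    obtain ⟨h1, h2⟩ := (chkO_snd hO).2.1 o (lt_of_lt_of_le ho hF)
    rw [hbl _ h1 _ h2]
    change ef (fun a => ∑ f ∈ Finset.range C.F, (A.bi a f : ZMod 7) * x f) _ = x o
    rw [ef_sm, Finset.sum_eq_single o]
    · have h3 := hM o ho o ho
      rw [if_pos rfl] at h3
      have h4 : ((A.sm o (A.bl C D (C.rep o).1 (C.rep o).2) : ℕ) : ZMod 7) = ((1 : ℕ) : ZMod 7) := by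
        rw [ZMod.natCast_eq_natCast_iff]
        exact h3
      rw [h4, Nat.cast_one, one_mul]
    · intro f hf hfo
      have h3 := hM o ho f (Finset.mem_range.1 hf)
      rw [if_neg fun h4 => hfo h4.symm] at h3
      rw [cast7 _ h3, zero_mul]
    · intro h3
      exact absurd (Finset.mem_range.2 ho) h3
  have h0 := hun _ hsub fun o ho => by
    simp only [Matrix.sub_apply, hval o ho, x, sub_self]
  intro s
  exact sub_eq_zero.1 (h0 s)

end Pool.Agent.Lib.MP_97567f_al.Pad
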