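import Pool.Agent.Lib.MP_97567f_al.Pad.CDef

/-!
# MP_97567f_al: the certificate for H3 and H4: soundness of the linear conditions
-/

set_option autoImplicit false
set_option linter.unusedSectionVars false

namespace Pool.Agent.Lib.MP_97567f_al.Pad

/-- The meaning of the data. -/
structure Sem (D : Dt) {Ω : Type} {n k : ℕ} (pf : Fin n → Fin 2 → Fin k) (E : Fin k → Ω)
    (G : Fin k → Equiv.Perm Ω) (ψ : ℕ → Ω) (fn : ℕ → Fin n) : Prop where
  hp : ∀ (s : ℕ) (c : Fin 2), D.p s c = (pf (fn s) c : ℕ)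
  hE : ∀ q : Fin k, ψ q = E q
  EN : ∀ q : Fin k, (q : ℕ) < D.N
  rN : ∀ (q : Fin k), ∀ i < D.N, D.r q i < D.N
  hr : ∀ (q : Fin k), ∀ i < D.N, ψ (D.r q i) = G q (ψ i)
  inj : ∀ i < D.N, ∀ j < D.N, ψ i = ψ j → i = j
  sur : ∀ x, ∃ i < D.N, ψ i = x
  inv : ∀ q x, G q (G q x) = x
  fix : ∀ q, G q (E q) = E q

/-- The value of a formal sum. -/
def ev {Ω : Type} (ψ : ℕ → Ω) (A : Ω → ZMod 7) (L : List (ℕ × ℕ)) : ZMod 7 :=
  (L.map fun c => (c.1 : ZMod 7) * A (ψ c.2)).sum

section ev

variable {Ω : Type} (ψ : ℕ → Ω) (A : Ω → ZMod 7)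

theorem ev_nil : ev ψ A [] = 0 := rfl

theorem ev_cons (c : ℕ × ℕ) (L : List (ℕ × ℕ)) :
    ev ψ A (c :: L) = (c.1 : ZMod 7) * A (ψ c.2) + ev ψ A L := by
  simp [ev]

theorem ev_append (L L' : List (ℕ × ℕ)) : ev ψ A (L ++ L') = ev ψ A L + ev ψ A L' := by
  simp [ev]

end ev

variable {D : Dt} {Ω : Type} [Fintype Ω] [DecidableEq Ω] {n k : ℕ} {pf : Fin n → Fin 2 → Fin k}
  {E : Fin k → Ω} {G : Fin k → Equiv.Perm Ω} {ψ : ℕ → Ω} {fn : ℕ → Fin n}

theorem six7 : ((6 : ℕ) : ZMod 7) = -1 := by decide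

/-- Sums over the indices. -/
theorem Sem.sum (h : Sem D pf E G ψ fn) (A : Ω → ZMod 7) :
    ∑ x, A x = ((List.range D.N).map fun i => A (ψ i)).sum := by
  classical
  have h1 : (List.range D.N).map (fun i => A (ψ i)) = ((List.range D.N).map ψ).map A := by
    rw [List.map_map]
    rfl
  have h2 : ((List.range D.N).map ψ).Nodup := by
    refine List.Nodup.map_on ?_ List.nodup_range
    intro i hi j hj hij
    exact h.inj i (List.mem_range.1 hi) j (List.mem_range.1 hj) hij
  have h3 : (Finset.univ : Finset Ω) = ((List.range D.N).map ψ).toFinset := by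
    ext x
    obtain ⟨i, hi, rfl⟩ := h.sur x
    simp only [Finset.mem_univ, List.mem_toFinset, List.mem_map, List.mem_range, true_iff]
    exact ⟨i, hi, rfl⟩
  rw [h1, h3, List.sum_toFinset _ h2]

theorem Sem.GN (h : Sem D pf E G ψ fn) (s i : ℕ) (hi : i < D.N) : D.G s i < D.N := by
  unfold Dt.G
  have h0 := h.hp s 0
  have h1 := h.hp s 1
  simp only [Fin.val_zero, Fin.val_one] at h0 h1
  rw [h0, h1]
  exact h.rN _ _ (h.rN _ _ hi)

theorem Sem.Gp (h : Sem D pf E G ψ fn) (s i : ℕ) (hi : i < D.N) :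
    ψ (D.G s i) = G (pf (fn s) 0) (G (pf (fn s) 1) (ψ i)) := by
  unfold Dt.G
  have h0 := h.hp s 0
  have h1 := h.hp s 1
  simp only [Fin.val_zero, Fin.val_one] at h0 h1
  rw [h0, h1, h.hr _ _ (h.rN _ _ hi), h.hr _ _ hi]

/-- The part of one node. -/
def tau1 (G : Fin k → Equiv.Perm Ω) (E : Fin k → Ω) (q : Fin k) : Matrix Ω Ω (ZMod 7) :=
  Tq (G q) (E q) + Tl (E q)

theorem rfix (h : Sem D pf E G ψ fn) (q : Fin k) (i : ℕ) (hi : i < D.N) :
    D.r q i = i ↔ G q (ψ i) = ψ i := by
  rw [← h.hr q i hi]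
  constructor
  · intro h1
    rw [h1]
  · intro h1
    exact h.inj _ (h.rN q i hi) _ hi h1

theorem Eiff (h : Sem D pf E G ψ fn) (q : Fin k) (i : ℕ) (hi : i < D.N) :
    i = (q : ℕ) ↔ ψ i = E q := by
  rw [← h.hE q]
  constructor
  · rintro rfl
    rfl
  · exact h.inj _ hi _ (h.EN q)

theorem rowP_ev (h : Sem D pf E G ψ fn) (A : Ω → ZMod 7) (q : Fin k) (i : ℕ) (hi : i < D.N) :
    ∑ x, tau1 G E q (ψ i) x * A x = ev ψ A (D.rowP q i) := by
  have e1 : ∀ x, tau1 G E q (ψ i) x * A x =
      (if ψ i = x then (if G q (ψ i) = ψ i then 0 else A x) else 0) -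
      (if G q (ψ i) = x then (if G q (ψ i) = ψ i then 0 else A x) else 0) +
      (if ψ i = E q then (if G q x = x then 0 else A x) else 0) +
      (if x = E q then (if ψ i = E q then 2 * A x else 0) else 0) := by
    intro x
    have ha : ψ i = G q x ↔ G q (ψ i) = x := by
      constructor
      · intro h1
        rw [h1, h.inv]
      · intro h1
        rw [← h1, h.inv]
    simp only [tau1, Tq, Tl, Matrix.add_apply, Matrix.of_apply, ha]
    by_cases h3 : ψ i = E q
    · have h0 : G q (ψ i) = ψ i := by rw [h3, h.fix]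
      by_cases h4 : G q x = x
      · by_cases h5 : x = E q
        · subst h5
          simp [h3, h.fix]
        · have h6 : ¬ E q = x := fun h7 => h5 h7.symm
          simp [h3, h4, h5, h.fix]
      · have h5 : ¬ x = E q := fun h5 => h4 (by rw [h5, h.fix])
        have h6 : ¬ E q = x := fun h7 => h5 h7.symm
        simp [h3, h4, h5, h6, h.fix]
    · by_cases h1 : ψ i = x
      · subst h1
        by_cases h2 : G q (ψ i) = ψ i
        · simp [h2, h3]
        · simp [h2, h3]
      · by_cases h2 : G q (ψ i) = x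
        · have h5 : G q x ≠ x := by
            intro h6
            rw [← h2, h.inv] at h6
            exact h1 (h6.trans h2)
          have h6 : G q (ψ i) ≠ ψ i := fun h7 => h1 (h7.symm.trans h2)
          subst h2
          simp [h1, h3, h.inv]
          exact fun h7 => absurd h7 h6
        · simp [h1, h2, h3]
  rw [Finset.sum_congr rfl fun x _ => e1 x]
  rw [Finset.sum_add_distrib, Finset.sum_add_distrib, Finset.sum_sub_distrib]
  simp only [Finset.sum_ite_eq, Finset.sum_ite_eq', Finset.mem_univ, if_true]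
  unfold Dt.rowP
  rw [ev_append, add_assoc]
  congr 1
  · by_cases h1 : D.r q i = i
    · simp only [if_pos h1, if_pos ((rfix h q i hi).1 h1), ev_nil, sub_zero]
    · have h2 : ¬ G q (ψ i) = ψ i := fun h2 => h1 ((rfix h q i hi).2 h2)
      rw [if_neg h1, if_neg h2, if_neg h2, ev_cons, ev_cons, ev_nil, six7, h.hr q i hi]
      push_cast
      ring
  · by_cases h1 : i = (q : ℕ)
    · have h2 := (Eiff h q i hi).1 h1
      rw [if_pos h1, if_pos h2, ev_cons, h.hE q, add_comm]
      congr 1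
      simp only [h2, if_true]
      rw [h.sum fun x => if G q x = x then 0 else A x]
      unfold ev
      rw [List.map_map]
      have h3 : ∀ L : List ℕ, (∀ j ∈ L, j < D.N) →
          (L.map fun j => if G q (ψ j) = ψ j then 0 else A (ψ j)).sum =
          ((L.filter fun k => !(D.r q k == k)).map
            ((fun c : ℕ × ℕ => (c.1 : ZMod 7) * A (ψ c.2)) ∘ fun k => (1, k))).sum := by
        intro L
        induction L with
        | nil => intro _; rfl
        | cons j L ih =>
          intro hL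
          have hj := hL j (by simp)
          have ih' := ih fun j' hj' => hL j' (by simp [hj'])
          rw [List.map_cons, List.sum_cons, ih']
          by_cases h4 : D.r q j = j
          · rw [if_pos ((rfix h q j hj).1 h4), List.filter_cons_of_neg (by simp [h4]), zero_add]
          · rw [if_neg fun h5 => h4 ((rfix h q j hj).2 h5),
              List.filter_cons_of_pos (by simp [h4]), List.map_cons, List.sum_cons]
            simp
      exact h3 _ fun j hj => List.mem_range.1 hj
    · have h2 : ¬ ψ i = E q := fun h2 => h1 ((Eiff h q i hi).2 h2)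
      rw [if_neg h1, if_neg h2, ev_nil]
      simp [h2]

theorem colP_ev (h : Sem D pf E G ψ fn) (A : Ω → ZMod 7) (q : Fin k) (j : ℕ) (hj : j < D.N) :
    ∑ x, A x * tau1 G E q x (ψ j) = ev ψ A (D.colP q j) := by
  have e1 : ∀ x, A x * tau1 G E q x (ψ j) =
      (if x = ψ j then (if G q (ψ j) = ψ j then 0 else A x) else 0) -
      (if x = G q (ψ j) then (if G q (ψ j) = ψ j then 0 else A x) else 0) +
      (if x = E q then (if G q (ψ j) = ψ j then 0 else A x) else 0) +
      (if x = E q then (if ψ j = E q then 2 * A x else 0) else 0) := by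
    intro x
    simp only [tau1, Tq, Tl, Matrix.add_apply, Matrix.of_apply]
    by_cases h3 : ψ j = E q
    · simp only [h3, h.fix, if_true, and_true, sub_self, zero_add]
      by_cases h5 : x = E q
      · simp [h5, mul_comm]
      · simp [h5]
    · by_cases h4 : G q (ψ j) = ψ j
      · simp [h3, h4]
      · simp only [h3, h4, if_false, and_false, mul_add, mul_sub, mul_zero]
        split_ifs <;> ring
  rw [Finset.sum_congr rfl fun x _ => e1 x]
  rw [Finset.sum_add_distrib, Finset.sum_add_distrib, Finset.sum_sub_distrib]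
  simp only [Finset.sum_ite_eq, Finset.sum_ite_eq', Finset.mem_univ, if_true]
  unfold Dt.colP
  rw [ev_append]
  congr 1
  · by_cases h1 : D.r q j = j
    · simp only [if_pos h1, if_pos ((rfix h q j hj).1 h1), ev_nil, sub_zero, add_zero]
    · have h2 : ¬ G q (ψ j) = ψ j := fun h2 => h1 ((rfix h q j hj).2 h2)
      simp only [if_neg h1, if_neg h2, ev_cons, ev_nil, six7, h.hr q j hj, h.hE q]
      push_cast
      ring
  · by_cases h1 : j = (q : ℕ)
    · have h2 := (Eiff h q j hj).1 h1
      rw [if_pos h1, if_pos h2, ev_cons, h.hE q, ev_nil, add_zero]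
      push_cast
      rfl
    · have h2 : ¬ ψ j = E q := fun h2 => h1 ((Eiff h q j hj).2 h2)
      rw [if_neg h1, if_neg h2, ev_nil]

theorem rowP_N (h : Sem D pf E G ψ fn) (q : Fin k) (i : ℕ) (hi : i < D.N) :
    ∀ c ∈ D.rowP q i, c.2 < D.N := by
  intro c hc
  unfold Dt.rowP at hc
  rw [List.mem_append] at hc
  rcases hc with hc | hc
  · split_ifs at hc with h1
    · simp at hc
    · simp only [List.mem_cons, List.not_mem_nil, or_false] at hc
      rcases hc with rfl | rfl
      · exact hi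
      · exact h.rN q i hi
  · split_ifs at hc with h1
    · rw [List.mem_cons] at hc
      rcases hc with rfl | hc
      · exact h.EN q
      · obtain ⟨j, hj, rfl⟩ := List.mem_map.1 hc
        exact List.mem_range.1 (List.mem_filter.1 hj).1
    · simp at hc

theorem colP_N (h : Sem D pf E G ψ fn) (q : Fin k) (i : ℕ) (hi : i < D.N) :
    ∀ c ∈ D.colP q i, c.2 < D.N := by
  intro c hc
  unfold Dt.colP at hc
  rw [List.mem_append] at hc
  rcases hc with hc | hc
  · split_ifs at hc with h1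
    · simp at hc
    · simp only [List.mem_cons, List.not_mem_nil, or_false] at hc
      rcases hc with rfl | rfl | rfl
      · exact hi
      · exact h.rN q i hi
      · exact h.EN q
  · split_ifs at hc with h1
    · simp only [List.mem_cons, List.not_mem_nil, or_false] at hc
      rw [hc]
      exact h.EN q
    · simp at hc

theorem rowT_N (h : Sem D pf E G ψ fn) (s i : ℕ) (hi : i < D.N) :
    ∀ c ∈ D.rowT s i, c.2 < D.N := by
  intro c hc
  have h0 := h.hp s 0
  have h1 := h.hp s 1
  simp only [Fin.val_zero, Fin.val_one] at h0 h1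
  unfold Dt.rowT at hc
  rw [h0, h1, List.mem_append] at hc
  rcases hc with hc | hc
  · exact rowP_N h _ i hi c hc
  · exact rowP_N h _ i hi c hc

theorem colT_N (h : Sem D pf E G ψ fn) (s i : ℕ) (hi : i < D.N) :
    ∀ c ∈ D.colT s i, c.2 < D.N := by
  intro c hc
  have h0 := h.hp s 0
  have h1 := h.hp s 1
  simp only [Fin.val_zero, Fin.val_one] at h0 h1
  unfold Dt.colT at hc
  rw [h0, h1, List.mem_append] at hc
  rcases hc with hc | hc
  · exact colP_N h _ i hi c hc
  · exact colP_N h _ i hi c hc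

theorem rowW_N (h : Sem D pf E G ψ fn) (w : List ℕ) : ∀ i < D.N, ∀ c ∈ D.rowW w i, c.2 < D.N := by
  induction w with
  | nil => intro i _ c hc; simp [Dt.rowW] at hc
  | cons s w ih =>
    intro i hi c hc
    rw [Dt.rowW, List.mem_append] at hc
    rcases hc with hc | hc
    · exact rowT_N h s i hi c hc
    · obtain ⟨d, hd, rfl⟩ := List.mem_map.1 hc
      exact h.GN s _ (ih _ (h.GN s i hi) d hd)

theorem colW_N (h : Sem D pf E G ψ fn) (w : List ℕ) : ∀ i < D.N, ∀ c ∈ D.colW w i, c.2 < D.N := by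
  induction w with
  | nil => intro i _ c hc; simp [Dt.colW] at hc
  | cons s w ih =>
    intro i hi c hc
    rw [Dt.colW, List.mem_append] at hc
    rcases hc with hc | hc
    · exact colT_N h s i hi c hc
    · obtain ⟨d, hd, rfl⟩ := List.mem_map.1 hc
      exact h.GN s _ (ih _ (h.GN s i hi) d hd)

/-- The first order part of the generator `s`. -/
def tau (pf : Fin n → Fin 2 → Fin k) (E : Fin k → Ω) (G : Fin k → Equiv.Perm Ω) (s : Fin n) :
    Matrix Ω Ω (ZMod 7) := tau1 G E (pf s 0) + tau1 G E (pf s 1)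

theorem tau_eq (s : Fin n) : (∑ l : Fin 2, (1 : ZMod 7) • TT pf E G l s) = tau pf E G s := by
  rw [Fin.sum_univ_two]
  simp only [TT, one_smul, tau, tau1, Fin.isValue, one_ne_zero, if_true, if_false]
  abel

theorem rowT_ev (h : Sem D pf E G ψ fn) (A : Ω → ZMod 7) (s i : ℕ) (hi : i < D.N) :
    ∑ x, tau pf E G (fn s) (ψ i) x * A x = ev ψ A (D.rowT s i) := by
  have h0 := h.hp s 0
  have h1 := h.hp s 1
  simp only [Fin.val_zero, Fin.val_one] at h0 h1
  unfold Dt.rowT
  rw [h0, h1, ev_append, ← rowP_ev h A _ i hi, ← rowP_ev h A _ i hi, ← Finset.sum_add_distrib]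
  refine Finset.sum_congr rfl fun x _ => ?_
  rw [tau, Matrix.add_apply, add_mul]

theorem colT_ev (h : Sem D pf E G ψ fn) (A : Ω → ZMod 7) (s j : ℕ) (hj : j < D.N) :
    ∑ x, A x * tau pf E G (fn s) x (ψ j) = ev ψ A (D.colT s j) := by
  have h0 := h.hp s 0
  have h1 := h.hp s 1
  simp only [Fin.val_zero, Fin.val_one] at h0 h1
  unfold Dt.colT
  rw [h0, h1, ev_append, ← colP_ev h A _ j hj, ← colP_ev h A _ j hj, ← Finset.sum_add_distrib]
  refine Finset.sum_congr rfl fun x _ => ?_
  rw [tau, Matrix.add_apply, mul_add]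

section words

variable [Fact (Nat.Prime 7)] {B : Type} [Group B] (π : B →* Equiv.Perm Ω) (g : Fin n → B)

theorem G_symm (h : Sem D pf E G ψ fn) (hπ : ∀ s, π (g s) = G (pf s 0) * G (pf s 1))
    (hsq : ∀ s, π (g s * g s) = 1) (s i : ℕ) (hi : i < D.N) :
    (π (g (fn s))).symm (ψ i) = ψ (D.G s i) ∧ π (g (fn s)) (ψ i) = ψ (D.G s i) := by
  have h1 : π (g (fn s)) (ψ i) = ψ (D.G s i) := by
    rw [h.Gp s i hi, hπ]
    rfl
  refine ⟨?_, h1⟩
  rw [Equiv.symm_apply_eq, ← h1]
  have h2 := hsq (fn s)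
  rw [map_mul] at h2
  have h3 : (π (g (fn s)) * π (g (fn s))) (ψ i) = ψ i := by rw [h2]; rfl
  exact h3.symm

theorem rowW_ev (h : Sem D pf E G ψ fn) (hπ : ∀ s, π (g s) = G (pf s 0) * G (pf s 1))
    (hsq : ∀ s, π (g s * g s) = 1) (w : List ℕ) : ∀ i < D.N, ∀ A : Ω → ZMod 7,
    ∑ x, XW π g (tau pf E G) (w.map fn) (ψ i) x * A x = ev ψ A (D.rowW w i) := by
  induction w with
  | nil => intro i _ A; simp [XW, Dt.rowW, ev]
  | cons s w ih =>
    intro i hi A
    rw [Dt.rowW, ev_append, ← rowT_ev h A s i hi, List.map_cons, XW]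
    have h1 : ev ψ A ((D.rowW w (D.G s i)).map fun c => (c.1, D.G s c.2)) =
        ev ψ (fun x => A (π (g (fn s)) x)) (D.rowW w (D.G s i)) := by
      unfold ev
      rw [List.map_map]
      refine congrArg List.sum (List.map_congr_left fun c hc => ?_)
      simp only [Function.comp_apply]
      rw [(G_symm π g h hπ hsq s c.2 (rowW_N h w _ (h.GN s i hi) c hc)).2]
    rw [h1, ← ih _ (h.GN s i hi)]
    have h2 : ∑ x, Adp (π (g (fn s))) (XW π g (tau pf E G) (w.map fn)) (ψ i) x * A x =
        ∑ x, XW π g (tau pf E G) (w.map fn) (ψ (D.G s i)) x * A (π (g (fn s)) x) := by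
      rw [← Equiv.sum_comp (π (g (fn s)))]
      refine Finset.sum_congr rfl fun x _ => ?_
      rw [Adp, Matrix.submatrix_apply, Equiv.symm_apply_apply, (G_symm π g h hπ hsq s i hi).1]
    rw [← h2, ← Finset.sum_add_distrib]
    refine Finset.sum_congr rfl fun x _ => ?_
    rw [Matrix.add_apply, add_mul]

theorem colW_ev (h : Sem D pf E G ψ fn) (hπ : ∀ s, π (g s) = G (pf s 0) * G (pf s 1))
    (hsq : ∀ s, π (g s * g s) = 1) (w : List ℕ) : ∀ i < D.N, ∀ A : Ω → ZMod 7,
    ∑ x, A x * XW π g (tau pf E G) (w.map fn) x (ψ i) = ev ψ A (D.colW w i) := by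
  induction w with
  | nil => intro i _ A; simp [XW, Dt.colW, ev]
  | cons s w ih =>
    intro i hi A
    rw [Dt.colW, ev_append, ← colT_ev h A s i hi, List.map_cons, XW]
    have h1 : ev ψ A ((D.colW w (D.G s i)).map fun c => (c.1, D.G s c.2)) =
        ev ψ (fun x => A (π (g (fn s)) x)) (D.colW w (D.G s i)) := by
      unfold ev
      rw [List.map_map]
      refine congrArg List.sum (List.map_congr_left fun c hc => ?_)
      simp only [Function.comp_apply]
      rw [(G_symm π g h hπ hsq s c.2 (colW_N h w _ (h.GN s i hi) c hc)).2]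
    rw [h1, ← ih _ (h.GN s i hi)]
    have h2 : ∑ x, A x * Adp (π (g (fn s))) (XW π g (tau pf E G) (w.map fn)) x (ψ i) =
        ∑ x, A (π (g (fn s)) x) * XW π g (tau pf E G) (w.map fn) x (ψ (D.G s i)) := by
      rw [← Equiv.sum_comp (π (g (fn s)))]
      refine Finset.sum_congr rfl fun x _ => ?_
      rw [Adp, Matrix.submatrix_apply, Equiv.symm_apply_apply, (G_symm π g h hπ hsq s i hi).1]
    rw [← h2, ← Finset.sum_add_distrib]
    refine Finset.sum_congr rfl fun x _ => ?_
    rw [Matrix.add_apply, mul_add]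

/-- The value of a formal sum of entries of the `X`. -/
def evx (ψ : ℕ → Ω) (fn : ℕ → Fin n) (X : Fin n → Matrix Ω Ω (ZMod 7))
    (L : List (ℕ × ℕ × ℕ)) : ZMod 7 :=
  (L.map fun x => X (fn x.1) (ψ x.2.1) (ψ x.2.2)).sum

/-- The value of a formal sum of entries of the `X`, with coefficients. -/
def evX (ψ : ℕ → Ω) (fn : ℕ → Fin n) (X : Fin n → Matrix Ω Ω (ZMod 7))
    (L : List (ℕ × ℕ × ℕ × ℕ)) : ZMod 7 :=
  (L.map fun x => (x.1 : ZMod 7) * X (fn x.2.1) (ψ x.2.2.1) (ψ x.2.2.2)).sum

theorem xw_ev (h : Sem D pf E G ψ fn) (hπ : ∀ s, π (g s) = G (pf s 0) * G (pf s 1))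
    (hsq : ∀ s, π (g s * g s) = 1) (X : Fin n → Matrix Ω Ω (ZMod 7)) (w : List ℕ) :
    ∀ i < D.N, ∀ j < D.N, XW π g X (w.map fn) (ψ i) (ψ j) = evx ψ fn X (D.xw w i j) := by
  induction w with
  | nil => intro i _ j _; simp [XW, Dt.xw, evx]
  | cons s w ih =>
    intro i hi j hj
    have h1 := ih _ (h.GN s i hi) _ (h.GN s j hj)
    have h2 : evx ψ fn X (D.xw (s :: w) i j) =
        X (fn s) (ψ i) (ψ j) + evx ψ fn X (D.xw w (D.G s i) (D.G s j)) := by
      simp [Dt.xw, evx]
    rw [h2, List.map_cons, XW, Matrix.add_apply, Adp,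
      Matrix.submatrix_apply, (G_symm π g h hπ hsq s i hi).1, (G_symm π g h hπ hsq s j hj).1, h1]

theorem evX_append (X : Fin n → Matrix Ω Ω (ZMod 7)) (L L' : List (ℕ × ℕ × ℕ × ℕ)) :
    evX ψ fn X (L ++ L') = evX ψ fn X L + evX ψ fn X L' := by
  simp [evX]

theorem evX_pair (X : Fin n → Matrix Ω Ω (ZMod 7)) (c : ℕ) (L : List (ℕ × ℕ × ℕ)) :
    evX ψ fn X (L.map fun x => (c, x)) = (c : ZMod 7) * evx ψ fn X L := by
  induction L with
  | nil => simp [evX, evx]
  | cons x L ih =>
    rw [List.map_cons, evX, List.map_cons, List.sum_cons]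
    have h1 : evX ψ fn X (L.map fun x => (c, x)) =
      ((L.map fun x => (c, x)).map fun x : ℕ × ℕ × ℕ × ℕ =>
        (x.1 : ZMod 7) * X (fn x.2.1) (ψ x.2.2.1) (ψ x.2.2.2)).sum := rfl
    rw [← h1, ih, evx, evx, List.map_cons, List.sum_cons, mul_add]

/-- The linear condition in coordinates. -/
theorem terms_ev (h : Sem D pf E G ψ fn) (hπ : ∀ s, π (g s) = G (pf s 0) * G (pf s 1))
    (hsq : ∀ s, π (g s * g s) = 1) (X : Fin n → Matrix Ω Ω (ZMod 7)) (w : List ℕ) (s : ℕ)
    (i : ℕ) (hi : i < D.N) (j : ℕ) (hj : j < D.N) :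
    (XW π g (tau pf E G) (w.map fn) * X (fn s) - X (fn s) * XW π g (tau pf E G) (w.map fn) +
      (XW π g X (w.map fn) * tau pf E G (fn s) - tau pf E G (fn s) * XW π g X (w.map fn)))
      (ψ i) (ψ j) = evX ψ fn X (D.terms w s i j) := by
  unfold Dt.terms
  rw [evX_append, evX_append, evX_append]
  have e1 : evX ψ fn X ((D.rowW w i).map fun c => (c.1, s, c.2, j)) =
      (XW π g (tau pf E G) (w.map fn) * X (fn s)) (ψ i) (ψ j) := by
    rw [Matrix.mul_apply, rowW_ev π g h hπ hsq w i hi fun x => X (fn s) x (ψ j)]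
    unfold evX ev
    rw [List.map_map]
    rfl
  have e2 : evX ψ fn X ((D.colW w j).map fun c => (6 * c.1, s, i, c.2)) =
      -(X (fn s) * XW π g (tau pf E G) (w.map fn)) (ψ i) (ψ j) := by
    rw [Matrix.mul_apply, colW_ev π g h hπ hsq w j hj fun x => X (fn s) (ψ i) x]
    generalize D.colW w j = L
    induction L with
    | nil => simp [evX, ev]
    | cons c L ih =>
      have h2 : evX ψ fn X ((c :: L).map fun c => (6 * c.1, s, i, c.2)) =
          ((6 * c.1 : ℕ) : ZMod 7) * X (fn s) (ψ i) (ψ c.2) +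
            evX ψ fn X (L.map fun c => (6 * c.1, s, i, c.2)) := by
        simp [evX]
      rw [h2, ih, ev_cons, Nat.cast_mul, six7]
      ring
  have e3 : evX ψ fn X ((D.colT s j).flatMap fun c => (D.xw w i c.2).map fun x => (c.1, x)) =
      (XW π g X (w.map fn) * tau pf E G (fn s)) (ψ i) (ψ j) := by
    rw [Matrix.mul_apply, colT_ev h (fun x => XW π g X (w.map fn) (ψ i) x) s j hj]
    have h1 := colT_N h s j hj
    revert h1
    generalize D.colT s j = L
    intro h1
    induction L with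
    | nil => simp [evX, ev]
    | cons c L ih =>
      rw [List.flatMap_cons, evX_append, evX_pair, ih fun d hd => h1 d (by simp [hd]), ev_cons,
        xw_ev π g h hπ hsq X w i hi c.2 (h1 c (by simp))]
  have e4 : evX ψ fn X ((D.rowT s i).flatMap fun c =>
      (D.xw w c.2 j).map fun x => (6 * c.1, x)) =
      -(tau pf E G (fn s) * XW π g X (w.map fn)) (ψ i) (ψ j) := by
    rw [Matrix.mul_apply, rowT_ev h (fun x => XW π g X (w.map fn) x (ψ j)) s i hi]
    have h1 := rowT_N h s i hi
    revert h1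
    generalize D.rowT s i = L
    intro h1
    induction L with
    | nil => simp [evX, ev]
    | cons c L ih =>
      rw [List.flatMap_cons, evX_append, evX_pair, ih fun d hd => h1 d (by simp [hd]), ev_cons,
        xw_ev π g h hπ hsq X w c.2 (h1 c (by simp)) j hj, Nat.cast_mul, six7]
      ring
  rw [e1, e2, e3, e4]
  simp only [Matrix.add_apply, Matrix.sub_apply]
  ring

end words

end Pool.Agent.Lib.MP_97567f_al.Pad
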