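import Pool.Agent.Lib.MP_97567f_al.Pad.CSnd

/-!
# MP_97567f_al: the certificate for H3 and H4: uniqueness

`Ct`: orbits `orb i j` of the pairs of indices under the stabilizer of the generator 0, their number `K`, the number `F`
of the free orbits, representatives `rep`, the permutations `gm c` of the stabilizer (from the pairs `gs c`), levels `lev`,
words `wd s` which conjugate the generator 0 to `s`, words `al s t` of the linear conditions.
-/

set_option autoImplicit false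
set_option linter.unusedSectionVars false

namespace Pool.Agent.Lib.MP_97567f_al.Pad

/-- The orbits. -/
structure Ct where
  K : ℕ
  F : ℕ
  ng : ℕ
  orb : ℕ → ℕ → ℕ
  lev : ℕ → ℕ → ℕ
  rep : ℕ → ℕ × ℕ
  gm : ℕ → ℕ → ℕ
  gs : ℕ → ℕ × ℕ
  wd : ℕ → List ℕ
  al : ℕ → ℕ → List ℕ

namespace Ct

variable (C : Ct) (D : Dt)

/-- The entry `i j` is the representative of its orbit, or a permutation of the stabilizer lowers the level. -/
def chkP (i j : ℕ) : Bool :=
  (C.orb i j).blt C.K &&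
  ((C.lev i j == 0 && (C.rep (C.orb i j)).1 == i && (C.rep (C.orb i j)).2 == j) ||
    (List.range C.ng).any fun c => C.orb (C.gm c i) (C.gm c j) == C.orb i j &&
      (C.lev (C.gm c i) (C.gm c j)).blt (C.lev i j))

/-- The check of the orbits. -/
def chkO : Bool :=
  ((List.range D.N).all fun i => (List.range D.N).all fun j => C.chkP i j) &&
  ((List.range C.K).all fun o => (C.rep o).1.blt D.N && (C.rep o).2.blt D.N) &&
  (List.range C.ng).all fun c => (List.range D.N).all fun i =>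
    C.gm c i == D.bk (C.wd (C.gs c).1) (D.G (C.gs c).2 (D.fw (C.wd (C.gs c).1) i)) &&
    (D.bk (C.wd (C.gs c).1) (D.fw (C.wd (C.gs c).1) i) == i)

/-- The linear condition in terms of the orbits. -/
def trm (s t i j : ℕ) : List (ℕ × ℕ) :=
  (D.terms (C.al s t) s i j).map fun x =>
    (x.1, C.orb (D.bk (C.wd x.2.1) x.2.2.1) (D.bk (C.wd x.2.1) x.2.2.2))

/-- A combination of linear conditions `(a, s, t, i, j)`. -/
def cmb (L : List (ℕ × ℕ × ℕ × ℕ × ℕ)) : List (ℕ × ℕ) :=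
  L.flatMap fun x => (C.trm D x.2.1 x.2.2.1 x.2.2.2.1 x.2.2.2.2).map fun c => (x.1 * c.1, c.2)

end Ct

/-- The coefficient of `o`. -/
def cf (o : ℕ) (L : List (ℕ × ℕ)) : ℕ := L.foldr (fun c r => if c.2 = o then c.1 + r else r) 0

/-- The formal sum determines the value at `o` if the values below `o` vanish. -/
def chkL (o : ℕ) (L : List (ℕ × ℕ)) : Bool :=
  let L' := L.filter fun c => !(c.2.blt o)
  !(cf o L' % 7 == 0) && L'.all fun c => c.2 == o || cf c.2 L' % 7 == 0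

/-- All steps. -/
def chkS (C : Ct) (D : Dt) : ℕ → List (List (ℕ × ℕ × ℕ × ℕ × ℕ)) → Bool
  | o, [] => o == C.K
  | o, L :: Ls => (L.all fun x => x.2.2.2.1.blt D.N && x.2.2.2.2.blt D.N) &&
      chkL o (C.cmb D L) && chkS C D (o + 1) Ls

section lin

/-- The value of a formal sum. -/
def ef (v : ℕ → ZMod 7) (L : List (ℕ × ℕ)) : ZMod 7 :=
  (L.map fun c => (c.1 : ZMod 7) * v c.2).sum

theorem ef_cons (v : ℕ → ZMod 7) (c : ℕ × ℕ) (L : List (ℕ × ℕ)) :
    ef v (c :: L) = (c.1 : ZMod 7) * v c.2 + ef v L := by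
  simp [ef]

theorem ef_nil (v : ℕ → ZMod 7) : ef v [] = 0 := rfl

theorem ef_append (v : ℕ → ZMod 7) (L L' : List (ℕ × ℕ)) : ef v (L ++ L') = ef v L + ef v L' := by
  simp [ef]

theorem ef_smul (v : ℕ → ZMod 7) (a : ℕ) (L : List (ℕ × ℕ)) :
    ef v (L.map fun c => (a * c.1, c.2)) = (a : ZMod 7) * ef v L := by
  induction L with
  | nil => simp [ef_nil]
  | cons c L ih => rw [List.map_cons, ef_cons, ih, ef_cons]; push_cast; ring

theorem ef_filter (v : ℕ → ZMod 7) (o : ℕ) (hv : ∀ x < o, v x = 0) (L : List (ℕ × ℕ)) :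
    ef v (L.filter fun c => !(c.2.blt o)) = ef v L := by
  induction L with
  | nil => rfl
  | cons c L ih =>
    by_cases h : c.2 < o
    · rw [List.filter_cons_of_neg (by simp [Nat.blt_eq, h]), ih, ef_cons, hv _ h, mul_zero,
        zero_add]
    · have h1 : Nat.blt c.2 o = false := by
        rw [← Bool.not_eq_true, Nat.blt_eq]
        exact h
      rw [List.filter_cons_of_pos (by simp [h1]), ef_cons, ih, ef_cons]

theorem cf_cons (o : ℕ) (c : ℕ × ℕ) (L : List (ℕ × ℕ)) :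
    cf o (c :: L) = if c.2 = o then c.1 + cf o L else cf o L := rfl

theorem ef_cf (v : ℕ → ZMod 7) (L : List (ℕ × ℕ)) (S : Finset ℕ) (h : ∀ c ∈ L, c.2 ∈ S) :
    ef v L = ∑ o ∈ S, (cf o L : ZMod 7) * v o := by
  induction L with
  | nil => simp [ef_nil, cf]
  | cons c L ih =>
    rw [ef_cons, ih fun d hd => h d (by simp [hd])]
    have h1 : ∀ o ∈ S, (cf o (c :: L) : ZMod 7) * v o =
        (if c.2 = o then (c.1 : ZMod 7) * v o else 0) + (cf o L : ZMod 7) * v o := by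
      intro o _
      rw [cf_cons]
      split_ifs with h2
      · push_cast; ring
      · ring
    rw [Finset.sum_congr rfl h1, Finset.sum_add_distrib, Finset.sum_ite_eq,
      if_pos (h c (by simp))]

theorem cast7 (a : ℕ) (h : a % 7 = 0) : (a : ZMod 7) = 0 := by
  rw [ZMod.natCast_eq_zero_iff]
  exact Nat.dvd_of_mod_eq_zero h

theorem chkL_snd (v : ℕ → ZMod 7) (o : ℕ) (hv : ∀ x < o, v x = 0) (L : List (ℕ × ℕ))
    (h0 : ef v L = 0) (h : chkL o L = true) : v o = 0 := by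
  have : Fact (Nat.Prime 7) := ⟨by norm_num⟩
  unfold chkL at h
  rw [← ef_filter v o hv] at h0
  revert h0 h
  generalize (L.filter fun c => !(c.2.blt o)) = L'
  intro h0 h
  simp only [Bool.and_eq_true, Bool.not_eq_true', beq_eq_false_iff_ne, ne_eq,
    List.all_eq_true, Bool.or_eq_true, beq_iff_eq] at h
  obtain ⟨h1, h2⟩ := h
  rw [ef_cf v L' (insert o (L'.map Prod.snd).toFinset) (by
    intro c hc
    rw [Finset.mem_insert, List.mem_toFinset]
    exact Or.inr (List.mem_map_of_mem hc))] at h0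
  rw [Finset.sum_eq_single o] at h0
  · rcases mul_eq_zero.1 h0 with h3 | h3
    · exfalso
      rw [ZMod.natCast_eq_zero_iff] at h3
      exact h1 (Nat.mod_eq_zero_of_dvd h3)
    · exact h3
  · intro x hx hxo
    rw [Finset.mem_insert, List.mem_toFinset] at hx
    rcases hx with hx | hx
    · exact absurd hx hxo
    · obtain ⟨c, hc, rfl⟩ := List.mem_map.1 hx
      rcases h2 c hc with h3 | h3
      · exact absurd h3 hxo
      · rw [cast7 _ h3, zero_mul]
  · intro h3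
    exact absurd (Finset.mem_insert_self _ _) h3

end lin

section orb

variable {C : Ct} {D : Dt}

theorem bk_N (hG : ∀ s, ∀ i < D.N, D.G s i < D.N) (w : List ℕ) : ∀ i < D.N, D.bk w i < D.N := by
  induction w with
  | nil => intro i hi; exact hi
  | cons s w ih => intro i hi; exact ih _ (hG s i hi)

theorem fw_N (hG : ∀ s, ∀ i < D.N, D.G s i < D.N) (w : List ℕ) : ∀ i < D.N, D.fw w i < D.N := by
  induction w with
  | nil => intro i hi; exact hi
  | cons s w ih => intro i hi; exact hG s _ (ih i hi)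

/-- The consequences of the check of the orbits. -/
theorem chkO_snd (h : C.chkO D = true) :
    (∀ i < D.N, ∀ j < D.N, C.orb i j < C.K ∧
      ((C.rep (C.orb i j)).1 = i ∧ (C.rep (C.orb i j)).2 = j ∨
        ∃ c < C.ng, C.orb (C.gm c i) (C.gm c j) = C.orb i j ∧
          C.lev (C.gm c i) (C.gm c j) < C.lev i j)) ∧
    (∀ o < C.K, (C.rep o).1 < D.N ∧ (C.rep o).2 < D.N) ∧
    (∀ c < C.ng, ∀ i < D.N,
      C.gm c i = D.bk (C.wd (C.gs c).1) (D.G (C.gs c).2 (D.fw (C.wd (C.gs c).1) i)) ∧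
      D.bk (C.wd (C.gs c).1) (D.fw (C.wd (C.gs c).1) i) = i) := by
  unfold Ct.chkO Ct.chkP at h
  simp only [Bool.and_eq_true, List.all_eq_true, List.mem_range, Nat.blt_eq, Bool.or_eq_true,
    beq_iff_eq, List.any_eq_true] at h
  obtain ⟨⟨h1, h2⟩, h3⟩ := h
  refine ⟨fun i hi j hj => ?_, h2, h3⟩
  obtain ⟨h4, h5⟩ := h1 i hi j hj
  refine ⟨h4, ?_⟩
  rcases h5 with h5 | ⟨c, hc, h6, h7⟩
  · exact Or.inl ⟨h5.1.2, h5.2⟩
  · exact Or.inr ⟨c, hc, h6, h7⟩

theorem orb_snd (h : C.chkO D = true) (hG : ∀ s, ∀ i < D.N, D.G s i < D.N)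
    (x : ℕ → ℕ → ZMod 7)
    (hx : ∀ c < C.ng, ∀ i < D.N, ∀ j < D.N, x (C.gm c i) (C.gm c j) = x i j) :
    ∀ i < D.N, ∀ j < D.N, x i j = x (C.rep (C.orb i j)).1 (C.rep (C.orb i j)).2 := by
  obtain ⟨h1, h2, h3⟩ := chkO_snd h
  have key : ∀ l : ℕ, ∀ i < D.N, ∀ j < D.N, C.lev i j = l →
      x i j = x (C.rep (C.orb i j)).1 (C.rep (C.orb i j)).2 := by
    intro l
    induction l using Nat.strong_induction_on with
    | _ l ih =>
      intro i hi j hj hl
      obtain ⟨h4, h5⟩ := h1 i hi j hj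
      rcases h5 with ⟨h5, h6⟩ | ⟨c, hc, h6, h7⟩
      · rw [h5, h6]
      · have hN : ∀ a < D.N, C.gm c a < D.N := by
          intro a ha
          rw [(h3 c hc a ha).1]
          exact bk_N hG _ _ (hG _ _ (fw_N hG _ _ ha))
        have h8 := ih _ (by rw [← hl]; exact h7) _ (hN i hi) _ (hN j hj) rfl
        rw [h6, hx c hc i hi j hj] at h8
        exact h8
  intro i hi j hj
  exact key _ i hi j hj rfl

/-- All steps. -/
theorem chkS_snd (v : ℕ → ZMod 7)
    (hv : ∀ s t i j, i < D.N → j < D.N → ef v (C.trm D s t i j) = 0) :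
    ∀ (Ls : List (List (ℕ × ℕ × ℕ × ℕ × ℕ))) (o : ℕ), chkS C D o Ls = true →
      (∀ x < o, v x = 0) → ∀ x < C.K, v x = 0 := by
  intro Ls
  induction Ls with
  | nil =>
    intro o h ho x hx
    simp only [chkS, beq_iff_eq] at h
    exact ho x (by omega)
  | cons L Ls ih =>
    intro o h ho
    simp only [chkS, Bool.and_eq_true, List.all_eq_true, Nat.blt_eq] at h
    obtain ⟨⟨h1, h2⟩, h3⟩ := h
    refine ih (o + 1) h3 fun x hx => ?_
    rcases Nat.lt_succ_iff_lt_or_eq.1 hx with h4 | rfl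
    · exact ho x h4
    · refine chkL_snd v x ho _ ?_ h2
      unfold Ct.cmb
      have key : ∀ L' : List (ℕ × ℕ × ℕ × ℕ × ℕ), (∀ y ∈ L', y ∈ L) →
          ef v (L'.flatMap fun x => (C.trm D x.2.1 x.2.2.1 x.2.2.2.1 x.2.2.2.2).map
            fun c => (x.1 * c.1, c.2)) = 0 := by
        intro L'
        induction L' with
        | nil => intro _; rfl
        | cons y L' ih' =>
          intro hy
          rw [List.flatMap_cons, ef_append, ih' fun z hz => hy z (by simp [hz]), ef_smul]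
          have h5 := h1 y (hy y (by simp))
          rw [hv y.2.1 y.2.2.1 y.2.2.2.1 y.2.2.2.2 h5.1 h5.2, mul_zero, add_zero]
      exact key L fun y hy => hy

end orb

section uniq

variable {C : Ct} {D : Dt} {Ω : Type} [Fintype Ω] [DecidableEq Ω] {n k : ℕ}
  {pf : Fin n → Fin 2 → Fin k} {E : Fin k → Ω} {G : Fin k → Equiv.Perm Ω} {ψ : ℕ → Ω}
  {fn : ℕ → Fin n} [Fact (Nat.Prime 7)] {B : Type} [Group B] {π : B →* Equiv.Perm Ω}
  {g : Fin n → B}

/-- The element of a word. -/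
def el (g : Fin n → B) (fn : ℕ → Fin n) (w : List ℕ) : B := (w.map fun s => g (fn s)).prod

theorem el_symm (h : Sem D pf E G ψ fn) (hπ : ∀ s, π (g s) = G (pf s 0) * G (pf s 1))
    (hsq : ∀ s, π (g s * g s) = 1) (w : List ℕ) : ∀ i < D.N,
    (π (el g fn w)).symm (ψ i) = ψ (D.bk w i) := by
  induction w with
  | nil =>
    intro i _
    have h1 : el g fn [] = 1 := rfl
    rw [h1, map_one]
    rfl
  | cons s w ih =>
    intro i hi
    have h1 : el g fn (s :: w) = g (fn s) * el g fn w := by simp [el]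
    have h2 : D.bk (s :: w) i = D.bk w (D.G s i) := rfl
    rw [h1, map_mul, h2, ← ih _ (h.GN s i hi), ← (G_symm π g h hπ hsq s i hi).1]
    rfl

theorem xw_N (hG : ∀ s, ∀ i < D.N, D.G s i < D.N) (w : List ℕ) : ∀ i < D.N, ∀ j < D.N,
    ∀ x ∈ D.xw w i j, x.2.1 < D.N ∧ x.2.2 < D.N := by
  induction w with
  | nil => intro i _ j _ x hx; simp [Dt.xw] at hx
  | cons s w ih =>
    intro i hi j hj x hx
    rw [Dt.xw, List.mem_cons] at hx
    rcases hx with rfl | hx
    · exact ⟨hi, hj⟩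
    · exact ih _ (hG s i hi) _ (hG s j hj) x hx

theorem terms_N (h : Sem D pf E G ψ fn) (w : List ℕ) (s i j : ℕ) (hi : i < D.N) (hj : j < D.N) :
    ∀ x ∈ D.terms w s i j, x.2.2.1 < D.N ∧ x.2.2.2 < D.N := by
  intro x hx
  unfold Dt.terms at hx
  simp only [List.mem_append, List.mem_map, List.mem_flatMap] at hx
  rcases hx with ⟨c, hc, rfl⟩ | ⟨c, hc, rfl⟩ | ⟨c, hc, y, hy, rfl⟩ | ⟨c, hc, y, hy, rfl⟩
  · exact ⟨rowW_N h w i hi c hc, hj⟩
  · exact ⟨hi, colW_N h w j hj c hc⟩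
  · exact xw_N h.GN w i hi c.2 (colT_N h s j hj c hc) y hy
  · exact xw_N h.GN w c.2 (rowT_N h s i hi c hc) j hj y hy

/-- The solutions are determined by the values at the free orbits. -/
theorem uniq_main (h : Sem D pf E G ψ fn) (hπ : ∀ s, π (g s) = G (pf s 0) * G (pf s 1))
    (hsq : ∀ s, π (g s * g s) = 1) (hO : C.chkO D = true)
    (Ls : List (List (ℕ × ℕ × ℕ × ℕ × ℕ))) (hS : chkS C D C.F Ls = true)
    (hw : ∀ l, el g fn (C.wd l) * g (fn 0) = g (fn l) * el g fn (C.wd l))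
    (hc : ∀ c < C.ng, g (fn (C.gs c).2) * g (fn (C.gs c).1) =
      g (fn (C.gs c).1) * g (fn (C.gs c).2))
    (hh : ∀ s t, zw g ((C.al s t).map fn) * g (fn s) = g (fn s) * zw g ((C.al s t).map fn))
    (hfn : ∀ s, ∃ l, fn l = s) (X : Fin n → Matrix Ω Ω (ZMod 7))
    (hT : Tng π g (tau pf E G) X)
    (h0 : ∀ o < C.F, X (fn 0) (ψ (C.rep o).1) (ψ (C.rep o).2) = 0) : ∀ s, X s = 0 := by
  obtain ⟨hO1, hO2, hO3⟩ := chkO_snd hO
  have hG := h.GN
  have hA : ∀ l, ∀ a < D.N, ∀ b < D.N, X (fn l) (ψ a) (ψ b) =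
      X (fn 0) (ψ (D.bk (C.wd l) a)) (ψ (D.bk (C.wd l) b)) := by
    intro l a ha b hb
    rw [hT.conj (fn 0) (fn l) _ (hw l), Adp, Matrix.submatrix_apply, el_symm h hπ hsq _ a ha,
      el_symm h hπ hsq _ b hb]
  have hB : ∀ c < C.ng, ∀ i < D.N, ∀ j < D.N,
      X (fn 0) (ψ (C.gm c i)) (ψ (C.gm c j)) = X (fn 0) (ψ i) (ψ j) := by
    intro c hcc i hi j hj
    obtain ⟨h1, h2⟩ := hO3 c hcc i hi
    obtain ⟨h3, h4⟩ := hO3 c hcc j hj
    have h5 := fw_N hG (C.wd (C.gs c).1) i hi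
    have h6 := fw_N hG (C.wd (C.gs c).1) j hj
    rw [h1, h3, ← hA _ _ (hG _ _ h5) _ (hG _ _ h6)]
    have h7 := hT.conj _ _ _ (hc c hcc)
    have h8 : X (fn (C.gs c).1) (ψ (D.fw (C.wd (C.gs c).1) i)) (ψ (D.fw (C.wd (C.gs c).1) j)) =
        X (fn (C.gs c).1) (ψ (D.G (C.gs c).2 (D.fw (C.wd (C.gs c).1) i)))
          (ψ (D.G (C.gs c).2 (D.fw (C.wd (C.gs c).1) j))) := by
      conv_lhs => rw [h7]
      rw [Adp, Matrix.submatrix_apply, (G_symm π g h hπ hsq _ _ h5).1,
        (G_symm π g h hπ hsq _ _ h6).1]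
    rw [← h8, hA _ _ h5 _ h6, h2, h4]
  have hC := orb_snd hO hG (fun i j => X (fn 0) (ψ i) (ψ j)) hB
  have hD : ∀ o < C.K, X (fn 0) (ψ (C.rep o).1) (ψ (C.rep o).2) = 0 := by
    refine chkS_snd (C := C) (D := D)
      (fun o => X (fn 0) (ψ (C.rep o).1) (ψ (C.rep o).2)) ?_ Ls C.F hS h0
    intro s t i j hi hj
    have h1 := terms_ev π g h hπ hsq X (C.al s t) s i hi j hj
    rw [hT.hol _ _ (hh s t), Matrix.zero_apply] at h1
    rw [h1, Ct.trm]
    have hb := bk_N hG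
    unfold ef evX
    rw [List.map_map]
    refine congrArg List.sum (List.map_congr_left fun x hx => ?_)
    obtain ⟨h2, h3⟩ := terms_N h (C.al s t) s i j hi hj x hx
    simp only [Function.comp_apply]
    rw [hA _ _ h2 _ h3, hC _ (hb _ _ h2) _ (hb _ _ h3)]
  have hE : X (fn 0) = 0 := by
    ext x y
    obtain ⟨i, hi, rfl⟩ := h.sur x
    obtain ⟨j, hj, rfl⟩ := h.sur y
    rw [hC i hi j hj, hD _ (hO1 i hi j hj).1, Matrix.zero_apply]
  intro s
  obtain ⟨l, rfl⟩ := hfn s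
  rw [hT.conj (fn 0) (fn l) _ (hw l), hE, Adp_zero]

end uniq

end Pool.Agent.Lib.MP_97567f_al.Pad
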