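import Pool.Agent.Lib.MP_97567f_al.Pad.DatE8

/-!
# MP_97567f_al: the certificate for H4: kernel checks
-/

set_option autoImplicit false

namespace Pool.Agent.Lib.MP_97567f_al.Pad.E8

theorem chkO : C.chkO D = true := by decide +kernel

theorem chkS : Pad.chkS C D C.F st = true := by decide +kernel

theorem chkM : A.chk C D 4 = true := by decide +kernel

end Pool.Agent.Lib.MP_97567f_al.Pad.E8
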