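import Pool.Agent.Lib.MP_97567f_al.Pad.OrdA

/-!
# MP_97567f_al: a verified checker for the linear conditions, part 1 (arithmetic)

Coordinates: `x s i j` are the entries of the matrices `X s`; `pt s i` is the image of `i` under the generator `s`; `tt s i j`
the entries of the given matrices; `oo s i j` the orbit of the entry. `eqn` is one entry of the linear conditions as a
combination of orbits.
-/

set_option autoImplicit false

namespace Pool.Agent.Lib.MP_97567f_al.Ck

open Pool.Agent.Lib.MP_97567f_al.Pad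

/-- The image of `i` under the word (the first letter is applied first). -/
def wlk (pt : ℕ → ℕ → ℕ) : List ℕ → ℕ → ℕ
  | [], i => i
  | a :: w, i => wlk pt w (pt a i)

/-- The values of a cocycle in coordinates. -/
def xw {R : Type} [Zero R] [Add R] (pt : ℕ → ℕ → ℕ) (f : ℕ → ℕ → ℕ → R) :
    List ℕ → ℕ → ℕ → R
  | [], _, _ => 0
  | a :: u, i, k => f a i k + xw pt f u (pt a i) (pt a k)

/-- Add `c` to the coefficient of `o`. -/
def ins (o c : ℕ) : List (ℕ × ℕ) → List (ℕ × ℕ)
  | [] => [(o, c)]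
  | (o', c') :: l => if o' = o then (o', c' + c) :: l else (o', c') :: ins o c l

/-- Add `c` times the value of the cocycle. -/
def inw (pt : ℕ → ℕ → ℕ) (oo : ℕ → ℕ → ℕ → ℕ) (c : ℕ) :
    List ℕ → ℕ → ℕ → List (ℕ × ℕ) → List (ℕ × ℕ)
  | [], _, _, acc => acc
  | a :: u, i, k, acc => inw pt oo c u (pt a i) (pt a k) (ins (oo a i k) c acc)

/-- One summand of an entry of the linear conditions. -/
def eqs (P : ℕ) (pt : ℕ → ℕ → ℕ) (tt oo : ℕ → ℕ → ℕ → ℕ) (u : List ℕ) (s i j k : ℕ)
    (acc : List (ℕ × ℕ)) : List (ℕ × ℕ) :=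
  let acc := if xw pt tt u i k % P = 0 then acc else ins (oo s k j) (xw pt tt u i k % P) acc
  let acc := if xw pt tt u k j % P = 0 then acc else ins (oo s i k) (P - xw pt tt u k j % P) acc
  let acc := if tt s k j % P = 0 then acc else inw pt oo (tt s k j % P) u i k acc
  if tt s i k % P = 0 then acc else inw pt oo (P - tt s i k % P) u k j acc

/-- One entry of the linear conditions. -/
def eqn (P : ℕ) (pt : ℕ → ℕ → ℕ) (tt oo : ℕ → ℕ → ℕ → ℕ) (u : List ℕ) (s i j : ℕ) :
    ℕ → List (ℕ × ℕ)
  | 0 => []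
  | k + 1 => eqs P pt tt oo u s i j k (eqn P pt tt oo u s i j k)

/-- The value of a combination of orbits. -/
def ev {R : Type} [CommRing R] (v : ℕ → R) (l : List (ℕ × ℕ)) : R :=
  (l.map fun p => (p.2 : R) * v p.1).sum

/-- The coefficient of `o`. -/
def csum (o : ℕ) : List (ℕ × ℕ) → ℕ
  | [] => 0
  | (o', c') :: l => if o' = o then c' + csum o l else csum o l

section sound

variable {R : Type} [CommRing R] (v : ℕ → R)

theorem ev_ins (o c : ℕ) (l : List (ℕ × ℕ)) : ev v (ins o c l) = (c : R) * v o + ev v l := by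
  induction l with
  | nil => simp [ins, ev]
  | cons p l ih =>
    obtain ⟨o', c'⟩ := p
    rw [ins]
    by_cases h : o' = o
    · rw [if_pos h]
      subst h
      simp only [ev, List.map_cons, List.sum_cons, Nat.cast_add]
      ring
    · rw [if_neg h]
      simp only [ev, List.map_cons, List.sum_cons] at ih ⊢
      rw [ih]
      ring

theorem ev_inw (pt : ℕ → ℕ → ℕ) (oo : ℕ → ℕ → ℕ → ℕ) (c : ℕ) (u : List ℕ) :
    ∀ (i k : ℕ) (acc : List (ℕ × ℕ)), ev v (inw pt oo c u i k acc) =
      (c : R) * xw pt (fun s i j => v (oo s i j)) u i k + ev v acc := by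
  induction u with
  | nil => intro i k acc; simp [inw, xw]
  | cons a u ih =>
    intro i k acc
    rw [inw, ih, xw, ev_ins]
    ring

theorem xw_cast (pt : ℕ → ℕ → ℕ) (tt : ℕ → ℕ → ℕ → ℕ) (u : List ℕ) :
    ∀ i k : ℕ, ((xw pt tt u i k : ℕ) : R) = xw pt (fun s i j => (tt s i j : R)) u i k := by
  induction u with
  | nil => intro i k; simp [xw]
  | cons a u ih =>
    intro i k
    rw [xw, xw, Nat.cast_add, ih]

end sound

section modp

variable {P : ℕ} [Fact P.Prime] (v : ℕ → ZMod P)

private theorem modc (a : ℕ) : ((a % P : ℕ) : ZMod P) = a := ZMod.natCast_mod a P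

private theorem subc (a : ℕ) : ((P - a % P : ℕ) : ZMod P) = -(a : ZMod P) := by
  have h : a % P ≤ P := (Nat.mod_lt a (Nat.Prime.pos Fact.out)).le
  rw [Nat.cast_sub h, ZMod.natCast_self, zero_sub, modc]

theorem ev_eqs (pt : ℕ → ℕ → ℕ) (tt oo : ℕ → ℕ → ℕ → ℕ) (u : List ℕ) (s i j k : ℕ)
    (acc : List (ℕ × ℕ)) :
    ev v (eqs P pt tt oo u s i j k acc) =
      (xw pt (fun s i j => (tt s i j : ZMod P)) u i k * v (oo s k j) -
        v (oo s i k) * xw pt (fun s i j => (tt s i j : ZMod P)) u k j +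
        (xw pt (fun s i j => v (oo s i j)) u i k * (tt s k j : ZMod P) -
          (tt s i k : ZMod P) * xw pt (fun s i j => v (oo s i j)) u k j)) + ev v acc := by
  rw [← xw_cast (R := ZMod P) pt tt u i k, ← xw_cast (R := ZMod P) pt tt u k j]
  have key : ∀ a : ℕ, a % P = 0 → ((a : ℕ) : ZMod P) = 0 := by
    intro a ha
    rw [← modc, ha, Nat.cast_zero]
  unfold eqs
  simp only
  have h1 : ∀ acc : List (ℕ × ℕ), ev v (if xw pt tt u i k % P = 0 then acc else
      ins (oo s k j) (xw pt tt u i k % P) acc) =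
      ((xw pt tt u i k : ℕ) : ZMod P) * v (oo s k j) + ev v acc := by
    intro acc
    split_ifs with h
    · rw [key _ h]; ring
    · rw [ev_ins, modc]
  have h2 : ∀ acc : List (ℕ × ℕ), ev v (if xw pt tt u k j % P = 0 then acc else
      ins (oo s i k) (P - xw pt tt u k j % P) acc) =
      -(((xw pt tt u k j : ℕ) : ZMod P) * v (oo s i k)) + ev v acc := by
    intro acc
    split_ifs with h
    · rw [key _ h]; ring
    · rw [ev_ins, subc]; ring
  have h3 : ∀ acc : List (ℕ × ℕ), ev v (if tt s k j % P = 0 then acc else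
      inw pt oo (tt s k j % P) u i k acc) =
      (tt s k j : ZMod P) * xw pt (fun s i j => v (oo s i j)) u i k + ev v acc := by
    intro acc
    split_ifs with h
    · rw [key _ h]; ring
    · rw [ev_inw, modc]
  have h4 : ∀ acc : List (ℕ × ℕ), ev v (if tt s i k % P = 0 then acc else
      inw pt oo (P - tt s i k % P) u k j acc) =
      -((tt s i k : ZMod P) * xw pt (fun s i j => v (oo s i j)) u k j) + ev v acc := by
    intro acc
    split_ifs with h
    · rw [key _ h]; ring
    · rw [ev_inw, subc]; ring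
  rw [h4, h3, h2, h1]
  ring

theorem ev_eqn (pt : ℕ → ℕ → ℕ) (tt oo : ℕ → ℕ → ℕ → ℕ) (u : List ℕ) (s i j N : ℕ) :
    ev v (eqn P pt tt oo u s i j N) = ∑ k ∈ Finset.range N,
      (xw pt (fun s i j => (tt s i j : ZMod P)) u i k * v (oo s k j) -
        v (oo s i k) * xw pt (fun s i j => (tt s i j : ZMod P)) u k j +
        (xw pt (fun s i j => v (oo s i j)) u i k * (tt s k j : ZMod P) -
          (tt s i k : ZMod P) * xw pt (fun s i j => v (oo s i j)) u k j)) := by
  induction N with
  | zero => simp [eqn, ev]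
  | succ N ih => rw [eqn, ev_eqs, ih, Finset.sum_range_succ, add_comm]

/-- The check of one equation. -/
def okO (P : ℕ) (rk : ℕ → ℕ) (o : ℕ) (l : List (ℕ × ℕ)) : Bool :=
  l.all (fun p => p.2 % P == 0 || decide (rk p.1 < rk o) || p.1 == o) && (csum o l % P != 0)

private theorem ev_csum (o : ℕ) (l : List (ℕ × ℕ))
    (h : ∀ p ∈ l, p.2 % P = 0 ∨ v p.1 = 0 ∨ p.1 = o) : ev v l = (csum o l : ZMod P) * v o := by
  induction l with
  | nil => simp [ev, csum]
  | cons p l ih =>
    obtain ⟨o', c'⟩ := p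
    have ih' := ih fun p hp => h p (List.mem_cons_of_mem _ hp)
    rw [ev] at ih' ⊢
    rw [List.map_cons, List.sum_cons, ih', csum]
    have h0 := h (o', c') List.mem_cons_self
    dsimp only at h0 ⊢
    rcases h0 with h1 | h1 | h1
    · have h2 : (c' : ZMod P) = 0 := by rw [← modc, h1, Nat.cast_zero]
      split_ifs with h3
      · rw [Nat.cast_add, h2]; ring
      · rw [h2]; ring
    · split_ifs with h3
      · rw [← h3, h1]; ring
      · rw [h1]; ring
    · rw [if_pos h1, h1, Nat.cast_add]; ring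

theorem okO_sound (rk : ℕ → ℕ) (o : ℕ) (l : List (ℕ × ℕ)) (h : okO P rk o l = true)
    (hz : ∀ p ∈ l, rk p.1 < rk o → v p.1 = 0) (he : ev v l = 0) : v o = 0 := by
  rw [okO, Bool.and_eq_true, List.all_eq_true] at h
  obtain ⟨h1, h2⟩ := h
  have h3 := ev_csum v o l (fun p hp => by
    have := h1 p hp
    simp only [Bool.or_eq_true, beq_iff_eq, decide_eq_true_eq] at this
    rcases this with (h4 | h4) | h4
    · exact Or.inl h4
    · exact Or.inr (Or.inl (hz p hp h4))
    · exact Or.inr (Or.inr h4))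
  rw [he] at h3
  rcases mul_eq_zero.1 h3.symm with h4 | h4
  · exfalso
    have h5 : csum o l % P = 0 := by
      rw [ZMod.natCast_eq_zero_iff] at h4
      exact Nat.mod_eq_zero_of_dvd h4
    rw [h5] at h2
    exact absurd h2 (by simp)
  · exact h4

end modp

end Pool.Agent.Lib.MP_97567f_al.Ck
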