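import Pool.Agent.Lib.MP_97567f_al.Pad.CkA

/-!
# MP_97567f_al: a verified checker for the linear conditions, part 2 (the tables)

`MV`: the list of the moves `(t, s, w)`: `X t` is `X s` conjugated with the word `w`. `HW`: the list of the linear conditions
`(u, s)`. `oo`, `dd`, `mi`: orbit, depth and move of an entry. `rs`, `ri`, `rj`: the representative of an orbit. `rk`: the rank
of an orbit (`0`: free), `hi`, `ei`, `ej`: the equation for an orbit.
-/

set_option autoImplicit false

namespace Pool.Agent.Lib.MP_97567f_al.Ck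

open Pool.Agent.Lib.MP_97567f_al.Pad

/-- The data of a certificate. -/
structure CTab where
  /-- number of generators -/
  n : ℕ
  /-- size -/
  N : ℕ
  /-- number of orbits -/
  c : ℕ
  /-- permutations -/
  pt : ℕ → ℕ → ℕ
  /-- matrices -/
  tt : ℕ → ℕ → ℕ → ℕ
  /-- moves -/
  MV : List (ℕ × ℕ × List ℕ)
  /-- conditions -/
  HW : List (List ℕ × ℕ)
  /-- orbit -/
  oo : ℕ → ℕ → ℕ → ℕ
  /-- depth -/
  dd : ℕ → ℕ → ℕ → ℕ
  /-- move -/
  mi : ℕ → ℕ → ℕ → ℕ
  /-- representative -/
  rs : ℕ → ℕ
  /-- representative -/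
  ri : ℕ → ℕ
  /-- representative -/
  rj : ℕ → ℕ
  /-- rank -/
  rk : ℕ → ℕ
  /-- equation -/
  hi : ℕ → ℕ
  /-- equation -/
  ei : ℕ → ℕ
  /-- equation -/
  ej : ℕ → ℕ

/-- The check of the orbit of an entry. -/
def CTab.ckE (D : CTab) (s i j : ℕ) : Bool :=
  decide (D.oo s i j < D.c) &&
  (if D.dd s i j = 0 then
    D.rs (D.oo s i j) == s && D.ri (D.oo s i j) == i && D.rj (D.oo s i j) == j
  else
    match D.MV[D.mi s i j]? with
    | none => false
    | some m => m.1 == s && decide (m.2.1 < D.n) &&
        decide (D.dd m.2.1 (wlk D.pt m.2.2 i) (wlk D.pt m.2.2 j) < D.dd s i j) &&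
        D.oo m.2.1 (wlk D.pt m.2.2 i) (wlk D.pt m.2.2 j) == D.oo s i j)

/-- The check of an orbit. -/
def CTab.ckO (D : CTab) (P o : ℕ) : Bool :=
  decide (D.rs o < D.n) && decide (D.ri o < D.N) && decide (D.rj o < D.N) &&
  (D.rk o == 0 ||
    match D.HW[D.hi o]? with
    | none => false
    | some h => decide (D.ei o < D.N) && decide (D.ej o < D.N) &&
        okO P D.rk o (eqn P D.pt D.tt D.oo h.1 h.2 (D.ei o) (D.ej o) D.N))

/-- The check of the permutations and the words. -/
def CTab.ckW (D : CTab) : Bool :=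
  allN D.n (fun s => allN D.N fun i => decide (D.pt s i < D.N)) &&
  D.MV.all (fun m => m.2.2.all fun a => decide (a < D.n)) &&
  D.HW.all (fun h => decide (h.2 < D.n) && h.1.all fun a => decide (a < D.n))

/-- The check of all entries. -/
def CTab.ckA (D : CTab) : Bool := allN D.n fun s => allN D.N fun i => allN D.N fun j => D.ckE s i j

/-- The check of all orbits. -/
def CTab.ckB (D : CTab) (P : ℕ) : Bool := allN D.c fun o => D.ckO P o

/-- The coordinates `x` satisfy the conditions. -/
structure CTab.Sol (D : CTab) {P : ℕ} (x : ℕ → ℕ → ℕ → ZMod P) : Prop where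
  mv : ∀ m ∈ D.MV, ∀ i < D.N, ∀ j < D.N, x m.1 i j = x m.2.1 (wlk D.pt m.2.2 i) (wlk D.pt m.2.2 j)
  hw : ∀ h ∈ D.HW, ∀ i < D.N, ∀ j < D.N, ∑ k ∈ Finset.range D.N,
      (xw D.pt (fun s i j => (D.tt s i j : ZMod P)) h.1 i k * x h.2 k j -
        x h.2 i k * xw D.pt (fun s i j => (D.tt s i j : ZMod P)) h.1 k j +
        (xw D.pt x h.1 i k * (D.tt h.2 k j : ZMod P) -
          (D.tt h.2 i k : ZMod P) * xw D.pt x h.1 k j)) = 0

theorem wlk_lt {n N : ℕ} {pt : ℕ → ℕ → ℕ} (h : ∀ s < n, ∀ i < N, pt s i < N) (w : List ℕ) :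
    ∀ i < N, (∀ a ∈ w, a < n) → wlk pt w i < N := by
  induction w with
  | nil => intro i hi _; exact hi
  | cons a w ih =>
    intro i hi ha
    rw [wlk]
    exact ih _ (h a (ha a List.mem_cons_self) i hi) fun b hb => ha b (List.mem_cons_of_mem _ hb)

theorem xw_congr {R : Type} [Zero R] [Add R] {n N : ℕ} {pt : ℕ → ℕ → ℕ}
    (h : ∀ s < n, ∀ i < N, pt s i < N) (f f' : ℕ → ℕ → ℕ → R)
    (hf : ∀ s < n, ∀ i < N, ∀ j < N, f s i j = f' s i j) (u : List ℕ) :
    ∀ i < N, ∀ k < N, (∀ a ∈ u, a < n) → xw pt f u i k = xw pt f' u i k := by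
  induction u with
  | nil => intro i _ k _ _; rfl
  | cons a u ih =>
    intro i hi k hk ha
    have h1 := ha a List.mem_cons_self
    rw [xw, xw, hf a h1 i hi k hk,
      ih _ (h a h1 i hi) _ (h a h1 k hk) fun b hb => ha b (List.mem_cons_of_mem _ hb)]

/-- **Soundness.** A solution which vanishes at the free orbits is zero. -/
theorem CTab.sound (D : CTab) {P : ℕ} [Fact P.Prime] (hW : D.ckW = true) (hA : D.ckA = true)
    (hB : D.ckB P = true) (x : ℕ → ℕ → ℕ → ZMod P) (hx : D.Sol x)
    (hz : ∀ o < D.c, D.rk o = 0 → x (D.rs o) (D.ri o) (D.rj o) = 0) :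
    ∀ s < D.n, ∀ i < D.N, ∀ j < D.N, x s i j = 0 := by
  simp only [CTab.ckW, Bool.and_eq_true, allN_iff, decide_eq_true_eq, List.all_eq_true] at hW
  obtain ⟨⟨hpt, hMV⟩, hHW⟩ := hW
  simp only [CTab.ckA, allN_iff] at hA
  simp only [CTab.ckB, allN_iff] at hB
  set v : ℕ → ZMod P := fun o => x (D.rs o) (D.ri o) (D.rj o) with hv
  have hE : ∀ d, ∀ s < D.n, ∀ i < D.N, ∀ j < D.N, D.dd s i j < d →
      D.oo s i j < D.c ∧ x s i j = v (D.oo s i j) := by
    intro d
    induction d with
    | zero => intro s _ i _ j _ h; exact absurd h (by omega)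
    | succ d ih =>
      intro s hs i hi j hj hd
      have h1 := hA s hs i hi j hj
      rw [CTab.ckE, Bool.and_eq_true, decide_eq_true_eq] at h1
      obtain ⟨h2, h3⟩ := h1
      refine ⟨h2, ?_⟩
      by_cases h0 : D.dd s i j = 0
      · rw [if_pos h0] at h3
        simp only [Bool.and_eq_true, beq_iff_eq] at h3
        obtain ⟨⟨h4, h5⟩, h6⟩ := h3
        rw [hv]
        simp only
        rw [h4, h5, h6]
      · rw [if_neg h0] at h3
        rcases hm : D.MV[D.mi s i j]? with _ | m
        · rw [hm] at h3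
          exact absurd h3 (by simp)
        · rw [hm] at h3
          simp only [Bool.and_eq_true, beq_iff_eq, decide_eq_true_eq] at h3
          obtain ⟨⟨⟨h4, h5⟩, h6⟩, h7⟩ := h3
          have hmem : m ∈ D.MV := List.mem_of_getElem? hm
          have h8 := hx.mv m hmem i hi j hj
          have h9 := ih m.2.1 h5 _ (wlk_lt hpt m.2.2 i hi (hMV m hmem)) _
            (wlk_lt hpt m.2.2 j hj (hMV m hmem)) (by omega)
          rw [h4] at h8
          rw [h8, h9.2, h7]
  have hE' : ∀ s < D.n, ∀ i < D.N, ∀ j < D.N, D.oo s i j < D.c ∧ x s i j = v (D.oo s i j) :=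
    fun s hs i hi j hj => hE (D.dd s i j + 1) s hs i hi j hj (Nat.lt_succ_self _)
  have hO : ∀ d, ∀ o < D.c, D.rk o < d → v o = 0 := by
    intro d
    induction d with
    | zero => intro o _ h; exact absurd h (by omega)
    | succ d ih =>
      intro o ho hd
      by_cases h0 : D.rk o = 0
      · exact hz o ho h0
      · have h1 := hB o ho
        rw [CTab.ckO, Bool.and_eq_true, Bool.or_eq_true] at h1
        rcases h1.2 with h2 | h2
        · exact absurd (beq_iff_eq.1 h2) h0
        · rcases hh : D.HW[D.hi o]? with _ | h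
          · rw [hh] at h2
            exact absurd h2 (by simp)
          · rw [hh] at h2
            simp only [Bool.and_eq_true, decide_eq_true_eq] at h2
            obtain ⟨⟨h3, h4⟩, h5⟩ := h2
            have hmem : h ∈ D.HW := List.mem_of_getElem? hh
            obtain ⟨h6, h7⟩ := hHW h hmem
            -- all values outside of the range are replaced by zero
            set v' : ℕ → ZMod P := fun o' => if o' < D.c then v o' else 0 with hv'
            have h8 : ∀ s < D.n, ∀ i < D.N, ∀ j < D.N, x s i j = v' (D.oo s i j) := by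
              intro s hs i hi j hj
              obtain ⟨a1, a2⟩ := hE' s hs i hi j hj
              rw [hv']
              simp only
              rw [if_pos a1, a2]
            have h9 : v' o = 0 := by
              refine okO_sound v' D.rk o _ h5 ?_ ?_
              · intro p _ hp
                rw [hv']
                simp only
                split_ifs with hc
                · exact ih p.1 hc (by omega)
                · rfl
              · rw [ev_eqn, ← hx.hw h hmem _ h3 _ h4]
                refine Finset.sum_congr rfl fun k hk => ?_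
                have hk' := Finset.mem_range.1 hk
                rw [h8 _ h6 _ hk' _ h4, h8 _ h6 _ h3 _ hk',
                  xw_congr hpt x (fun s i j => v' (D.oo s i j)) h8 h.1 _ h3 _ hk' h7,
                  xw_congr hpt x (fun s i j => v' (D.oo s i j)) h8 h.1 _ hk' _ h4 h7]
            rw [hv'] at h9
            simp only at h9
            rw [if_pos ho] at h9
            exact h9
  intro s hs i hi j hj
  obtain ⟨a1, a2⟩ := hE' s hs i hi j hj
  rw [a2]
  exact hO (D.rk (D.oo s i j) + 1) _ a1 (Nat.lt_succ_self _)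

end Pool.Agent.Lib.MP_97567f_al.Ck
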