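import Pool.Agent.Lib.MP_97567f_al.Pad.CkB
import Pool.Agent.Lib.MP_97567f_al.Pad.SpecH

/-!
# MP_97567f_al: a verified checker for the linear conditions, part 3 (the certificate)
-/

set_option autoImplicit false

namespace Pool.Agent.Lib.MP_97567f_al.Ck

open Pool.Agent.Lib.MP_97567f_al.Pad

section coord

variable {B : Type} [Group B] {P n N : ℕ}

/-- The coordinates of a family of matrices. -/
def xc (X : Fin n → Matrix (Fin N) (Fin N) (ZMod P)) (s i j : ℕ) : ZMod P :=
  if h : s < n ∧ i < N ∧ j < N then X ⟨s, h.1⟩ ⟨i, h.2.1⟩ ⟨j, h.2.2⟩ else 0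

theorem xc_eq (X : Fin n → Matrix (Fin N) (Fin N) (ZMod P)) (s : Fin n) (i j : Fin N) :
    xc X s i j = X s i j := dif_pos ⟨s.2, i.2, j.2⟩

theorem xc_mk (X : Fin n → Matrix (Fin N) (Fin N) (ZMod P)) {s i j : ℕ} (hs : s < n) (hi : i < N)
    (hj : j < N) : xc X s i j = X ⟨s, hs⟩ ⟨i, hi⟩ ⟨j, hj⟩ := dif_pos ⟨hs, hi, hj⟩

/-- The element of a word. -/
def wd (g : Fin n → B) : List ℕ → B
  | [] => 1
  | a :: w => (if h : a < n then g ⟨a, h⟩ else 1) * wd g w

/-- The word as a list of generators. -/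
def tF (n : ℕ) : List ℕ → List (Fin n)
  | [] => []
  | a :: u => if h : a < n then ⟨a, h⟩ :: tF n u else tF n u

variable (g : Fin n → B) (π : B →* Equiv.Perm (Fin N)) (pt : ℕ → ℕ → ℕ)
  (hp : ∀ (s : Fin n) (i : Fin N), (π (g s) i).1 = pt s i) (hsq : ∀ s, π (g s * g s) = 1)

include hp hsq

theorem symm_gen (s : Fin n) (i : Fin N) : ((π (g s)).symm i).1 = pt s i := by
  have h : (π (g s)).symm = π (g s) := by
    have h1 := hsq s
    rw [map_mul] at h1
    exact inv_eq_of_mul_eq_one_left h1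
  rw [h, hp]

theorem symm_wd (w : List ℕ) : ∀ i : Fin N, (∀ a ∈ w, a < n) →
    ((π (wd g w)).symm i).1 = wlk pt w i := by
  induction w with
  | nil =>
    intro i _
    rw [wd, map_one, wlk]
    rfl
  | cons a w ih =>
    intro i ha
    have h1 := ha a List.mem_cons_self
    rw [wd, dif_pos h1, map_mul, wlk]
    change ((π (wd g w)).symm ((π (g ⟨a, h1⟩)).symm i)).1 = _
    rw [ih _ fun b hb => ha b (List.mem_cons_of_mem _ hb), symm_gen g π pt hp hsq ⟨a, h1⟩ i]

theorem XW_xw [Fact P.Prime] (X : Fin n → Matrix (Fin N) (Fin N) (ZMod P)) (u : List ℕ) :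
    ∀ i k : Fin N, (∀ a ∈ u, a < n) → XW π g X (tF n u) i k = xw pt (xc X) u i k := by
  induction u with
  | nil =>
    intro i k _
    rfl
  | cons a u ih =>
    intro i k ha
    have h1 := ha a List.mem_cons_self
    rw [tF, dif_pos h1, XW, xw, Matrix.add_apply, xc_mk X h1 i.2 k.2]
    congr 1
    change XW π g X (tF n u) ((π (g ⟨a, h1⟩)).symm i) ((π (g ⟨a, h1⟩)).symm k) = _
    rw [ih _ _ fun b hb => ha b (List.mem_cons_of_mem _ hb), symm_gen g π pt hp hsq ⟨a, h1⟩ i,
      symm_gen g π pt hp hsq ⟨a, h1⟩ k]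

end coord

section sol

variable {B : Type} [Group B] {P n N : ℕ} [Fact P.Prime] (D : CTab) (g : Fin n → B)
  (π : B →* Equiv.Perm (Fin N))

/-- Solutions of the linear conditions in coordinates. -/
theorem sol_of (hn : D.n = n) (hN : D.N = N)
    (hp : ∀ (s : Fin n) (i : Fin N), (π (g s) i).1 = D.pt s i) (hsq : ∀ s, π (g s * g s) = 1)
    (hW : D.ckW = true)
    (hM : ∀ m ∈ D.MV, ∃ t s : Fin n, t.1 = m.1 ∧ s.1 = m.2.1 ∧ wd g m.2.2 * g s = g t * wd g m.2.2)
    (hH : ∀ h ∈ D.HW, ∃ s : Fin n, s.1 = h.2 ∧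
      zw g (tF n h.1) * g s = g s * zw g (tF n h.1))
    (τ X : Fin n → Matrix (Fin N) (Fin N) (ZMod P))
    (hτ : ∀ (s : Fin n) (i j : Fin N), τ s i j = (D.tt s i j : ZMod P)) (hX : Tng π g τ X) :
    D.Sol (xc X) := by
  subst hn
  subst hN
  simp only [CTab.ckW, Bool.and_eq_true, allN_iff, decide_eq_true_eq, List.all_eq_true] at hW
  obtain ⟨⟨hpt, hMV⟩, hHW⟩ := hW
  constructor
  · intro m hm i hi j hj
    obtain ⟨t, s, h1, h2, h3⟩ := hM m hm
    have h4 := hX.conj s t _ h3
    rw [← h1, ← h2]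
    have h5 := symm_wd g π D.pt hp hsq m.2.2 ⟨i, hi⟩ (hMV m hm)
    have h6 := symm_wd g π D.pt hp hsq m.2.2 ⟨j, hj⟩ (hMV m hm)
    simp only at h5 h6
    rw [← h5, ← h6, xc_eq X s]
    have h7 := xc_eq X t ⟨i, hi⟩ ⟨j, hj⟩
    simp only at h7
    rw [h7, h4]
    rfl
  · intro h hh i hi j hj
    obtain ⟨s, h1, h2⟩ := hH h hh
    obtain ⟨h3, h4⟩ := hHW h hh
    have h5 := congrFun (congrFun (hX.hol (tF D.n h.1) s h2) ⟨i, hi⟩) ⟨j, hj⟩
    rw [Matrix.zero_apply] at h5
    rw [← h5, ← Fin.sum_univ_eq_sum_range (fun k =>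
      (xw D.pt (fun s i j => (D.tt s i j : ZMod P)) h.1 i k * xc X h.2 k j -
        xc X h.2 i k * xw D.pt (fun s i j => (D.tt s i j : ZMod P)) h.1 k j +
        (xw D.pt (xc X) h.1 i k * (D.tt h.2 k j : ZMod P) -
          (D.tt h.2 i k : ZMod P) * xw D.pt (xc X) h.1 k j))) D.N]
    simp only [Matrix.add_apply, Matrix.sub_apply, Matrix.mul_apply]
    rw [← Finset.sum_sub_distrib, ← Finset.sum_sub_distrib, ← Finset.sum_add_distrib]
    refine Finset.sum_congr rfl fun k _ => ?_
    have hxt : ∀ s < D.n, ∀ i < D.N, ∀ j < D.N,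
        (fun s i j => (D.tt s i j : ZMod P)) s i j = xc τ s i j := by
      intro s hs i hi j hj
      rw [xc_mk τ hs hi hj, hτ]
    rw [XW_xw g π D.pt hp hsq τ h.1 ⟨i, hi⟩ k h4, XW_xw g π D.pt hp hsq τ h.1 k ⟨j, hj⟩ h4,
      XW_xw g π D.pt hp hsq X h.1 ⟨i, hi⟩ k h4, XW_xw g π D.pt hp hsq X h.1 k ⟨j, hj⟩ h4,
      xw_congr hpt _ _ hxt h.1 i hi k k.2 h4, xw_congr hpt _ _ hxt h.1 k k.2 j hj h4,
      hτ, hτ, ← h1]
    have e1 := xc_eq X s k ⟨j, hj⟩
    have e2 := xc_eq X s ⟨i, hi⟩ k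
    simp only at e1 e2
    rw [e1, e2]

end sol

/-- Sums as a computation. -/
def sumN : ℕ → (ℕ → ℕ) → ℕ
  | 0, _ => 0
  | n + 1, f => f n + sumN n f

theorem sumN_eq (n : ℕ) (f : ℕ → ℕ) : sumN n f = ∑ k ∈ Finset.range n, f k := by
  induction n with
  | zero => rfl
  | succ n ih => rw [sumN, ih, Finset.sum_range_succ, add_comm]

/-- The tables for the known solutions. -/
structure KTab where
  /-- number of parameters -/
  k : ℕ
  /-- number of classes -/
  ncl : ℕ
  /-- number of free orbits -/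
  nf : ℕ
  /-- the matrices of the parameters -/
  Tt : ℕ → ℕ → ℕ → ℕ → ℕ
  /-- the direction -/
  uu : ℕ → ℕ
  /-- the class of a generator -/
  cl : ℕ → ℕ
  /-- the orbit of a pair -/
  ob : ℕ → ℕ → ℕ
  /-- the index of a free orbit -/
  fi : ℕ → ℕ
  /-- the free orbits -/
  FO : ℕ → ℕ
  /-- coefficients -/
  IA : ℕ → ℕ → ℕ
  /-- coefficients -/
  IC : ℕ → ℕ → ℕ
  /-- coefficients -/
  IM : ℕ → ℕ → ℕ

/-- The coefficient of the free variable `f` in the entry `(s, i, j)`. -/
def KTab.W (K : KTab) (D : CTab) (P s i j f : ℕ) : ℕ :=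
  sumN K.k (fun l => K.IA l f * K.Tt l s i j) + (if i = j then K.IC (K.cl s) f else 0) +
    sumN D.N (fun x => K.IM (K.ob i x) f * D.tt s x j +
      (P - D.tt s i x % P) * K.IM (K.ob x j) f)

/-- The checks. -/
def KTab.ck (K : KTab) (D : CTab) (P : ℕ) : Bool :=
  allN D.n (fun s => decide (K.cl s < K.ncl) && allN D.N fun i => allN D.N fun j =>
    (D.tt s i j % P == sumN K.k (fun l => K.uu l * K.Tt l s i j) % P) &&
    (K.ob (D.pt s i) (D.pt s j) == K.ob i j)) &&
  allN D.c (fun o => D.rk o != 0 || (decide (K.fi o < K.nf) && K.FO (K.fi o) == o &&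
    allN K.nf fun f => K.W D P (D.rs o) (D.ri o) (D.rj o) f % P ==
      if f = K.fi o then 1 % P else 0))

section cert

variable {B : Type} [Group B] {P n N k ncl : ℕ} [Fact P.Prime] (D : CTab) (K : KTab)
  (g : Fin n → B) (π : B →* Equiv.Perm (Fin N))

/-- **The certificate.** -/
theorem certC_of (hn : D.n = n) (hN : D.N = N) (hk : K.k = k) (hncl : K.ncl = ncl)
    (hp : ∀ (s : Fin n) (i : Fin N), (π (g s) i).1 = D.pt s i) (hsq : ∀ s, π (g s * g s) = 1)
    (hW : D.ckW = true) (hA : D.ckA = true) (hB : D.ckB P = true) (hK : K.ck D P = true)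
    (hgen : Subgroup.closure (Set.range g) = ⊤)
    (hM : ∀ m ∈ D.MV, ∃ t s : Fin n, t.1 = m.1 ∧ s.1 = m.2.1 ∧ wd g m.2.2 * g s = g t * wd g m.2.2)
    (hH : ∀ h ∈ D.HW, ∃ s : Fin n, s.1 = h.2 ∧
      zw g (tF n h.1) * g s = g s * zw g (tF n h.1))
    (T : Fin k → Fin n → Matrix (Fin N) (Fin N) (ZMod P)) (u : Fin k → ZMod P)
    (cl : Fin n → Fin ncl) (hT : ∀ l s i j, T l s i j = (K.Tt l s i j : ZMod P))
    (hu : ∀ l, u l = (K.uu l : ZMod P)) (hcl : ∀ s, (cl s).1 = K.cl s)
    (hcc : ∀ s t b, b * g s = g t * b → cl s = cl t)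
    (hS : ∀ (a : Fin k → ZMod P) (c : Fin n → ZMod P) (m : Matrix (Fin N) (Fin N) (ZMod P)),
      (∀ b, Adp (π b) m = m) → (∀ s t b, b * g s = g t * b → c s = c t) →
      Tng π g (fun s => ∑ l, u l • T l s) fun s => (∑ l, a l • T l s) +
        c s • (1 : Matrix (Fin N) (Fin N) (ZMod P)) +
          (m * (∑ l, u l • T l s) - (∑ l, u l • T l s) * m)) :
    CertC P cl g π T u := by
  subst hn
  subst hN
  subst hk
  subst hncl
  intro X hX
  have hK' := hK
  simp only [KTab.ck, Bool.and_eq_true, allN_iff, decide_eq_true_eq, beq_iff_eq, Bool.or_eq_true,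
    bne_iff_ne, ne_eq] at hK'
  obtain ⟨hK1, hK2⟩ := hK'
  have hpt : ∀ s < D.n, ∀ i < D.N, D.pt s i < D.N := by
    intro s hs i hi
    have h := hp ⟨s, hs⟩ ⟨i, hi⟩
    simp only at h
    rw [← h]
    exact Fin.is_lt _
  set τ : Fin D.n → Matrix (Fin D.N) (Fin D.N) (ZMod P) := fun s => ∑ l, u l • T l s with hτdef
  have hτ : ∀ (s : Fin D.n) (i j : Fin D.N), τ s i j = (D.tt s i j : ZMod P) := by
    intro s i j
    have h1 := ((hK1 s s.2).2 i i.2 j j.2).1
    rw [← ZMod.natCast_mod (D.tt s i j) P, h1, ZMod.natCast_mod, sumN_eq, Nat.cast_sum, hτdef]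
    simp only [Matrix.sum_apply, Matrix.smul_apply, smul_eq_mul, hT, hu, Nat.cast_mul]
    exact Fin.sum_univ_eq_sum_range (fun l => (K.uu l : ZMod P) * (K.Tt l s i j : ZMod P)) K.k
  -- the free values
  let xf : ℕ → ZMod P := fun f => xc X (D.rs (K.FO f)) (D.ri (K.FO f)) (D.rj (K.FO f))
  let a : Fin K.k → ZMod P := fun l => ∑ f ∈ Finset.range K.nf, (K.IA l f : ZMod P) * xf f
  let c : Fin K.ncl → ZMod P := fun q => ∑ f ∈ Finset.range K.nf, (K.IC q f : ZMod P) * xf f
  let m : Matrix (Fin D.N) (Fin D.N) (ZMod P) :=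
    Matrix.of fun i j => ∑ f ∈ Finset.range K.nf, (K.IM (K.ob i j) f : ZMod P) * xf f
  have hm : ∀ b, Adp (π b) m = m := by
    have h1 : ∀ b ∈ Subgroup.closure (Set.range g), Adp (π b) m = m := by
      intro b hb
      induction hb using Subgroup.closure_induction with
      | mem y hy =>
        obtain ⟨s, rfl⟩ := hy
        ext i j
        have h2 := ((hK1 s s.2).2 i i.2 j j.2).2
        have h3 := symm_gen g π D.pt hp hsq s i
        have h4 := symm_gen g π D.pt hp hsq s j
        change ∑ f ∈ Finset.range K.nf, (K.IM (K.ob ((π (g s)).symm i).1 ((π (g s)).symm j).1) f :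
          ZMod P) * xf f = ∑ f ∈ Finset.range K.nf, (K.IM (K.ob i j) f : ZMod P) * xf f
        rw [h3, h4, h2]
      | one => rw [map_one]; rfl
      | mul y z _ _ h1 h2 => rw [map_mul, ← Adp_comp, h2, h1]
      | inv y _ h1 =>
        have h2 : Adp (π y⁻¹) (Adp (π y) m) = m := by
          rw [Adp_comp, ← map_mul, inv_mul_cancel, map_one]
          rfl
        rwa [h1] at h2
    intro b
    exact h1 b (by rw [hgen]; exact Subgroup.mem_top b)
  refine ⟨a, c, m, hm, ?_⟩
  set Y : Fin D.n → Matrix (Fin D.N) (Fin D.N) (ZMod P) := fun s => (∑ l, a l • T l s) +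
    c (cl s) • (1 : Matrix (Fin D.N) (Fin D.N) (ZMod P)) + (m * τ s - τ s * m) with hY
  have hYT : Tng π g τ Y := hS a (fun s => c (cl s)) m hm fun s t b hb => by
    rw [hcc s t b hb]
  -- both are solutions, compare at the free entries
  have hZ : Tng π g τ (fun s => X s - Y s) := by
    constructor
    · intro s t b hb
      change X t - Y t = Adp (π b) (X s) - Adp (π b) (Y s)
      rw [hX.conj s t b hb, hYT.conj s t b hb]
    · intro v s hv
      have h1 := hX.hol v s hv
      have h2 := hYT.hol v s hv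
      have h3 : XW π g (fun s => X s - Y s) v = XW π g X v - XW π g Y v := by
        clear h1 h2 hv
        induction v with
        | nil => simp [XW]
        | cons w v ih =>
          rw [XW, XW, XW, ih, Adp_sub]
          abel
      rw [h3]
      have h4 : XW π g τ v * (X s - Y s) - (X s - Y s) * XW π g τ v +
          ((XW π g X v - XW π g Y v) * τ s - τ s * (XW π g X v - XW π g Y v)) =
          (XW π g τ v * X s - X s * XW π g τ v + (XW π g X v * τ s - τ s * XW π g X v)) -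
          (XW π g τ v * Y s - Y s * XW π g τ v + (XW π g Y v * τ s - τ s * XW π g Y v)) := by
        noncomm_ring
      change XW π g τ v * (X s - Y s) - (X s - Y s) * XW π g τ v +
          ((XW π g X v - XW π g Y v) * τ s - τ s * (XW π g X v - XW π g Y v)) = 0
      rw [h4]
      have h5 : XW π g τ v * X s - X s * XW π g τ v + (XW π g X v * τ s - τ s * XW π g X v) = 0 :=
        h1
      rw [h5, h2, sub_zero]
  have hsol := sol_of D g π rfl rfl hp hsq hW hM hH τ (fun s => X s - Y s) hτ hZ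
  have hB' := hB
  simp only [CTab.ckB, allN_iff, CTab.ckO, Bool.and_eq_true, decide_eq_true_eq] at hB'
  have hfree : ∀ o < D.c, D.rk o = 0 →
      xc (fun s => X s - Y s) (D.rs o) (D.ri o) (D.rj o) = 0 := by
    intro o ho h0
    obtain ⟨⟨⟨h1, h2⟩, h3⟩, -⟩ := hB' o ho
    rcases hK2 o ho with h4 | h4
    · exact absurd h0 h4
    · obtain ⟨⟨h5, h6⟩, h7⟩ := h4
      rw [xc_mk _ h1 h2 h3]
      change X _ _ _ - Y _ _ _ = 0
      have e1 : X ⟨D.rs o, h1⟩ ⟨D.ri o, h2⟩ ⟨D.rj o, h3⟩ = xf (K.fi o) := by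
        change _ = xc X (D.rs (K.FO (K.fi o))) (D.ri (K.FO (K.fi o))) (D.rj (K.FO (K.fi o)))
        rw [h6, xc_mk X h1 h2 h3]
      have e2 : Y ⟨D.rs o, h1⟩ ⟨D.ri o, h2⟩ ⟨D.rj o, h3⟩ = ∑ f ∈ Finset.range K.nf,
          (K.W D P (D.rs o) (D.ri o) (D.rj o) f : ZMod P) * xf f := by
        rw [hY]
        simp only [Matrix.add_apply, Matrix.sub_apply, Matrix.mul_apply, Matrix.sum_apply,
          Matrix.smul_apply, smul_eq_mul, hT, hτ, Matrix.one_apply]
        have f1 : ∀ f, ((K.W D P (D.rs o) (D.ri o) (D.rj o) f : ℕ) : ZMod P) =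
            ∑ l : Fin K.k, (K.IA l f : ZMod P) * (K.Tt l (D.rs o) (D.ri o) (D.rj o) : ZMod P) +
            (K.IC (K.cl (D.rs o)) f : ZMod P) * (if D.ri o = D.rj o then 1 else 0) +
            ∑ x : Fin D.N, ((K.IM (K.ob (D.ri o) x) f : ZMod P) * (D.tt (D.rs o) x (D.rj o)) -
              (D.tt (D.rs o) (D.ri o) x : ZMod P) * (K.IM (K.ob x (D.rj o)) f)) := by
          intro f
          rw [KTab.W, Nat.cast_add, Nat.cast_add, sumN_eq, sumN_eq, Nat.cast_sum, Nat.cast_sum,
            ← Fin.sum_univ_eq_sum_range, ← Fin.sum_univ_eq_sum_range]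
          congr 1
          · congr 1
            · exact Finset.sum_congr rfl fun l _ => Nat.cast_mul _ _
            · split_ifs <;> simp
          · refine Finset.sum_congr rfl fun x _ => ?_
            have hle : D.tt (D.rs o) (D.ri o) x % P ≤ P :=
              (Nat.mod_lt _ (Nat.Prime.pos Fact.out)).le
            rw [Nat.cast_add, Nat.cast_mul, Nat.cast_mul, Nat.cast_sub hle, ZMod.natCast_self,
              zero_sub, ZMod.natCast_mod]
            ring
        simp only [f1, add_mul, Finset.sum_add_distrib, Finset.sum_mul, Finset.sum_sub_distrib,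
          sub_mul]
        congr 1
        · congr 1
          · rw [Finset.sum_comm]
            refine Finset.sum_congr rfl fun l _ => ?_
            change (∑ f ∈ Finset.range K.nf, (K.IA l f : ZMod P) * xf f) * _ = _
            rw [Finset.sum_mul]
            exact Finset.sum_congr rfl fun f _ => by ring
          · change (∑ f ∈ Finset.range K.nf, (K.IC (cl ⟨D.rs o, h1⟩) f : ZMod P) * xf f) * _ = _
            rw [Finset.sum_mul, hcl]
            refine Finset.sum_congr rfl fun f _ => ?_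
            by_cases hij : D.ri o = D.rj o
            · rw [if_pos (Fin.ext hij), if_pos hij]; ring
            · rw [if_neg (fun hh => hij (congrArg Fin.val hh)), if_neg hij]; ring
        · congr 1
          · rw [Finset.sum_comm]
            refine Finset.sum_congr rfl fun x _ => ?_
            change (∑ f ∈ Finset.range K.nf, (K.IM (K.ob (D.ri o) x) f : ZMod P) * xf f) * _ = _
            rw [Finset.sum_mul]
            exact Finset.sum_congr rfl fun f _ => by ring
          · rw [Finset.sum_comm]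
            refine Finset.sum_congr rfl fun x _ => ?_
            change _ * (∑ f ∈ Finset.range K.nf, (K.IM (K.ob x (D.rj o)) f : ZMod P) * xf f) = _
            rw [Finset.mul_sum]
            exact Finset.sum_congr rfl fun f _ => by ring
      have e3 : ∀ f ∈ Finset.range K.nf,
          (K.W D P (D.rs o) (D.ri o) (D.rj o) f : ZMod P) * xf f =
            if f = K.fi o then xf f else 0 := by
        intro f hf
        have h8 := h7 f (Finset.mem_range.1 hf)
        rw [← ZMod.natCast_mod, h8]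
        split_ifs with h9
        · rw [ZMod.natCast_mod, Nat.cast_one, one_mul]
        · rw [Nat.cast_zero, zero_mul]
      rw [e1, e2, Finset.sum_congr rfl e3, Finset.sum_ite_eq', if_pos (Finset.mem_range.2 h5),
        sub_self]
  have hzero := D.sound hW hA hB _ hsol hfree
  intro s
  have h1 : X s - Y s = 0 := by
    ext i j
    have h2 := hzero s s.2 i i.2 j j.2
    rw [xc_eq] at h2
    exact h2
  exact sub_eq_zero.1 h1

end cert

end Pool.Agent.Lib.MP_97567f_al.Ck
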