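import Pool.Agent.Lib.MP_97567f_al.Pad.Base

/-!
# MP_97567f_al: limits of approximate solutions (compactness of the p-adic integers)
-/

set_option autoImplicit false

namespace Pool.Agent.Lib.MP_97567f_al.Pad

open Filter Topology

variable {p : ℕ} [Fact p.Prime]

/-- Limits along an ultrafilter. -/
private theorem Cpt_lim (U : Ultrafilter ℕ) (f : ℕ → ℤ_[p]) : ∃ a, Tendsto f U (𝓝 a) := by
  obtain ⟨a, -, ha⟩ := isCompact_univ.ultrafilter_le_nhds (U.map f) (by simp)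
  exact ⟨a, ha⟩

private theorem Cpt_near (U : Ultrafilter ℕ) {f : ℕ → ℤ_[p]} {a : ℤ_[p]} (h : Tendsto f U (𝓝 a))
    (m : ℕ) : ∀ᶠ n in (U : Filter ℕ), (p : ℤ_[p]) ^ m ∣ f n - a := by
  have h1 : ∀ᶠ n in (U : Filter ℕ), dist (f n) a < (p : ℝ) ^ (-((m : ℤ) - 1)) := by
    refine (Metric.tendsto_nhds.1 h) _ ?_
    have : (0 : ℝ) < p := by exact_mod_cast (Fact.out : p.Prime).pos
    positivity
  filter_upwards [h1] with n hn
  rw [dist_eq_norm] at hn
  rw [← Ideal.mem_span_singleton, ← PadicInt.norm_le_pow_iff_mem_span_pow]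
  have h2 := (PadicInt.norm_lt_pow_iff_norm_le_pow_sub_one (f n - a) (-((m : ℤ) - 1))).1 hn
  refine h2.trans (le_of_eq ?_)
  congr 1
  ring

private theorem Cpt_of (U : Ultrafilter ℕ) {f : ℕ → ℤ_[p]} {a : ℤ_[p]}
    (h : ∀ m : ℕ, ∀ᶠ n in (U : Filter ℕ), (p : ℤ_[p]) ^ m ∣ f n - a) : Tendsto f U (𝓝 a) := by
  rw [Metric.tendsto_nhds]
  intro ε hε
  have hp : (1 : ℝ) < p := by exact_mod_cast (Fact.out : p.Prime).one_lt
  obtain ⟨m, hm⟩ : ∃ m : ℕ, ((p : ℝ)⁻¹) ^ m < ε :=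
    exists_pow_lt_of_lt_one hε (inv_lt_one_of_one_lt₀ hp)
  filter_upwards [h m] with n hn
  rw [dist_eq_norm]
  rw [← Ideal.mem_span_singleton, ← PadicInt.norm_le_pow_iff_mem_span_pow] at hn
  refine lt_of_le_of_lt hn ?_
  rw [inv_pow] at hm
  rw [zpow_neg, zpow_natCast]
  exact hm

/-- Congruent parameters give congruent matrices. -/
theorem rep_congr {B : Type} [Group B] {Ω : Type} [Fintype Ω] [DecidableEq Ω] {J : Type}
    (Φ : NFam B Ω J) (m : ℕ) (θ θ' : J → ℤ_[p]ˣ)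
    (h : ∀ j, (p : ℤ_[p]) ^ m ∣ (θ j : ℤ_[p]) - (θ' j : ℤ_[p])) (x : B) :
    Cg p m (Φ.rep ℤ_[p] θ x) (Φ.rep ℤ_[p] θ' x) := by
  set I : Ideal ℤ_[p] := Ideal.span {(p : ℤ_[p]) ^ m}
  let f : ℤ_[p] →+* ℤ_[p] ⧸ I := Ideal.Quotient.mk I
  have h1 : (fun j => Units.map f.toMonoidHom (θ j)) = fun j => Units.map f.toMonoidHom (θ' j) := by
    funext j
    apply Units.ext
    show f (θ j : ℤ_[p]) = f (θ' j : ℤ_[p])
    exact Ideal.Quotient.eq.2 (Ideal.mem_span_singleton.2 (h j))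
  have h2 := Φ.nat ℤ_[p] (ℤ_[p] ⧸ I) f θ x
  have h3 := Φ.nat ℤ_[p] (ℤ_[p] ⧸ I) f θ' x
  rw [h1, h3] at h2
  intro i j
  have h4 := congrFun (congrFun h2 i) j
  simp only [Matrix.map_apply] at h4
  exact Ideal.mem_span_singleton.1 (Ideal.Quotient.eq.1 h4.symm)

theorem cpt {B : Type} [Group B] {Ω : Type} [Fintype Ω] [DecidableEq Ω] {J : Type} [Finite J]
    (Φ : NFam B Ω J) (u : J → ZMod p) (ρ' : B →* Matrix Ω Ω ℤ_[p])
    (h : ∀ n : ℕ, ∃ (θ : J → ℤ_[p]ˣ) (η : B →* ℤ_[p]ˣ) (g : GL Ω ℤ_[p]), Near p u θ ∧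
      ∀ x, Cg p n (ρ' x * g.1) ((η x : ℤ_[p]) • (g.1 * Φ.rep ℤ_[p] θ x))) :
    ∃ (θ : J → ℤ_[p]ˣ) (η : B →* ℤ_[p]ˣ) (g : GL Ω ℤ_[p]), Near p u θ ∧
      ∀ x, ρ' x * g.1 = (η x : ℤ_[p]) • (g.1 * Φ.rep ℤ_[p] θ x) := by
  choose θ η g hN hC using h
  let U : Ultrafilter ℕ := Ultrafilter.of atTop
  have hU : (U : Filter ℕ) ≤ atTop := Ultrafilter.of_le atTop
  choose y hy1 hy2 using hN
  -- the limits
  choose a ha using fun j => Cpt_lim U fun n => ((θ n j : ℤ_[p]ˣ) : ℤ_[p])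
  choose a' ha' using fun j => Cpt_lim U fun n => (((θ n j)⁻¹ : ℤ_[p]ˣ) : ℤ_[p])
  choose b hb using fun x => Cpt_lim U fun n => ((η n x : ℤ_[p]ˣ) : ℤ_[p])
  choose b' hb' using fun x => Cpt_lim U fun n => (((η n x)⁻¹ : ℤ_[p]ˣ) : ℤ_[p])
  choose c hc using fun i => fun k => Cpt_lim U fun n => (g n).1 i k
  choose c' hc' using fun i => fun k => Cpt_lim U fun n => ((g n)⁻¹).1 i k
  choose z hz using fun j => Cpt_lim U fun n => y n j
  have haa : ∀ j, a j * a' j = 1 := fun j => tendsto_nhds_unique ((ha j).mul (ha' j)) (by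
    have : (fun n => ((θ n j : ℤ_[p]ˣ) : ℤ_[p]) * (((θ n j)⁻¹ : ℤ_[p]ˣ) : ℤ_[p])) = fun _ => 1 := by
      funext n
      exact Units.mul_inv _
    rw [this]
    exact tendsto_const_nhds)
  have hbb : ∀ x, b x * b' x = 1 := fun x => tendsto_nhds_unique ((hb x).mul (hb' x)) (by
    have : (fun n => ((η n x : ℤ_[p]ˣ) : ℤ_[p]) * (((η n x)⁻¹ : ℤ_[p]ˣ) : ℤ_[p])) = fun _ => 1 := by
      funext n
      exact Units.mul_inv _
    rw [this]
    exact tendsto_const_nhds)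
  have hb1 : ∀ x x', b (x * x') = b x * b x' := fun x x' => tendsto_nhds_unique (hb (x * x')) (by
    have : (fun n => ((η n (x * x') : ℤ_[p]ˣ) : ℤ_[p])) = fun n =>
        ((η n x : ℤ_[p]ˣ) : ℤ_[p]) * ((η n x' : ℤ_[p]ˣ) : ℤ_[p]) := by
      funext n
      rw [map_mul, Units.val_mul]
    rw [this]
    exact (hb x).mul (hb x'))
  have hb0 : b 1 = 1 := tendsto_nhds_unique (hb 1) (by
    have : (fun n => ((η n 1 : ℤ_[p]ˣ) : ℤ_[p])) = fun _ => 1 := by
      funext n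
      rw [map_one, Units.val_one]
    rw [this]
    exact tendsto_const_nhds)
  have hcc : (Matrix.of c : Matrix Ω Ω ℤ_[p]) * Matrix.of c' = 1 := by
    ext i k
    rw [Matrix.mul_apply]
    refine tendsto_nhds_unique (tendsto_finsetSum _ fun l _ => (hc i l).mul (hc' l k)) ?_
    have : (fun n => ∑ l, (g n).1 i l * ((g n)⁻¹).1 l k) = fun _ => (1 : Matrix Ω Ω ℤ_[p]) i k := by
      funext n
      rw [← Matrix.mul_apply, ← Units.val_mul, mul_inv_cancel, Units.val_one]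
    rw [this]
    exact tendsto_const_nhds
  let θ' : J → ℤ_[p]ˣ := fun j => ⟨a j, a' j, haa j, by rw [mul_comm]; exact haa j⟩
  let η' : B →* ℤ_[p]ˣ :=
    { toFun := fun x => ⟨b x, b' x, hbb x, by rw [mul_comm]; exact hbb x⟩
      map_one' := Units.ext hb0
      map_mul' := fun x x' => Units.ext (hb1 x x') }
  let g' : GL Ω ℤ_[p] := ⟨Matrix.of c, Matrix.of c', hcc, mul_eq_one_comm.1 hcc⟩
  -- the representation
  have hrep : ∀ x i k, Tendsto (fun n => Φ.rep ℤ_[p] (θ n) x i k) U (𝓝 (Φ.rep ℤ_[p] θ' x i k)) := by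
    intro x i k
    refine Cpt_of U fun m => ?_
    have h1 : ∀ᶠ n in (U : Filter ℕ), ∀ j, (p : ℤ_[p]) ^ m ∣ (θ n j : ℤ_[p]) - (θ' j : ℤ_[p]) :=
      eventually_all.2 fun j => Cpt_near U (ha j) m
    filter_upwards [h1] with n hn
    exact rep_congr Φ m (θ n) θ' hn x i k
  refine ⟨θ', η', g', ?_, ?_⟩
  · intro j
    refine ⟨z j, ?_, ?_⟩
    · refine tendsto_nhds_unique (ha j) ?_
      have : (fun n => ((θ n j : ℤ_[p]ˣ) : ℤ_[p])) = fun n => 1 + (p : ℤ_[p]) * y n j := by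
        funext n
        exact hy1 n j
      rw [this]
      exact tendsto_const_nhds.add (tendsto_const_nhds.mul (hz j))
    · obtain ⟨n, hn⟩ := (Cpt_near U (hz j) 1).exists
      rw [pow_one] at hn
      rw [← hy2 n j]
      have h1 : PadicInt.toZMod (y n j - z j) = 0 := by
        obtain ⟨w, hw⟩ := hn
        rw [hw, map_mul, map_natCast, CharP.cast_eq_zero, zero_mul]
      rw [map_sub, sub_eq_zero] at h1
      exact h1.symm
  · intro x
    ext i k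
    have h1 : Tendsto (fun n => (ρ' x * (g n).1) i k) U (𝓝 ((ρ' x * g'.1) i k)) := by
      simp only [Matrix.mul_apply]
      exact tendsto_finsetSum _ fun l _ => tendsto_const_nhds.mul (hc l k)
    have h2 : Tendsto (fun n => ((η n x : ℤ_[p]) • ((g n).1 * Φ.rep ℤ_[p] (θ n) x)) i k) U
        (𝓝 (((η' x : ℤ_[p]) • (g'.1 * Φ.rep ℤ_[p] θ' x)) i k)) := by
      simp only [Matrix.smul_apply, Matrix.mul_apply, smul_eq_mul]
      exact (hb x).mul (tendsto_finsetSum _ fun l _ => (hc i l).mul (hrep x l k))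
    have h3 : Tendsto (fun n => (ρ' x * (g n).1) i k -
        ((η n x : ℤ_[p]) • ((g n).1 * Φ.rep ℤ_[p] (θ n) x)) i k) U (𝓝 0) := by
      refine Cpt_of U fun m => ?_
      have h4 : ∀ᶠ n in (U : Filter ℕ), m ≤ n := hU (eventually_ge_atTop m)
      filter_upwards [h4] with n hn
      rw [sub_zero]
      exact (pow_dvd_pow _ hn).trans (hC n x i k)
    have h4 := tendsto_nhds_unique h3 (h1.sub h2)
    exact (sub_eq_zero.1 h4.symm)

end Pool.Agent.Lib.MP_97567f_al.Pad
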