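import Pool.Agent.Lib.MP_97567f_al.U.Art

/-!
# MP_97567f_al: orders of finite Coxeter groups by verified coset enumeration

`WQ M` is the quotient of the Artin group by the squares of the generators.
-/

set_option autoImplicit false

namespace Pool.Agent.Lib.MP_97567f_al.Pad

open Pool.Agent.Lib.MP_97567f_al.U

/-- The quotient of the Artin group by the normal closure of the squares of the generators. -/
abbrev WQ {n : ℕ} (M : CoxeterMatrix (Fin n)) : Type :=
  Art M ⧸ Subgroup.normalClosure (Set.range fun s => gn M s * gn M s)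

/-- The walk along a table, only with steps of rank less than `b`. -/
def wk (t r : ℕ → ℕ → ℕ) (b : ℕ) : ℕ → ℕ → ℕ → ℕ → Option ℕ
  | 0, _, _, c => some c
  | L + 1, i, j, c =>
    match wk t r b L j i c with
    | none => none
    | some d => if r i d < b then some (t i d) else none

/-- The walk along a table. -/
def wt (t : ℕ → ℕ → ℕ) : ℕ → ℕ → ℕ → ℕ → ℕ
  | 0, _, _, c => c
  | L + 1, i, j, c => t i (wt t L j i c)

/-- The check of one entry of the table. -/
def chk (n m : ℕ) (mm t r jj cc : ℕ → ℕ → ℕ) (pi pk : ℕ → ℕ) (hg : ℕ → Bool) (i k : ℕ) : Bool :=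
  if r i k = 0 then
    (k == 0 && hg i && t i 0 == 0) || (t i k != 0 && pi (t i k) == i && pk (t i k) == k) ||
      (k != 0 && pi k == i && pk k == t i k)
  else
    decide (jj i k < n) && decide (cc i k < m) && decide (1 ≤ mm i (jj i k)) &&
      (wk t r (r i k) (mm i (jj i k) - 1) (jj i k) i (cc i k) == some k) &&
      (wk t r (r i k) (mm i (jj i k)) (jj i k) i (cc i k) == some (t i k))

theorem alt_succ' {G : Type} [Monoid G] (a b : G) (L : ℕ) : alt a b (L + 1) = a * alt b a L := by
  unfold alt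
  rw [List.range_succ_eq_map, List.map_cons, List.prod_cons, List.map_map]
  congr 2
  refine List.map_congr_left fun k _ => ?_
  simp only [Function.comp_apply, Nat.succ_eq_add_one]
  rcases Nat.even_or_odd' k with ⟨c, h | h⟩
  · subst h
    have h1 : (2 * c + 1) % 2 = 1 := by omega
    have h2 : (2 * c) % 2 = 0 := by omega
    rw [if_neg (by omega), if_pos h2]
  · subst h
    have h1 : (2 * c + 1 + 1) % 2 = 0 := by omega
    rw [if_pos h1, if_neg (by omega)]

section sound

variable {G X : Type} [Group G] [MulAction G X] (x : ℕ → G) (p : ℕ → X)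

private theorem wk_sound {n m b : ℕ} {t r : ℕ → ℕ → ℕ} (ht : ∀ i < n, ∀ k < m, t i k < m)
    (hk : ∀ i < n, ∀ k < m, r i k < b → x i • p k = p (t i k)) :
    ∀ L i j c d, i < n → j < n → c < m → wk t r b L i j c = some d →
      d < m ∧ alt (x i) (x j) L • p c = p d := by
  intro L
  induction L with
  | zero =>
    intro i j c d _ _ hc h
    simp only [wk, Option.some.injEq] at h
    subst h
    refine ⟨hc, ?_⟩
    simp [alt]
  | succ L ih =>
    intro i j c d hi hj hc h
    rw [wk] at h
    rcases hw : wk t r b L j i c with _ | d'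
    · rw [hw] at h
      exact absurd h (by simp)
    · rw [hw] at h
      obtain ⟨h1, h2⟩ := ih j i c d' hj hi hc hw
      by_cases h3 : r i d' < b
      · simp only [if_pos h3, Option.some.injEq] at h
        subst h
        refine ⟨ht i hi d' h1, ?_⟩
        rw [alt_succ', mul_smul, h2, hk i hi d' h1 h3]
      · simp only [if_neg h3] at h
        exact absurd h (by simp)

/-- The table describes the action on the points. -/
theorem tab_sound {n m : ℕ} {mm t r jj cc : ℕ → ℕ → ℕ} {pi pk : ℕ → ℕ} {hg : ℕ → Bool}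
    (hx : ∀ i < n, x i * x i = 1)
    (hb : ∀ i < n, ∀ j < n, alt (x i) (x j) (mm i j) = alt (x j) (x i) (mm i j))
    (hh : ∀ i < n, hg i = true → x i • p 0 = p 0)
    (ht : ∀ i < n, ∀ k < m, t i k < m)
    (hp : ∀ k < m, k ≠ 0 → pk k < k ∧ pi k < n ∧ p k = x (pi k) • p (pk k))
    (hc : ∀ i < n, ∀ k < m, chk n m mm t r jj cc pi pk hg i k = true) :
    ∀ i < n, ∀ k < m, x i • p k = p (t i k) := by
  have key : ∀ b, ∀ i < n, ∀ k < m, r i k < b → x i • p k = p (t i k) := by
    intro b
    induction b with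
    | zero => intro i _ k _ h; exact absurd h (by omega)
    | succ b ih =>
      intro i hi k hk hr
      by_cases h0 : r i k = 0
      · have h1 := hc i hi k hk
        rw [chk, if_pos h0] at h1
        simp only [Bool.or_eq_true, Bool.and_eq_true, beq_iff_eq, bne_iff_ne, ne_eq] at h1
        rcases h1 with (⟨⟨h1, h2⟩, h3⟩ | ⟨⟨h1, h2⟩, h3⟩) | ⟨⟨h1, h2⟩, h3⟩
        · subst h1
          rw [h3, hh i hi h2]
        · have h4 := (hp (t i k) (ht i hi k hk) h1).2.2
          rw [h2, h3] at h4
          exact h4.symm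
        · have h4 := (hp k hk h1).2.2
          rw [h2, h3] at h4
          rw [h4, ← mul_smul, hx i hi, one_smul]
      · by_cases h1 : r i k < b
        · exact ih i hi k hk h1
        · have h2 : r i k = b := by omega
          have h3 := hc i hi k hk
          rw [chk, if_neg h0] at h3
          simp only [Bool.and_eq_true, beq_iff_eq, decide_eq_true_eq] at h3
          obtain ⟨⟨⟨⟨h4, h5⟩, h6⟩, h7⟩, h8⟩ := h3
          rw [h2] at h7 h8
          obtain ⟨-, e1⟩ := wk_sound x p ht ih _ _ _ _ _ h4 hi h5 h7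
          obtain ⟨-, e2⟩ := wk_sound x p ht ih _ _ _ _ _ h4 hi h5 h8
          rw [← hb i hi _ h4] at e2
          have h9 : mm i (jj i k) = (mm i (jj i k) - 1) + 1 := by omega
          rw [h9, alt_succ', mul_smul, e1] at e2
          exact e2
  intro i hi k hk
  exact key (r i k + 1) i hi k hk (Nat.lt_succ_self _)

end sound

/-- The points of a coset table. -/
noncomputable def pts {G X : Type} [SMul G X] (x : ℕ → G) (o : X) (pi pk : ℕ → ℕ) (k : ℕ) : X :=
  if h : pk k < k then x (pi k) • pts x o pi pk (pk k) else o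
termination_by k
decreasing_by exact h

/-- The conditions on the data. -/
structure TabOK {n n' : ℕ} (M : CoxeterMatrix (Fin n)) (κ : Fin n' → Fin n) (m : ℕ)
    (mm t r jj cc : ℕ → ℕ → ℕ) (pi pk : ℕ → ℕ) (hg : ℕ → Bool) : Prop where
  pos : 0 < m
  mmeq : ∀ i j : Fin n, M.M i j = mm i j
  lt : ∀ i < n, ∀ k < m, t i k < m
  inv : ∀ i < n, ∀ k < m, t i (t i k) = k
  ok : ∀ i < n, ∀ k < m, chk n m mm t r jj cc pi pk hg i k = true
  pk0 : ¬ pk 0 < 0
  par : ∀ k < m, k ≠ 0 → pk k < k ∧ pi k < n ∧ t (pi k) (pk k) = k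
  rel : ∀ i < n, ∀ j < n, ∀ k < m, wt t (mm i j) i j k = wt t (mm i j) j i k
  hgen : ∀ i : Fin n, hg i = true → ∃ a, κ a = i
  fixz : ∀ a, t (κ a) 0 = 0

section step

variable {n n' : ℕ} {M : CoxeterMatrix (Fin n)} {M' : CoxeterMatrix (Fin n')} {κ : Fin n' → Fin n}
  {m : ℕ} {mm t r jj cc : ℕ → ℕ → ℕ} {pi pk : ℕ → ℕ} {hg : ℕ → Bool}

/-- The generator of `WQ M`. -/
noncomputable def wg (M : CoxeterMatrix (Fin n)) (i : Fin n) : WQ M :=
  QuotientGroup.mk' _ (gn M i)

theorem wg_sq (M : CoxeterMatrix (Fin n)) (i : Fin n) : wg M i * wg M i = 1 := by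
  rw [wg, ← map_mul]
  exact (QuotientGroup.eq_one_iff _).2 (Subgroup.subset_normalClosure ⟨i, rfl⟩)

theorem alt_map' {G H : Type} [Monoid G] [Monoid H] (f : G →* H) (a b : G) (L : ℕ) :
    f (alt a b L) = alt (f a) (f b) L := by
  unfold alt
  rw [map_list_prod, List.map_map]
  congr 1
  refine List.map_congr_left fun k _ => ?_
  simp only [Function.comp_apply]
  split_ifs <;> rfl

theorem wg_rel (M : CoxeterMatrix (Fin n)) (i j : Fin n) :
    alt (wg M i) (wg M j) (M.M i j) = alt (wg M j) (wg M i) (M.M i j) := by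
  rw [wg, wg, ← alt_map', ← alt_map', (pArt n M).1 i j]

theorem wg_closure (M : CoxeterMatrix (Fin n)) : Subgroup.closure (Set.range (wg M)) = ⊤ := by
  have h := (pArt n M).2.2.2.1
  have h2 : Set.range (wg M) = (QuotientGroup.mk' (Subgroup.normalClosure
      (Set.range fun s => gn M s * gn M s))) '' (Set.range (gn M)) := by
    rw [← Set.range_comp]
    rfl
  rw [h2, ← MonoidHom.map_closure, h]
  exact Subgroup.map_top_of_surjective _ (QuotientGroup.mk'_surjective _)

/-- The universal property. -/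
theorem wg_lift (M : CoxeterMatrix (Fin n)) {G : Type} [Group G] (f : Fin n → G)
    (h2 : ∀ i, f i * f i = 1)
    (h : ∀ i j, alt (f i) (f j) (M.M i j) = alt (f j) (f i) (M.M i j)) :
    ∃ φ : WQ M →* G, ∀ i, φ (wg M i) = f i := by
  obtain ⟨φ, hφ⟩ := (pArt n M).2.1 G f h
  have hle : Subgroup.normalClosure (Set.range fun s => gn M s * gn M s) ≤ φ.ker := by
    refine Subgroup.normalClosure_le_normal ?_
    rintro _ ⟨s, rfl⟩
    change φ (gn M s * gn M s) = 1
    rw [map_mul, hφ, h2]
  refine ⟨QuotientGroup.lift _ φ (fun x hx => hle hx), fun i => ?_⟩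
  exact (QuotientGroup.lift_mk' _ (fun x hx => hle hx) (gn M i)).trans (hφ i)

private theorem perm_ex (h : TabOK M κ m mm t r jj cc pi pk hg) :
    ∃ Φ : WQ M →* Equiv.Perm (Fin m), ∀ (i : Fin n) (k : Fin m), (Φ (wg M i) k).1 = t i k := by
  let τ : Fin n → Equiv.Perm (Fin m) := fun i =>
    { toFun := fun k => ⟨t i k, h.lt i i.2 k k.2⟩
      invFun := fun k => ⟨t i k, h.lt i i.2 k k.2⟩
      left_inv := fun k => Fin.ext (h.inv i i.2 k k.2)
      right_inv := fun k => Fin.ext (h.inv i i.2 k k.2) }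
  have hw : ∀ L (i j : Fin n) (k : Fin m), (alt (τ i) (τ j) L k).1 = wt t L i j k := by
    intro L
    induction L with
    | zero =>
      intro i j k
      simp [alt, wt]
    | succ L ih =>
      intro i j k
      rw [alt_succ', wt, ← ih j i k]
      rfl
  obtain ⟨Φ, hΦ⟩ := wg_lift M τ (fun i => Equiv.ext fun k => Fin.ext (h.inv i i.2 k k.2))
    (fun i j => Equiv.ext fun k => Fin.ext (by
      rw [hw, hw, h.mmeq i j]
      exact h.rel i i.2 j j.2 k k.2))
  exact ⟨Φ, fun i k => by rw [hΦ]; rfl⟩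

/-- **One step of the chain of subgroups.** -/
theorem card_step (hκ : ∀ i j, M.M (κ i) (κ j) = M'.M i j)
    (h : TabOK M κ m mm t r jj cc pi pk hg) :
    Nat.card (WQ M) ∣ m * Nat.card (WQ M') := by
  classical
  obtain ⟨η, hη⟩ := wg_lift M' (fun a => wg M (κ a)) (fun a => wg_sq M (κ a))
    (fun a b => by rw [← hκ]; exact wg_rel M (κ a) (κ b))
  obtain ⟨Φ, hΦ⟩ := perm_ex h
  set H : Subgroup (WQ M) := η.range with hH
  let x : ℕ → WQ M := fun i => if hi : i < n then wg M ⟨i, hi⟩ else 1
  have hx : ∀ i : Fin n, x i = wg M i := fun i => dif_pos i.2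
  let o : WQ M ⧸ H := QuotientGroup.mk 1
  let p : ℕ → WQ M ⧸ H := pts x o pi pk
  have hp0 : p 0 = o := by
    change pts x o pi pk 0 = o
    rw [pts, dif_neg h.pk0]
  have hpk : ∀ k < m, k ≠ 0 → pk k < k ∧ pi k < n ∧ p k = x (pi k) • p (pk k) := by
    intro k hk h0
    obtain ⟨h1, h2, -⟩ := h.par k hk h0
    refine ⟨h1, h2, ?_⟩
    change pts x o pi pk k = x (pi k) • pts x o pi pk (pk k)
    rw [pts, dif_pos h1]
  have act : ∀ i < n, ∀ k < m, x i • p k = p (t i k) := by
    refine tab_sound x p ?_ ?_ ?_ h.lt hpk h.ok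
    · intro i hi
      have := hx ⟨i, hi⟩
      simp only at this
      rw [this]
      exact wg_sq M _
    · intro i hi j hj
      have h1 := hx ⟨i, hi⟩
      have h2 := hx ⟨j, hj⟩
      simp only at h1 h2
      have h3 := h.mmeq ⟨i, hi⟩ ⟨j, hj⟩
      simp only at h3
      rw [h1, h2, ← h3]
      exact wg_rel M _ _
    · intro i hi hgi
      obtain ⟨a, ha⟩ := h.hgen ⟨i, hi⟩ hgi
      have h1 := hx ⟨i, hi⟩
      simp only at h1
      rw [h1, ← ha, hp0]
      change (QuotientGroup.mk (wg M (κ a) * 1) : WQ M ⧸ H) = QuotientGroup.mk 1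
      rw [mul_one, eq_comm, QuotientGroup.eq, inv_one, one_mul]
      exact ⟨wg M' a, hη a⟩
  -- surjectivity
  have surj : ∀ g : WQ M, ∃ k < m, g • o = p k := by
    intro g
    have hg : g ∈ Subgroup.closure (Set.range (wg M)) := by
      rw [wg_closure]
      exact Subgroup.mem_top g
    induction hg using Subgroup.closure_induction_left with
    | one => exact ⟨0, h.pos, by rw [one_smul, hp0]⟩
    | mul_left y hy z hz ih =>
      obtain ⟨i, rfl⟩ := hy
      obtain ⟨k, hk, hk2⟩ := ih
      exact ⟨t i k, h.lt i i.2 k hk, by rw [mul_smul, hk2, ← hx i, act i i.2 k hk]⟩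
    | inv_mul_cancel y hy z hz ih =>
      obtain ⟨i, rfl⟩ := hy
      obtain ⟨k, hk, hk2⟩ := ih
      refine ⟨t i k, h.lt i i.2 k hk, ?_⟩
      have hinv : (wg M i)⁻¹ = wg M i := inv_eq_of_mul_eq_one_left (wg_sq M i)
      rw [hinv, mul_smul, hk2, ← hx i, act i i.2 k hk]
  -- injectivity
  have hfix : ∀ g ∈ H, Φ g ⟨0, h.pos⟩ = ⟨0, h.pos⟩ := by
    rintro _ ⟨y, rfl⟩
    have hy : y ∈ Subgroup.closure (Set.range (wg M')) := by
      rw [wg_closure]
      exact Subgroup.mem_top y
    induction hy using Subgroup.closure_induction with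
    | mem y hy =>
      obtain ⟨a, rfl⟩ := hy
      refine Fin.ext ?_
      rw [hη, hΦ]
      exact h.fixz a
    | one => rw [map_one, map_one]; rfl
    | mul y z _ _ h1 h2 =>
      rw [map_mul, map_mul, Equiv.Perm.mul_apply, h2, h1]
    | inv y _ h1 =>
      rw [map_inv, map_inv, Equiv.Perm.inv_eq_iff_eq, h1]
  let F : WQ M ⧸ H → Fin m := fun y => Quotient.liftOn' y (fun g => Φ g ⟨0, h.pos⟩) (by
    intro g g' hgg
    have h1 : g⁻¹ * g' ∈ H := QuotientGroup.leftRel_apply.1 hgg
    have h2 := hfix _ h1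
    rw [map_mul, map_inv, Equiv.Perm.mul_apply, Equiv.Perm.inv_eq_iff_eq] at h2
    exact h2.symm)
  have hFs : ∀ (g : WQ M) (y : WQ M ⧸ H), F (g • y) = Φ g (F y) := by
    intro g y
    induction y using QuotientGroup.induction_on with
    | H z =>
      change Φ (g * z) ⟨0, h.pos⟩ = Φ g (Φ z ⟨0, h.pos⟩)
      rw [map_mul, Equiv.Perm.mul_apply]
  have hFp : ∀ k, ∀ hk : k < m, F (p k) = ⟨k, hk⟩ := by
    intro k
    induction k using Nat.strong_induction_on with
    | _ k ih =>
      intro hk
      by_cases h0 : k = 0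
      · subst h0
        rw [hp0]
        change Φ 1 ⟨0, h.pos⟩ = _
        rw [map_one]
        rfl
      · obtain ⟨h1, h2, h3⟩ := h.par k hk h0
        have h4 := (hpk k hk h0).2.2
        have h5 := hx ⟨pi k, h2⟩
        simp only at h5
        rw [h4, hFs, ih (pk k) h1 (by omega), h5]
        refine Fin.ext ?_
        rw [hΦ]
        exact h3
  have hbij : Function.Bijective (fun k : Fin m => p k) := by
    constructor
    · intro a b hab
      have h1 := congrArg F hab
      simp only at h1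
      rw [hFp a a.2, hFp b b.2] at h1
      exact h1
    · intro y
      induction y using QuotientGroup.induction_on with
      | H z =>
        obtain ⟨k, hk, hk2⟩ := surj z
        refine ⟨⟨k, hk⟩, ?_⟩
        change p k = _
        rw [← hk2]
        change (QuotientGroup.mk (z * 1) : WQ M ⧸ H) = QuotientGroup.mk z
        rw [mul_one]
  have hcard : Nat.card (WQ M ⧸ H) = m := by
    rw [← Nat.card_congr (Equiv.ofBijective _ hbij), Nat.card_eq_fintype_card, Fintype.card_fin]
  rw [Subgroup.card_eq_card_quotient_mul_card_subgroup H, hcard]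
  exact Nat.mul_dvd_mul_left m (Subgroup.card_range_dvd η)

end step

/-- The trivial case. -/
theorem card_zero (M : CoxeterMatrix (Fin 0)) : Nat.card (WQ M) = 1 := by
  have h := wg_closure M
  have h1 : Set.range (wg M) = ∅ := Set.range_eq_empty _
  rw [h1, Subgroup.closure_empty] at h
  have h2 : Subsingleton (WQ M) := by
    refine ⟨fun a b => ?_⟩
    have ha : a ∈ (⊥ : Subgroup (WQ M)) := h ▸ Subgroup.mem_top a
    have hb : b ∈ (⊥ : Subgroup (WQ M)) := h ▸ Subgroup.mem_top b
    rw [Subgroup.mem_bot.1 ha, Subgroup.mem_bot.1 hb]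
  exact Nat.card_unique

/-- Universal quantifiers as a computation. -/
def allN : ℕ → (ℕ → Bool) → Bool
  | 0, _ => true
  | n + 1, f => f n && allN n f

theorem allN_iff (n : ℕ) (f : ℕ → Bool) : allN n f = true ↔ ∀ k < n, f k = true := by
  induction n with
  | zero => simp [allN]
  | succ n ih =>
    rw [allN, Bool.and_eq_true, ih]
    constructor
    · rintro ⟨h1, h2⟩ k hk
      by_cases h : k = n
      · rw [h]; exact h1
      · exact h2 k (by omega)
    · intro h
      exact ⟨h n (by omega), fun k hk => h k (by omega)⟩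

end Pool.Agent.Lib.MP_97567f_al.Pad
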